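import Mathlib

/-!
# MP_7f2998_co : the statement

Multigraphs, acyclic `T`-odd orientations, and the obstruction of the min-max theorem.
-/

namespace Pool.Agent.AOP

open Finset

/-- A finite loopless multigraph with vertex set `V` and edge set `E`: the edge `e` joins
`src e` and `tgt e` (this direction is only a reference direction). -/
structure MGraph (V E : Type*) where
  src : E → V
  tgt : E → V
  loopless : ∀ e, src e ≠ tgt e

namespace MGraph

variable {V E : Type*} (G : MGraph V E)

/-- An orientation is a function `D : E → Bool`; `e` is directed from `src e` to `tgt e` if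
`D e = true` and from `tgt e` to `src e` otherwise.  This is the head of `e`. -/
def head (D : E → Bool) (e : E) : V := if D e then G.tgt e else G.src e

/-- The tail of `e` in the orientation `D`. -/
def tail (D : E → Bool) (e : E) : V := if D e then G.src e else G.tgt e

/-- The orientation `D` has no directed cycle. -/
def Acyclic (D : E → Bool) : Prop :=
  ∀ v, ¬ Relation.TransGen (fun a b => ∃ e, G.tail D e = a ∧ G.head D e = b) v v

/-- The in-degree of `v` in `D` is odd for `v ∈ T` and even for `v ∉ T`. -/
def TOdd [Fintype E] [DecidableEq V] (D : E → Bool) (T : Finset V) : Prop :=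
  ∀ v, Odd (univ.filter (fun e => G.head D e = v)).card ↔ v ∈ T

variable [Fintype V] [Fintype E] [DecidableEq V]

/-- number of edges joining `a` and `b` -/
def mult (a b : V) : ℕ :=
  (univ.filter fun e => (G.src e = a ∧ G.tgt e = b) ∨ (G.src e = b ∧ G.tgt e = a)).card

/-- degree of `a` -/
def deg (a : V) : ℕ := (univ.filter fun e => G.src e = a ∨ G.tgt e = a).card

/-- The graph `Ĝ` on `V ∪ {s, ∞}` (`s = inr false`, `∞ = inr true`), given by edge
multiplicities (only their parities matter): `G` is kept, `s` is joined to the vertices outside
`T`, and `∞` is joined to all vertices whose degree in `G + s` is odd (so that all degrees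
of `Ĝ` are even). -/
def hat (T : Finset V) : V ⊕ Bool → V ⊕ Bool → ℕ
  | .inl a, .inl b => G.mult a b
  | .inl a, .inr false => if a ∈ T then 0 else 1
  | .inr false, .inl a => if a ∈ T then 0 else 1
  | .inl a, .inr true => G.deg a + (if a ∈ T then 0 else 1)
  | .inr true, .inl a => G.deg a + (if a ∈ T then 0 else 1)
  | .inr false, .inr true => (univ.filter fun a => a ∉ T).card
  | .inr true, .inr false => (univ.filter fun a => a ∉ T).card
  | .inr false, .inr false => 0
  | .inr true, .inr true => 0

end MGraph

open Classical in
/-- number of non-isolated vertices of a simple graph -/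
noncomputable def nvert {W : Type*} [Fintype W] (H : SimpleGraph W) : ℕ :=
  (univ.filter fun a => ∃ b, H.Adj a b).card

open Classical in
/-- number of edges of a simple graph -/
noncomputable def nedge {W : Type*} [Fintype W] (H : SimpleGraph W) : ℕ :=
  H.edgeFinset.card

open Classical in
/-- The cost of a graph with `k` non-isolated vertices and `e` edges: `(k-1)/2` if it is a
complete graph (on its non-isolated vertices), otherwise `k-2` if `k+e` is even and `k-3` if
`k+e` is odd. -/
noncomputable def cost {W : Type*} [Fintype W] (H : SimpleGraph W) : ℕ :=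
  if nedge H = (nvert H).choose 2 then (nvert H - 1) / 2
  else if Even (nvert H + nedge H) then nvert H - 2
  else nvert H - 3

open Classical in
/-- `(H i)` is an obstruction for `(G,T)`: every `H i` is a simple graph on `V ∪ {s,∞}` with all
degrees even, their sum modulo 2 is `Ĝ`, and the total cost is less than `|V|`. -/
def Obstruction {V E : Type*} [Fintype V] [Fintype E] [DecidableEq V] (G : MGraph V E)
    (T : Finset V) {m : ℕ} (H : Fin m → SimpleGraph (V ⊕ Bool)) : Prop :=
  (∀ i a, Even ((H i).degree a)) ∧
  (∀ a b, a ≠ b → (univ.filter fun i => (H i).Adj a b).card % 2 = G.hat T a b % 2) ∧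
  ∑ i, cost (H i) < Fintype.card V

/-- The min-max theorem: a good characterization of the pairs `(G,T)` such that `G` has an
acyclic `T`-odd orientation. -/
def MinMax : Prop :=
  ∀ (V E : Type) [Fintype V] [Fintype E] [DecidableEq V] (G : MGraph V E) (T : Finset V),
    ((∃ D : E → Bool, G.Acyclic D ∧ G.TOdd D T) →
      ¬ ∃ (m : ℕ) (H : Fin m → SimpleGraph (V ⊕ Bool)), Obstruction G T H) ∧
    ((¬ ∃ D : E → Bool, G.Acyclic D ∧ G.TOdd D T) →
      ∃ (m : ℕ) (H : Fin m → SimpleGraph (V ⊕ Bool)), m < Fintype.card V ∧ Obstruction G T H)

end Pool.Agent.AOP
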