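import Pool.Agent.Lib.MP_7f2998_co.Spec
import Pool.Agent.Lib.MP_7f2998_co.FinalDefs

section
/-!
# MP_7f2998_co : FINAL, part 1: cost and tau
-/
set_option linter.unusedSectionVars false

namespace Pool.Agent.AOP

open Finset

section
variable {W : Type*} [Fintype W] [DecidableEq W]

/-- The simple graph of an Eulerian graph modulo 2. -/
def toSG (G : EG W) : SimpleGraph W where
  Adj a b := adj G a b = 1
  symm := ⟨fun a b h => by rw [adj_comm]; exact h⟩
  loopless := ⟨fun a h => by simp at h⟩

theorem toSG_adj (G : EG W) (a b : W) : (toSG G).Adj a b ↔ adj G a b = 1 := Iff.rfl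

theorem zmod2_cases (g : ZMod 2) : g = 0 ∨ g = 1 := by
  revert g; decide

/-- parity of the number of neighbours before `y` -/
def bd (G : EG W) (r : W → ℕ) (y : W) : ZMod 2 :=
  ∑ u ∈ univ.filter (fun u => r u < r y), adj G y u

/-- the odd set of an order -/
def Od (G : EG W) (r : W → ℕ) : Finset W := univ.filter fun y => bd G r y = 1

theorem mem_Od {G : EG W} {r : W → ℕ} {y : W} : y ∈ Od G r ↔ bd G r y = 1 := by
  simp [Od]

theorem feas_Od (G : EG W) {r : W → ℕ} (hr : Function.Injective r) : Feas G (Od G r) :=
  ⟨r, hr, fun y hy => mem_Od.1 hy⟩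

theorem nvert_toSG (G : EG W) : nvert (toSG G) = (supp G).card := by
  unfold nvert supp
  congr 1
  ext a
  simp [toSG_adj]

theorem mem_supp' {G : EG W} {a : W} : a ∈ supp G ↔ ∃ b, adj G a b = 1 := by
  simp [supp]

theorem cast_card_filter (s : Finset W) (f : W → ZMod 2) :
    ((s.filter fun a => f a = 1).card : ZMod 2) = ∑ a ∈ s, f a := by
  rw [Finset.card_filter, Nat.cast_sum]
  refine Finset.sum_congr rfl fun a _ => ?_
  rcases zmod2_cases (f a) with h | h <;> simp [h]

open Classical in
theorem nedge_parity (G : EG W) {r : W → ℕ} (hr : Function.Injective r) :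
    ((nedge (toSG G) : ℕ) : ZMod 2) = ∑ y, bd G r y := by
  have h1 : (nedge (toSG G)) =
      ((univ : Finset (W × W)).filter fun p => r p.2 < r p.1 ∧ adj G p.1 p.2 = 1).card := by
    unfold nedge
    symm
    refine Finset.card_bij (fun p _ => s(p.1, p.2)) ?_ ?_ ?_
    · rintro ⟨a, b⟩ h
      simp only [mem_filter, mem_univ, true_and] at h
      simp only [SimpleGraph.mem_edgeFinset, SimpleGraph.mem_edgeSet]
      exact h.2
    · rintro ⟨a, b⟩ h ⟨c, d⟩ h' heq
      simp only [mem_filter, mem_univ, true_and] at h h'
      simp only [Sym2.eq_iff] at heq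
      rcases heq with ⟨rfl, rfl⟩ | ⟨rfl, rfl⟩
      · rfl
      · omega
    · intro e he
      induction e using Sym2.ind with
      | _ a b =>
        simp only [SimpleGraph.mem_edgeFinset, SimpleGraph.mem_edgeSet] at he
        have hab : a ≠ b := he.ne
        have hr' : r a ≠ r b := fun h => hab (hr h)
        rcases lt_or_gt_of_ne hr' with h | h
        · exact ⟨(b, a), by
            have he' : adj G a b = 1 := he
            rw [adj_comm] at he'
            simp [h, he'], Sym2.eq_swap⟩
        · exact ⟨(a, b), by
            have he' : adj G a b = 1 := he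
            simp [h, he'], rfl⟩
  rw [h1, Finset.card_filter, Nat.cast_sum]
  rw [← Finset.univ_product_univ, Finset.sum_product]
  refine Finset.sum_congr rfl fun y _ => ?_
  unfold bd
  rw [Finset.sum_filter]
  refine Finset.sum_congr rfl fun u _ => ?_
  rcases zmod2_cases (adj G y u) with h | h <;> by_cases h' : r u < r y <;> simp [h, h']

theorem card_Od_parity (G : EG W) {r : W → ℕ} (hr : Function.Injective r) :
    (Od G r).card % 2 = nedge (toSG G) % 2 := by
  have h1 : (((Od G r).card : ℕ) : ZMod 2) = ((nedge (toSG G) : ℕ) : ZMod 2) := by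
    rw [nedge_parity G hr]
    exact cast_card_filter univ (bd G r)
  exact (ZMod.natCast_eq_natCast_iff' _ _ _).1 h1

theorem tau_parity (hC : CombSpec W) (G : EG W) : tau G % 2 = nedge (toSG G) % 2 := by
  obtain ⟨Y, ⟨r, hr, hY⟩, hc⟩ := hC.exists_feas G
  have h1 : Y ⊆ Od G r := fun y hy => mem_Od.2 (hY y hy)
  have h2 := hC.card_le_tau G _ (feas_Od G hr)
  have h3 := Finset.card_le_card h1
  rw [← card_Od_parity G hr]
  congr 1
  omega

open Classical in
/-- complete case -/
theorem eq_kd_of_complete (G : EG W) (h : nedge (toSG G) = (nvert (toSG G)).choose 2) :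
    G = 0 ∨ (Odd (supp G).card ∧ G = kd (supp G)) := by
  rw [nvert_toSG] at h
  by_cases h0 : (supp G) = ∅
  · left
    apply EG_ext
    intro a b
    rcases zmod2_cases (adj G a b) with h1 | h1
    · simp [h1]
    · exfalso
      have : a ∈ supp G := mem_supp'.2 ⟨b, h1⟩
      rw [h0] at this
      simp at this
  right
  have hsub : (toSG G).edgeFinset ⊆ (supp G).offDiag.image Sym2.mk.uncurry := by
    intro e he
    induction e using Sym2.ind with
    | _ a b =>
      simp only [SimpleGraph.mem_edgeFinset, SimpleGraph.mem_edgeSet] at he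
      rw [Finset.mem_image]
      refine ⟨(a, b), ?_, rfl⟩
      rw [Finset.mem_offDiag]
      refine ⟨mem_supp'.2 ⟨b, he⟩, mem_supp'.2 ⟨a, ?_⟩, he.ne⟩
      rw [adj_comm]; exact he
  have hcard : ((supp G).offDiag.image Sym2.mk.uncurry).card ≤ (toSG G).edgeFinset.card := by
    have h1 : ((supp G).offDiag.image Sym2.mk.uncurry).card = (supp G).card.choose 2 :=
      Sym2.card_image_offDiag _
    rw [h1, ← h]
    exact le_of_eq rfl
  have heq := Finset.eq_of_subset_of_card_le hsub hcard
  have hall : ∀ a ∈ supp G, ∀ b ∈ supp G, a ≠ b → adj G a b = 1 := by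
    intro a ha b hb hab
    have : s(a, b) ∈ (toSG G).edgeFinset := by
      rw [heq, Finset.mem_image]
      exact ⟨(a, b), Finset.mem_offDiag.2 ⟨ha, hb, hab⟩, rfl⟩
    rw [SimpleGraph.mem_edgeFinset, SimpleGraph.mem_edgeSet] at this
    exact this
  have hadj : ∀ a b, adj G a b = if a ∈ supp G ∧ b ∈ supp G ∧ a ≠ b then 1 else 0 := by
    intro a b
    split_ifs with hh
    · exact hall a hh.1 b hh.2.1 hh.2.2
    · rcases zmod2_cases (adj G a b) with h1 | h1
      · exact h1
      · exfalso
        apply hh
        refine ⟨mem_supp'.2 ⟨b, h1⟩, mem_supp'.2 ⟨a, by rw [adj_comm]; exact h1⟩, ?_⟩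
        rintro rfl
        simp at h1
  have hodd : Odd (supp G).card := by
    obtain ⟨a, ha⟩ := Finset.nonempty_iff_ne_empty.2 h0
    have h1 := sum_adj G a
    have h2 : ∑ u, adj G a u = (((supp G).erase a).card : ZMod 2) := by
      have h3 : ∀ u, adj G a u = if u ∈ (supp G).erase a then 1 else 0 := by
        intro u
        rw [hadj]
        congr 1
        apply propext
        rw [Finset.mem_erase]
        constructor
        · rintro ⟨_, h5, h6⟩; exact ⟨h6.symm, h5⟩
        · rintro ⟨h5, h6⟩; exact ⟨ha, h6, h5.symm⟩
      simp only [h3, Finset.sum_ite_mem, Finset.univ_inter, Finset.sum_const, nsmul_eq_mul,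
        mul_one]
    rw [h2] at h1
    have h4 : 2 ∣ ((supp G).erase a).card := (ZMod.natCast_eq_zero_iff _ _).1 h1
    rw [Finset.card_erase_of_mem ha] at h4
    have h5 : 0 < (supp G).card := Finset.card_pos.2 ⟨a, ha⟩
    rw [Nat.odd_iff]
    omega
  refine ⟨hodd, ?_⟩
  apply EG_ext
  intro a b
  rw [hadj]
  simp only [kd, dif_pos hodd]
  rfl

theorem toSG_zero : toSG (0 : EG W) = ⊥ := by
  ext a b
  simp [toSG_adj]

theorem nvert_zero : nvert (toSG (0 : EG W)) = 0 := by
  rw [nvert_toSG]
  simp [supp]

/-- `tau G ≤ cost G` -/
theorem tau_le_cost (hC : CombSpec W)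
    (hkd : ∀ D : Finset W, Odd D.card → 2 * tau (kd D) + 1 = D.card) (G : EG W) :
    tau G ≤ cost (toSG G) := by
  unfold cost
  split_ifs with h1 h2
  · rcases eq_kd_of_complete G h1 with h0 | ⟨hodd, heq⟩
    · subst h0
      rw [hC.tau_zero]
      exact Nat.zero_le _
    · have := hkd _ hodd
      rw [← heq] at this
      rw [nvert_toSG]
      omega
  · have hG : G ≠ 0 := by
      rintro rfl
      apply h1
      rw [nvert_zero]
      unfold nedge
      simp [toSG_zero]
    have := hC.tau_supp G hG
    rw [nvert_toSG]
    omega
  · have hG : G ≠ 0 := by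
      rintro rfl
      apply h1
      rw [nvert_zero]
      unfold nedge
      simp [toSG_zero]
    have h3 := hC.tau_supp G hG
    have h4 := tau_parity hC G
    rw [nvert_toSG] at *
    rw [Nat.even_iff] at h2
    omega

/-- irreducible graphs have `cost ≤ tau` -/
theorem cost_le_tau (hC : CombSpec W)
    (hkd : ∀ D : Finset W, Odd D.card → 2 * tau (kd D) + 1 = D.card)
    (J : EG W)
    (hcl : (∃ D : Finset W, Odd D.card ∧ J = kd D) ∨ (supp J).card = tau J + 3) :
    cost (toSG J) ≤ tau J := by
  classical
  unfold cost
  split_ifs with h1 h2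
  · rcases eq_kd_of_complete J h1 with h0 | ⟨hodd, heq⟩
    · subst h0
      rw [nvert_zero]
      simp
    · have := hkd _ hodd
      rw [← heq] at this
      rw [nvert_toSG]
      omega
  all_goals
    rcases hcl with ⟨D, hD, rfl⟩ | h3
    · exfalso
      apply h1
      -- the clique is complete
      have hadj : ∀ a b, adj (kd D) a b = if a ∈ D ∧ b ∈ D ∧ a ≠ b then 1 else 0 := by
        intro a b
        simp only [kd, dif_pos hD]
        rfl
      by_cases hD1 : D.card = 1
      · obtain ⟨c, rfl⟩ := Finset.card_eq_one.1 hD1
        have h0 : kd ({c} : Finset W) = 0 := by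
          apply EG_ext
          intro a b
          rw [hadj, zero_adj, if_neg]
          rintro ⟨ha, hb, hab⟩
          rw [Finset.mem_singleton] at ha hb
          exact hab (ha.trans hb.symm)
        rw [h0, nvert_zero]
        unfold nedge
        simp [toSG_zero]
      have hD2 : 1 < D.card := by
        rcases hD with ⟨k, hk⟩
        omega
      have hs : supp (kd D) = D := by
        ext a
        rw [mem_supp']
        constructor
        · rintro ⟨b, hb⟩
          rw [hadj] at hb
          by_contra ha
          rw [if_neg (fun h => ha h.1)] at hb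
          exact absurd hb (by decide)
        · intro ha
          obtain ⟨b, hb, hab⟩ := Finset.exists_mem_ne hD2 a
          exact ⟨b, by rw [hadj, if_pos ⟨ha, hb, hab.symm⟩]⟩
      rw [nvert_toSG, hs]
      unfold nedge
      have : (toSG (kd D)).edgeFinset = D.offDiag.image Sym2.mk.uncurry := by
        ext e
        induction e using Sym2.ind with
        | _ a b =>
          rw [SimpleGraph.mem_edgeFinset, SimpleGraph.mem_edgeSet, toSG_adj, hadj,
            Finset.mem_image]
          constructor
          · intro h
            by_cases hh : a ∈ D ∧ b ∈ D ∧ a ≠ b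
            · exact ⟨(a, b), Finset.mem_offDiag.2 hh, rfl⟩
            · rw [if_neg hh] at h
              exact absurd h (by decide)
          · rintro ⟨⟨c, d⟩, hcd, heq⟩
            rw [Finset.mem_offDiag] at hcd
            have heq' : s(c, d) = s(a, b) := heq
            rw [Sym2.eq_iff] at heq'
            rcases heq' with ⟨rfl, rfl⟩ | ⟨rfl, rfl⟩
            · rw [if_pos hcd]
            · rw [if_pos ⟨hcd.2.1, hcd.1, hcd.2.2.symm⟩]
      rw [this]
      exact Sym2.card_image_offDiag _
    · have h4 := tau_parity hC J
      rw [nvert_toSG] at *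
      rw [Nat.even_iff] at h2
      omega

end

end Pool.Agent.AOP
end

section
/-!
# MP_7f2998_co : FINAL, part 2: orientations and orders
-/
set_option linter.unusedSectionVars false

namespace Pool.Agent.AOP

open Finset

namespace MGraph

variable {V E : Type*} [Fintype V] [Fintype E] [DecidableEq V] (G : MGraph V E)

theorem mult_comm (a b : V) : G.mult a b = G.mult b a := by
  unfold mult
  congr 1
  ext e
  simp only [mem_filter, mem_univ, true_and]
  exact or_comm

theorem mult_self (a : V) : G.mult a a = 0 := by
  unfold mult
  rw [Finset.card_eq_zero, Finset.filter_eq_empty_iff]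
  rintro e _ (⟨h1, h2⟩ | ⟨h1, h2⟩) <;> exact G.loopless e (h1.trans h2.symm)

/-- sums of multiplicities count edges -/
theorem sum_mult (v : V) (P : V → Prop) [DecidablePred P] :
    ∑ a ∈ univ.filter P, G.mult v a =
      (univ.filter fun e => (G.src e = v ∧ P (G.tgt e)) ∨ (G.tgt e = v ∧ P (G.src e))).card := by
  unfold mult
  simp only [Finset.card_filter]
  rw [Finset.sum_comm]
  refine Finset.sum_congr rfl fun e _ => ?_
  rw [Finset.sum_filter]
  by_cases h1 : G.src e = v
  · have h2 : G.tgt e ≠ v := fun h => G.loopless e (h1.trans h.symm)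
    rw [Finset.sum_eq_single (G.tgt e)]
    · simp [h1, h2]
    · intro b _ hb
      have : ¬ G.tgt e = b := fun h => hb h.symm
      simp [h1, h2, this]
    · simp
  · by_cases h2 : G.tgt e = v
    · rw [Finset.sum_eq_single (G.src e)]
      · simp [h1, h2]
      · intro b _ hb
        have : ¬ G.src e = b := fun h => hb h.symm
        simp [h1, h2, this]
      · simp
    · simp [h1, h2]

theorem sum_mult_univ (v : V) : ∑ a, G.mult v a = G.deg v := by
  have := G.sum_mult v (fun _ => True)
  simp only [Finset.filter_true, and_true] at this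
  rw [this]
  rfl

theorem sum_deg : ∑ a, G.deg a = 2 * Fintype.card E := by
  unfold deg
  simp only [Finset.card_filter]
  rw [Finset.sum_comm]
  have : ∀ e : E, ∑ a, (if G.src e = a ∨ G.tgt e = a then 1 else 0) = 2 := by
    intro e
    have h : ∀ a, (if G.src e = a ∨ G.tgt e = a then 1 else 0) =
        (if G.src e = a then 1 else 0) + (if G.tgt e = a then 1 else 0) := by
      intro a
      by_cases h1 : G.src e = a
      · have h2 : G.tgt e ≠ a := fun h => G.loopless e (h1.trans h.symm)
        simp [h1, h2]
      · simp [h1]
    simp only [h, Finset.sum_add_distrib, Finset.sum_ite_eq, Finset.mem_univ, if_true]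
  simp only [this, Finset.sum_const, Finset.card_univ, smul_eq_mul]
  ring

variable (T : Finset V)

theorem hat_comm (x y : V ⊕ Bool) : G.hat T x y = G.hat T y x := by
  rcases x with a | b <;> rcases y with c | d
  · exact G.mult_comm a c
  · cases d <;> rfl
  · cases b <;> rfl
  · cases b <;> cases d <;> rfl

theorem hat_self (x : V ⊕ Bool) : G.hat T x x = 0 := by
  rcases x with a | b
  · exact G.mult_self a
  · cases b <;> rfl

theorem two_zero : (2 : ZMod 2) = 0 := by decide

theorem hat_sum (x : V ⊕ Bool) : ∑ y, (G.hat T x y : ZMod 2) = 0 := by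
  rw [Fintype.sum_sum_type, Fintype.sum_bool]
  have hT : ∑ a : V, ((if a ∈ T then 0 else 1 : ℕ) : ZMod 2)
      = ((univ.filter fun a => a ∉ T).card : ZMod 2) := by
    rw [Finset.card_filter, Nat.cast_sum]
    refine Finset.sum_congr rfl fun a _ => ?_
    by_cases h : a ∈ T <;> simp [h]
  rcases x with a | b
  · simp only [hat]
    rw [← Nat.cast_sum, G.sum_mult_univ]
    push_cast
    ring_nf
    rw [two_zero]
    simp
  · cases b
    · simp only [hat]
      rw [hT]
      push_cast
      ring_nf
      rw [two_zero]
      simp
    · simp only [hat]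
      push_cast
      rw [Finset.sum_add_distrib, ← Nat.cast_sum, G.sum_deg]
      have : ∑ a : V, (if a ∈ T then (0 : ZMod 2) else 1)
          = ((univ.filter fun a => a ∉ T).card : ZMod 2) := by
        rw [← hT]
        refine Finset.sum_congr rfl fun a _ => ?_
        by_cases h : a ∈ T <;> simp [h]
      rw [this]
      push_cast
      ring_nf
      rw [two_zero]
      simp

/-- the Eulerian graph `Ĝ` modulo 2 -/
def hatEG : EG (V ⊕ Bool) :=
  ⟨fun x y => (G.hat T x y : ZMod 2), fun x y => congrArg _ (G.hat_comm T x y), fun x =>
    (congrArg (Nat.cast (R := ZMod 2)) (G.hat_self T x)).trans Nat.cast_zero,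
    fun x => G.hat_sum T x⟩

theorem hatEG_adj (x y : V ⊕ Bool) : adj (G.hatEG T) x y = (G.hat T x y : ZMod 2) := rfl

/-- the number of edges entering `v` when all edges point to the later vertex -/
theorem indeg_eq (r : V → ℕ) (D : E → Bool)
    (hD : ∀ e, r (G.tail D e) < r (G.head D e)) (v : V) :
    (univ.filter (fun e => G.head D e = v)).card
      = ∑ a ∈ univ.filter (fun a => r a < r v), G.mult v a := by
  rw [G.sum_mult v]
  congr 1
  ext e
  simp only [mem_filter, mem_univ, true_and]
  have h := hD e
  unfold head tail at *
  cases hDe : D e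
  · simp only [hDe, if_false, Bool.false_eq_true] at *
    constructor
    · intro h1
      exact Or.inl ⟨h1, by rw [← h1]; exact h⟩
    · rintro (⟨h1, _⟩ | ⟨h1, h2⟩)
      · exact h1
      · rw [← h1] at h2
        exact absurd (lt_trans h h2) (lt_irrefl _)
  · simp only [hDe, if_true] at *
    constructor
    · intro h1
      exact Or.inr ⟨h1, by rw [← h1]; exact h⟩
    · rintro (⟨h1, h2⟩ | ⟨h1, _⟩)
      · rw [← h1] at h2
        exact absurd (lt_trans h h2) (lt_irrefl _)
      · exact h1

/-- value of `bd` for `Ĝ` in an order in which `s` is first and `∞` is last -/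
theorem bd_hat (r : V ⊕ Bool → ℕ) (v : V) (hs : r (.inr false) < r (.inl v))
    (hi : r (.inl v) < r (.inr true)) :
    bd (G.hatEG T) r (.inl v) =
      ((∑ a ∈ univ.filter (fun a => r (.inl a) < r (.inl v)), G.mult v a : ℕ) : ZMod 2)
        + (if v ∈ T then 0 else 1) := by
  unfold bd
  rw [Finset.sum_filter, Fintype.sum_sum_type, Fintype.sum_bool]
  simp only [hatEG_adj, hat]
  rw [if_neg (by omega), if_pos hs, zero_add, Finset.sum_filter, Nat.cast_sum]
  congr 1
  · refine Finset.sum_congr rfl fun a _ => ?_
    split_ifs <;> simp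
  · split_ifs <;> simp

/-- an acyclic orientation comes from an order -/
theorem exists_order {D : E → Bool} (hD : G.Acyclic D) :
    ∃ r : V → ℕ, Function.Injective r ∧ (∀ v, r v < Fintype.card V) ∧
      ∀ e, r (G.tail D e) < r (G.head D e) := by
  classical
  let arc : V → V → Prop := fun a b => ∃ e, G.tail D e = a ∧ G.head D e = b
  have hpo : IsPartialOrder V (Relation.ReflTransGen arc) :=
    { refl := fun a => Relation.ReflTransGen.refl
      trans := fun a b c h1 h2 => h1.trans h2
      antisymm := by
        intro a b h1 h2
        by_contra hab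
        have h3 : Relation.TransGen arc a b := by
          rcases Relation.reflTransGen_iff_eq_or_transGen.1 h1 with h | h
          · exact absurd h.symm hab
          · exact h
        exact hD a (h3.trans_left h2) }
  obtain ⟨s, hs, hle⟩ := extend_partialOrder (Relation.ReflTransGen arc)
  have hrefl : ∀ a, s a a := fun a => hs.refl a
  have htrans : ∀ a b c, s a b → s b c → s a c := fun a b c => hs.trans a b c
  have hanti : ∀ a b, s a b → s b a → a = b := fun a b => hs.antisymm a b
  have htot : ∀ a b, s a b ∨ s b a := fun a b => hs.total a b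
  let r : V → ℕ := fun v => (univ.filter fun u => s u v ∧ u ≠ v).card
  have hlt : ∀ a b, s a b → a ≠ b → r a < r b := by
    intro a b hab hne
    apply Finset.card_lt_card
    rw [Finset.ssubset_iff_of_subset]
    · refine ⟨a, by simp [hab, hne], by simp⟩
    · intro u hu
      simp only [mem_filter, mem_univ, true_and] at *
      refine ⟨htrans _ _ _ hu.1 hab, ?_⟩
      rintro rfl
      exact hne (hanti _ _ hab hu.1)
  refine ⟨r, ?_, ?_, ?_⟩
  · intro a b hab
    by_contra hne
    rcases htot a b with h | h
    · have := hlt a b h hne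
      omega
    · have := hlt b a h (Ne.symm hne)
      omega
  · intro v
    apply Finset.card_lt_card
    rw [Finset.ssubset_univ_iff]
    intro h
    have : v ∈ univ.filter fun u => s u v ∧ u ≠ v := by
      rw [h]; exact mem_univ v
    simp at this
  · intro e
    apply hlt
    · exact hle _ _ (Relation.ReflTransGen.single ⟨e, rfl, rfl⟩)
    · unfold head tail
      split_ifs
      · exact G.loopless e
      · exact (G.loopless e).symm

theorem feas_of_orient {D : E → Bool} (hD : G.Acyclic D) (hT : G.TOdd D T) :
    Feas (G.hatEG T) (univ.map Function.Embedding.inl) := by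
  obtain ⟨r, hr, hlt, hD'⟩ := G.exists_order hD
  let r' : V ⊕ Bool → ℕ := fun x => match x with
    | .inl v => r v + 1
    | .inr false => 0
    | .inr true => Fintype.card V + 1
  refine ⟨r', ?_, ?_⟩
  · rintro (a | b) (c | d) h
    · simp only [r'] at h
      rw [hr (by omega : r a = r c)]
    · have := hlt a
      cases d <;> simp only [r'] at h <;> omega
    · have := hlt c
      cases b <;> simp only [r'] at h <;> omega
    · cases b <;> cases d <;> simp only [r'] at h <;> first | rfl | omega
  · intro y hy
    rw [Finset.mem_map] at hy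
    obtain ⟨v, _, rfl⟩ := hy
    have h1 := G.bd_hat T r' v (by simp [r']) (by have := hlt v; simp only [r']; omega)
    have h2 := G.indeg_eq r D hD' v
    have h3 : ∑ a ∈ univ.filter (fun a => r' (.inl a) < r' (.inl v)), G.mult v a
        = (univ.filter (fun e => G.head D e = v)).card := by
      rw [h2]
      refine Finset.sum_congr ?_ fun _ _ => rfl
      ext a
      simp [r']
    rw [h3] at h1
    have h4 := hT v
    show bd (G.hatEG T) r' (.inl v) = 1
    rw [h1]
    by_cases hv : v ∈ T
    · rw [if_pos hv, add_zero]
      have := h4.2 hv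
      obtain ⟨k, hk⟩ := this
      rw [hk]
      push_cast
      rw [two_zero]
      simp
    · rw [if_neg hv]
      have := (not_congr h4).2 hv
      rw [Nat.not_odd_iff_even] at this
      obtain ⟨k, hk⟩ := this
      rw [hk]
      push_cast
      rw [← two_mul, two_zero]
      simp

theorem orient_of_feas (h : Feas (G.hatEG T) (univ.map Function.Embedding.inl)) :
    ∃ D : E → Bool, G.Acyclic D ∧ G.TOdd D T := by
  classical
  obtain ⟨r, hr, hY⟩ := h
  have hY' : ∀ v, bd (G.hatEG T) r (.inl v) = 1 := fun v => hY _ (by simp)
  -- first and last element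
  obtain ⟨m, hm⟩ := Finite.exists_min r
  obtain ⟨M, hM⟩ := Finite.exists_max r
  have hm1 : ∀ v, m ≠ .inl v := by
    rintro v rfl
    have h1 := hY' v
    unfold bd at h1
    rw [Finset.sum_eq_zero] at h1
    · exact absurd h1 (by decide)
    · intro u hu
      simp only [mem_filter, mem_univ, true_and] at hu
      exact absurd (hm u) (not_le.2 hu)
  have hM1 : ∀ v, M ≠ .inl v := by
    rintro v rfl
    have h1 := hY' v
    unfold bd at h1
    have h2 := sum_adj (G.hatEG T) (.inl v)
    rw [← Finset.add_sum_erase _ _ (Finset.mem_univ (Sum.inl v : V ⊕ Bool)), adj_self,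
      zero_add] at h2
    have h3 : univ.filter (fun u => r u < r (.inl v)) = univ.erase (Sum.inl v : V ⊕ Bool) := by
      ext u
      simp only [mem_filter, mem_univ, true_and, mem_erase, and_true]
      constructor
      · rintro hu rfl
        exact lt_irrefl _ hu
      · intro hu
        exact lt_of_le_of_ne (hM u) (fun h => hu (hr h))
    rw [h3, h2] at h1
    exact absurd h1 (by decide)
  -- it suffices to have an order with `s` first and `∞` last
  have key : ∀ r : V ⊕ Bool → ℕ, Function.Injective r →
      (∀ v, bd (G.hatEG T) r (.inl v) = 1) → (∀ v, r (.inr false) < r (.inl v)) →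
      (∀ v, r (.inl v) < r (.inr true)) → ∃ D : E → Bool, G.Acyclic D ∧ G.TOdd D T := by
    intro r hr hY hs hi
    let D : E → Bool := fun e => decide (r (.inl (G.src e)) < r (.inl (G.tgt e)))
    have hne : ∀ e, r (.inl (G.src e)) ≠ r (.inl (G.tgt e)) := by
      intro e h
      exact G.loopless e (Sum.inl_injective (hr h))
    have hD : ∀ e, r (.inl (G.tail D e)) < r (.inl (G.head D e)) := by
      intro e
      unfold head tail
      by_cases h : r (.inl (G.src e)) < r (.inl (G.tgt e))
      · have : D e = true := by simp [D, h]
        simp [this, h]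
      · have : D e = false := by simp [D, h]
        simp only [this, Bool.false_eq_true, if_false]
        have := hne e
        omega
    refine ⟨D, ?_, ?_⟩
    · intro v hv
      have : ∀ a b, Relation.TransGen (fun a b => ∃ e, G.tail D e = a ∧ G.head D e = b) a b →
          r (.inl a) < r (.inl b) := by
        intro a b h
        induction h with
        | single h =>
          obtain ⟨e, rfl, rfl⟩ := h
          exact hD e
        | tail _ h ih =>
          obtain ⟨e, rfl, rfl⟩ := h
          exact lt_trans ih (hD e)
      exact lt_irrefl _ (this v v hv)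
    · intro v
      have h1 := G.bd_hat T r v (hs v) (hi v)
      have h2 := G.indeg_eq (fun a => r (.inl a)) D hD v
      rw [← h2, hY v] at h1
      by_cases hv : v ∈ T
      · rw [if_pos hv, add_zero] at h1
        refine ⟨fun _ => hv, fun _ => ?_⟩
        rw [← Nat.not_even_iff_odd]
        intro h3
        obtain ⟨k, hk⟩ := h3
        rw [hk] at h1
        push_cast at h1
        rw [← two_mul, two_zero] at h1
        simp at h1
      · rw [if_neg hv] at h1
        refine ⟨fun h3 => ?_, fun h3 => absurd h3 hv⟩
        obtain ⟨k, hk⟩ := h3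
        rw [hk] at h1
        push_cast at h1
        rw [two_zero] at h1
        simp at h1
  have hmM : m ≠ M := by
    rintro rfl
    have h1 : r (.inr false) = r (.inr true) := by
      have a1 := hm (.inr false)
      have a2 := hm (.inr true)
      have a3 := hM (.inr false)
      have a4 := hM (.inr true)
      omega
    have := hr h1
    simp at this
  rcases m with a | b
  · exact absurd rfl (hm1 a)
  rcases M with c | d
  · exact absurd rfl (hM1 c)
  cases b
  · cases d
    · exact absurd rfl hmM
    · refine key r hr hY' (fun v => ?_) (fun v => ?_)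
      · refine lt_of_le_of_ne (hm _) fun h => ?_
        have := hr h
        simp at this
      · refine lt_of_le_of_ne (hM _) fun h => ?_
        have := hr h
        simp at this
  · cases d
    · -- reverse the order
      let r' : V ⊕ Bool → ℕ := fun x => r (.inr false) - r x
      have hr'lt : ∀ x y, r' x < r' y ↔ r y < r x := by
        intro x y
        have h1 := hM x
        have h2 := hM y
        simp only [r']
        omega
      have hr'inj : Function.Injective r' := by
        intro x y h
        apply hr
        have h1 := hM x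
        have h2 := hM y
        simp only [r'] at h
        omega
      refine key r' hr'inj (fun v => ?_) (fun v => ?_) (fun v => ?_)
      · have h1 := hY' v
        have h2 := sum_adj (G.hatEG T) (.inl v)
        have h3 : ∑ u, adj (G.hatEG T) (.inl v) u
            = bd (G.hatEG T) r (.inl v) + bd (G.hatEG T) r' (.inl v) := by
          unfold bd
          rw [Finset.sum_filter, Finset.sum_filter, ← Finset.sum_add_distrib]
          refine Finset.sum_congr rfl fun u _ => ?_
          by_cases huv : u = .inl v
          · subst huv
            simp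
          · have hne : r u ≠ r (.inl v) := fun h => huv (hr h)
            have hiff := hr'lt u (.inl v)
            rcases lt_or_gt_of_ne hne with h | h
            · have h' : ¬ r' u < r' (.inl v) := by rw [hiff]; omega
              rw [if_pos h, if_neg h', add_zero]
            · have h' : ¬ r u < r (.inl v) := by omega
              have h'' : r' u < r' (.inl v) := hiff.2 h
              rw [if_neg h', if_pos h'', zero_add]
        rw [h3, h1] at h2
        rcases zmod2_cases (bd (G.hatEG T) r' (.inl v)) with h | h
        · rw [h] at h2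
          exact absurd h2 (by decide)
        · exact h
      · rw [hr'lt]
        refine lt_of_le_of_ne (hM _) fun h => ?_
        have := hr h
        simp at this
      · rw [hr'lt]
        refine lt_of_le_of_ne (hm _) fun h => ?_
        have := hr h
        simp at this
    · exact absurd rfl hmM

end MGraph

end Pool.Agent.AOP
end

section
/-!
# MP_7f2998_co : FINAL, part 3: the min-max theorem from the classification
-/
set_option linter.unusedSectionVars false

namespace Pool.Agent.AOP

open Finset

section
variable {W : Type*} [Fintype W] [DecidableEq W]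

open Classical in
theorem even_degree_iff (H : SimpleGraph W) (a : W) :
    Even (H.degree a) ↔ ((univ.filter fun b => H.Adj a b).card : ZMod 2) = 0 := by
  rw [ZMod.natCast_eq_zero_iff, even_iff_two_dvd, ← SimpleGraph.card_neighborFinset_eq_degree]
  have : H.neighborFinset a = univ.filter fun b => H.Adj a b := by
    ext b
    simp
  rw [this]

open Classical in
/-- the Eulerian graph modulo 2 of a simple graph with even degrees -/
noncomputable def ofSG (H : SimpleGraph W) (h : ∀ a, Even (H.degree a)) : EG W :=
  ⟨fun a b => if H.Adj a b then 1 else 0, fun a b => by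
    simp only [SimpleGraph.adj_comm], fun a => by simp, fun a => by
    have h1 := (even_degree_iff H a).1 (h a)
    rw [Finset.card_filter, Nat.cast_sum] at h1
    refine Eq.trans (Finset.sum_congr rfl fun b _ => ?_) h1
    by_cases hb : H.Adj a b <;> simp [hb]⟩

open Classical in
theorem ofSG_adj (H : SimpleGraph W) (h : ∀ a, Even (H.degree a)) (a b : W) :
    adj (ofSG H h) a b = if H.Adj a b then 1 else 0 := rfl

open Classical in
theorem toSG_ofSG (H : SimpleGraph W) (h : ∀ a, Even (H.degree a)) : toSG (ofSG H h) = H := by
  ext a b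
  rw [toSG_adj, ofSG_adj]
  by_cases hb : H.Adj a b <;> simp [hb]

open Classical in
theorem even_degree_toSG (G : EG W) (a : W) : Even ((toSG G).degree a) := by
  rw [even_degree_iff]
  have h1 : (univ.filter fun b => (toSG G).Adj a b) = univ.filter fun b => adj G a b = 1 := by
    ext b
    simp [toSG_adj]
  rw [h1, cast_card_filter]
  exact sum_adj G a

theorem sum_adj_apply {ι : Type*} (s : Finset ι) (F : ι → EG W) (a b : W) :
    adj (∑ i ∈ s, F i) a b = ∑ i ∈ s, adj (F i) a b := by
  classical
  induction s using Finset.induction_on with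
  | empty => simp
  | insert i s hi ih => rw [Finset.sum_insert hi, Finset.sum_insert hi, add_adj, ih]

theorem tau_sum_le (hC : CombSpec W) {ι : Type*} (s : Finset ι) (F : ι → EG W) :
    tau (∑ i ∈ s, F i) ≤ ∑ i ∈ s, tau (F i) := by
  classical
  induction s using Finset.induction_on with
  | empty => simp [hC.tau_zero]
  | insert i s hi ih =>
    rw [Finset.sum_insert hi, Finset.sum_insert hi]
    exact (hC.tau_add_le _ _).trans (Nat.add_le_add_left ih _)

/-- what is needed from the algebraic part -/
structure FinalHyp (W : Type*) [Fintype W] [DecidableEq W] : Prop where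
  comb : CombSpec W
  pair : ∀ (G : EG W) (a b : W), Indep G {a, b}
  decomp : ∀ G : EG W, ∃ l : List (EG W), (∀ J ∈ l, Irr J ∧ Tight G J) ∧ l.sum = G ∧
    (l.map tau).sum = tau G
  tau_kd : ∀ D : Finset W, Odd D.card → 2 * tau (kd D) + 1 = D.card
  cls : ∀ J : EG W, Irr J → (∃ D : Finset W, Odd D.card ∧ J = kd D) ∨
    (supp J).card = tau J + 3

end

namespace MGraph

variable {V E : Type*} [Fintype V] [Fintype E] [DecidableEq V] (G : MGraph V E) (T : Finset V)

theorem tau_lt_of_obstruction (hF : FinalHyp (V ⊕ Bool)) {m : ℕ}
    {H : Fin m → SimpleGraph (V ⊕ Bool)} (h : Obstruction G T H) :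
    tau (G.hatEG T) < Fintype.card V := by
  classical
  obtain ⟨h1, h2, h3⟩ := h
  have h1' : ∀ i a, Even ((H i).degree a) := by
    intro i a
    convert h1 i a
  have hsum : G.hatEG T = ∑ i, ofSG (H i) (h1' i) := by
    apply EG_ext
    intro a b
    rw [sum_adj_apply, hatEG_adj]
    by_cases hab : a = b
    · subst hab
      rw [G.hat_self T]
      simp
    · have h4 := h2 a b hab
      have h5 : (((univ.filter fun i => (H i).Adj a b).card : ℕ) : ZMod 2)
          = ((G.hat T a b : ℕ) : ZMod 2) := by
        rw [ZMod.natCast_eq_natCast_iff']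
        convert h4
      rw [← h5, Finset.card_filter, Nat.cast_sum]
      refine Finset.sum_congr rfl fun i _ => ?_
      rw [ofSG_adj]
      by_cases hb : (H i).Adj a b <;> simp [hb]
  rw [hsum]
  refine lt_of_le_of_lt (tau_sum_le hF.comb _ _) (lt_of_le_of_lt ?_ h3)
  refine Finset.sum_le_sum fun i _ => ?_
  have := tau_le_cost hF.comb hF.tau_kd (ofSG (H i) (h1' i))
  rwa [toSG_ofSG] at this

theorem obstruction_of_tau_lt (hF : FinalHyp (V ⊕ Bool))
    (h : tau (G.hatEG T) < Fintype.card V) :
    ∃ (m : ℕ) (H : Fin m → SimpleGraph (V ⊕ Bool)), m < Fintype.card V ∧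
      Obstruction G T H := by
  classical
  obtain ⟨l, h1, h2, h3⟩ := hF.decomp (G.hatEG T)
  have hlen : l.length ≤ (l.map tau).sum := by
    clear h2 h3
    induction l with
    | nil => simp
    | cons J l ih =>
      have h4 := ih fun J' hJ' => h1 J' (List.mem_cons_of_mem _ hJ')
      have h5 := hF.comb.tau_pos J ((h1 J List.mem_cons_self).1.1)
      simp only [List.map_cons, List.sum_cons, List.length_cons]
      omega
  refine ⟨l.length, fun i => toSG (l.get i), by omega, ?_, ?_, ?_⟩
  · intro i a
    convert even_degree_toSG (l.get i) a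
  · intro a b _
    have h4 : (((univ.filter fun i => (toSG (l.get i)).Adj a b).card : ℕ) : ZMod 2)
        = ((G.hat T a b : ℕ) : ZMod 2) := by
      have h5 : (univ.filter fun i => (toSG (l.get i)).Adj a b)
          = univ.filter fun i => adj (l.get i) a b = 1 := by
        ext i
        simp only [mem_filter, mem_univ, true_and]
        rfl
      rw [h5, cast_card_filter, ← hatEG_adj, ← sum_adj_apply]
      congr 1
      rw [← h2]
      exact (Fin.sum_univ_getElem l)
    rw [ZMod.natCast_eq_natCast_iff'] at h4
    convert h4
  · refine lt_of_le_of_lt ?_ h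
    rw [← h3]
    have h4 : (l.map tau).sum = ∑ i : Fin l.length, tau (l.get i) := by
      rw [← Fin.sum_univ_getElem]
      simp only [List.getElem_map, List.get_eq_getElem]
      refine Fintype.sum_equiv (finCongr (by simp)) _ _ fun i => ?_
      simp
    rw [h4]
    refine Finset.sum_le_sum fun i _ => ?_
    have hi : l.get i ∈ l := List.get_mem l i
    exact cost_le_tau hF.comb hF.tau_kd _ (hF.cls _ (h1 _ hi).1)

theorem card_le_tau_iff (hF : FinalHyp (V ⊕ Bool)) :
    Fintype.card V ≤ tau (G.hatEG T) ↔ ∃ D : E → Bool, G.Acyclic D ∧ G.TOdd D T := by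
  classical
  constructor
  · intro h
    apply G.orient_of_feas T
    obtain ⟨Y, hY1, hY2, hY3⟩ := hF.pair (G.hatEG T) (.inr false) (.inr true)
    have hsub : Y ⊆ univ.map Function.Embedding.inl := by
      intro y hy
      rcases y with v | b
      · simp
      · exfalso
        have := Finset.disjoint_left.1 hY1 hy
        cases b <;> simp at this
    have heq : Y = univ.map Function.Embedding.inl := by
      apply Finset.eq_of_subset_of_card_le hsub
      rw [Finset.card_map, Finset.card_univ, hY2]
      exact h
    rw [← heq]
    exact hY3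
  · rintro ⟨D, hD, hT⟩
    have h1 := hF.comb.card_le_tau _ _ (G.feas_of_orient T hD hT)
    rwa [Finset.card_map, Finset.card_univ] at h1

/-- The min-max theorem from the algebraic part. -/
theorem minMax_of (hF : FinalHyp (V ⊕ Bool)) :
    ((∃ D : E → Bool, G.Acyclic D ∧ G.TOdd D T) →
      ¬ ∃ (m : ℕ) (H : Fin m → SimpleGraph (V ⊕ Bool)), Obstruction G T H) ∧
    ((¬ ∃ D : E → Bool, G.Acyclic D ∧ G.TOdd D T) →
      ∃ (m : ℕ) (H : Fin m → SimpleGraph (V ⊕ Bool)), m < Fintype.card V ∧
        Obstruction G T H) := by
  constructor
  · intro h1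
    rintro ⟨m, H, h2⟩
    have h3 := (G.card_le_tau_iff T hF).2 h1
    have h4 := G.tau_lt_of_obstruction T hF h2
    omega
  · intro h1
    rw [← G.card_le_tau_iff T hF, not_le] at h1
    exact G.obstruction_of_tau_lt T hF h1

end MGraph

end Pool.Agent.AOP
end
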