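import Pool.Agent.Lib.MP_7f2998_co.Spec

section
/-!
# MP_7f2998_co : module COMB

Elementary combinatorics of linear orders: `CombSpec V`.
-/
namespace Pool.Agent.AOP

open Finset Matrix

namespace Cmb

set_option linter.unusedSectionVars false

variable {V : Type*} [Fintype V] [DecidableEq V]

theorem z2_cases (a : ZMod 2) : a = 0 ∨ a = 1 := by
  revert a; decide

theorem z2_ne_one {a : ZMod 2} (h : a ≠ 1) : a = 0 := (z2_cases a).resolve_right h

theorem mem_nb_iff (G : EG V) (s u : V) : u ∈ nb G s ↔ adj G s u = 1 := by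
  simp [nb]

theorem mem_supp_iff (G : EG V) (v : V) : v ∈ supp G ↔ ∃ u, adj G v u = 1 := by
  simp [supp]

theorem adj_of_not_mem_supp (G : EG V) {v : V} (hv : v ∉ supp G) (u : V) : adj G v u = 0 := by
  apply z2_ne_one
  intro h
  exact hv ((mem_supp_iff G v).2 ⟨u, h⟩)

theorem mem_supp_right (G : EG V) {u v : V} (h : adj G u v = 1) : v ∈ supp G :=
  (mem_supp_iff G v).2 ⟨u, by rw [adj_comm]; exact h⟩

/-- back-degree of `y` modulo 2 -/
def back (G : EG V) (r : V → ℕ) (y : V) : ZMod 2 :=
  ∑ u ∈ univ.filter (fun u => r u < r y), adj G y u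

theorem back_eq_ite (G : EG V) (r : V → ℕ) (y : V) :
    back G r y = ∑ u, if r u < r y then adj G y u else 0 := by
  unfold back
  rw [Finset.sum_filter]

theorem feas_def (G : EG V) (Y : Finset V) :
    Feas G Y ↔ ∃ r : V → ℕ, Function.Injective r ∧ ∀ y ∈ Y, back G r y = 1 := Iff.rfl

theorem back_add (G H : EG V) (r : V → ℕ) (y : V) :
    back (G + H) r y = back G r y + back H r y := by
  unfold back
  simp only [add_adj, Finset.sum_add_distrib]

theorem exists_inj_nat (V : Type*) [Fintype V] : ∃ r : V → ℕ, Function.Injective r := by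
  classical
  exact ⟨fun v => (Fintype.equivFin V v : ℕ), fun a b h =>
    (Fintype.equivFin V).injective (Fin.ext h)⟩

theorem comb_feas_empty (G : EG V) : Feas G ∅ := by
  obtain ⟨r, hr⟩ := exists_inj_nat V
  exact ⟨r, hr, by simp⟩

theorem comb_feas_mono (G : EG V) (Y Y' : Finset V) (h : Y ⊆ Y') (hf : Feas G Y') :
    Feas G Y := by
  obtain ⟨r, hr, hy⟩ := hf
  exact ⟨r, hr, fun y hyY => hy y (h hyY)⟩

theorem exists_back_nb (G : EG V) (r : V → ℕ) (y : V) (h : back G r y = 1) :
    ∃ u, r u < r y ∧ adj G y u = 1 := by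
  by_contra hcon
  push Not at hcon
  have : back G r y = 0 := by
    unfold back
    refine Finset.sum_eq_zero fun u hu => ?_
    rw [Finset.mem_filter] at hu
    exact z2_ne_one (hcon u hu.2)
  rw [this] at h
  exact zero_ne_one h

theorem comb_feas_supp (G : EG V) (Y : Finset V) (hf : Feas G Y) : Y ⊆ supp G := by
  obtain ⟨r, hr, hy⟩ := hf
  intro y hyY
  obtain ⟨u, _, hu⟩ := exists_back_nb G r y (hy y hyY)
  exact (mem_supp_iff G y).2 ⟨u, hu⟩

/-- entries of the contraction in a row `y ≠ u, v` -/
theorem contr_adj_of_ne {v u : V} (h : v ≠ u) (G : EG V) {y : V} (hyv : y ≠ v) (hyu : y ≠ u)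
    (w : V) : adj (contr v u G) y w
      = (if w = v then 0 else adj G y w) + (if w = u then adj G y v else 0) := by
  rw [contr_adj h]
  by_cases hw : w = v
  · subst hw
    simp [h]
  · by_cases hyw : y = w
    · subst hyw
      simp [hyu, hw]
    · simp [hyw, hyv, hyu, hw]

/-- entries of the contraction in the row `u` -/
theorem contr_adj_left {v u : V} (h : v ≠ u) (G : EG V) (w : V) :
    adj (contr v u G) u w
      = (if w = v then 0 else adj G u w) + (if w = u then 0 else adj G v w) := by
  rw [contr_adj h]
  by_cases hw : w = v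
  · subst hw
    simp
  · by_cases hwu : w = u
    · subst hwu
      simp
    · simp [hw, hwu, Ne.symm hwu, h.symm]

theorem contr_adj_v {v u : V} (h : v ≠ u) (G : EG V) (w : V) :
    adj (contr v u G) v w = 0 := by
  rw [contr_adj h]
  simp

theorem not_mem_supp_contr {v u : V} (h : v ≠ u) (G : EG V) : v ∉ supp (contr v u G) := by
  intro hv
  obtain ⟨w, hw⟩ := (mem_supp_iff _ _).1 hv
  rw [contr_adj_v h] at hw
  exact zero_ne_one hw

theorem comb_supp_contr (G : EG V) (v u : V) (h : v ≠ u) :
    supp (contr v u G) ⊆ insert u ((supp G).erase v) := by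
  intro x hx
  by_cases hxu : x = u
  · rw [hxu]; exact Finset.mem_insert_self _ _
  · have hxv : x ≠ v := fun e => not_mem_supp_contr h G (e ▸ hx)
    refine Finset.mem_insert_of_mem (Finset.mem_erase.2 ⟨hxv, ?_⟩)
    by_contra hns
    obtain ⟨w, hw⟩ := (mem_supp_iff _ _).1 hx
    rw [contr_adj_of_ne h G hxv hxu] at hw
    simp only [adj_of_not_mem_supp G hns, ite_self, add_zero] at hw
    exact zero_ne_one hw

theorem comb_contr_eq_self (G : EG V) (v u : V) (hv : v ∉ supp G) : contr v u G = G := by
  apply EG_ext
  intro x y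
  by_cases hvu : v = u
  · subst hvu
    unfold contr
    rw [push_adj]
    have : Function.update (id : V → V) v v = id := Function.update_eq_self v id
    simp only [this, id_eq]
    by_cases hxy : x = y
    · simp [hxy]
    · rw [if_neg hxy, Finset.sum_eq_single x, Finset.sum_eq_single y]
      · simp
      · intro b _ hb; rw [if_neg]; rintro ⟨_, h⟩; exact hb h
      · simp
      · intro a _ ha
        refine Finset.sum_eq_zero fun b _ => ?_
        rw [if_neg]; rintro ⟨h, _⟩; exact ha h
      · simp
  · rw [contr_adj hvu]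
    have h0 := adj_of_not_mem_supp G hv
    have h0' : ∀ x, adj G x v = 0 := fun x => by rw [adj_comm]; exact h0 x
    by_cases hxy : x = y
    · subst hxy; simp
    · by_cases hxv : x = v
      · subst hxv; simp [h0]
      · by_cases hyv : y = v
        · subst hyv; simp [h0']
        · simp [hxy, hxv, hyv, h0, h0']

/-- the same order works for the contraction of the first vertex into an earlier neighbour -/
theorem back_contr_same {v u : V} (h : v ≠ u) (G : EG V) (r : V → ℕ) {y : V} (hyv : y ≠ v)
    (hyu : y ≠ u) (hu : r u < r y) (hv : r v < r y) :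
    back (contr v u G) r y = back G r y := by
  rw [back_eq_ite, back_eq_ite]
  have e : ∀ w, (if r w < r y then adj (contr v u G) y w else 0)
      = (if w = v then 0 else if r w < r y then adj G y w else 0)
        + (if w = u then adj G y v else 0) := by
    intro w
    rw [contr_adj_of_ne h G hyv hyu]
    by_cases hwv : w = v
    · subst hwv
      simp [h]
    · by_cases hwu : w = u
      · subst hwu
        simp [hu, hwv]
      · by_cases hlt : r w < r y
        · simp [hwu, hwv]
        · simp [hwu, hlt]
  simp only [e, Finset.sum_add_distrib, Finset.sum_ite_eq', Finset.mem_univ, if_true]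
  rw [← Finset.add_sum_erase univ (fun w => if r w < r y then adj G y w else 0)
    (Finset.mem_univ v), ← Finset.add_sum_erase univ
    (fun w => if w = v then 0 else if r w < r y then adj G y w else 0) (Finset.mem_univ v)]
  have e2 : ∑ x ∈ univ.erase v, (if x = v then 0 else if r x < r y then adj G y x else 0)
      = ∑ x ∈ univ.erase v, (if r x < r y then adj G y x else 0) := by
    refine Finset.sum_congr rfl fun x hx => ?_
    rw [if_neg (Finset.ne_of_mem_erase hx)]
  simp only [e2, if_true, zero_add, hv]
  ring

theorem comb_feas_step (G : EG V) (Y : Finset V) (hf : Feas G Y) (hne : Y.Nonempty) :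
    ∃ v ∈ Y, ∃ u, adj G v u = 1 ∧ Feas (contr v u G) (Y.erase v) := by
  obtain ⟨r, hr, hy⟩ := hf
  obtain ⟨v, hvY, hmin⟩ := Finset.exists_min_image Y r hne
  obtain ⟨u, hur, hu⟩ := exists_back_nb G r v (hy v hvY)
  have hvu : v ≠ u := by
    rintro rfl
    exact lt_irrefl _ hur
  refine ⟨v, hvY, u, hu, r, hr, fun y hyY => ?_⟩
  rw [Finset.mem_erase] at hyY
  have hvy : r v < r y := lt_of_le_of_ne (hmin y hyY.2) (fun e => hyY.1 (hr e).symm)
  have hyu : y ≠ u := by
    rintro rfl
    exact absurd (hmin y hyY.2) (not_le.2 hur)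
  have := back_contr_same hvu G r hyY.1 hyu (hur.trans hvy) hvy
  unfold back at this
  rw [this]
  exact hy y hyY.2

/-- the new order: `v` is placed next to `u` -/
def nord (r : V → ℕ) (v u : V) (e : ℕ) (w : V) : ℕ := if w = v then 3 * r u + e else 3 * r w + 1

theorem nord_inj (r : V → ℕ) (hr : Function.Injective r) (v u : V) (e : ℕ)
    (he : e = 0 ∨ e = 2) : Function.Injective (nord r v u e) := by
  intro a b hab
  unfold nord at hab
  by_cases ha : a = v
  · by_cases hb : b = v
    · rw [ha, hb]
    · simp only [ha, hb, if_true, if_false] at hab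
      exfalso
      rcases he with rfl | rfl <;> omega
  · by_cases hb : b = v
    · simp only [ha, hb, if_true, if_false] at hab
      exfalso
      rcases he with rfl | rfl <;> omega
    · simp only [ha, hb, if_false] at hab
      exact hr (by omega)

theorem back_nord_of_ne {v u : V} (h : v ≠ u) (G : EG V) (r : V → ℕ)
    (hr : Function.Injective r) (e : ℕ) (he : e = 0 ∨ e = 2) {y : V} (hyv : y ≠ v)
    (hyu : y ≠ u) : back G (nord r v u e) y = back (contr v u G) r y := by
  rw [back_eq_ite, back_eq_ite]
  have hne : r u ≠ r y := fun e => hyu (hr e).symm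
  have e1 : ∀ w, (if r w < r y then adj (contr v u G) y w else 0)
      = (if w = v then 0 else if r w < r y then adj G y w else 0)
        + (if w = u then (if r u < r y then adj G y v else 0) else 0) := by
    intro w
    rw [contr_adj_of_ne h G hyv hyu]
    by_cases hwv : w = v
    · subst hwv
      simp [h]
    · by_cases hwu : w = u
      · subst hwu
        by_cases hlt : r w < r y
        · simp [hwv, hlt]
        · simp [hlt]
      · by_cases hlt : r w < r y
        · simp [hwu, hwv]
        · simp [hwu, hlt]
  have e2 : ∀ w, (if nord r v u e w < nord r v u e y then adj G y w else 0)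
      = (if w = v then 0 else if r w < r y then adj G y w else 0)
        + (if w = v then (if r u < r y then adj G y v else 0) else 0) := by
    intro w
    by_cases hwv : w = v
    · subst hwv
      simp only [nord, if_true, if_neg hyv, zero_add]
      have : (3 * r u + e < 3 * r y + 1) ↔ r u < r y := by
        rcases he with rfl | rfl <;> omega
      simp only [this]
    · simp only [nord, if_neg hwv, if_neg hyv, add_zero]
      have : (3 * r w + 1 < 3 * r y + 1) ↔ r w < r y := by omega
      simp only [this]
  simp only [e1, e2, Finset.sum_add_distrib, Finset.sum_ite_eq', Finset.mem_univ, if_true]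

/-- the neighbours of `x` before `u`, without `v` -/
def bef (G : EG V) (r : V → ℕ) (v u x : V) : ZMod 2 :=
  ∑ w, if w = v then 0 else if r w < r u then adj G x w else 0

theorem back_contr_u {v u : V} (h : v ≠ u) (G : EG V) (r : V → ℕ) :
    back (contr v u G) r u = bef G r v u u + bef G r v u v := by
  rw [back_eq_ite]
  unfold bef
  rw [← Finset.sum_add_distrib]
  refine Finset.sum_congr rfl fun w _ => ?_
  rw [contr_adj_left h]
  by_cases hwv : w = v
  · subst hwv
    simp [h]
  · by_cases hwu : w = u
    · subst hwu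
      simp
    · by_cases hlt : r w < r u
      · simp [hwv, hwu, hlt]
      · simp [hlt]

theorem back_nord_v {v u : V} (h : v ≠ u) (G : EG V) (r : V → ℕ)
    (hr : Function.Injective r) (e : ℕ) (he : e = 0 ∨ e = 2) :
    back G (nord r v u e) v = bef G r v u v + (if e = 2 then adj G v u else 0) := by
  rw [back_eq_ite]
  unfold bef
  have e1 : ∀ w, (if nord r v u e w < nord r v u e v then adj G v w else 0)
      = (if w = v then 0 else if r w < r u then adj G v w else 0)
        + (if w = u then (if e = 2 then adj G v u else 0) else 0) := by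
    intro w
    by_cases hwv : w = v
    · subst hwv
      simp [h]
    · by_cases hwu : w = u
      · subst hwu
        simp only [nord, if_neg hwv, if_true]
        rcases he with rfl | rfl
        · simp
        · simp
      · have hne : r w ≠ r u := fun e => hwu (hr e)
        simp only [nord, if_neg hwv, if_true, if_neg hwu, add_zero]
        have : (3 * r w + 1 < 3 * r u + e) ↔ r w < r u := by
          rcases he with rfl | rfl <;> omega
        simp only [this]
  simp only [e1, Finset.sum_add_distrib, Finset.sum_ite_eq', Finset.mem_univ, if_true]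

theorem back_nord_u {v u : V} (h : v ≠ u) (G : EG V) (r : V → ℕ)
    (_hr : Function.Injective r) (e : ℕ) (he : e = 0 ∨ e = 2) :
    back G (nord r v u e) u = bef G r v u u + (if e = 0 then adj G v u else 0) := by
  rw [back_eq_ite]
  unfold bef
  have e1 : ∀ w, (if nord r v u e w < nord r v u e u then adj G u w else 0)
      = (if w = v then 0 else if r w < r u then adj G u w else 0)
        + (if w = v then (if e = 0 then adj G v u else 0) else 0) := by
    intro w
    by_cases hwv : w = v
    · subst hwv
      simp only [nord, if_true, if_neg h.symm, zero_add]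
      rw [adj_comm G u w]
      rcases he with rfl | rfl
      · simp
      · simp
    · simp only [nord, if_neg hwv, if_neg h.symm, add_zero]
      have : (3 * r w + 1 < 3 * r u + 1) ↔ r w < r u := by omega
      simp only [this]
  simp only [e1, Finset.sum_add_distrib, Finset.sum_ite_eq', Finset.mem_univ, if_true]

theorem comb_feas_of_contr (G : EG V) (Y : Finset V) (v u : V) (hv : v ∈ Y)
    (huv : adj G v u = 1) (hf : Feas (contr v u G) (Y.erase v)) : Feas G Y := by
  have hvu : v ≠ u := by
    rintro rfl
    rw [adj_self] at huv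
    exact zero_ne_one huv
  obtain ⟨r, hr, hy⟩ := hf
  have hy' : ∀ y ∈ Y.erase v, back (contr v u G) r y = 1 := hy
  rcases z2_cases (bef G r v u v) with hb | hb
  · refine ⟨nord r v u 2, nord_inj r hr v u 2 (Or.inr rfl), fun y hyY => ?_⟩
    change back G (nord r v u 2) y = 1
    by_cases hyv : y = v
    · subst hyv
      rw [back_nord_v hvu G r hr 2 (Or.inr rfl), hb, huv]
      simp
    · by_cases hyu : y = u
      · subst hyu
        rw [back_nord_u hvu G r hr 2 (Or.inr rfl)]
        have := hy' y (Finset.mem_erase.2 ⟨hyv, hyY⟩)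
        rw [back_contr_u hvu, hb, add_zero] at this
        rw [this]
        simp
      · rw [back_nord_of_ne hvu G r hr 2 (Or.inr rfl) hyv hyu]
        exact hy' y (Finset.mem_erase.2 ⟨hyv, hyY⟩)
  · refine ⟨nord r v u 0, nord_inj r hr v u 0 (Or.inl rfl), fun y hyY => ?_⟩
    change back G (nord r v u 0) y = 1
    by_cases hyv : y = v
    · subst hyv
      rw [back_nord_v hvu G r hr 0 (Or.inl rfl), hb]
      simp
    · by_cases hyu : y = u
      · subst hyu
        rw [back_nord_u hvu G r hr 0 (Or.inl rfl)]
        have := hy' y (Finset.mem_erase.2 ⟨hyv, hyY⟩)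
        rw [back_contr_u hvu, hb] at this
        rw [huv, if_pos rfl]
        exact this
      · rw [back_nord_of_ne hvu G r hr 0 (Or.inl rfl) hyv hyu]
        exact hy' y (Finset.mem_erase.2 ⟨hyv, hyY⟩)

theorem comb_card_le_tau (G : EG V) (Y : Finset V) (hf : Feas G Y) : Y.card ≤ tau G := by
  classical
  unfold tau
  exact Finset.le_sup (f := Finset.card) (by simp [hf])

theorem comb_exists_feas (G : EG V) : ∃ Y : Finset V, Feas G Y ∧ Y.card = tau G := by
  classical
  have hne : (univ.powerset.filter (fun Y : Finset V => Feas G Y)).Nonempty :=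
    ⟨∅, by simp [comb_feas_empty]⟩
  obtain ⟨Y, hY, hYc⟩ := Finset.exists_mem_eq_sup _ hne Finset.card
  refine ⟨Y, (Finset.mem_filter.1 hY).2, ?_⟩
  unfold tau
  rw [← hYc]

theorem comb_tau_zero : tau (0 : EG V) = 0 := by
  obtain ⟨Y, hY, hYc⟩ := comb_exists_feas (0 : EG V)
  have : Y ⊆ supp (0 : EG V) := comb_feas_supp _ _ hY
  have hs : supp (0 : EG V) = ∅ := by
    ext v
    simp [supp]
  rw [hs, Finset.subset_empty] at this
  rw [← hYc, this, Finset.card_empty]

theorem exists_edge (G : EG V) (h : G ≠ 0) : ∃ v u, adj G v u = 1 := by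
  by_contra hcon
  push Not at hcon
  exact h (EG_ext fun u v => z2_ne_one (hcon u v))

theorem comb_tau_pos (G : EG V) (h : G ≠ 0) : 1 ≤ tau G := by
  obtain ⟨v, u, huv⟩ := exists_edge G h
  have : Feas G {v} := by
    refine comb_feas_of_contr G {v} v u (Finset.mem_singleton_self v) huv ?_
    simp only [Finset.erase_singleton]
    exact comb_feas_empty _
  simpa using comb_card_le_tau G {v} this

theorem comb_tau_supp (G : EG V) (h : G ≠ 0) : tau G + 2 ≤ (supp G).card := by
  obtain ⟨Y, ⟨r, hr, hy⟩, hYc⟩ := comb_exists_feas G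
  have hy' : ∀ y ∈ Y, back G r y = 1 := hy
  have hYs : Y ⊆ supp G := comb_feas_supp G Y ⟨r, hr, hy⟩
  obtain ⟨v, u, huv⟩ := exists_edge G h
  have hne : (supp G).Nonempty := ⟨v, (mem_supp_iff G v).2 ⟨u, huv⟩⟩
  obtain ⟨a, ha, hamin⟩ := Finset.exists_min_image (supp G) r hne
  obtain ⟨b, hb, hbmax⟩ := Finset.exists_max_image (supp G) r hne
  have haY : a ∉ Y := by
    intro haY
    obtain ⟨w, hw1, hw2⟩ := exists_back_nb G r a (hy' a haY)
    exact absurd (hamin w (mem_supp_right G hw2)) (not_le.2 hw1)
  have hbY : b ∉ Y := by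
    intro hbY
    have h1 := hy' b hbY
    have h2 : back G r b = ∑ w, adj G b w := by
      rw [back_eq_ite]
      refine Finset.sum_congr rfl fun w _ => ?_
      by_cases hlt : r w < r b
      · rw [if_pos hlt]
      · rw [if_neg hlt]
        by_cases hwb : w = b
        · subst hwb; simp
        · symm
          apply z2_ne_one
          intro hadj
          have := hbmax w (mem_supp_right G hadj)
          exact hwb (hr (le_antisymm this (not_lt.1 hlt)))
    rw [h2, sum_adj] at h1
    exact zero_ne_one h1
  have hab : a ≠ b := by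
    rintro rfl
    obtain ⟨w, hw⟩ := (mem_supp_iff G a).1 ha
    have h1 := hamin w (mem_supp_right G hw)
    have h2 := hbmax w (mem_supp_right G hw)
    have : w = a := hr (le_antisymm h2 h1)
    rw [this, adj_self] at hw
    exact zero_ne_one hw
  have hsub : insert a (insert b Y) ⊆ supp G := by
    intro x hx
    simp only [Finset.mem_insert] at hx
    rcases hx with rfl | rfl | hx
    · exact ha
    · exact hb
    · exact hYs hx
  have := Finset.card_le_card hsub
  rw [Finset.card_insert_of_notMem, Finset.card_insert_of_notMem hbY, hYc] at this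
  · omega
  · simp only [Finset.mem_insert, not_or]
    exact ⟨hab, haY⟩

/-- odd set of an order -/
def oddset (G : EG V) (r : V → ℕ) : Finset V := univ.filter (fun y => back G r y = 1)

theorem feas_oddset (G : EG V) (r : V → ℕ) (hr : Function.Injective r) :
    Feas G (oddset G r) := ⟨r, hr, fun y hy => by
      simp only [oddset, Finset.mem_filter] at hy
      exact hy.2⟩

theorem oddset_card_le (G : EG V) (r : V → ℕ) (hr : Function.Injective r) :
    (oddset G r).card ≤ tau G := comb_card_le_tau G _ (feas_oddset G r hr)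

theorem exists_oddset (G : EG V) : ∃ r : V → ℕ, Function.Injective r ∧
    (oddset G r).card = tau G := by
  obtain ⟨Y, ⟨r, hr, hy⟩, hYc⟩ := comb_exists_feas G
  refine ⟨r, hr, le_antisymm (oddset_card_le G r hr) ?_⟩
  rw [← hYc]
  refine Finset.card_le_card fun y hyY => ?_
  simp only [oddset, Finset.mem_filter, Finset.mem_univ, true_and]
  exact hy y hyY

theorem comb_tau_add_le (G H : EG V) : tau (G + H) ≤ tau G + tau H := by
  obtain ⟨r, hr, hc⟩ := exists_oddset (G + H)
  rw [← hc]
  have hsub : oddset (G + H) r ⊆ oddset G r ∪ oddset H r := by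
    intro y hy
    simp only [oddset, Finset.mem_filter, Finset.mem_univ, true_and, Finset.mem_union] at hy ⊢
    rw [back_add] at hy
    by_contra hcon
    push Not at hcon
    rw [z2_ne_one hcon.1, z2_ne_one hcon.2, add_zero] at hy
    exact zero_ne_one hy
  calc (oddset (G + H) r).card ≤ (oddset G r ∪ oddset H r).card := Finset.card_le_card hsub
    _ ≤ (oddset G r).card + (oddset H r).card := Finset.card_union_le _ _
    _ ≤ tau G + tau H := Nat.add_le_add (oddset_card_le G r hr) (oddset_card_le H r hr)

theorem comb_tau_contr_le (G : EG V) (v u : V) (hvu : v ≠ u) :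
    tau (contr v u G) + (if adj G v u = 1 then 1 else 0) ≤ tau G := by
  obtain ⟨Y, ⟨r, hr, hy⟩, hYc⟩ := comb_exists_feas (contr v u G)
  have hy' : ∀ y ∈ Y, back (contr v u G) r y = 1 := hy
  have hvY : v ∉ Y := fun h => not_mem_supp_contr hvu G (comb_feas_supp _ _ ⟨r, hr, hy⟩ h)
  by_cases huv : adj G v u = 1
  · rw [if_pos huv, ← hYc, ← Finset.card_insert_of_notMem hvY]
    refine comb_card_le_tau G _ (comb_feas_of_contr G _ v u (Finset.mem_insert_self v Y) huv ?_)
    rw [Finset.erase_insert hvY]
    exact ⟨r, hr, hy⟩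
  · rw [if_neg huv, add_zero, ← hYc]
    have hadj : adj G v u = 0 := z2_ne_one huv
    have hi := nord_inj r hr v u 0 (Or.inl rfl)
    by_cases huY : u ∈ Y
    · have h1 := hy' u huY
      rw [back_contr_u hvu] at h1
      rcases z2_cases (bef G r v u v) with hb | hb
      · refine comb_card_le_tau G Y ⟨nord r v u 0, hi, fun y hyY => ?_⟩
        change back G (nord r v u 0) y = 1
        have hyv : y ≠ v := fun e => hvY (e ▸ hyY)
        by_cases hyu : y = u
        · subst hyu
          rw [back_nord_u hvu G r hr 0 (Or.inl rfl), hadj]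
          rw [hb, add_zero] at h1
          rw [h1]
          simp
        · rw [back_nord_of_ne hvu G r hr 0 (Or.inl rfl) hyv hyu]
          exact hy' y hyY
      · have hvE : v ∉ Y.erase u := fun h => hvY (Finset.mem_of_mem_erase h)
        have hcard : (insert v (Y.erase u)).card = Y.card := by
          rw [Finset.card_insert_of_notMem hvE, Finset.card_erase_of_mem huY]
          have : 0 < Y.card := Finset.card_pos.2 ⟨u, huY⟩
          omega
        rw [← hcard]
        refine comb_card_le_tau G _ ⟨nord r v u 0, hi, fun y hyY => ?_⟩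
        change back G (nord r v u 0) y = 1
        rw [Finset.mem_insert] at hyY
        rcases hyY with rfl | hyY
        · rw [back_nord_v hvu G r hr 0 (Or.inl rfl), hb]
          simp
        · rw [Finset.mem_erase] at hyY
          have hyv : y ≠ v := fun e => hvY (e ▸ hyY.2)
          rw [back_nord_of_ne hvu G r hr 0 (Or.inl rfl) hyv hyY.1]
          exact hy' y hyY.2
    · refine comb_card_le_tau G Y ⟨nord r v u 0, hi, fun y hyY => ?_⟩
      change back G (nord r v u 0) y = 1
      have hyv : y ≠ v := fun e => hvY (e ▸ hyY)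
      have hyu : y ≠ u := fun e => huY (e ▸ hyY)
      rw [back_nord_of_ne hvu G r hr 0 (Or.inl rfl) hyv hyu]
      exact hy' y hyY

/-- sum of a symmetric function with zero diagonal -/
theorem sum_symm_zero (c : V → V → ZMod 2) (hs : ∀ u v, c u v = c v u) (hd : ∀ v, c v v = 0) :
    ∑ u, ∑ v, c u v = 0 := by
  have h : ∀ s : Finset V, ∑ a ∈ s, ∑ b ∈ s, c a b = 0 := by
    intro s
    induction s using Finset.induction_on with
    | empty => simp
    | insert x s hx ih =>
      rw [Finset.sum_insert hx]
      simp only [Finset.sum_insert hx, Finset.sum_add_distrib, ih, hd, zero_add, add_zero]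
      have : ∑ a ∈ s, c a x = ∑ a ∈ s, c x a := Finset.sum_congr rfl fun a _ => hs a x
      rw [this, zmod2_add_self]
  exact h univ

/-- total parity of an order -/
theorem sum_back_indep (G : EG V) (r r' : V → ℕ) (hr : Function.Injective r)
    (hr' : Function.Injective r') : ∑ y, back G r y = ∑ y, back G r' y := by
  have h0 : ∑ y, back G r y + ∑ y, back G r' y = 0 := by
    simp only [back_eq_ite, ← Finset.sum_add_distrib]
    refine sum_symm_zero (fun y w => (if r w < r y then adj G y w else 0)
      + (if r' w < r' y then adj G y w else 0)) ?_ ?_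
    · intro u v
      by_cases huv : u = v
      · rw [huv]
      · have h1 : r u ≠ r v := fun e => huv (hr e)
        have h2 : r' u ≠ r' v := fun e => huv (hr' e)
        rw [adj_comm G v u]
        rcases lt_or_gt_of_ne h1 with h1 | h1 <;> rcases lt_or_gt_of_ne h2 with h2 | h2 <;>
          simp [h1, h2, not_lt.2 h1.le, not_lt.2 h2.le, zmod2_add_self]
    · intro v; simp
  have : ∑ y, back G r y = -∑ y, back G r' y := eq_neg_of_add_eq_zero_left h0
  rw [this, ZMod.neg_eq_self_mod_two]

theorem oddset_card_cast (G : EG V) (r : V → ℕ) :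
    ((oddset G r).card : ZMod 2) = ∑ y, back G r y := by
  unfold oddset
  rw [Finset.card_filter, Nat.cast_sum]
  refine Finset.sum_congr rfl fun y _ => ?_
  rcases z2_cases (back G r y) with h | h
  · rw [h]; simp
  · rw [h]; simp

theorem sum_back_tri (D : Finset V) (hD : D.card = 3) (r : V → ℕ) (hr : Function.Injective r) :
    ∑ y, back (kd D) r y = 1 := by
  obtain ⟨a, b, c, hab, hac, hbc, rfl⟩ := Finset.card_eq_three.1 hD
  have hodd : Odd ({a, b, c} : Finset V).card := by rw [hD]; decide
  have hadj : ∀ x y, adj (kd ({a, b, c} : Finset V)) x y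
      = if x ∈ ({a, b, c} : Finset V) ∧ y ∈ ({a, b, c} : Finset V) ∧ x ≠ y then 1 else 0 := by
    intro x y
    unfold kd
    rw [dif_pos hodd]
    rfl
  have e : ∑ y, back (kd ({a, b, c} : Finset V)) r y
      = ∑ y ∈ ({a, b, c} : Finset V), ∑ u ∈ ({a, b, c} : Finset V),
          (if r u < r y then (1 : ZMod 2) else 0) := by
    simp only [back_eq_ite, hadj]
    rw [← Finset.sum_subset (Finset.subset_univ ({a, b, c} : Finset V))]
    · refine Finset.sum_congr rfl fun y hy => ?_
      rw [← Finset.sum_subset (Finset.subset_univ ({a, b, c} : Finset V))]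
      · refine Finset.sum_congr rfl fun u hu => ?_
        by_cases hlt : r u < r y
        · have : y ≠ u := by rintro rfl; exact lt_irrefl _ hlt
          simp [hlt, hy, hu, this, -Finset.mem_insert]
        · simp [hlt]
      · intro u _ hu
        simp [hu, -Finset.mem_insert]
    · intro y _ hy
      simp [hy, -Finset.mem_insert]
  rw [e]
  have h1 : r a ≠ r b := fun e => hab (hr e)
  have h2 : r a ≠ r c := fun e => hac (hr e)
  have h3 : r b ≠ r c := fun e => hbc (hr e)
  have ha : a ∉ ({b, c} : Finset V) := by simp [hab, hac]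
  have hb : b ∉ ({c} : Finset V) := by simp [hbc]
  simp only [Finset.sum_insert ha, Finset.sum_insert hb, Finset.sum_singleton, lt_self_iff_false,
    if_false]
  rcases lt_or_gt_of_ne h1 with h1 | h1 <;> rcases lt_or_gt_of_ne h2 with h2 | h2 <;>
    rcases lt_or_gt_of_ne h3 with h3 | h3 <;>
    simp only [h1, h2, h3, not_lt.2 h1.le, not_lt.2 h2.le, not_lt.2 h3.le, if_true, if_false] <;>
    decide

theorem comb_tau_tri (G : EG V) (D : Finset V) (hD : D.card = 3) :
    tau (G + kd D) % 2 ≠ tau G % 2 := by
  obtain ⟨r, hr, hc⟩ := exists_oddset G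
  obtain ⟨r', hr', hc'⟩ := exists_oddset (G + kd D)
  intro hcon
  have h1 : ((tau (G + kd D) : ℕ) : ZMod 2) = (tau G : ZMod 2) :=
    (ZMod.natCast_eq_natCast_iff' _ _ _).2 hcon
  rw [← hc, ← hc', oddset_card_cast, oddset_card_cast, sum_back_indep _ r' r hr' hr] at h1
  simp only [back_add, Finset.sum_add_distrib, sum_back_tri D hD r hr] at h1
  have : (1 : ZMod 2) = 0 := by
    have h2 : ∑ y, back G r y + 1 = ∑ y, back G r y + 0 := by rw [h1, add_zero]
    exact add_left_cancel h2
  exact one_ne_zero this

theorem push_perm_adj (G : EG V) (σ : Equiv.Perm V) (x y : V) :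
    adj (push σ G) x y = adj G (σ.symm x) (σ.symm y) := by
  rw [push_adj]
  by_cases hxy : x = y
  · subst hxy; simp
  · rw [if_neg hxy, Finset.sum_eq_single (σ.symm x), Finset.sum_eq_single (σ.symm y)]
    · simp
    · intro b _ hb
      rw [if_neg]
      rintro ⟨_, h⟩
      exact hb (by rw [← h]; simp)
    · simp
    · intro a _ ha
      refine Finset.sum_eq_zero fun b _ => ?_
      rw [if_neg]
      rintro ⟨h, _⟩
      exact ha (by rw [← h]; simp)
    · simp

theorem comb_feas_perm (G : EG V) (σ : Equiv.Perm V) (Y : Finset V) (hf : Feas G Y) :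
    Feas (push σ G) (Y.map σ.toEmbedding) := by
  obtain ⟨r, hr, hy⟩ := hf
  refine ⟨fun v => r (σ.symm v), hr.comp σ.symm.injective, fun y hyY => ?_⟩
  obtain ⟨x, hxY, rfl⟩ := Finset.mem_map.1 hyY
  have h1 := hy x hxY
  rw [← h1]
  simp only [Equiv.coe_toEmbedding, push_perm_adj, Equiv.symm_apply_apply]
  refine Finset.sum_nbij' (fun u => σ.symm u) (fun u => σ u) ?_ ?_ ?_ ?_ ?_
  · intro u hu; simpa using hu
  · intro u hu; simpa using hu
  · intro u _; simp
  · intro u _; simp
  · intro u _; rfl

theorem comb_tau_perm (G : EG V) (σ : Equiv.Perm V) : tau (push σ G) = tau G := by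
  have key : ∀ (G : EG V) (σ : Equiv.Perm V), tau G ≤ tau (push σ G) := by
    intro G σ
    obtain ⟨Y, hY, hYc⟩ := comb_exists_feas G
    rw [← hYc, ← Finset.card_map σ.toEmbedding]
    exact comb_card_le_tau _ _ (comb_feas_perm G σ Y hY)
  refine le_antisymm ?_ (key G σ)
  have h := key (push σ G) σ.symm
  have e : push (σ.symm : V → V) (push (σ : V → V) G) = G := by
    apply EG_ext
    intro x y
    rw [push_perm_adj, push_perm_adj]
    simp
  rw [e] at h
  exact h

end Cmb

open Cmb in
theorem combSpec (V : Type*) [Fintype V] [DecidableEq V] : CombSpec V where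
  feas_empty := comb_feas_empty
  feas_mono := comb_feas_mono
  feas_supp := comb_feas_supp
  feas_step := comb_feas_step
  feas_of_contr := comb_feas_of_contr
  card_le_tau := comb_card_le_tau
  exists_feas := comb_exists_feas
  tau_zero := comb_tau_zero
  tau_pos := comb_tau_pos
  tau_supp := comb_tau_supp
  tau_add_le := comb_tau_add_le
  tau_contr_le := comb_tau_contr_le
  tau_tri := comb_tau_tri
  feas_perm := comb_feas_perm
  tau_perm := comb_tau_perm
  supp_contr := comb_supp_contr
  contr_eq_self := comb_contr_eq_self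

end Pool.Agent.AOP
end

section
/-!
# MP_7f2998_co : module MAJ
-/
namespace Pool.Agent.AOP

open Finset Matrix

section maj

variable {V : Type*} [Fintype V] [DecidableEq V]

/-- independence is inherited by subsets -/
theorem indep_mono {G : EG V} {S S' : Finset V} (h : S ⊆ S') (h' : Indep G S') :
    Indep G S := by
  obtain ⟨Y, hY, hc, hF⟩ := h'
  exact ⟨Y, Finset.disjoint_of_subset_right h hY, hc, hF⟩

theorem indep_empty (hC : CombSpec V) (G : EG V) : Indep G ∅ := by
  obtain ⟨Y, hF, hc⟩ := hC.exists_feas G
  exact ⟨Y, Finset.disjoint_empty_right _, hc, hF⟩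

theorem good_ne {G : EG V} {s x : V} (h : Good G s x) : s ≠ x := by
  rintro rfl
  have := h.1
  rw [adj_self] at this
  exact absurd this (by decide)

theorem indep_back (hC : CombSpec V) {G : EG V} {s x : V} {S : Finset V} (h : Good G s x)
    (hs : s ∉ S) (hI : Indep (contr s x G) S) : Indep G S := by
  obtain ⟨Y, hd, hc, hF⟩ := hI
  have hne := good_ne h
  have hsY : s ∉ Y := by
    intro hsY
    have h1 := hC.supp_contr G s x hne (hC.feas_supp _ _ hF hsY)
    rw [Finset.mem_insert] at h1
    rcases h1 with h1 | h1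
    · exact hne h1
    · exact (Finset.notMem_erase _ _) h1
  refine ⟨insert s Y, ?_, ?_, ?_⟩
  · rw [Finset.disjoint_insert_left]
    exact ⟨hs, hd⟩
  · rw [Finset.card_insert_of_notMem hsY, hc]
    exact h.2
  · refine hC.feas_of_contr G (insert s Y) s x (Finset.mem_insert_self _ _) h.1 ?_
    rw [Finset.erase_insert hsY]
    exact hF

variable {K : Type*} [Field K] [Algebra (ZMod 2) K]

theorem maj_aux {z : V → K} (hR : RankSpec z) (hN : CountSpec z) (G : EG V) (s : V)
    (S : Finset V) (hs : s ∈ supp G) (hsS : s ∉ S) (hI : Indep G S) :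
    ∃ A ⊆ nb G s, (nb G s).card + 2 ≤ 2 * A.card ∧
      ∀ x ∈ A, Good G s x ∧ Indep (contr s x G) S := by
  classical
  have e : Fin S.card ≃ S := S.equivFin.symm
  let y : Fin S.card → V → K := fun i a => if a = (e i : V) then 1 else 0
  have hy : ∀ (c : Fin S.card → K) (a : V), ∑ i, c i * y i a
      = if h : a ∈ S then c (e.symm ⟨a, h⟩) else 0 := by
    intro c a
    by_cases h : a ∈ S
    · rw [dif_pos h, Finset.sum_eq_single (e.symm ⟨a, h⟩)]
      · simp [y]
      · intro i _ hi
        have : ¬ a = (e i : V) := by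
          intro ha
          apply hi
          rw [Equiv.eq_symm_apply]
          exact Subtype.ext ha.symm
        simp [y, this]
      · simp
    · rw [dif_neg h]
      refine Finset.sum_eq_zero fun i _ => ?_
      have : ¬ a = (e i : V) := fun ha => h (ha ▸ (e i).2)
      simp [y, this]
  have hconst : ∀ i, Const z s (y i) := by
    intro i
    refine ⟨?_, fun a => ?_⟩
    · have : ¬ s = (e i : V) := fun h => hsS (h ▸ (e i).2)
      simp [y, this]
    · by_cases h : a = (e i : V)
      · simp [y, h]
      · simp [y, h]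
  -- independence in terms of coefficient vectors
  have key : ∀ H : EG V, Indep H S ↔
      ∀ c : Fin S.card → K, VanishOn z H (fun a => ∑ i, c i * y i a) → c = 0 := by
    intro H
    rw [hR.indep_iff H S]
    constructor
    · intro h c hc
      have h0 := h (fun a => ∑ i, c i * y i a) (fun a ha => by
        show ∑ i, c i * y i a = 0
        rw [hy, dif_neg ha]) hc
      funext i
      have h1 := congrFun h0 (e i : V)
      simp only [hy, (e i).2, dif_pos, Pi.zero_apply] at h1
      simpa using h1
    · intro h w hw hv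
      have h0 := h (fun i => w (e i)) (by
        have : (fun a => ∑ i, w (e i) * y i a) = w := by
          funext a
          rw [hy (fun i => w (e i)) a]
          by_cases ha : a ∈ S
          · rw [dif_pos ha]
            simp
          · rw [dif_neg ha, hw a ha]
        rw [this]
        exact hv)
      funext a
      by_cases ha : a ∈ S
      · have h1 := congrFun h0 (e.symm ⟨a, ha⟩)
        simpa using h1
      · exact hw a ha
  obtain ⟨A, hA, hc, h⟩ := hN.count_const G s S.card y hs hconst ((key G).1 hI)
  exact ⟨A, hA, hc, fun x hx => ⟨(h x hx).1, (key _).2 (h x hx).2⟩⟩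

/-- exchange -/
theorem augment_aux {z : V → K} (hR : RankSpec z) (G : EG V) (S S' : Finset V)
    (hS : Indep G S) (hS' : Indep G S') (hlt : S.card < S'.card) :
    ∃ a ∈ S', a ∉ S ∧ Indep G (insert a S) := by
  classical
  let N : Submodule K (V → K) := LinearMap.ker (Lm G z).mulVecLin
  let φ : V → Module.Dual K N := fun a => (LinearMap.proj a : (V → K) →ₗ[K] K).comp N.subtype
  have key : ∀ T : Finset V, Indep G T ↔ LinearIndepOn K φ (T : Set V) := by
    intro T
    rw [hR.indep_iff G T, linearIndepOn_finset_iff]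
    constructor
    · intro h c hc a ha
      have h0 := h (fun a => if a ∈ T then c a else 0) (fun a ha => by simp [ha]) (by
        intro f hf
        have h1 := congrArg (fun ψ : Module.Dual K N => ψ ⟨f, by
          show (Lm G z).mulVecLin f = 0
          exact hf⟩) hc
        simp only [LinearMap.sum_apply, LinearMap.smul_apply, LinearMap.zero_apply] at h1
        simp only [ite_mul, zero_mul]
        rw [Finset.sum_ite_mem, Finset.univ_inter]
        exact h1)
      have := congrFun h0 a
      simpa [ha] using this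
    · intro h w hw hv
      funext a
      by_cases ha : a ∈ T
      · refine h w ?_ a ha
        ext ⟨f, hf⟩
        have h1 := hv f hf
        simp only [LinearMap.sum_apply, LinearMap.smul_apply, LinearMap.zero_apply]
        rw [← h1]
        refine Finset.sum_subset (Finset.subset_univ _) fun b _ hb => ?_
        rw [hw b hb]
        simp
      · exact hw a ha
  rw [key] at hS hS'
  by_contra hcon
  push Not at hcon
  have hsub : ∀ a ∈ (S' : Set V), φ a ∈ Submodule.span K (φ '' (S : Set V)) := by
    intro a ha
    by_cases haS : a ∈ S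
    · exact Submodule.subset_span ⟨a, haS, rfl⟩
    · have h1 := hcon a ha haS
      rw [key, Finset.coe_insert, linearIndepOn_insert (by simpa using haS)] at h1
      by_contra h2
      exact h1 ⟨hS, h2⟩
  have hle : Submodule.span K (φ '' (S' : Set V)) ≤ Submodule.span K (φ '' (S : Set V)) := by
    rw [Submodule.span_le]
    rintro _ ⟨a, ha, rfl⟩
    exact hsub a ha
  have hf : ∀ T : Finset V, LinearIndepOn K φ (T : Set V) →
      Module.finrank K (Submodule.span K (φ '' (T : Set V))) = T.card := by
    intro T hT
    have h1 := finrank_span_eq_card hT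
    have h2 : Set.range (fun x : (T : Set V) => φ x) = φ '' (T : Set V) := by
      ext ψ
      constructor
      · rintro ⟨x, rfl⟩
        exact ⟨x, x.2, rfl⟩
      · rintro ⟨x, hx, rfl⟩
        exact ⟨⟨x, hx⟩, rfl⟩
    rw [h2] at h1
    simpa using h1
  have h3 := Submodule.finrank_mono hle
  rw [hf _ hS, hf _ hS'] at h3
  omega

/-- module MAJ -/
theorem majSpec {z : V → K} (hC : CombSpec V) (hR : RankSpec z) (hN : CountSpec z) :
    MajSpec V where
  maj := fun G s S hs hsS hI => maj_aux hR hN G s S hs hsS hI
  lemL := by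
    intro H s A ρ hs hA hc h
    obtain ⟨B, hB, hBc, hBg⟩ := maj_aux hR hN H s ∅ hs (Finset.notMem_empty _) (indep_empty hC H)
    have hint : (A ∩ B).Nonempty := by
      rw [← Finset.card_pos]
      have h1 := Finset.card_union_add_card_inter A B
      have h2 := Finset.card_le_card (Finset.union_subset hA hB)
      omega
    obtain ⟨x, hx⟩ := hint
    rw [Finset.mem_inter] at hx
    have h1 := h x hx.1
    have h2 := (hBg x hx.2).1.2
    omega
  back := fun G s x S hg hs hI => indep_back hC hg hs hI
  mono := fun G S S' h h' => indep_mono h h'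
  coloop := by
    rintro G S ⟨Y, hd, hc, hF⟩
    refine ⟨Y, ?_, hc, hF⟩
    rw [Finset.disjoint_union_right]
    refine ⟨hd, ?_⟩
    refine Finset.disjoint_left.2 fun a ha ha' => ?_
    exact (Finset.mem_compl.1 ha') (hC.feas_supp _ _ hF ha)
  card_le := by
    rintro G S ⟨Y, hd, hc, hF⟩
    rw [← hc, ← Finset.card_union_of_disjoint hd.symm]
    exact Finset.card_le_univ _
  augment := fun G S S' h h' hlt => augment_aux hR G S S' h h' hlt
  basis := by
    intro G
    obtain ⟨Y, hF, hc⟩ := hC.exists_feas G
    refine ⟨Yᶜ, ⟨Y, disjoint_compl_right, hc, hF⟩, ?_⟩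
    rw [← hc, add_comm]
    exact Finset.card_add_card_compl Y
  pair := by
    intro G a b
    induction hn : tau G using Nat.strong_induction_on generalizing G with
    | _ n ih =>
      by_cases hG : G = 0
      · subst hG
        exact ⟨∅, Finset.disjoint_empty_left _, by rw [hC.tau_zero]; rfl, hC.feas_empty _⟩
      · have h1 := hC.tau_pos G hG
        have h2 := hC.tau_supp G hG
        have h3 : ∃ s ∈ supp G, s ∉ ({a, b} : Finset V) := by
          by_contra hcon
          push Not at hcon
          have h4 := Finset.card_le_card (show supp G ⊆ {a, b} from hcon)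
          have h5 : ({a, b} : Finset V).card ≤ 2 := Finset.card_le_two
          omega
        obtain ⟨s, hs, hsn⟩ := h3
        obtain ⟨B, hB, hBc, hBg⟩ :=
          maj_aux hR hN G s ∅ hs (Finset.notMem_empty _) (indep_empty hC G)
        have hBne : B.Nonempty := by
          rw [← Finset.card_pos]
          omega
        obtain ⟨x, hx⟩ := hBne
        have hg := (hBg x hx).1
        refine indep_back hC hg hsn (ih (tau (contr s x G)) ?_ _ rfl)
        have := hg.2
        omega

end maj

end Pool.Agent.AOP
end

section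
/-!
# MP_7f2998_co : module GP
-/
namespace Pool.Agent.AOP

open Finset Matrix

section gp

variable {V : Type*} [Fintype V] [DecidableEq V]

namespace GPm

theorem z2 (a : ZMod 2) : a = 0 ∨ a = 1 := by
  revert a
  decide

theorem mem_nb {G : EG V} {s u : V} : u ∈ nb G s ↔ adj G s u = 1 := by
  simp [nb]

theorem mem_supp {G : EG V} {v : V} : v ∈ supp G ↔ ∃ u, adj G v u = 1 := by
  simp [supp]

theorem not_mem_supp {G : EG V} {v : V} : v ∉ supp G ↔ ∀ u, adj G v u = 0 := by
  rw [mem_supp]
  push Not
  exact ⟨fun h u => (z2 _).resolve_right (h u), fun h u hu => by simp [h u] at hu⟩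

/-- adjacency of a vertex outside the contracted edge to another such vertex -/
theorem contr_adj_out {v u : V} (h : v ≠ u) (G : EG V) {x y : V} (hxv : x ≠ v) (hxu : x ≠ u)
    (hyv : y ≠ v) (hyu : y ≠ u) : adj (contr v u G) x y = adj G x y := by
  rw [contr_adj h]
  by_cases hxy : x = y
  · subst hxy
    simp
  · simp [hxy, hxv, hxu, hyv, hyu]

theorem contr_adj_left {v u : V} (h : v ≠ u) (G : EG V) (y : V) :
    adj (contr v u G) v y = 0 := by
  rw [contr_adj h]
  simp

theorem contr_adj_right {v u : V} (h : v ≠ u) (G : EG V) (x : V) :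
    adj (contr v u G) x v = 0 := by
  rw [contr_adj h]
  simp

/-- adjacency with the target of the contraction -/
theorem contr_adj_tgt {v u : V} (h : v ≠ u) (G : EG V) {y : V} (hyv : y ≠ v) (hyu : y ≠ u) :
    adj (contr v u G) u y = adj G u y + adj G v y := by
  rw [contr_adj h]
  simp [Ne.symm hyu, hyv, hyu, h.symm]

theorem contr_adj_tgt' {v u : V} (h : v ≠ u) (G : EG V) {y : V} (hyv : y ≠ v) (hyu : y ≠ u) :
    adj (contr v u G) y u = adj G y u + adj G y v := by
  rw [adj_comm, contr_adj_tgt h G hyv hyu, adj_comm G u y, adj_comm G v y]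

/-- the inductive step for GP -/
theorem gp_step (hM : MajSpec V) {G : EG V} {v u s : V} {T : Finset V}
    (hg : Good G v u) (hsT : s ∉ T) (hsu : s ≠ u) (hsv : s ≠ v) (hI : Indep G T)
    (hw : ∃ w, adj G s w = 1 ∧ w ≠ u ∧ w ≠ v) :
    ∃ x, x ≠ u ∧ x ≠ v ∧ Good G s x ∧ Good (contr v u G) s x ∧ Indep (contr s x G) T ∧
      Good (contr s x G) v u := by
  have hvu := good_ne hg
  obtain ⟨w, hw1, hwu, hwv⟩ := hw
  have hs : s ∈ supp G := mem_supp.2 ⟨w, hw1⟩
  have hs' : s ∈ supp (contr v u G) := mem_supp.2 ⟨w, by
    rw [contr_adj_out hvu G hsv hsu hwv hwu]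
    exact hw1⟩
  obtain ⟨A, hA, hAc, hAg⟩ := hM.maj G s T hs hsT hI
  have hE : Indep (contr v u G) ∅ := by
    obtain ⟨S, hS, _⟩ := hM.basis (contr v u G)
    exact hM.mono _ _ _ (Finset.empty_subset _) hS
  obtain ⟨B, hB, hBc, hBg⟩ := hM.maj (contr v u G) s ∅ hs' (Finset.notMem_empty _) hE
  -- filters
  let P : V → Prop := fun y => y ≠ u ∧ y ≠ v
  have hPd : DecidablePred P := fun y => inferInstanceAs (Decidable (y ≠ u ∧ y ≠ v))
  have hN1 := Finset.card_filter_add_card_filter_not (s := nb G s) P
  have hN2 := Finset.card_filter_add_card_filter_not (s := nb (contr v u G) s) P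
  have hA1 := Finset.card_filter_add_card_filter_not (s := A) P
  have hB1 := Finset.card_filter_add_card_filter_not (s := B) P
  have hA2 : (A.filter (fun y => ¬ P y)).card ≤ ((nb G s).filter (fun y => ¬ P y)).card :=
    Finset.card_le_card (Finset.filter_subset_filter _ hA)
  have hB2 : (B.filter (fun y => ¬ P y)).card
      ≤ ((nb (contr v u G) s).filter (fun y => ¬ P y)).card :=
    Finset.card_le_card (Finset.filter_subset_filter _ hB)
  have hN3 : ((nb G s).filter (fun y => ¬ P y)).card ≤ 2 := by
    refine le_trans (Finset.card_le_card (t := {u, v}) ?_) Finset.card_le_two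
    intro y hy
    simp only [Finset.mem_filter, P] at hy
    simp only [Finset.mem_insert, Finset.mem_singleton]
    tauto
  have hN4 : ((nb (contr v u G) s).filter (fun y => ¬ P y)).card ≤ 1 := by
    refine le_trans (Finset.card_le_card (t := {u}) ?_) (le_of_eq (Finset.card_singleton u))
    intro y hy
    simp only [Finset.mem_filter, P] at hy
    have hyv : y ≠ v := by
      rintro rfl
      have := mem_nb.1 hy.1
      rw [contr_adj_right hvu] at this
      exact absurd this (by decide)
    simp only [Finset.mem_singleton]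
    tauto
  have hD : (nb (contr v u G) s).filter P = (nb G s).filter P := by
    ext y
    simp only [Finset.mem_filter, mem_nb, P]
    constructor
    · rintro ⟨h1, h2, h3⟩
      rw [contr_adj_out hvu G hsv hsu h3 h2] at h1
      exact ⟨h1, h2, h3⟩
    · rintro ⟨h1, h2, h3⟩
      rw [contr_adj_out hvu G hsv hsu h3 h2]
      exact ⟨h1, h2, h3⟩
  have hint : (A.filter P ∩ B.filter P).Nonempty := by
    rw [← Finset.card_pos]
    have h1 := Finset.card_union_add_card_inter (A.filter P) (B.filter P)
    have h2 : (A.filter P ∪ B.filter P).card ≤ ((nb G s).filter P).card := by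
      refine Finset.card_le_card (Finset.union_subset (Finset.filter_subset_filter _ hA) ?_)
      rw [← hD]
      exact Finset.filter_subset_filter _ hB
    rw [hD] at hN2
    omega
  obtain ⟨x, hx⟩ := hint
  simp only [Finset.mem_inter, Finset.mem_filter, P] at hx
  obtain ⟨⟨hxA, hxu, hxv⟩, hxB, _⟩ := hx
  have g1 := (hAg x hxA).1
  have g2 := (hBg x hxB).1
  have hsx := good_ne g1
  refine ⟨x, hxu, hxv, g1, g2, (hAg x hxA).2, ?_, ?_⟩
  · rw [contr_adj_out hsx G hsv.symm hxv.symm hsu.symm hxu.symm]
    exact hg.1
  · rw [← contr_comm hsv hsu hxv]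
    have h1 := g1.2
    have h2 := g2.2
    have h3 := hg.2
    omega

/-- a vertex with all neighbours in `{u, v}` is adjacent to both -/
theorem pend {G : EG V} {r u v : V} (huv : u ≠ v) (hr : r ∈ supp G)
    (h : ∀ w, adj G r w = 1 → w = u ∨ w = v) : adj G r u = 1 ∧ adj G r v = 1 := by
  have h0 := sum_adj G r
  have h1 : ∑ w, adj G r w = adj G r u + adj G r v := by
    rw [← Finset.sum_subset (Finset.subset_univ {u, v}), Finset.sum_pair huv]
    intro w _ hw
    rcases z2 (adj G r w) with h2 | h2
    · exact h2
    · exfalso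
      apply hw
      simpa using h w h2
  rw [h1] at h0
  obtain ⟨w, hw⟩ := mem_supp.1 hr
  rcases h w hw with rfl | rfl
  · refine ⟨hw, ?_⟩
    rw [hw] at h0
    rcases z2 (adj G r v) with h2 | h2
    · rw [h2] at h0
      exact absurd h0 (by decide)
    · exact h2
  · refine ⟨?_, hw⟩
    rw [hw] at h0
    rcases z2 (adj G r u) with h2 | h2
    · rw [h2] at h0
      exact absurd h0 (by decide)
    · exact h2

/-- contracting a pendant triangle does not change the later contraction -/
theorem contr_pend (hC : CombSpec V) {G : EG V} {r u v : V} (huv : u ≠ v) (hru : r ≠ u)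
    (hrv : r ≠ v) (hr : r ∈ supp G) (h : ∀ w, adj G r w = 1 → w = u ∨ w = v) :
    contr v u (contr r u G) = contr v u G := by
  obtain ⟨h1, h2⟩ := pend huv hr h
  rw [← contr_comm hrv hru huv]
  refine hC.contr_eq_self _ _ _ ?_
  rw [not_mem_supp]
  intro w
  by_cases hwv : w = v
  · subst hwv
    exact contr_adj_right huv.symm _ _
  · by_cases hwu : w = u
    · subst hwu
      rw [contr_adj_tgt' huv.symm G hrv hru, h1, h2]
      decide
    · rw [contr_adj_out huv.symm G hrv hru hwv hwu]
      rcases z2 (adj G r w) with h3 | h3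
      · exact h3
      · rcases h w h3 with h4 | h4
        · exact absurd h4 hwu
        · exact absurd h4 hwv

/-- at most one pendant triangle if `vu` is good -/
theorem pend_unique (hC : CombSpec V) {G : EG V} {r r' u v : V} (hg : Good G v u)
    (hru : r ≠ u) (hrv : r ≠ v) (hr : r ∈ supp G) (h : ∀ w, adj G r w = 1 → w = u ∨ w = v)
    (hru' : r' ≠ u) (hrv' : r' ≠ v) (hr' : r' ∈ supp G)
    (h' : ∀ w, adj G r' w = 1 → w = u ∨ w = v) : r = r' := by
  by_contra hne
  have huv : u ≠ v := (good_ne hg).symm
  obtain ⟨h1, h2⟩ := pend huv hr h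
  obtain ⟨h1', h2'⟩ := pend huv hr' h'
  -- `r'` stays pendant after the contraction of `r`
  have e1 : ∀ w, adj (contr r u G) r' w = adj G r' w := by
    intro w
    by_cases hwr : w = r
    · subst hwr
      rw [contr_adj_right hru]
      rcases z2 (adj G r' w) with h3 | h3
      · exact h3.symm
      · rcases h' w h3 with h4 | h4
        · exact absurd h4 hru
        · exact absurd h4 hrv
    · by_cases hwu : w = u
      · subst hwu
        rw [contr_adj_tgt' hru G (Ne.symm hne) hru']
        have : adj G r' r = 0 := by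
          rcases z2 (adj G r' r) with h3 | h3
          · exact h3
          · rcases h' r h3 with h4 | h4
            · exact absurd h4 hru
            · exact absurd h4 hrv
        rw [this, add_zero]
      · exact contr_adj_out hru G (Ne.symm hne) hru' hwr hwu
  have t1 := hC.tau_contr_le G r u hru
  rw [if_pos h1] at t1
  have t2 := hC.tau_contr_le (contr r u G) r' u hru'
  rw [if_pos (by rw [e1]; exact h1')] at t2
  have t3 := hC.tau_contr_le (contr r' u (contr r u G)) v u huv.symm
  have e2 : contr v u (contr r' u (contr r u G)) = contr v u G := by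
    rw [contr_pend hC huv hru' hrv' (mem_supp.2 ⟨u, by rw [e1]; exact h1'⟩)
      (fun w hw => h' w (by rw [← e1]; exact hw)), contr_pend hC huv hru hrv hr h]
  rw [e2] at t3
  have t4 := hg.2
  have t5 : tau (contr v u G) ≤ tau (contr r' u (contr r u G)) := by omega
  omega

theorem indep_of_tau_zero {G : EG V} (hC : CombSpec V) (h : tau G = 0) (S : Finset V) :
    Indep G S :=
  ⟨∅, Finset.disjoint_empty_left _, by rw [h]; rfl, hC.feas_empty _⟩

/-- the end of the induction for `gp1` -/
theorem gp1_base (hC : CombSpec V) {G : EG V} {v u : V} {S : Finset V} (hg : Good G v u)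
    (huS : u ∉ S) (hI : Indep G (insert u S))
    (hno : ∀ s ∈ supp G, s ∉ S → s ≠ u → s ≠ v → ∀ w, adj G s w = 1 → w = u ∨ w = v) :
    Indep (contr v u G) S := by
  have hvu := good_ne hg
  have huv := hvu.symm
  obtain ⟨Y, hd, hc, hF⟩ := hI
  have hYs := hC.feas_supp _ _ hF
  have hYR : ∀ y ∈ Y, y ≠ v → y ≠ u ∧ y ∈ supp G ∧
      ∀ w, adj G y w = 1 → w = u ∨ w = v := by
    intro y hy hyv
    have h1 : y ∉ insert u S := Finset.disjoint_left.1 hd hy
    rw [Finset.mem_insert, not_or] at h1
    exact ⟨h1.1, hYs hy, hno y (hYs hy) h1.2 h1.1 hyv⟩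
  have hcard : (Y.erase v).card ≤ 1 := by
    rw [Finset.card_le_one]
    intro a ha b hb
    rw [Finset.mem_erase] at ha hb
    obtain ⟨a1, a2, a3⟩ := hYR a ha.2 ha.1
    obtain ⟨b1, b2, b3⟩ := hYR b hb.2 hb.1
    exact pend_unique hC hg a1 ha.1 a2 a3 b1 hb.1 b2 b3
  by_cases ht : tau (contr v u G) = 0
  · exact indep_of_tau_zero hC ht S
  have hG2 := hg.2
  have hvY : v ∈ Y := by
    by_contra h
    rw [Finset.erase_eq_of_notMem h] at hcard
    omega
  have hYc := Finset.card_erase_add_one hvY
  have hc1 : (Y.erase v).card = 1 := by omega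
  obtain ⟨r, hrY⟩ := Finset.card_eq_one.1 hc1
  have hr0 : r ∈ Y.erase v := by rw [hrY]; exact Finset.mem_singleton_self r
  rw [Finset.mem_erase] at hr0
  obtain ⟨hrv, hrY'⟩ := hr0
  obtain ⟨hru, hrs, hrN⟩ := hYR r hrY' hrv
  have hY : Y = {v, r} := by
    rw [← Finset.insert_erase hvY, hrY]
  obtain ⟨ru, rv⟩ := pend huv hrs hrN
  have rw0 : ∀ w, w ≠ u → w ≠ v → adj G r w = 0 := by
    intro w h1 h2
    rcases z2 (adj G r w) with h3 | h3
    · exact h3
    · rcases hrN w h3 with h4 | h4
      · exact absurd h4 h1
      · exact absurd h4 h2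
  have htau2 : tau G = 2 := by omega
  have hone : (1 : ZMod 2) + 1 = 0 := by decide
  -- `u` is not isolated
  have hu : u ∈ supp (contr v u G) := by
    by_contra hu
    rw [not_mem_supp] at hu
    have tw : ∀ w, w ≠ u → w ≠ v → adj G u w = adj G v w := by
      intro w h1 h2
      have h3 := hu w
      rw [contr_adj_tgt hvu G h2 h1] at h3
      rcases z2 (adj G u w) with h4 | h4 <;> rcases z2 (adj G v w) with h5 | h5 <;>
        rw [h4, h5] at h3 ⊢
      · exact absurd h3 (by decide)
      · exact absurd h3 (by decide)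
    have t1 := hC.tau_contr_le G r u hru
    rw [if_pos ru] at t1
    have a1 : adj (contr r u G) u v = 0 := by
      rw [contr_adj_tgt hru G hrv.symm hvu, adj_comm G u v, hg.1, rv]
      exact hone
    by_cases hv : v ∈ supp (contr r u G)
    · obtain ⟨a, ha⟩ := mem_supp.1 hv
      have har : a ≠ r := by
        rintro rfl
        rw [contr_adj_right hru] at ha
        exact absurd ha (by decide)
      have hav : a ≠ v := by
        rintro rfl
        rw [adj_self] at ha
        exact absurd ha (by decide)
      have hau : a ≠ u := by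
        rintro rfl
        rw [adj_comm, a1] at ha
        exact absurd ha (by decide)
      have ha' : adj G v a = 1 := by
        rw [contr_adj_out hru G hrv.symm hvu har hau] at ha
        exact ha
      have ha2 : adj (contr r u G) u a = 1 := by
        rw [contr_adj_tgt hru G har hau, tw a hau hav, ha', rw0 a hau hav, add_zero]
      have t2 := hC.tau_contr_le (contr r u G) u a hau.symm
      rw [if_pos ha2] at t2
      have h5 : contr u a (contr r u G) ≠ 0 := by
        intro h6
        have h7 : adj (contr u a (contr r u G)) v a = 1 := by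
          rw [contr_adj_tgt' hau.symm _ hvu hav.symm, ha, adj_comm, a1, add_zero]
        rw [h6, zero_adj] at h7
        exact absurd h7 (by decide)
      have t3 := hC.tau_pos _ h5
      omega
    · rw [not_mem_supp] at hv
      have vw0 : ∀ w, w ≠ u → w ≠ r → adj G v w = 0 := by
        intro w h1 h2
        have h3 := hv w
        rwa [contr_adj_out hru G hrv.symm hvu h2 h1] at h3
      obtain ⟨x, hx, y, hxy, hF'⟩ := hC.feas_step G Y hF ⟨v, hvY⟩
      rw [hY, Finset.mem_insert, Finset.mem_singleton] at hx
      rcases hx with rfl | rfl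
      · -- `v` first
        have h1 : r ∈ supp (contr x y G) := hC.feas_supp _ _ hF' (by
          rw [Finset.mem_erase]
          exact ⟨hrv, hrY'⟩)
        revert h1
        rw [imp_false, not_mem_supp]
        have hxyne : x ≠ y := by
          rintro rfl
          rw [adj_self] at hxy
          exact absurd hxy (by decide)
        have hy : y = u ∨ y = r := by
          by_contra hcon
          rw [not_or] at hcon
          rw [vw0 y hcon.1 hcon.2] at hxy
          exact absurd hxy (by decide)
        intro w
        by_cases hwx : w = x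
        · subst hwx
          exact contr_adj_right hxyne _ _
        rcases hy with rfl | rfl
        · by_cases hwy : w = y
          · subst hwy
            rw [contr_adj_tgt' hxyne G hrv hru, ru, rv]
            exact hone
          · rw [contr_adj_out hxyne G hrv hru hwx hwy]
            exact rw0 w hwy hwx
        · by_cases hwy : w = y
          · subst hwy
            exact adj_self _ _
          · rw [contr_adj_tgt hxyne G hwx hwy]
            by_cases hwu : w = u
            · subst hwu
              rw [ru, hg.1]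
              exact hone
            · rw [rw0 w hwu hwx, vw0 w hwu hwy, add_zero]
      · -- `r` first
        have h1 : v ∈ supp (contr x y G) := hC.feas_supp _ _ hF' (by
          rw [Finset.mem_erase]
          exact ⟨hrv.symm, hvY⟩)
        revert h1
        rw [imp_false]
        rcases hrN y hxy with rfl | rfl
        · rw [not_mem_supp]
          exact hv
        · rw [not_mem_supp]
          intro w
          by_cases hwx : w = x
          · subst hwx
            exact contr_adj_right hrv _ _
          by_cases hwy : w = y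
          · subst hwy
            exact adj_self _ _
          rw [contr_adj_tgt hrv G hwx hwy]
          by_cases hwu : w = u
          · subst hwu
            rw [ru, hg.1]
            exact hone
          · rw [rw0 w hwu hwy, vw0 w hwu hwx, add_zero]
  obtain ⟨w, hw⟩ := mem_supp.1 hu
  refine ⟨{u}, ?_, ?_, ?_⟩
  · rw [Finset.disjoint_singleton_left]
    exact huS
  · rw [Finset.card_singleton]
    omega
  · refine hC.feas_of_contr _ {u} u w (Finset.mem_singleton_self u) hw ?_
    rw [Finset.erase_singleton]
    exact hC.feas_empty _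

end GPm

open GPm

/-- module GP -/
theorem gpSpec (hC : CombSpec V) (hM : MajSpec V) : GPSpec V where
  gp1 := by
    intro G v u S hg hv hu hI
    induction hn : tau G using Nat.strong_induction_on generalizing G with
    | _ n ih =>
      by_cases hex : ∃ s ∈ supp G, s ∉ S ∧ s ≠ u ∧ s ≠ v ∧ ∃ w, adj G s w = 1 ∧ w ≠ u ∧ w ≠ v
      · obtain ⟨s, _, hsS, hsu, hsv, hw⟩ := hex
        obtain ⟨x, hxu, hxv, g1, g2, hI', g3⟩ := gp_step hM hg
          (by rw [Finset.mem_insert, not_or]; exact ⟨hsu, hsS⟩) hsu hsv hI hw
        have h1 := ih (tau (contr s x G)) (by have := g1.2; omega) _ g3 hI' rfl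
        rw [← contr_comm hsv hsu hxv] at h1
        exact indep_back hC g2 hsS h1
      · push Not at hex
        refine gp1_base hC hg hu hI ?_
        intro s hs hsS hsu hsv w hw
        by_contra hcon
        rw [not_or] at hcon
        exact hcon.2 (hex s hs hsS hsu hsv w hw hcon.1)
  gp2 := by
    intro G v u S hg hv hu hI
    induction hn : tau G using Nat.strong_induction_on generalizing G with
    | _ n ih =>
      by_cases hex : ∃ s ∈ supp G, s ∉ S ∧ s ≠ u ∧ s ≠ v ∧ ∃ w, adj G s w = 1 ∧ w ≠ u ∧ w ≠ v
      · obtain ⟨s, _, hsS, hsu, hsv, hw⟩ := hex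
        obtain ⟨x, hxu, hxv, g1, g2, hI', g3⟩ := gp_step hM hg
          (by rw [Finset.mem_insert, Finset.mem_insert, not_or, not_or]
              exact ⟨hsv, hsu, hsS⟩) hsu hsv hI hw
        have h1 := ih (tau (contr s x G)) (by have := g1.2; omega) _ g3 hI' rfl
        rw [← contr_comm hsv hsu hxv] at h1
        exact indep_back hC g2 (by rw [Finset.mem_insert, not_or]; exact ⟨hsu, hsS⟩) h1
      · push Not at hex
        obtain ⟨Y, hd, hc, hF⟩ := hI
        have hYs := hC.feas_supp _ _ hF
        have hYR : ∀ y ∈ Y, y ≠ v ∧ y ≠ u ∧ y ∈ supp G ∧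
            ∀ w, adj G y w = 1 → w = u ∨ w = v := by
          intro y hy
          have h1 : y ∉ insert v (insert u S) := Finset.disjoint_left.1 hd hy
          rw [Finset.mem_insert, Finset.mem_insert, not_or, not_or] at h1
          refine ⟨h1.1, h1.2.1, hYs hy, ?_⟩
          intro w hw
          by_contra hcon
          rw [not_or] at hcon
          exact hcon.2 (hex y (hYs hy) h1.2.2 h1.2.1 h1.1 w hw hcon.1)
        have hcard : Y.card ≤ 1 := by
          rw [Finset.card_le_one]
          intro a ha b hb
          obtain ⟨a0, a1, a2, a3⟩ := hYR a ha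
          obtain ⟨b0, b1, b2, b3⟩ := hYR b hb
          exact pend_unique hC hg a1 a0 a2 a3 b1 b0 b2 b3
        have := hg.2
        exact indep_of_tau_zero hC (by omega) _

end gp

end Pool.Agent.AOP
end

section
/-!
# MP_7f2998_co : module CLIQ (odd cliques)
-/
set_option linter.unusedSectionVars false
set_option linter.unusedSimpArgs false

namespace Pool.Agent.AOP.U55

open Finset Matrix

variable {V : Type*} [Fintype V] [DecidableEq V]

theorem kd_adj {D : Finset V} (hD : Odd D.card) (a b : V) :
    adj (kd D) a b = if a ∈ D ∧ b ∈ D ∧ a ≠ b then 1 else 0 := by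
  unfold kd
  rw [dif_pos hD]
  rfl

theorem kd_adj_one {D : Finset V} (hD : Odd D.card) {a b : V} :
    adj (kd D) a b = 1 ↔ a ∈ D ∧ b ∈ D ∧ a ≠ b := by
  rw [kd_adj hD]
  split_ifs with h
  · simp [h]
  · simp [h]

theorem supp_kd_subset (D : Finset V) : supp (kd D) ⊆ D := by
  intro v hv
  by_cases hD : Odd D.card
  · simp only [supp, mem_filter, mem_univ, true_and] at hv
    obtain ⟨u, hu⟩ := hv
    exact ((kd_adj_one hD).1 hu).1
  · simp only [supp, mem_filter, mem_univ, true_and, kd, dif_neg hD, zero_adj] at hv
    obtain ⟨u, hu⟩ := hv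
    exact absurd hu (by decide)

theorem supp_kd' {D : Finset V} (hD : Odd D.card) (h1 : 1 < D.card) : supp (kd D) = D := by
  refine subset_antisymm (supp_kd_subset D) fun v hv => ?_
  obtain ⟨u, hu, hne⟩ := Finset.exists_mem_ne h1 v
  simp only [supp, mem_filter, mem_univ, true_and]
  exact ⟨u, (kd_adj_one hD).2 ⟨hv, hu, hne.symm⟩⟩

theorem kd_of_card_le_one {D : Finset V} (h1 : D.card ≤ 1) : kd D = 0 := by
  apply EG_ext
  intro a b
  by_cases hD : Odd D.card
  · rw [kd_adj hD, zero_adj, if_neg]
    rintro ⟨ha, hb, hab⟩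
    exact hab (Finset.card_le_one.1 h1 a ha b hb)
  · simp [kd, dif_neg hD]

theorem odd_card_erase_erase {D : Finset V} {s x : V} (hs : s ∈ D) (hx : x ∈ D) (hsx : s ≠ x)
    (hD : Odd D.card) : Odd ((D.erase s).erase x).card ∧
      ((D.erase s).erase x).card + 2 = D.card := by
  have h1 : (D.erase s).card = D.card - 1 := Finset.card_erase_of_mem hs
  have hx' : x ∈ D.erase s := Finset.mem_erase.2 ⟨hsx.symm, hx⟩
  have h2 : ((D.erase s).erase x).card = (D.erase s).card - 1 := Finset.card_erase_of_mem hx'
  have h3 : 2 ≤ D.card := by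
    have := Finset.card_pos.2 ⟨x, hx'⟩
    omega
  have h4 : ((D.erase s).erase x).card + 2 = D.card := by omega
  refine ⟨?_, h4⟩
  rcases hD with ⟨k, hk⟩
  exact ⟨k - 1, by omega⟩

theorem contr_kd_both' {D : Finset V} {s x : V} (hs : s ∈ D) (hx : x ∈ D) (hsx : s ≠ x)
    (hD : Odd D.card) : contr s x (kd D) = kd ((D.erase s).erase x) := by
  obtain ⟨ho, -⟩ := odd_card_erase_erase hs hx hsx hD
  apply EG_ext
  intro a b
  rw [contr_adj hsx, kd_adj ho]
  simp only [kd_adj hD, mem_erase]
  by_cases hab : a = b
  · simp [hab]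
  by_cases has : a = s
  · simp [has]
  by_cases hbs : b = s
  · simp [hbs]
  by_cases hax : a = x
  · subst hax
    by_cases hb : b ∈ D
    · have : ¬ b = a := fun h => hab h.symm
      simp [hab, has, hbs, this, hb, hs, hx, Ne.symm hbs]
      exact zmod2_add_self 1
    · have : ¬ b = a := fun h => hab h.symm
      simp [hab, has, hbs, this, hb, hs, hx, Ne.symm hbs]
  · by_cases hbx : b = x
    · subst hbx
      by_cases ha : a ∈ D
      · simp [hab, has, hbs, hax, ha, hs, hx]
        exact zmod2_add_self 1
      · simp [hab, has, hbs, hax, ha, hs, hx]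
    · simp [hab, has, hbs, hax, hbx]

theorem contr_kd_one' {D : Finset V} {s x : V} (hs : s ∈ D) (hx : x ∉ D)
    (hD : Odd D.card) : contr s x (kd D) = kd (insert x (D.erase s)) := by
  have hsx : s ≠ x := fun h => hx (h ▸ hs)
  have hc : (insert x (D.erase s)).card = D.card := by
    rw [Finset.card_insert_of_notMem (fun h => hx (Finset.mem_of_mem_erase h)),
      Finset.card_erase_of_mem hs]
    have := Finset.card_pos.2 ⟨s, hs⟩
    omega
  have ho : Odd (insert x (D.erase s)).card := by rw [hc]; exact hD
  apply EG_ext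
  intro a b
  rw [contr_adj hsx, kd_adj ho]
  simp only [kd_adj hD, mem_erase, mem_insert]
  by_cases hab : a = b
  · simp [hab]
  by_cases has : a = s
  · simp [has, hsx]
  by_cases hbs : b = s
  · simp [hbs, hsx]
  by_cases hax : a = x
  · subst hax
    have : ¬ b = a := fun h => hab h.symm
    simp [hab, has, hbs, this, hs, hx, Ne.symm hbs]
  · by_cases hbx : b = x
    · subst hbx
      simp [hab, has, hbs, hax, hs, hx]
    · simp [hab, has, hbs, hax, hbx]

/-- half of the vertices of an odd clique is feasible -/
theorem feas_kd' (hC : CombSpec V) : ∀ (k : ℕ) (D Y : Finset V), Y.card = k → Y ⊆ D →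
    2 * Y.card + 1 = D.card → Feas (kd D) Y := by
  intro k
  induction k with
  | zero =>
    intro D Y hY _ _
    rw [Finset.card_eq_zero.1 hY]
    exact hC.feas_empty _
  | succ k ih =>
    intro D Y hY hYD hc
    obtain ⟨y, hy⟩ : Y.Nonempty := Finset.card_pos.1 (by omega)
    obtain ⟨d, hd⟩ : (D \ Y).Nonempty := by
      apply Finset.card_pos.1
      rw [Finset.card_sdiff_of_subset hYD]
      omega
    rw [mem_sdiff] at hd
    have hyd : y ≠ d := fun h => hd.2 (h ▸ hy)
    have hD : Odd D.card := ⟨Y.card, by omega⟩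
    refine hC.feas_of_contr _ _ y d hy ((kd_adj_one hD).2 ⟨hYD hy, hd.1, hyd⟩) ?_
    rw [contr_kd_both' (hYD hy) hd.1 hyd hD]
    obtain ⟨-, h2⟩ := odd_card_erase_erase (hYD hy) hd.1 hyd hD
    have hYe : (Y.erase y).card = k := by rw [Finset.card_erase_of_mem hy]; omega
    refine ih _ _ hYe ?_ (by omega)
    intro a ha
    rw [mem_erase] at ha ⊢
    refine ⟨fun h => hd.2 (h ▸ ha.2), mem_erase.2 ⟨ha.1, hYD ha.2⟩⟩

theorem feas_kd_le (hC : CombSpec V) : ∀ (k : ℕ) (D Y : Finset V), Y.card = k → Odd D.card →
    Feas (kd D) Y → 2 * Y.card + 1 ≤ D.card := by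
  intro k
  induction k with
  | zero =>
    intro D Y hY hD _
    rcases hD with ⟨m, hm⟩
    omega
  | succ k ih =>
    intro D Y hY hD hF
    obtain ⟨v, hv, u, hvu, hF'⟩ := hC.feas_step _ _ hF (Finset.card_pos.1 (by omega))
    obtain ⟨h1, h2, h3⟩ := (kd_adj_one hD).1 hvu
    rw [contr_kd_both' h1 h2 h3 hD] at hF'
    obtain ⟨ho, hc⟩ := odd_card_erase_erase h1 h2 h3 hD
    have hYe : (Y.erase v).card = k := by rw [Finset.card_erase_of_mem hv]; omega
    have := ih _ _ hYe ho hF'
    omega

theorem tau_kd' (hC : CombSpec V) {D : Finset V} (hD : Odd D.card) :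
    2 * tau (kd D) + 1 = D.card := by
  obtain ⟨Y, hY, hYc⟩ := hC.exists_feas (kd D)
  have h1 := feas_kd_le hC _ D Y rfl hD hY
  obtain ⟨k, hk⟩ := hD
  obtain ⟨Y', hY'D, hY'c⟩ := Finset.exists_subset_card_eq (s := D) (n := k) (by omega)
  have h2 := hC.card_le_tau _ _ (feas_kd' hC _ D Y' rfl hY'D (by omega))
  omega

theorem good_kd (hC : CombSpec V) {D : Finset V} (hD : Odd D.card) {s x : V} (hs : s ∈ D)
    (hx : x ∈ D) (hsx : s ≠ x) : Good (kd D) s x := by
  refine ⟨(kd_adj_one hD).2 ⟨hs, hx, hsx⟩, ?_⟩
  rw [contr_kd_both' hs hx hsx hD]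
  obtain ⟨ho, hc⟩ := odd_card_erase_erase hs hx hsx hD
  have h1 := tau_kd' hC hD
  have h2 := tau_kd' hC ho
  omega

/-- at most half of the vertices are independent in a clique -/
theorem indep_kd (hC : CombSpec V) {D S : Finset V} (hD : Odd D.card) (hS : S ⊆ D)
    (hc : 2 * S.card ≤ D.card + 1) : Indep (kd D) S := by
  obtain ⟨k, hk⟩ := hD
  obtain ⟨Y, hYD, hYc⟩ := Finset.exists_subset_card_eq (s := D \ S) (n := k) (by
    rw [Finset.card_sdiff_of_subset hS]; omega)
  have hY : Y ⊆ D := hYD.trans sdiff_subset
  refine ⟨Y, ?_, ?_, feas_kd' hC _ D Y rfl hY (by omega)⟩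
  · exact Finset.disjoint_left.2 fun a ha hb => (mem_sdiff.1 (hYD ha)).2 hb
  · have := tau_kd' hC (D := D) ⟨k, hk⟩
    omega

/-- graphs with `tau = 1` are triangles -/
theorem tau_one' (hC : CombSpec V) (G : EG V) (h1 : tau G = 1) :
    ∃ D : Finset V, D.card = 3 ∧ G = kd D := by
  have hz : ∀ a b : V, adj G a b ≠ 1 → adj G a b = 0 := by
    intro a b h
    have : ∀ x : ZMod 2, x ≠ 1 → x = 0 := by decide
    exact this _ h
  have hedge : ∀ v u : V, v ≠ u → adj G v u = 1 → contr v u G = 0 := by
    intro v u hvu h
    have h2 := hC.tau_contr_le G v u hvu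
    rw [if_pos h, h1] at h2
    by_contra h0
    have := hC.tau_pos _ h0
    omega
  have hne : ∃ v u, adj G v u = 1 := by
    by_contra hcon
    push Not at hcon
    have : G = 0 := EG_ext fun a b => hz a b (hcon a b)
    rw [this, hC.tau_zero] at h1
    omega
  obtain ⟨v, u, hvu⟩ := hne
  have hv_ne : v ≠ u := by rintro rfl; simp at hvu
  -- some other neighbour of `u`
  have hu : ∃ a, a ≠ v ∧ adj G u a = 1 := by
    by_contra hcon
    push Not at hcon
    have hs := sum_adj G u
    rw [Finset.sum_eq_single v (fun b _ hb => hz _ _ (hcon b hb)) (by simp), adj_comm, hvu] at hs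
    exact absurd hs (by decide)
  obtain ⟨a, hav, hua⟩ := hu
  have hau : a ≠ u := by rintro rfl; simp at hua
  -- common neighbours
  have hcn : ∀ (p q : V), p ≠ q → adj G p q = 1 → ∀ y, y ≠ p → y ≠ q →
      adj G p y = adj G q y := by
    intro p q hpq h y hyp hyq
    have h0 := hedge p q hpq h
    have := congrArg (fun H => adj H q y) h0
    simp only [zero_adj] at this
    rw [contr_adj hpq, if_neg] at this
    · simp only [if_true, if_neg hyq, add_zero] at this
      have h3 : ∀ x y : ZMod 2, x + y = 0 → y = x := by decide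
      exact h3 _ _ this
    · push Not
      exact ⟨hyq.symm, hpq.symm, hyp⟩
  have hfar : ∀ (p q : V), p ≠ q → adj G p q = 1 → ∀ x y, x ≠ p → x ≠ q → y ≠ p → y ≠ q →
      adj G x y = 0 := by
    intro p q hpq h x y hxp hxq hyp hyq
    by_cases hxy : x = y
    · rw [hxy, adj_self]
    have h0 := hedge p q hpq h
    have := congrArg (fun H => adj H x y) h0
    simp only [zero_adj] at this
    rw [contr_adj hpq, if_neg] at this
    · simpa [hxq, hyq] using this
    · push Not
      exact ⟨hxy, hxp, hyp⟩
  have hva : adj G v a = 1 := by rw [hcn v u hv_ne hvu a hav hau, hua]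
  have huv : adj G u v = 1 := by rw [adj_comm]; exact hvu
  have hau' : adj G a u = 1 := by rw [adj_comm]; exact hua
  have hav' : adj G a v = 1 := by rw [adj_comm]; exact hva
  -- no other neighbours
  have hno : ∀ b, b ≠ v → b ≠ u → b ≠ a → adj G u b = 0 := by
    intro b hbv hbu hba
    refine hz _ _ fun hb => ?_
    have hvb : adj G v b = 1 := by rw [hcn v u hv_ne hvu b hbv hbu, hb]
    have := hfar u a hau.symm hua v b hv_ne hav.symm hbu hba
    rw [hvb] at this
    exact absurd this (by decide)
  have hno2 : ∀ b, b ≠ v → b ≠ u → b ≠ a → adj G v b = 0 := by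
    intro b hbv hbu hba
    rw [hcn v u hv_ne hvu b hbv hbu, hno b hbv hbu hba]
  have hno3 : ∀ b, b ≠ v → b ≠ u → b ≠ a → adj G a b = 0 := by
    intro b hbv hbu hba
    rw [← hcn u a hau.symm hua b hbu hba, hno b hbv hbu hba]
  have hcard : ({v, u, a} : Finset V).card = 3 := by
    rw [Finset.card_eq_three]
    exact ⟨v, u, a, hv_ne, hav.symm, hau.symm, rfl⟩
  have hodd : Odd ({v, u, a} : Finset V).card := by rw [hcard]; decide
  refine ⟨{v, u, a}, hcard, EG_ext fun x y => ?_⟩
  rw [kd_adj hodd]
  have hxo : ∀ x, x ∉ ({v, u, a} : Finset V) → ∀ y, adj G x y = 0 := by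
    intro x hx y
    simp only [mem_insert, mem_singleton, not_or] at hx
    by_cases hyv : y = v
    · rw [hyv, adj_comm]; exact hno2 x hx.1 hx.2.1 hx.2.2
    by_cases hyu : y = u
    · rw [hyu, adj_comm]; exact hno x hx.1 hx.2.1 hx.2.2
    exact hfar v u hv_ne hvu x y hx.1 hx.2.1 hyv hyu
  by_cases hx : x ∈ ({v, u, a} : Finset V)
  · by_cases hy : y ∈ ({v, u, a} : Finset V)
    · by_cases hxy : x = y
      · simp [hxy]
      · rw [if_pos ⟨hx, hy, hxy⟩]
        simp only [mem_insert, mem_singleton] at hx hy
        rcases hx with rfl | rfl | rfl <;> rcases hy with rfl | rfl | rfl <;>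
          first | exact absurd rfl hxy | assumption
    · rw [if_neg (fun h => hy h.2.1), adj_comm]
      exact hxo y hy x
  · rw [if_neg (fun h => hx h.1)]
    exact hxo x hx y

theorem zmod2_cases (x : ZMod 2) : x = 0 ∨ x = 1 := by
  revert x; decide

theorem zmod2_ne_one {x : ZMod 2} (h : x ≠ 1) : x = 0 := (zmod2_cases x).resolve_right h

theorem contr_add (v u : V) (G H : EG V) : contr v u (G + H) = contr v u G + contr v u H :=
  map_add _ _ _

theorem ne_zero_of_supp {G : EG V} (h : (supp G).Nonempty) : G ≠ 0 := by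
  rintro rfl
  obtain ⟨v, hv⟩ := h
  rw [supp, mem_filter] at hv
  obtain ⟨u, hu⟩ := hv.2
  rw [zero_adj] at hu
  exact absurd hu (by decide)

theorem kd_ne_zero {D : Finset V} (hD : Odd D.card) (h1 : 1 < D.card) : kd D ≠ 0 := by
  apply ne_zero_of_supp
  rw [supp_kd' hD h1]
  exact Finset.card_pos.1 (by omega)

theorem kd_irr' {K : Type*} [Field K] [Algebra (ZMod 2) K] {z : V → K} (hC : CombSpec V)
    (hT : TightSpec z) : ∀ (k : ℕ) (D : Finset V), D.card = 2 * k + 3 → Irr (kd D) := by
  intro k
  induction k with
  | zero =>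
    intro D hD
    have ho : Odd D.card := ⟨1, by omega⟩
    refine ⟨kd_ne_zero ho (by omega), fun H hH => ?_⟩
    have h1 := tau_kd' hC ho
    unfold Tight at hH
    by_cases h0 : H = 0
    · exact Or.inl h0
    · right
      have h2 := hC.tau_pos _ h0
      by_contra hne
      have h3 : kd D + H ≠ 0 := by
        intro h
        apply hne
        have := congrArg (· + H) h
        simp only [zero_add] at this
        rw [add_assoc, EG_add_self, add_zero] at this
        exact this.symm
      have h4 := hC.tau_pos _ h3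
      omega
  | succ k ih =>
    intro D hD
    have ho : Odd D.card := ⟨k + 2, by omega⟩
    refine ⟨kd_ne_zero ho (by omega), fun H hH => ?_⟩
    by_contra hcon
    push Not at hcon
    obtain ⟨hH0, hHD⟩ := hcon
    -- an edge of the clique
    obtain ⟨s, hs⟩ : D.Nonempty := Finset.card_pos.1 (by omega)
    obtain ⟨x, hx, hxs⟩ := Finset.exists_mem_ne (show 1 < D.card by omega) s
    have hgood := good_kd hC ho hs hx hxs.symm
    obtain ⟨ho', hc'⟩ := odd_card_erase_erase hs hx hxs.symm ho
    have hirr := ih ((D.erase s).erase x) (by omega)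
    have hcontr := contr_kd_both' hs hx hxs.symm ho
    -- one of the two parts is contracted to zero
    have key : ∀ H : EG V, Tight (kd D) H → H ≠ 0 → contr s x H = 0 → False := by
      intro H hH hH0 h0
      have h1 := (hT.tight_contr _ _ s x hgood hH).2
      rw [h0, hC.tau_zero] at h1
      have h2 := hC.tau_pos _ hH0
      have h3 : tau H = 1 := by
        split_ifs at h1 <;> omega
      obtain ⟨T, hTc, rfl⟩ := tau_one' hC H h3
      have hk := hT.kills _ _ hH
      have hoT : Odd T.card := ⟨1, by omega⟩
      have hni := (hT.tri_iff _ T hTc).2 hk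
      apply hni
      have hkt := hT.kills_indep' (kd D) (kd T) ∅ hk (by simp)
      -- the triangle is inside `D`
      by_cases hTD : T ⊆ D
      · exact indep_kd hC ho hTD (by omega)
      · exfalso
        -- a vertex of `T` outside `D` is isolated in `kd D`, hence in `kd T`
        obtain ⟨a, haT, haD⟩ := Finset.not_subset.1 hTD
        have ht := hH
        unfold Tight at ht
        obtain ⟨b, hb, hba⟩ := Finset.exists_mem_ne (show 1 < T.card by omega) a
        -- compare supports: `T - a` is independent in the clique and `tau` counts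
        have e1 := hC.contr_eq_self (kd D) a b
          (fun h => haD (supp_kd_subset D h))
        -- use tau of the contraction of `kd D + kd T`
        have e2 := hC.tau_contr_le (kd D + kd T) a b hba.symm
        rw [contr_add, e1] at e2
        have e3 : adj (kd D + kd T) a b = 1 := by
          rw [add_adj, kd_adj ho, kd_adj hoT, if_neg (fun h => haD h.1),
            if_pos ⟨haT, hb, hba.symm⟩, zero_add]
        have e4 : kd ((T.erase a).erase b) = 0 := kd_of_card_le_one (by
            have := (odd_card_erase_erase haT hb hba.symm hoT).2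
            omega)
        rw [if_pos e3, contr_kd_both' haT hb hba.symm hoT, e4, add_zero] at e2
        omega
    have hH' := hT.compl _ _ hH
    have hH'0 : kd D + H ≠ 0 := by
      intro h
      apply hHD
      have := congrArg (· + H) h
      simp only [zero_add] at this
      rw [add_assoc, EG_add_self, add_zero] at this
      exact this.symm
    have h1 := (hT.tight_contr _ _ s x hgood hH).1
    rw [hcontr] at h1
    rcases hirr.2 _ h1 with h | h
    · exact key H hH hH0 h
    · refine key _ hH' hH'0 ?_
      rw [contr_add, hcontr, h, EG_add_self]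

/-- `K_D + K_{D+u+v}` has `c = 2` -/
theorem two_a' (hC : CombSpec V) {D : Finset V} {u v : V} (hD : Odd D.card) (hu : u ∉ D)
    (hv : v ∉ D) (huv : u ≠ v) :
    tau (kd D + kd (insert u (insert v D))) = D.card ∧
    supp (kd D + kd (insert u (insert v D))) = insert u (insert v D) := by
  have huv' : u ∉ insert v D := by
    simp [huv, hu]
  have hc : (insert u (insert v D)).card = D.card + 2 := by
    rw [Finset.card_insert_of_notMem huv', Finset.card_insert_of_notMem hv]
  have ho : Odd (insert u (insert v D)).card := by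
    rw [hc]
    obtain ⟨k, hk⟩ := hD
    exact ⟨k + 1, by omega⟩
  have hadj : ∀ a b, adj (kd D + kd (insert u (insert v D))) a b = 1 ↔
      a ≠ b ∧ ((a ∈ insert u (insert v D) ∧ b ∈ insert u (insert v D)) ∧ ¬ (a ∈ D ∧ b ∈ D)) := by
    intro a b
    rw [add_adj, kd_adj hD, kd_adj ho]
    have hsub : ∀ x, x ∈ D → x ∈ insert u (insert v D) := fun x hx => by simp [hx]
    by_cases hab : a = b
    · simp [hab]
    · by_cases h1 : a ∈ D ∧ b ∈ D
      · rw [if_pos ⟨h1.1, h1.2, hab⟩, if_pos ⟨hsub _ h1.1, hsub _ h1.2, hab⟩]
        constructor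
        · intro h
          exact absurd h (by decide)
        · rintro ⟨_, _, h⟩
          exact absurd h1 h
      · rw [if_neg (fun h => h1 ⟨h.1, h.2.1⟩), zero_add]
        by_cases h2 : a ∈ insert u (insert v D) ∧ b ∈ insert u (insert v D)
        · rw [if_pos ⟨h2.1, h2.2, hab⟩]
          simp only [true_iff]
          exact ⟨hab, h2, h1⟩
        · rw [if_neg (fun h => h2 ⟨h.1, h.2.1⟩)]
          constructor
          · intro h
            exact absurd h (by decide)
          · rintro ⟨_, h, _⟩
            exact absurd h h2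
  have hsupp : supp (kd D + kd (insert u (insert v D))) = insert u (insert v D) := by
    ext a
    simp only [supp, mem_filter, mem_univ, true_and, hadj]
    constructor
    · rintro ⟨b, _, ⟨h, _⟩, _⟩
      exact h
    · intro ha
      by_cases hau : a = u
      · refine ⟨v, hau ▸ huv, ⟨ha, by simp⟩, fun h => hv h.2⟩
      · exact ⟨u, hau, ⟨ha, by simp⟩, fun h => hu h.2⟩
  refine ⟨le_antisymm ?_ ?_, hsupp⟩
  · have h0 : kd D + kd (insert u (insert v D)) ≠ 0 := by
      apply ne_zero_of_supp
      rw [hsupp]
      exact ⟨u, by simp⟩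
    have := hC.tau_supp _ h0
    rw [hsupp, hc] at this
    omega
  · apply hC.card_le_tau
    -- order : `u` first, then `D`, then the rest
    let e := Fintype.equivFin V
    refine ⟨fun a => if a = u then 0 else if a ∈ D then 1 + (e a : ℕ)
      else 1 + Fintype.card V + (e a : ℕ), ?_, ?_⟩
    · intro a b hab
      simp only at hab
      have ha := (e a).2
      have hb := (e b).2
      by_cases hau : a = u
      · by_cases hbu : b = u
        · rw [hau, hbu]
        · exfalso
          rw [if_pos hau, if_neg hbu] at hab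
          split_ifs at hab <;> omega
      · by_cases hbu : b = u
        · exfalso
          rw [if_neg hau, if_pos hbu] at hab
          split_ifs at hab <;> omega
        · rw [if_neg hau, if_neg hbu] at hab
          have : (e a : ℕ) = e b := by
            split_ifs at hab <;> omega
          exact e.injective (Fin.ext this)
    · intro y hy
      have hyu : y ≠ u := fun h => hu (h ▸ hy)
      simp only [if_neg hyu, if_pos hy]
      rw [Finset.sum_eq_single u]
      · rw [hadj]
        exact ⟨hyu, ⟨by simp [hy], by simp⟩, fun h => hu h.2⟩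
      · intro b hb hbu
        simp only [mem_filter, mem_univ, true_and, if_neg hbu] at hb
        apply zmod2_ne_one
        intro h1
        rw [hadj] at h1
        obtain ⟨_, _, h⟩ := h1
        have hbD : b ∉ D := fun h' => h ⟨hy, h'⟩
        rw [if_neg hbD] at hb
        have := (e y).2
        omega
      · intro h
        exfalso
        apply h
        simp only [mem_filter, mem_univ, true_and, if_true]
        omega

/-- `J + J[s→x]` is complete bipartite with `c = 2` -/
theorem two_b' (hC : CombSpec V) {J : EG V} {s x : V} (hs : s ∈ supp J) (hx : x ∉ supp J) :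
    tau (J + contr s x J) = (nb J s).card ∧
    supp (J + contr s x J) = insert s (insert x (nb J s)) := by
  have hsx : s ≠ x := fun h => hx (h ▸ hs)
  have hx0 : ∀ b, adj J x b = 0 := by
    intro b
    apply zmod2_ne_one
    intro h
    apply hx
    simp only [supp, mem_filter, mem_univ, true_and]
    exact ⟨b, h⟩
  have hx0' : ∀ b, adj J b x = 0 := fun b => by rw [adj_comm]; exact hx0 b
  have hnbs : s ∉ nb J s := by simp [nb]
  have hnbx : x ∉ nb J s := by simp [nb, hx0']
  have hadj : ∀ a b, adj (J + contr s x J) a b =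
      if a = s then (if b = x then 0 else adj J s b) else
      if a = x then (if b = s then 0 else adj J s b) else
      if b = s ∨ b = x then adj J s a else 0 := by
    intro a b
    rw [add_adj, contr_adj hsx]
    by_cases hab : a = b
    · subst hab
      by_cases has : a = s
      · simp [has]
      · by_cases hax : a = x
        · simp [hax, hx0', Ne.symm hsx]
        · simp [has, hax]
    · by_cases has : a = s
      · subst has
        by_cases hbx : b = x
        · simp [hbx, hx0']
        · simp [hbx]
      · by_cases hbs : b = s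
        · subst hbs
          by_cases hax : a = x
          · simp [hax, hx0, hsx.symm]
          · simp [has, hax, adj_comm J a b]
        · by_cases hax : a = x
          · subst hax
            have hba : ¬ b = a := fun h => hab h.symm
            simp [hab, hba, hx0, hsx.symm, hbs]
          · by_cases hbx : b = x
            · subst hbx
              simp [hab, has, hbs, hax, hx0', adj_comm J a s]
            · simp [hab, has, hbs, hax, hbx, zmod2_add_self]
  have hsupp : supp (J + contr s x J) = insert s (insert x (nb J s)) := by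
    obtain ⟨c, hc⟩ : ∃ c, adj J s c = 1 := by
      simpa only [supp, mem_filter, mem_univ, true_and] using hs
    have hcx : c ≠ x := by rintro rfl; rw [hx0'] at hc; exact absurd hc (by decide)
    have hcs : c ≠ s := by rintro rfl; rw [adj_self] at hc; exact absurd hc (by decide)
    ext a
    simp only [supp, mem_filter, mem_univ, true_and, mem_insert, nb]
    constructor
    · rintro ⟨b, hb⟩
      rw [hadj] at hb
      by_cases has : a = s
      · exact Or.inl has
      · by_cases hax : a = x
        · exact Or.inr (Or.inl hax)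
        · rw [if_neg has, if_neg hax] at hb
          split_ifs at hb
          · exact Or.inr (Or.inr hb)
          · exact absurd hb (by decide)
    · rintro (rfl | rfl | h)
      · exact ⟨c, by rw [hadj, if_pos rfl, if_neg hcx]; exact hc⟩
      · exact ⟨c, by rw [hadj, if_neg hsx.symm, if_pos rfl, if_neg hcs]; exact hc⟩
      · have has : a ≠ s := by rintro rfl; rw [adj_self] at h; exact absurd h (by decide)
        have hax : a ≠ x := by rintro rfl; rw [hx0'] at h; exact absurd h (by decide)
        exact ⟨s, by rw [hadj, if_neg has, if_neg hax, if_pos (Or.inl rfl)]; exact h⟩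
  refine ⟨le_antisymm ?_ ?_, hsupp⟩
  · have h0 : J + contr s x J ≠ 0 := by
      apply ne_zero_of_supp
      rw [hsupp]
      exact ⟨s, by simp⟩
    have := hC.tau_supp _ h0
    rw [hsupp, Finset.card_insert_of_notMem (by simp [hsx, hnbs]),
      Finset.card_insert_of_notMem hnbx] at this
    omega
  · apply hC.card_le_tau
    let e := Fintype.equivFin V
    refine ⟨fun a => if a = s then 0 else if a = x then 1 + 2 * Fintype.card V
      else 1 + (e a : ℕ), ?_, ?_⟩
    · intro a b hab
      simp only at hab
      have ha := (e a).2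
      have hb := (e b).2
      by_cases has : a = s
      · by_cases hbs : b = s
        · rw [has, hbs]
        · exfalso
          rw [if_pos has, if_neg hbs] at hab
          split_ifs at hab <;> omega
      · by_cases hbs : b = s
        · exfalso
          rw [if_neg has, if_pos hbs] at hab
          split_ifs at hab <;> omega
        · rw [if_neg has, if_neg hbs] at hab
          by_cases hax : a = x
          · by_cases hbx : b = x
            · rw [hax, hbx]
            · exfalso
              rw [if_pos hax, if_neg hbx] at hab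
              omega
          · by_cases hbx : b = x
            · exfalso
              rw [if_neg hax, if_pos hbx] at hab
              omega
            · rw [if_neg hax, if_neg hbx] at hab
              have : (e a : ℕ) = e b := by omega
              exact e.injective (Fin.ext this)
    · intro y hy
      have hys : y ≠ s := fun h => hnbs (h ▸ hy)
      have hyx : y ≠ x := fun h => hnbx (h ▸ hy)
      have hy1 : adj J s y = 1 := by
        simpa only [nb, mem_filter, mem_univ, true_and] using hy
      simp only [if_neg hys, if_neg hyx]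
      rw [Finset.sum_eq_single s]
      · rw [hadj, if_neg hys, if_neg hyx, if_pos (Or.inl rfl)]
        exact hy1
      · intro b hb hbs
        simp only [mem_filter, mem_univ, true_and, if_neg hbs] at hb
        have hbx : b ≠ x := by
          rintro rfl
          rw [if_pos rfl] at hb
          have := (e y).2
          omega
        rw [hadj, if_neg hys, if_neg hyx, if_neg]
        push Not
        exact ⟨hbs, hbx⟩
      · intro h
        exfalso
        apply h
        simp only [mem_filter, mem_univ, true_and, if_true]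
        omega

section alg
variable {K : Type*} [Field K] [Algebra (ZMod 2) K]

/-- if the principal minor on `Y` does not vanish, a kernel vector which vanishes outside of `Y`
(at least where the rows of `Y` see it) vanishes on `Y` -/
theorem lminor_ker {z : V → K} {G : EG V} {Y : Finset V} (hY : lminor G z Y ≠ 0) {f : V → K}
    (hf : ∀ y ∈ Y, (Lm G z *ᵥ f) y = 0) (h0 : ∀ y ∈ Y, ∀ b, b ∉ Y → Lm G z y b * f b = 0) :
    ∀ y ∈ Y, f y = 0 := by
  have h1 : ((Lm G z).submatrix (fun a : Y => (a : V)) (fun a : Y => (a : V))) *ᵥ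
      (fun a : Y => f a) = 0 := by
    ext y
    have h2 := hf y y.2
    simp only [Matrix.mulVec, dotProduct, Pi.zero_apply, submatrix_apply] at h2 ⊢
    rw [← h2]
    have h3 : ∑ b, Lm G z y b * f b = ∑ b ∈ Y, Lm G z y b * f b := by
      symm
      apply Finset.sum_subset (Finset.subset_univ _)
      intro b _ hb
      exact h0 y y.2 b hb
    rw [h3]
    exact Finset.sum_coe_sort Y (fun b => Lm G z y b * f b)
  have h4 := Matrix.eq_zero_of_mulVec_eq_zero hY h1
  intro y hy
  exact congrFun h4 ⟨y, hy⟩

theorem Lm_kd_outside {z : V → K} {D : Finset V} {y b : V} (hy : y ∈ D) (hb : b ∉ D) :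
    Lm (kd D) z y b = 0 := by
  have hyb : y ≠ b := fun h => hb (h ▸ hy)
  unfold Lm
  rw [if_neg hyb]
  have : adj (kd D) y b = 0 := by
    apply zmod2_ne_one
    intro h
    have : b ∈ supp (kd D) := by
      simp only [supp, mem_filter, mem_univ, true_and]
      exact ⟨y, by rw [adj_comm]; exact h⟩
    exact hb (supp_kd_subset D this)
  rw [this]
  simp [bit]

theorem mds' {z : V → K} (hC : CombSpec V) (hR : RankSpec z) (D : Finset V) (w f : V → K)
    (hD : Odd D.card) (hwD : ∀ a, a ∉ D → w a = 0) (hw0 : w ≠ 0) (hwv : VanishOn z (kd D) w)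
    (hf : Lm (kd D) z *ᵥ f = 0) (hwf : ∀ a, w a ≠ 0 → f a = 0) : ∀ a ∈ D, f a = 0 := by
  classical
  obtain ⟨k, hk⟩ := hD
  have hD : Odd D.card := ⟨k, hk⟩
  let S0 : Finset V := D.filter (fun a => w a ≠ 0)
  have hS0 : k + 1 ≤ S0.card := by
    by_contra hcon
    apply hw0
    have hI := indep_kd hC hD (S := S0) (Finset.filter_subset _ _) (by omega)
    rw [hR.indep_iff] at hI
    apply hI w _ hwv
    intro a ha
    by_contra hne
    apply ha
    simp only [S0, mem_filter]
    refine ⟨?_, hne⟩
    by_contra h
    exact hne (hwD a h)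
  obtain ⟨S, hSS, hSc⟩ := Finset.exists_subset_card_eq hS0
  have hSD : S ⊆ D := hSS.trans (Finset.filter_subset _ _)
  have hfS : ∀ a ∈ S, f a = 0 := by
    intro a ha
    apply hwf
    have := hSS ha
    simp only [S0, mem_filter] at this
    exact this.2
  have hYc : (D \ S).card = k := by
    rw [Finset.card_sdiff_of_subset hSD]; omega
  have hF := feas_kd' hC k D (D \ S) hYc sdiff_subset (by omega)
  rw [hR.feas_iff] at hF
  have h1 : ∀ y ∈ D \ S, f y = 0 := by
    apply lminor_ker hF
    · intro y _
      rw [hf]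
      rfl
    · intro y hy b hb
      by_cases hbD : b ∈ D
      · have : b ∈ S := by
          by_contra h
          exact hb (mem_sdiff.2 ⟨hbD, h⟩)
        rw [hfS b this, mul_zero]
      · rw [Lm_kd_outside (mem_sdiff.1 hy).1 hbD, zero_mul]
  intro a ha
  by_cases haS : a ∈ S
  · exact hfS a haS
  · exact h1 a (mem_sdiff.2 ⟨ha, haS⟩)

/-- module CLIQ -/
theorem cliqSpec {z : V → K} (hC : CombSpec V) (hR : RankSpec z) (hT : TightSpec z) :
    CliqSpec z where
  feas_kd := fun D Y hY hc => feas_kd' hC _ D Y rfl hY hc
  tau_kd := fun _ hD => tau_kd' hC hD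
  supp_kd := fun _ hD h1 => supp_kd' hD h1
  kd_irr := fun D hD h3 => by
    obtain ⟨k, hk⟩ := hD
    exact kd_irr' hC hT (k - 1) D (by omega)
  contr_kd_both := fun _ _ _ hs hx hsx hD => contr_kd_both' hs hx hsx hD
  contr_kd_one := fun _ _ _ hs hx hD => contr_kd_one' hs hx hD
  tau_one := fun G h => tau_one' hC G h
  two_a := fun _ _ _ hD hu hv huv => two_a' hC hD hu hv huv
  two_b := fun _ _ _ hs hx => two_b' hC hs hx
  mds := fun D w f hD hwD hw0 hwv hf hwf => mds' hC hR D w f hD hwD hw0 hwv hf hwf

end alg

end Pool.Agent.AOP.U55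

namespace Pool.Agent.AOP

/-- module CLIQ -/
theorem cliqSpec {V : Type*} [Fintype V] [DecidableEq V] {K : Type*} [Field K]
    [Algebra (ZMod 2) K] {z : V → K} (hC : CombSpec V) (hR : RankSpec z) (hT : TightSpec z) :
    CliqSpec z := U55.cliqSpec hC hR hT

end Pool.Agent.AOP
end

section
/-!
# MP_7f2998_co : module RES (resolution of two alternatives)
-/
set_option linter.unusedSectionVars false

namespace Pool.Agent.AOP.U55

open Finset Matrix

variable {V : Type*} [Fintype V] [DecidableEq V]
variable {K : Type*} [Field K] [Algebra (ZMod 2) K]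

theorem Lm_symm (G : EG V) (z : V → K) (a b : V) : Lm G z a b = Lm G z b a := by
  unfold Lm
  by_cases h : a = b
  · subst h; rfl
  · rw [if_neg h, if_neg (Ne.symm h), adj_comm, add_comm (z a)]

theorem Lm_add (G H : EG V) (z : V → K) : Lm (G + H) z = Lm G z + Lm H z := by
  ext a b
  simp only [Lm, Matrix.add_apply, add_adj, bit, map_add]
  split_ifs
  · rw [← Finset.sum_add_distrib]
    exact Finset.sum_congr rfl fun c _ => add_div _ _ _
  · exact add_div _ _ _

theorem nb_eq_of_not_supp {G H : EG V} {p : V} (h : p ∉ supp H) : nb (G + H) p = nb G p := by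
  ext u
  have : adj H p u = 0 := by
    apply zmod2_ne_one
    intro h1
    apply h
    simp only [supp, mem_filter, mem_univ, true_and]
    exact ⟨u, h1⟩
  rw [nb, nb, mem_filter, mem_filter, add_adj, this, add_zero]

/-- the rows of the Laplacian of a graph avoiding `p` do not involve `z p` -/
theorem const_row {z : V → K} {H : EG V} {p b : V} (hp : p ∉ supp H) :
    Const z p (fun a => Lm H z b a) := by
  have h0 : ∀ u, adj H p u = 0 := fun u => by
    apply zmod2_ne_one
    intro h1
    apply hp
    simp only [supp, mem_filter, mem_univ, true_and]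
    exact ⟨u, h1⟩
  have h0' : ∀ u, adj H u p = 0 := fun u => by rw [adj_comm]; exact h0 u
  have hmem : ∀ u v : V, (bit (adj H u v) : K) / (z u + z v)
      ∈ Subfield.closure (z '' {p}ᶜ) := by
    intro u v
    by_cases hu : u = p
    · rw [hu, h0]
      simp only [bit, map_zero, zero_div]
      exact Subfield.zero_mem _
    · by_cases hv : v = p
      · rw [hv, h0']
        simp only [bit, map_zero, zero_div]
        exact Subfield.zero_mem _
      · apply Subfield.div_mem
        · rcases zmod2_cases (adj H u v) with h | h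
          · rw [h]; simp only [bit, map_zero]; exact Subfield.zero_mem _
          · rw [h]; simp only [bit, map_one]; exact Subfield.one_mem _
        · apply Subfield.add_mem
          · exact Subfield.subset_closure ⟨u, hu, rfl⟩
          · exact Subfield.subset_closure ⟨v, hv, rfl⟩
  constructor
  · simp only [Lm]
    by_cases hb : b = p
    · rw [if_pos hb]
      apply Finset.sum_eq_zero
      intro c _
      rw [hb, h0]
      simp [bit]
    · rw [if_neg hb, h0']
      simp [bit]
  · intro a
    simp only [Lm]
    split_ifs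
    · exact Subfield.sum_mem _ fun c _ => hmem _ _
    · exact hmem _ _


theorem Lm_outside {z : V → K} {J : EG V} {a b : V} (ha : a ∉ supp J) : Lm J z a b = 0 := by
  have h0 : ∀ u, adj J a u = 0 := fun u => by
    apply zmod2_ne_one
    intro h1
    apply ha
    simp only [supp, mem_filter, mem_univ, true_and]
    exact ⟨u, h1⟩
  unfold Lm
  split_ifs
  · apply Finset.sum_eq_zero
    intro c _
    rw [h0]
    simp [bit]
  · rw [h0]
    simp [bit]

theorem finrank_supported (S : Finset V) :
    Module.finrank K ({ carrier := {w : V → K | ∀ a, a ∉ S → w a = 0},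
                        add_mem' := fun {a b} ha hb c hc => by
                          simp only [Set.mem_ofPred_eq] at ha hb
                          simp [ha c hc, hb c hc],
                        zero_mem' := fun _ _ => rfl,
                        smul_mem' := fun c w hw a ha => by
                          simp only [Set.mem_ofPred_eq] at hw
                          simp [hw a ha] } : Submodule K (V → K)) = S.card := by
  rw [← Fintype.card_coe S, ← Module.finrank_fintype_fun_eq_card K]
  refine LinearEquiv.finrank_eq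
    { toFun := fun w a => w.1 a
      map_add' := fun _ _ => rfl
      map_smul' := fun _ _ => rfl
      invFun := fun g => ⟨fun a => if h : a ∈ S then g ⟨a, h⟩ else 0, fun a ha => dif_neg ha⟩
      left_inv := fun w => ?_
      right_inv := fun g => ?_ }
  · apply Subtype.ext
    funext a
    by_cases h : a ∈ S
    · simp [h]
    · simp only [h, dif_neg, not_false_eq_true]
      exact (w.2 a h).symm
  · funext a
    simp

theorem dot_Lm (G : EG V) (z : V → K) (g f : V → K) :
    ∑ a, (Lm G z *ᵥ g) a * f a = ∑ b, g b * (Lm G z *ᵥ f) b := by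
  simp only [Matrix.mulVec, dotProduct, Finset.sum_mul, Finset.mul_sum]
  rw [Finset.sum_comm]
  refine Finset.sum_congr rfl fun b _ => Finset.sum_congr rfl fun a _ => ?_
  rw [Lm_symm G z a b]
  ring

/-- if `J` has `c = 2` and 4 points of its support are independent in `G`, then `L_J` is not
of rank one on the kernel of `L_G` -/
theorem not_line {z : V → K} (hR : RankSpec z) {G J : EG V} (hJ : (supp J).card = tau J + 2)
    {S : Finset V} (hSJ : S ⊆ supp J) (hS4 : 4 ≤ S.card) (hS : Indep G S) (v : V → K)
    (hv : ∀ f : V → K, Lm G z *ᵥ f = 0 → ∃ t : K, Lm J z *ᵥ f = t • v) : False := by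
  classical
  let P2 : Submodule K (V → K) :=
    { carrier := {w : V → K | ∀ a, a ∉ S → w a = 0}
      add_mem' := fun {a b} ha hb c hc => by
        simp only [Set.mem_ofPred_eq] at ha hb
        simp [ha c hc, hb c hc]
      zero_mem' := fun _ _ => rfl
      smul_mem' := fun c w hw a ha => by
        simp only [Set.mem_ofPred_eq] at hw
        simp [hw a ha] }
  let P3 : Submodule K (V → K) :=
    { carrier := {w : V → K | ∀ a, a ∉ supp J → w a = 0}
      add_mem' := fun {a b} ha hb c hc => by
        simp only [Set.mem_ofPred_eq] at ha hb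
        simp [ha c hc, hb c hc]
      zero_mem' := fun _ _ => rfl
      smul_mem' := fun c w hw a ha => by
        simp only [Set.mem_ofPred_eq] at hw
        simp [hw a ha] }
  let P1 : Submodule K (V → K) := LinearMap.range (Lm J z).mulVecLin
  have d1 : Module.finrank K P1 = tau J := hR.rank_eq J
  have d2 : Module.finrank K P2 = S.card := finrank_supported S
  have d3 : Module.finrank K P3 = (supp J).card := finrank_supported (supp J)
  have h23 : P2 ≤ P3 := fun w hw a ha => hw a (fun h => ha (hSJ h))
  have h13 : P1 ≤ P3 := by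
    rintro w ⟨g, rfl⟩ a ha
    simp only [Matrix.mulVecLin_apply, Matrix.mulVec, dotProduct]
    apply Finset.sum_eq_zero
    intro b _
    rw [Lm_outside ha, zero_mul]
  have d12 : 2 ≤ Module.finrank K (P1 ⊓ P2 : Submodule K (V → K)) := by
    have e1 := Submodule.finrank_sup_add_finrank_inf_eq P1 P2
    have e2 := Submodule.finrank_mono (sup_le h13 h23)
    omega
  -- a nonzero vector of `P1 ⊓ P2` which vanishes on `N_G`
  have key : ∃ w ∈ P1 ⊓ P2, w ≠ 0 ∧ VanishOn z G w := by
    by_cases hz : ∃ f0 : V → K, Lm G z *ᵥ f0 = 0 ∧ Lm J z *ᵥ f0 ≠ 0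
    · obtain ⟨f0, hf0, hne⟩ := hz
      let φ : (V → K) →ₗ[K] K :=
        { toFun := fun w => ∑ a, w a * f0 a
          map_add' := fun w w' => by
            simp only [Pi.add_apply, add_mul, Finset.sum_add_distrib]
          map_smul' := fun c w => by
            simp only [Pi.smul_apply, smul_eq_mul, mul_assoc, Finset.mul_sum, RingHom.id_apply] }
      let φ' : (P1 ⊓ P2 : Submodule K (V → K)) →ₗ[K] K := φ.comp (P1 ⊓ P2).subtype
      have hker : LinearMap.ker φ' ≠ ⊥ := by
        apply LinearMap.ker_ne_bot_of_finrank_lt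
        rw [Module.finrank_self]
        omega
      obtain ⟨w, hw, hw0⟩ := Submodule.exists_mem_ne_zero_of_ne_bot hker
      refine ⟨w.1, w.2, fun h => hw0 (Subtype.ext h), ?_⟩
      obtain ⟨g, hg⟩ : ∃ g, (Lm J z) *ᵥ g = w.1 := by
        obtain ⟨g, hg⟩ := w.2.1
        exact ⟨g, hg⟩
      have h1 : ∑ a, w.1 a * f0 a = 0 := hw
      obtain ⟨t0, ht0⟩ := hv f0 hf0
      have ht0' : t0 ≠ 0 := by
        rintro rfl
        apply hne
        rw [ht0, zero_smul]
      rw [← hg, dot_Lm, ht0] at h1
      have h2 : ∑ b, g b * v b = 0 := by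
        have : t0 * ∑ b, g b * v b = 0 := by
          rw [Finset.mul_sum, ← h1]
          refine Finset.sum_congr rfl fun b _ => ?_
          simp only [Pi.smul_apply, smul_eq_mul]
          ring
        exact (mul_eq_zero.1 this).resolve_left ht0'
      intro f hf
      obtain ⟨t, ht⟩ := hv f hf
      rw [← hg, dot_Lm, ht]
      have : ∑ b, g b * (t • v) b = t * ∑ b, g b * v b := by
        rw [Finset.mul_sum]
        refine Finset.sum_congr rfl fun b _ => ?_
        simp only [Pi.smul_apply, smul_eq_mul]
        ring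
      rw [this, h2, mul_zero]
    · push Not at hz
      have hne : (P1 ⊓ P2 : Submodule K (V → K)) ≠ ⊥ := by
        intro h
        rw [h, finrank_bot] at d12
        omega
      obtain ⟨w, hw, hw0⟩ := Submodule.exists_mem_ne_zero_of_ne_bot hne
      refine ⟨w, hw, hw0, ?_⟩
      obtain ⟨g, hg⟩ : ∃ g, (Lm J z) *ᵥ g = w := hw.1
      intro f hf
      rw [← hg, dot_Lm, hz f hf]
      simp
  obtain ⟨w, hw, hw0, hwv⟩ := key
  exact hw0 ((hR.indep_iff G S).1 hS w hw.2 hwv)

/-- if neither `H1` nor `H2` is killed by `G`, some row of `L_{H1}` and some row of `L_{H2}` are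
linearly independent on the kernel of `L_G` -/
theorem exists_two_rows {z : V → K} (hR : RankSpec z) {G H1 H2 : EG V}
    (hJ : (supp (H1 + H2)).card = tau (H1 + H2) + 2)
    {S : Finset V} (hSJ : S ⊆ supp (H1 + H2)) (hS4 : 4 ≤ S.card) (hS : Indep G S)
    (h1 : ¬ Kills z G H1) (h2 : ¬ Kills z G H2) :
    ∃ b1 b2 : V, ∀ c : Fin 2 → K,
      VanishOn z G (fun a => ∑ i, c i * (![fun a => Lm H1 z b1 a, fun a => Lm H2 z b2 a] :
        Fin 2 → V → K) i a) → c = 0 := by
  classical
  by_contra hcon
  push Not at hcon
  -- dependencies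
  have hdep : ∀ b1 b2 : V, ∃ c1 c2 : K, (c1 ≠ 0 ∨ c2 ≠ 0) ∧ ∀ f : V → K, Lm G z *ᵥ f = 0 →
      c1 * (Lm H1 z *ᵥ f) b1 + c2 * (Lm H2 z *ᵥ f) b2 = 0 := by
    intro b1 b2
    obtain ⟨c, hc, hc0⟩ := hcon b1 b2
    refine ⟨c 0, c 1, ?_, ?_⟩
    · by_contra h
      push Not at h
      apply hc0
      funext i
      fin_cases i
      · exact h.1
      · exact h.2
    · intro f hf
      have := hc f hf
      rw [← this]
      simp only [Fin.sum_univ_two, Matrix.cons_val_zero, Matrix.cons_val_one, add_mul,
        Finset.sum_add_distrib, Matrix.mulVec, dotProduct, Finset.mul_sum, mul_assoc]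
  unfold Kills at h1 h2
  push Not at h1 h2
  obtain ⟨f1, hf1, hn1⟩ := h1
  obtain ⟨f2, hf2, hn2⟩ := h2
  obtain ⟨β1, hβ1⟩ := Function.ne_iff.1 hn1
  obtain ⟨β2, hβ2⟩ := Function.ne_iff.1 hn2
  simp only [Pi.zero_apply] at hβ1 hβ2
  have hμ : ∀ b2 : V, ∃ μ : K, ∀ f : V → K, Lm G z *ᵥ f = 0 →
      (Lm H2 z *ᵥ f) b2 = μ * (Lm H1 z *ᵥ f) β1 := by
    intro b2
    obtain ⟨c1, c2, hc, h⟩ := hdep β1 b2
    have hc2 : c2 ≠ 0 := by
      rintro rfl
      have hc1 : c1 ≠ 0 := by simpa using hc
      have := h f1 hf1
      rw [zero_mul, add_zero] at this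
      exact hβ1 ((mul_eq_zero.1 this).resolve_left hc1)
    refine ⟨- c1 / c2, fun f hf => ?_⟩
    have := h f hf
    field_simp
    linear_combination this
  have hν : ∀ b1 : V, ∃ ν : K, ∀ f : V → K, Lm G z *ᵥ f = 0 →
      (Lm H1 z *ᵥ f) b1 = ν * (Lm H2 z *ᵥ f) β2 := by
    intro b1
    obtain ⟨c1, c2, hc, h⟩ := hdep b1 β2
    have hc1 : c1 ≠ 0 := by
      rintro rfl
      have hc2 : c2 ≠ 0 := by simpa using hc
      have := h f2 hf2
      rw [zero_mul, zero_add] at this
      exact hβ2 ((mul_eq_zero.1 this).resolve_left hc2)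
    refine ⟨- c2 / c1, fun f hf => ?_⟩
    have := h f hf
    field_simp
    linear_combination this
  choose μ hμ using hμ
  choose ν hν using hν
  refine not_line hR hJ hSJ hS4 hS (fun b => ν b * μ β2 + μ b) ?_
  intro f hf
  refine ⟨(Lm H1 z *ᵥ f) β1, ?_⟩
  funext b
  rw [Lm_add, Matrix.add_mulVec]
  simp only [Pi.add_apply, Pi.smul_apply, smul_eq_mul]
  rw [hν b f hf, hμ β2 f hf, hμ b f hf]
  ring

/-- module RES -/
theorem resSpec {z : V → K} (hC : CombSpec V) (hR : RankSpec z) (hCt : CountSpec z)
    (hT : TightSpec z) (hF : FuncSpec z) (hM : MajSpec V) : ResSpec V := by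
  intro G p D1 D2 A hp hp1 hp2 hc2 h4 hunif hAnb hAc hA
  have hs1 : p ∉ supp (kd D1) := fun h => hp1 (supp_kd_subset _ h)
  have hs2 : p ∉ supp (kd D2) := fun h => hp2 (supp_kd_subset _ h)
  obtain ⟨S, hSJ, hS4⟩ := Finset.exists_subset_card_eq h4
  have hS := hunif S hSJ hS4
  -- a killed clique is tight
  have final : ∀ E1 E2 : Finset V, p ∉ supp (kd E1) → Kills z G (kd E1) →
      (supp (kd E1 + kd E2)).card = tau (kd E1 + kd E2) + 2 →
      (∀ q ∈ A, Good G p q ∧
        (∃ S ⊆ supp (kd E1 + kd E2), S.card = 3 ∧ Indep (contr p q G) S) ∧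
        (Tight (contr p q G) (kd E1) ∨ Tight (contr p q G) (kd E2))) → Tight G (kd E1) := by
    intro E1 E2 hpE hk hcE hA
    have hall : ∀ q ∈ A, Good G p q ∧ Tight (contr p q G) (kd E1) := by
      intro q hq
      obtain ⟨hg, ⟨S, hSs, hSc, hSi⟩, ht⟩ := hA q hq
      refine ⟨hg, ht.resolve_right fun ht2 => ?_⟩
      have k1 := hF.kills_contr _ _ _ _ hk hg
      rw [hC.contr_eq_self _ _ _ hpE] at k1
      have k2 := hT.kills _ _ ht2
      have k3 : Kills z (contr p q G) (kd E1 + kd E2) := by
        intro f hf
        rw [Lm_add, Matrix.add_mulVec, k1 f hf, k2 f hf, add_zero]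
      have := hT.kills_indep _ _ _ k3 hSs hSi
      omega
    have hnb : nb (G + kd E1) p = nb G p := nb_eq_of_not_supp hpE
    have hpG : p ∈ supp (G + kd E1) := by
      have : (nb G p).Nonempty := by
        simp only [supp, mem_filter, mem_univ, true_and] at hp
        obtain ⟨u, hu⟩ := hp
        exact ⟨u, by simp only [nb, mem_filter, mem_univ, true_and]; exact hu⟩
      rw [← hnb] at this
      obtain ⟨u, hu⟩ := this
      rw [nb, mem_filter] at hu
      simp only [supp, mem_filter, mem_univ, true_and]
      exact ⟨u, hu.2⟩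
    have hle := hM.lemL (G + kd E1) p A (tau G - tau (kd E1)) hpG (by rw [hnb]; exact hAnb)
      (by rw [hnb]; exact hAc) (by
        intro q hq
        obtain ⟨hg, ht⟩ := hall q hq
        unfold Tight at ht
        rw [contr_add, hC.contr_eq_self _ _ _ hpE]
        have := hg.2
        omega)
    have h2 := hC.tau_add_le (G + kd E1) (kd E1)
    rw [add_assoc, EG_add_self, add_zero] at h2
    have h3 := hT.kills_tau _ _ hk
    unfold Tight
    omega
  by_cases hk1 : Kills z G (kd D1)
  · exact Or.inl (final D1 D2 hs1 hk1 hc2 hA)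
  by_cases hk2 : Kills z G (kd D2)
  · right
    rw [add_comm] at hc2
    refine final D2 D1 hs2 hk2 hc2 fun q hq => ?_
    obtain ⟨hg, hS', ht⟩ := hA q hq
    rw [add_comm] at hS'
    exact ⟨hg, hS', ht.symm⟩
  exfalso
  obtain ⟨b1, b2, hind⟩ := exists_two_rows hR hc2 hSJ (by omega) hS hk1 hk2
  obtain ⟨A', hA'nb, hA'c, hA'⟩ := hCt.count_const G p 2 _ hp (by
    intro i
    fin_cases i
    · exact const_row hs1
    · exact const_row hs2) hind
  -- the two sets meet
  have hmeet : (A ∩ A').Nonempty := by
    rw [Finset.nonempty_iff_ne_empty]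
    intro h
    have h1 := Finset.card_union_add_card_inter A A'
    have h2 := Finset.card_le_card (Finset.union_subset hAnb hA'nb)
    rw [h, Finset.card_empty] at h1
    omega
  obtain ⟨q, hq⟩ := hmeet
  rw [mem_inter] at hq
  obtain ⟨_, _, ht⟩ := hA q hq.1
  obtain ⟨_, hi⟩ := hA' q hq.2
  rcases ht with ht | ht
  · have hk := hT.kills _ _ ht
    have := hi ![1, 0] (by
      intro f hf
      have := congrFun (hk f hf) b1
      simp only [Pi.zero_apply] at this
      refine Eq.trans ?_ this
      simp only [Fin.sum_univ_two, Matrix.cons_val_zero, Matrix.cons_val_one, one_mul, zero_mul,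
        add_zero, Matrix.mulVec, dotProduct])
    have := congrFun this 0
    simp at this
  · have hk := hT.kills _ _ ht
    have := hi ![0, 1] (by
      intro f hf
      have := congrFun (hk f hf) b2
      simp only [Pi.zero_apply] at this
      refine Eq.trans ?_ this
      simp only [Fin.sum_univ_two, Matrix.cons_val_zero, Matrix.cons_val_one, one_mul, zero_mul,
        zero_add, Matrix.mulVec, dotProduct])
    have := congrFun this 1
    simp at this

end Pool.Agent.AOP.U55

namespace Pool.Agent.AOP

/-- module RES -/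
theorem resSpec {V : Type*} [Fintype V] [DecidableEq V] {K : Type*} [Field K]
    [Algebra (ZMod 2) K] {z : V → K} (hC : CombSpec V) (hR : RankSpec z) (hCt : CountSpec z)
    (hT : TightSpec z) (hF : FuncSpec z) (hM : MajSpec V) : ResSpec V :=
  U55.resSpec hC hR hCt hT hF hM

end Pool.Agent.AOP
end

section
/-!
# MP_7f2998_co : module UNI (uniform irreducible graphs, votes, the case `c ≥ 5`)
-/
set_option linter.unusedSectionVars false

namespace Pool.Agent.AOP.U55

open Finset Matrix

variable {V : Type*} [Fintype V] [DecidableEq V]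
variable {K : Type*} [Field K] [Algebra (ZMod 2) K]

/-! ### generalities -/

theorem mem_supp {G : EG V} {v : V} : v ∈ supp G ↔ ∃ u, adj G v u = 1 := by
  simp only [supp, mem_filter, mem_univ, true_and]

theorem mem_nb {G : EG V} {s u : V} : u ∈ nb G s ↔ adj G s u = 1 := by
  simp only [nb, mem_filter, mem_univ, true_and]

theorem adj_of_not_supp {G : EG V} {v : V} (h : v ∉ supp G) (u : V) : adj G v u = 0 := by
  apply zmod2_ne_one
  intro h1
  exact h (mem_supp.2 ⟨u, h1⟩)

theorem adj_of_not_supp' {G : EG V} {v : V} (h : v ∉ supp G) (u : V) : adj G u v = 0 := by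
  rw [adj_comm]; exact adj_of_not_supp h u

theorem add_cancel_mid (G J : EG V) : G + J + J = G := by
  rw [add_assoc, EG_add_self, add_zero]

theorem add_eq_zero_iff_eq' {G J : EG V} (h : G + J = 0) : G = J := by
  have := congrArg (· + J) h
  simp only [zero_add] at this
  rwa [add_cancel_mid] at this

theorem supp_zero_iff {G : EG V} : G = 0 ↔ supp G = ∅ := by
  constructor
  · rintro rfl
    ext a
    rw [mem_supp]
    simp only [zero_adj]
    constructor
    · rintro ⟨u, hu⟩; exact absurd hu (by decide)
    · intro h; exact absurd h (Finset.notMem_empty a)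
  · intro h
    apply EG_ext
    intro a b
    rw [zero_adj]
    exact adj_of_not_supp (by rw [h]; exact Finset.notMem_empty a) b

theorem supp_nonempty {G : EG V} (h : G ≠ 0) : (supp G).Nonempty := by
  rw [Finset.nonempty_iff_ne_empty]
  intro h'
  exact h (supp_zero_iff.2 h')

theorem good_ne {G : EG V} {v u : V} (h : Good G v u) : v ≠ u := by
  rintro rfl
  have := h.1
  rw [adj_self] at this
  exact absurd this (by decide)

theorem good_supp {G : EG V} {v u : V} (h : Good G v u) : v ∈ supp G ∧ u ∈ supp G :=
  ⟨mem_supp.2 ⟨u, h.1⟩, mem_supp.2 ⟨v, by rw [adj_comm]; exact h.1⟩⟩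

theorem not_mem_supp_contr {G : EG V} {v u : V} (h : v ≠ u) : v ∉ supp (contr v u G) := by
  rw [mem_supp]
  rintro ⟨x, hx⟩
  rw [contr_adj h, if_pos (Or.inr (Or.inl rfl))] at hx
  exact absurd hx (by decide)

theorem kills_add {z : V → K} {G A B : EG V} (hA : Kills z G A) (hB : Kills z G B) :
    Kills z G (A + B) := by
  intro f hf
  rw [Lm_add, Matrix.add_mulVec, hA f hf, hB f hf, add_zero]

theorem Lm_zero (z : V → K) : Lm (0 : EG V) z = 0 := by
  ext a b
  simp [Lm, bit]

theorem kills_zero (z : V → K) (G : EG V) : Kills z G 0 := by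
  intro f _
  rw [Lm_zero, Matrix.zero_mulVec]

theorem kills_refl (z : V → K) (G : EG V) : Kills z G G := fun _ hf => hf

theorem kills_list_sum {z : V → K} {G : EG V} (l : List (EG V)) (h : ∀ P ∈ l, Kills z G P) :
    Kills z G l.sum := by
  induction l with
  | nil => exact kills_zero z G
  | cons a l ih =>
    rw [List.sum_cons]
    exact kills_add (h a (by simp)) (ih fun P hP => h P (by simp [hP]))

theorem supp_subset_of_tight (hC : CombSpec V) {H J : EG V} (h : Tight H J) :
    supp J ⊆ supp H := by
  intro a ha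
  by_contra hn
  obtain ⟨b, hb⟩ := mem_supp.1 ha
  have hab : a ≠ b := by
    rintro rfl
    rw [adj_self] at hb
    exact absurd hb (by decide)
  have e1 := hC.contr_eq_self H a b hn
  have e2 := hC.tau_contr_le (H + J) a b hab
  have e3 : adj (H + J) a b = 1 := by rw [add_adj, adj_of_not_supp hn, zero_add, hb]
  rw [if_pos e3, contr_add, e1] at e2
  have e4 := hC.tau_contr_le J a b hab
  rw [if_pos hb] at e4
  have e5 := hC.tau_add_le (H + contr a b J) (contr a b J)
  rw [add_cancel_mid] at e5
  unfold Tight at h
  omega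

theorem tight_tau_le {H J : EG V} (h : Tight H J) : tau J ≤ tau H := by
  unfold Tight at h
  omega

theorem tight_self (hC : CombSpec V) (H : EG V) : Tight H H := by
  unfold Tight
  rw [EG_add_self, hC.tau_zero, zero_add]

/-- corollary of Theorem F: irreducible graphs are uniform -/
theorem uniform_of_irr {z : V → K} (hC : CombSpec V) (hF : ThmFSpec z) {G : EG V} (hG : Irr G)
    {S : Finset V} (hS : S ⊆ supp G) (hc : S.card + tau G ≤ (supp G).card) : Indep G S := by
  have key : ∀ (n : ℕ) (X : Finset V), X.card = n → X ⊆ supp G → n ≤ tau G → Feas G X := by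
    intro n
    induction n with
    | zero =>
      intro X hX _ _
      rw [Finset.card_eq_zero.1 hX]
      exact hC.feas_empty G
    | succ n ih =>
      intro X hX hXs hn
      by_contra hcon
      obtain ⟨J, hJt, hJs, hJc, -⟩ := hF G X hXs (Finset.card_pos.1 (by omega)) hcon
        (fun s hs => ih (X.erase s) (by rw [Finset.card_erase_of_mem hs]; omega)
          ((Finset.erase_subset _ _).trans hXs) (by omega))
      rcases hG.2 J hJt with rfl | rfl
      · rw [hC.tau_zero] at hJc
        omega
      · obtain ⟨x, hx⟩ : X.Nonempty := Finset.card_pos.1 (by omega)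
        exact (mem_sdiff.1 (hJs (hXs hx))).2 hx
  obtain ⟨Y, hY, hYc⟩ := Finset.exists_subset_card_eq (s := supp G \ S) (n := tau G) (by
    rw [Finset.card_sdiff_of_subset hS]; omega)
  exact ⟨Y, Finset.disjoint_left.2 fun a ha hb => (mem_sdiff.1 (hY ha)).2 hb, hYc,
    key _ Y rfl (hY.trans sdiff_subset) (by omega)⟩

theorem card_le_of_indep (hM : MajSpec V) {G : EG V} {S : Finset V} (hS : Indep G S)
    (hs : S ⊆ supp G) : S.card + tau G ≤ (supp G).card := by
  have h1 := hM.card_le _ _ (hM.coloop _ _ hS)
  have h2 : Disjoint S (supp G)ᶜ := by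
    rw [Finset.disjoint_left]
    intro a ha hb
    exact (Finset.mem_compl.1 hb) (hs ha)
  rw [Finset.card_union_of_disjoint h2, Finset.card_compl] at h1
  have h3 : (supp G).card ≤ Fintype.card V := Finset.card_le_univ _
  omega

/-! ### twins -/

theorem feas_twin (hC : CombSpec V) (R : EG V) (Y' : Finset V) (hY' : Feas R Y') :
    ∀ (k : ℕ) (D Y : Finset V), Y.card = k → D.card = 2 * k + 1 → Y ⊆ D →
      (∀ y ∈ Y, y ∉ supp R) → Feas (R + kd D) (Y ∪ Y') := by
  intro k
  induction k with
  | zero =>
    intro D Y hY hD _ _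
    rw [Finset.card_eq_zero.1 hY, Finset.empty_union, kd_of_card_le_one (by omega), add_zero]
    exact hY'
  | succ k ih =>
    intro D Y hY hD hYD hYR
    obtain ⟨y, hy⟩ : Y.Nonempty := Finset.card_pos.1 (by omega)
    obtain ⟨d, hd⟩ : (D \ Y).Nonempty := by
      apply Finset.card_pos.1
      rw [Finset.card_sdiff_of_subset hYD]
      omega
    rw [mem_sdiff] at hd
    have hyd : y ≠ d := fun h => hd.2 (h ▸ hy)
    have hDo : Odd D.card := ⟨k + 1, by omega⟩
    have hyY' : y ∉ Y' := fun h => hYR y hy (hC.feas_supp _ _ hY' h)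
    refine hC.feas_of_contr _ _ y d (mem_union_left _ hy) ?_ ?_
    · rw [add_adj, adj_of_not_supp (hYR y hy), zero_add, kd_adj_one hDo]
      exact ⟨hYD hy, hd.1, hyd⟩
    · rw [contr_add, hC.contr_eq_self R y d (hYR y hy), contr_kd_both' (hYD hy) hd.1 hyd hDo]
      obtain ⟨-, h2⟩ := odd_card_erase_erase (hYD hy) hd.1 hyd hDo
      have e : (Y ∪ Y').erase y = Y.erase y ∪ Y' := by
        rw [Finset.erase_union_distrib, Finset.erase_eq_of_notMem hyY']
      rw [e]
      refine ih _ _ (by rw [Finset.card_erase_of_mem hy]; omega) (by omega) ?_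
        (fun a ha => hYR a (Finset.mem_of_mem_erase ha))
      intro a ha
      rw [mem_erase] at ha ⊢
      exact ⟨fun h => hd.2 (h ▸ ha.2), mem_erase.2 ⟨ha.1, hYD ha.2⟩⟩

/-- the clique on `D` is tight in `G` as soon as half of the vertices of `D` have closed
neighbourhood `D` -/
theorem twin_tight (hC : CombSpec V) {G : EG V} {D : Finset V} (hD : Odd D.card)
    (h : D.card ≤ 2 * (D \ supp (G + kd D)).card + 1) : Tight G (kd D) := by
  obtain ⟨k, hk⟩ := hD
  have ht := tau_kd' hC (D := D) ⟨k, hk⟩
  obtain ⟨Y, hY, hYc⟩ := Finset.exists_subset_card_eq (s := D \ supp (G + kd D)) (n := k)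
    (by omega)
  obtain ⟨Y', hY', hY'c⟩ := hC.exists_feas (G + kd D)
  have h1 := feas_twin hC (G + kd D) Y' hY' k D Y hYc hk (hY.trans sdiff_subset)
    (fun y hy => (mem_sdiff.1 (hY hy)).2)
  rw [add_cancel_mid] at h1
  have h2 := hC.card_le_tau _ _ h1
  have h3 : Disjoint Y Y' := by
    rw [Finset.disjoint_left]
    intro a ha hb
    exact (mem_sdiff.1 (hY ha)).2 (hC.feas_supp _ _ hY' hb)
  rw [Finset.card_union_of_disjoint h3] at h2
  have h4 := hC.tau_add_le (G + kd D) (kd D)
  rw [add_cancel_mid] at h4
  unfold Tight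
  omega

/-- `a` and `b` are twins -/
def Twin (G : EG V) (a b : V) : Prop := ∀ x, x ≠ a → x ≠ b → adj G a x = adj G b x

theorem odd_card_insert_nb {G : EG V} (v : V) : Odd (insert v (nb G v)).card := by
  have h1 : v ∉ nb G v := by
    rw [mem_nb, adj_self]; decide
  rw [Finset.card_insert_of_notMem h1]
  have h2 : Even (nb G v).card := by
    have h3 := sum_adj G v
    have h4 : ∑ u, adj G v u = ∑ u ∈ nb G v, 1 := by
      rw [nb, Finset.sum_filter]
      refine Finset.sum_congr rfl fun u _ => ?_
      rcases zmod2_cases (adj G v u) with h | h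
      · rw [h]; rfl
      · rw [h]; rfl
    rw [h4, Finset.sum_const, nsmul_eq_mul, mul_one] at h3
    rw [even_iff_two_dvd]
    exact (ZMod.natCast_eq_zero_iff _ _).1 h3
  exact h2.add_one

/-- an irreducible graph is a clique or has a good non-twin edge at every vertex -/
theorem exists_good_nontwin (hC : CombSpec V) (hM : MajSpec V) {G : EG V} (hG : Irr G)
    (hnc : ¬ ∃ D : Finset V, Odd D.card ∧ G = kd D) {v : V} (hv : v ∈ supp G) :
    ∃ u, Good G v u ∧ ¬ Twin G v u := by
  by_contra hcon
  push Not at hcon
  obtain ⟨A, hAnb, hAc, hA⟩ := hM.maj G v ∅ hv (Finset.notMem_empty v)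
    ⟨(hC.exists_feas G).choose, Finset.disjoint_empty_right _, (hC.exists_feas G).choose_spec.2,
      (hC.exists_feas G).choose_spec.1⟩
  set D := insert v (nb G v) with hDdef
  have hDo : Odd D.card := odd_card_insert_nb v
  have hvn : v ∉ nb G v := by
    rw [mem_nb, adj_self]; decide
  have hDc : D.card = (nb G v).card + 1 := Finset.card_insert_of_notMem hvn
  -- `v` is isolated in `G + kd D`
  have hv0 : ∀ x, adj (G + kd D) v x = 0 := by
    intro x
    rw [add_adj, kd_adj hDo]
    by_cases hvx : v = x
    · simp [hvx]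
    · by_cases hx : adj G v x = 1
      · rw [if_pos ⟨by simp [hDdef], by simp [hDdef, mem_nb, hx], hvx⟩, hx]
        decide
      · rw [if_neg, zmod2_ne_one hx, add_zero]
        rintro ⟨_, h, _⟩
        rw [hDdef, mem_insert, mem_nb] at h
        rcases h with h | h
        · exact hvx h.symm
        · exact hx h
  have hA0 : ∀ a ∈ insert v A, a ∈ D \ supp (G + kd D) := by
    intro a ha
    rw [mem_insert] at ha
    rw [mem_sdiff]
    rcases ha with rfl | ha
    · refine ⟨by simp [hDdef], ?_⟩
      rw [mem_supp]
      rintro ⟨x, hx⟩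
      rw [hv0] at hx
      exact absurd hx (by decide)
    · have haD : a ∈ D := by
        rw [hDdef, mem_insert]
        exact Or.inr (hAnb ha)
      have hva : adj G v a = 1 := mem_nb.1 (hAnb ha)
      have hvna : v ≠ a := by
        rintro rfl
        exact hvn (hAnb ha)
      have ht := hcon a (hA a ha).1
      refine ⟨haD, ?_⟩
      rw [mem_supp]
      rintro ⟨x, hx⟩
      by_cases hxa : x = a
      · rw [hxa, adj_self] at hx
        exact absurd hx (by decide)
      · by_cases hxv : x = v
        · rw [hxv, adj_comm, hv0] at hx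
          exact absurd hx (by decide)
        · have h1 := hv0 x
          rw [add_adj, kd_adj hDo] at h1
          rw [add_adj, ← ht x hxv hxa, kd_adj hDo] at hx
          have h2 : (a ∈ D ∧ x ∈ D ∧ a ≠ x) ↔ (v ∈ D ∧ x ∈ D ∧ v ≠ x) := by
            constructor
            · rintro ⟨_, h, _⟩
              exact ⟨by simp [hDdef], h, Ne.symm hxv⟩
            · rintro ⟨_, h, _⟩
              exact ⟨haD, h, Ne.symm hxa⟩
          simp only [h2] at hx
          rw [h1] at hx
          exact absurd hx (by decide)
  have hvA : v ∉ A := fun h => hvn (hAnb h)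
  have h1 : (insert v A).card ≤ (D \ supp (G + kd D)).card :=
    Finset.card_le_card hA0
  rw [Finset.card_insert_of_notMem hvA] at h1
  have ht := twin_tight hC (G := G) hDo (by omega)
  rcases hG.2 _ ht with h0 | h0
  · have hDc1 : 1 < D.card := by
      rw [hDc]
      have : (nb G v).Nonempty := by
        obtain ⟨u, hu⟩ := mem_supp.1 hv
        exact ⟨u, mem_nb.2 hu⟩
      have := Finset.card_pos.2 this
      omega
    exact kd_ne_zero hDo hDc1 h0
  · exact hnc ⟨D, hDo, h0.symm⟩

/-! ### parts -/

/-- an irreducible tight part of rank `≥ 3` is inside a member of every tight decomposition -/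
theorem parts_mem {z : V → K} (hT : TightSpec z) (hU : UnqSpec V) {θ : ℕ}
    (hcl : ClassBelow V θ) {T J : EG V} (hTθ : tau T < θ) (hJ : Irr J) (hTJ : Tight T J)
    (h3 : ∃ S ⊆ supp J, S.card = 3 ∧ Indep T S) (l : List (EG V)) (hl : l.sum = T)
    (hlt : (l.map tau).sum = tau T) : ∃ H ∈ l, Tight H J := by
  by_contra hcon
  push Not at hcon
  have hk : ∀ H ∈ l, Kills z (T + J) H := by
    intro H hH
    have hTH := hT.list_tight T l hl hlt H hH
    obtain ⟨lH, h1, h2, -⟩ := hT.decomp H
    rw [← h2]
    apply kills_list_sum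
    intro P hP
    obtain ⟨hPi, hPt⟩ := h1 P hP
    have hne : J ≠ P := by
      rintro rfl
      exact hcon H hH hPt
    exact hT.kills _ _ (hU θ hcl T J P hTθ hJ hPi hTJ (hT.trans _ _ _ hTH hPt) hne h3)
  have h1 : Kills z (T + J) T := by
    have := kills_list_sum l hk
    rwa [hl] at this
  have h2 : Kills z (T + J) J := by
    have := kills_add h1 (kills_refl z (T + J))
    rwa [← add_assoc, EG_add_self, zero_add] at this
  exact hT.direct T J hTJ hJ.1 h2

/-- the VOTES lemma -/
theorem votes {z : V → K} (hC : CombSpec V) (hM : MajSpec V) (hT : TightSpec z)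
    (hU : UnqSpec V) {G : EG V} (hcl : ClassBelow V (tau G)) {v u p : V} (hg : Good G v u)
    {J : EG V} (hJ : Irr J) (hTJ : Tight (contr v u G) J) (hp : p ∈ supp (contr v u G))
    (hpJ : p ∉ supp J) (hpu : p ≠ u) {S : Finset V} (hpS : p ∉ S)
    (hS : Indep (contr v u G) S) (h3 : 3 ≤ (S ∩ supp J).card) :
    ∃ Q ⊆ nb G p, (nb G p).card ≤ 2 * Q.card ∧ ∀ q ∈ Q, q ≠ u ∧ q ≠ v ∧ Good G p q ∧
      Good (contr p q G) v u ∧ Good (contr v u G) p q ∧
      Indep (contr v u (contr p q G)) S ∧
      Tight (contr v u (contr p q G)) J ∧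
      ∃ H, Irr H ∧ Tight (contr p q G) H ∧ Tight (contr v u H) J := by
  have hvu := good_ne hg
  have hpv : p ≠ v := by
    rintro rfl
    exact not_mem_supp_contr hvu hp
  obtain ⟨A, hAnb, hAc, hA⟩ := hM.maj (contr v u G) p S hp hpS hS
  -- neighbours of `p` in the contracted graph
  have hadj' : ∀ x, x ≠ u → x ≠ v → adj (contr v u G) p x = adj G p x := by
    intro x hxu hxv
    rw [contr_adj hvu]
    by_cases hpx : p = x
    · rw [if_pos (Or.inl hpx), hpx, adj_self]
    · rw [if_neg (by push Not; exact ⟨hpx, hpv, hxv⟩), if_neg hpu, if_neg hxu, add_zero,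
        add_zero]
  have hadju : adj (contr v u G) p u = adj G p u + adj G p v := by
    rw [contr_adj hvu, if_neg (by push Not; exact ⟨hpu, hpv, hvu.symm⟩), if_neg hpu,
      if_pos rfl, add_zero]
  have hQnb : A.erase u ⊆ nb G p := by
    intro x hx
    rw [mem_erase] at hx
    have h1 := mem_nb.1 (hAnb hx.2)
    have hxv : x ≠ v := by
      rintro rfl
      rw [adj_comm, adj_of_not_supp (not_mem_supp_contr hvu)] at h1
      exact absurd h1 (by decide)
    rw [hadj' x hx.1 hxv] at h1
    exact mem_nb.2 h1
  refine ⟨A.erase u, hQnb, ?_, ?_⟩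
  · -- the count
    have hsub : ((nb G p).erase u).erase v = (nb (contr v u G) p).erase u := by
      ext x
      simp only [mem_erase, mem_nb]
      constructor
      · rintro ⟨h1, h2, h3⟩
        exact ⟨h2, by rw [hadj' x h2 h1]; exact h3⟩
      · rintro ⟨h2, h3⟩
        have hxv : x ≠ v := by
          rintro rfl
          rw [adj_comm, adj_of_not_supp (not_mem_supp_contr hvu)] at h3
          exact absurd h3 (by decide)
        exact ⟨hxv, h2, by rw [hadj' x h2 hxv] at h3; exact h3⟩
    have hc := congrArg Finset.card hsub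
    rcases zmod2_cases (adj G p u) with hau | hau <;>
      rcases zmod2_cases (adj G p v) with hav | hav
    · have m1 : u ∉ nb G p := by rw [mem_nb, hau]; decide
      have m2 : v ∉ nb G p := by rw [mem_nb, hav]; decide
      have m3 : u ∉ nb (contr v u G) p := by rw [mem_nb, hadju, hau, hav]; decide
      rw [Finset.erase_eq_of_notMem m1, Finset.erase_eq_of_notMem m2,
        Finset.erase_eq_of_notMem m3] at hc
      rw [Finset.erase_eq_of_notMem (fun h => m3 (hAnb h))]
      omega
    · have m1 : u ∉ nb G p := by rw [mem_nb, hau]; decide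
      have m2 : v ∈ nb G p := by rw [mem_nb, hav]
      have m3 : u ∈ nb (contr v u G) p := by rw [mem_nb, hadju, hau, hav]; decide
      rw [Finset.erase_eq_of_notMem m1, Finset.card_erase_of_mem m2,
        Finset.card_erase_of_mem m3] at hc
      have := Finset.card_pos.2 ⟨v, m2⟩
      have := Finset.card_pos.2 ⟨u, m3⟩
      have := Finset.pred_card_le_card_erase (s := A) (a := u)
      omega
    · have m1 : u ∈ nb G p := by rw [mem_nb, hau]
      have m2 : v ∉ (nb G p).erase u := by
        rw [mem_erase, mem_nb, hav]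
        rintro ⟨_, h⟩
        exact absurd h (by decide)
      have m3 : u ∈ nb (contr v u G) p := by rw [mem_nb, hadju, hau, hav]; decide
      rw [Finset.erase_eq_of_notMem m2, Finset.card_erase_of_mem m1,
        Finset.card_erase_of_mem m3] at hc
      have := Finset.card_pos.2 ⟨u, m1⟩
      have := Finset.card_pos.2 ⟨u, m3⟩
      have := Finset.pred_card_le_card_erase (s := A) (a := u)
      omega
    · have m1 : u ∈ nb G p := by rw [mem_nb, hau]
      have m2 : v ∈ (nb G p).erase u := by
        rw [mem_erase, mem_nb, hav]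
        exact ⟨hvu, rfl⟩
      have m3 : u ∉ nb (contr v u G) p := by rw [mem_nb, hadju, hau, hav]; decide
      rw [Finset.card_erase_of_mem m2, Finset.card_erase_of_mem m1,
        Finset.erase_eq_of_notMem m3] at hc
      rw [Finset.erase_eq_of_notMem (fun h => m3 (hAnb h))]
      have := Finset.card_pos.2 ⟨v, m2⟩
      rw [Finset.card_erase_of_mem m1] at this
      omega
  · intro q hq
    have hqA := (mem_erase.1 hq).2
    have hqu := (mem_erase.1 hq).1
    obtain ⟨hgq, hiq⟩ := hA q hqA
    have h1 := mem_nb.1 (hQnb hq)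
    have hqv : q ≠ v := by
      rintro rfl
      have := mem_nb.1 (hAnb hqA)
      rw [adj_comm, adj_of_not_supp (not_mem_supp_contr hvu)] at this
      exact absurd this (by decide)
    have hpq : p ≠ q := good_ne hgq
    have hcomm : contr p q (contr v u G) = contr v u (contr p q G) :=
      contr_comm hpv hpu hqv G
    have hvuq : adj (contr p q G) v u = 1 := by
      rw [contr_adj hpq, if_neg (by push Not; exact ⟨hvu, hpv.symm, hpu.symm⟩),
        if_neg hqv.symm, if_neg hqu.symm, add_zero, add_zero]
      exact hg.1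
    have t1 := hC.tau_contr_le G p q hpq
    rw [if_pos h1] at t1
    have t2 := hC.tau_contr_le (contr p q G) v u hvu
    rw [if_pos hvuq] at t2
    have t3 := hgq.2
    rw [hcomm] at t3 hiq
    have t4 := hg.2
    have hG1 : Good G p q := ⟨h1, by omega⟩
    have hG2 : Good (contr p q G) v u := ⟨hvuq, by omega⟩
    have hTJ' : Tight (contr v u (contr p q G)) J := by
      have := (hT.tight_contr _ _ p q hgq hTJ).1
      rwa [hcomm, hC.contr_eq_self J p q hpJ] at this
    refine ⟨hqu, hqv, hG1, hG2, hgq, hiq, hTJ', ?_⟩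
    obtain ⟨l, hl1, hl2, hl3⟩ := hT.decomp (contr p q G)
    obtain ⟨hs1, hs2⟩ := hT.list_contr _ l v u hG2 hl2 hl3
    obtain ⟨S3, hS3, hS3c⟩ := Finset.exists_subset_card_eq h3
    obtain ⟨H', hH', hH'J⟩ := parts_mem hT hU hcl (T := contr v u (contr p q G)) (by omega)
      hJ hTJ' ⟨S3, fun a ha => (mem_inter.1 (hS3 ha)).2, hS3c,
        hM.mono _ _ _ (fun a ha => (mem_inter.1 (hS3 ha)).1) hiq⟩ (l.map (contr v u)) hs1
      (by rw [List.map_map]; exact hs2)
    rw [List.mem_map] at hH'
    obtain ⟨H, hHl, rfl⟩ := hH'
    exact ⟨H, (hl1 H hHl).1, (hl1 H hHl).2, hH'J⟩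

/-- a clique whose contraction contains the irreducible part `J` -/
theorem clique_cases {z : V → K} (hC : CombSpec V) (hT : TightSpec z) {v u : V} (hvu : v ≠ u)
    {D1 : Finset V} (hD1 : Odd D1.card) {J : EG V} (hJ : Irr J)
    (ht : Tight (contr v u (kd D1)) J) :
    J = kd (supp J) ∧ Odd (supp J).card ∧ 3 ≤ (supp J).card ∧ v ∉ supp J ∧
      ((u ∉ supp J ∧ (D1 = supp J ∨ D1 = insert u (insert v (supp J)))) ∨
       (u ∈ supp J ∧ (D1 = supp J ∨ D1 = insert v ((supp J).erase u)))) := by
  -- irreducible parts of cliques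
  have key : ∀ D' : Finset V, Odd D'.card → Tight (kd D') J →
      J = kd D' ∧ supp J = D' ∧ 3 ≤ D'.card := by
    intro D' hD' h
    by_cases h1 : D'.card ≤ 1
    · exfalso
      rw [kd_of_card_le_one h1] at h
      have := hC.tau_pos _ hJ.1
      have h2 := tight_tau_le h
      rw [hC.tau_zero] at h2
      omega
    · have h3 : 3 ≤ D'.card := by
        obtain ⟨k, hk⟩ := hD'
        omega
      obtain ⟨k, hk⟩ := hD'
      have hirr := kd_irr' hC hT (k - 1) D' (by omega)
      have : J = kd D' := (hirr.2 J h).resolve_left hJ.1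
      exact ⟨this, by rw [this, supp_kd' ⟨k, hk⟩ (by omega)], h3⟩
  have hvJ : v ∉ supp J := fun h => not_mem_supp_contr hvu (supp_subset_of_tight hC ht h)
  by_cases hv : v ∈ D1
  · by_cases hu : u ∈ D1
    · rw [contr_kd_both' hv hu hvu hD1] at ht
      obtain ⟨ho, -⟩ := odd_card_erase_erase hv hu hvu hD1
      obtain ⟨h1, h2, h3⟩ := key _ ho ht
      refine ⟨by rw [h2]; exact h1, by rw [h2]; exact ho, by rw [h2]; exact h3, hvJ,
        Or.inl ⟨?_, Or.inr ?_⟩⟩
      · rw [h2]
        exact Finset.notMem_erase u _
      · rw [h2, Finset.insert_comm, Finset.insert_erase (mem_erase.2 ⟨hvu.symm, hu⟩),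
          Finset.insert_erase hv]
    · rw [contr_kd_one' hv hu hD1] at ht
      have ho : Odd (insert u (D1.erase v)).card := by
        rw [Finset.card_insert_of_notMem (fun h => hu (Finset.mem_of_mem_erase h)),
          Finset.card_erase_of_mem hv]
        have := Finset.card_pos.2 ⟨v, hv⟩
        have e : D1.card - 1 + 1 = D1.card := by omega
        rw [e]; exact hD1
      obtain ⟨h1, h2, h3⟩ := key _ ho ht
      refine ⟨by rw [h2]; exact h1, by rw [h2]; exact ho, by rw [h2]; exact h3, hvJ,
        Or.inr ⟨?_, Or.inr ?_⟩⟩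
      · rw [h2]
        exact mem_insert_self _ _
      · rw [h2, Finset.erase_insert (fun h => hu (Finset.mem_of_mem_erase h)),
          Finset.insert_erase hv]
  · rw [hC.contr_eq_self _ v u (fun h => hv (supp_kd_subset _ h))] at ht
    obtain ⟨h1, h2, h3⟩ := key _ hD1 ht
    refine ⟨by rw [h2]; exact h1, by rw [h2]; exact hD1, by rw [h2]; exact h3, hvJ, ?_⟩
    by_cases hu : u ∈ supp J
    · exact Or.inr ⟨hu, Or.inl h2.symm⟩
    · exact Or.inl ⟨hu, Or.inl h2.symm⟩

/-- resolution: if for half of the neighbours `q` of `p` the part `J` of `G/(v → u)` comes from a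
clique part of `G/(p → q)`, then `G` is not irreducible -/
theorem resolve {z : V → K} (hC : CombSpec V) (hT : TightSpec z)
    (hRes : ResSpec V) {G : EG V} (hG : Irr G)
    (huni : ∀ S ⊆ supp G, S.card = 4 → Indep G S) {v u p : V} (hg : Good G v u)
    {J : EG V} (hJ : Irr J) (hJs : supp J ⊆ supp G) (hp : p ∈ supp G) (hpJ : p ∉ supp J)
    (hpu : p ≠ u) (hpv : p ≠ v) {Q : Finset V} (hQ : Q ⊆ nb G p)
    (hQc : (nb G p).card ≤ 2 * Q.card)
    (hQ3 : ∀ q ∈ Q, Good G p q ∧ (∃ S ⊆ supp J, S.card = 3 ∧ Indep (contr p q G) S) ∧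
      ∃ D1 : Finset V, Odd D1.card ∧ Tight (contr p q G) (kd D1) ∧
        Tight (contr v u (kd D1)) J) : False := by
  have hvu := good_ne hg
  have hvG := (good_supp hg).1
  have huG := (good_supp hg).2
  have hQne : Q.Nonempty := by
    apply Finset.card_pos.1
    obtain ⟨x, hx⟩ := mem_supp.1 hp
    have := Finset.card_pos.2 ⟨x, mem_nb.2 hx⟩
    omega
  obtain ⟨q0, hq0⟩ := hQne
  obtain ⟨-, -, D0, hD0, -, hD0t⟩ := hQ3 q0 hq0
  obtain ⟨hJk, hJo, hJ3, hvJ, -⟩ := clique_cases hC hT hvu hD0 hJ hD0t
  have hD3 : 3 ≤ (supp J).card := hJ3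
  -- the general step
  have step : ∀ D2 : Finset V, p ∉ D2 → Odd D2.card → D2 ≠ ∅ →
      (supp (kd (supp J) + kd D2)).card = tau (kd (supp J) + kd D2) + 2 →
      4 ≤ (supp (kd (supp J) + kd D2)).card →
      supp (kd (supp J) + kd D2) ⊆ supp G →
      (∀ S ⊆ supp J, S.card = 3 → ∃ S' ⊆ supp (kd (supp J) + kd D2), S'.card = 3 ∧
        ∀ q ∈ Q, Indep (contr p q G) S → Indep (contr p q G) S') →
      (∀ q ∈ Q, Tight (contr p q G) (kd (supp J)) ∨ Tight (contr p q G) (kd D2)) → 
      1 < D2.card → False := by
    intro D2 hpD2 hD2o hD2e h1 h2 h3 h4 h5 h6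
    have := hRes G p (supp J) D2 Q hp hpJ hpD2 h1 h2 (fun S hS hSc => huni S (hS.trans h3) hSc)
      hQ hQc (fun q hq => by
        obtain ⟨hgq, ⟨S, hS, hSc, hSi⟩, -⟩ := hQ3 q hq
        obtain ⟨S', hS', hS'c, hS'i⟩ := h4 S hS hSc
        exact ⟨hgq, ⟨S', hS', hS'c, hS'i q hq hSi⟩, h5 q hq⟩)
    rcases this with h | h
    · rcases hG.2 _ h with h0 | h0
      · rw [← hJk] at h0
        exact hJ.1 h0
      · rw [← h0, supp_kd' hJo (by omega)] at hp
        exact hpJ hp
    · rcases hG.2 _ h with h0 | h0
      · exact kd_ne_zero hD2o h6 h0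
      · rw [← h0] at hp
        exact hpD2 (supp_kd_subset _ hp)
  by_cases huJ : u ∈ supp J
  · -- second clique: `D - u + v`
    have hD2 : insert v ((supp J).erase u) = insert v ((supp J).erase u) := rfl
    have hc1 : contr u v (kd (supp J)) = kd (insert v ((supp J).erase u)) :=
      contr_kd_one' huJ hvJ hJo
    have hvn : v ∉ (supp J).erase u := fun h => hvJ (Finset.mem_of_mem_erase h)
    have hcard : (insert v ((supp J).erase u)).card = (supp J).card := by
      rw [Finset.card_insert_of_notMem hvn, Finset.card_erase_of_mem huJ]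
      omega
    have hJk' : supp (kd (supp J)) = supp J := supp_kd' hJo (by omega)
    obtain ⟨b1, b2⟩ := two_b' hC (J := kd (supp J)) (s := u) (x := v)
      (by rw [hJk']; exact huJ) (by rw [hJk']; exact hvJ)
    have hnb : nb (kd (supp J)) u = (supp J).erase u := by
      ext x
      rw [mem_nb, kd_adj_one hJo, mem_erase]
      constructor
      · rintro ⟨_, h, h'⟩
        exact ⟨h'.symm, h⟩
      · rintro ⟨h', h⟩
        exact ⟨huJ, h, h'.symm⟩
    rw [hc1, hnb] at b1 b2
    have hins : insert u (insert v ((supp J).erase u)) = insert v (supp J) := by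
      rw [Finset.insert_comm, Finset.insert_erase huJ]
    rw [hins] at b2
    refine step (insert v ((supp J).erase u)) ?_ (by rw [hcard]; exact hJo)
      (Finset.insert_ne_empty _ _) ?_ ?_ ?_ ?_ ?_ (by omega)
    · rw [mem_insert]
      rintro (h | h)
      · exact hpv h
      · exact hpJ (Finset.mem_of_mem_erase h)
    · rw [b1, b2, Finset.card_insert_of_notMem hvJ, Finset.card_erase_of_mem huJ]
      omega
    · rw [b2, Finset.card_insert_of_notMem hvJ]
      omega
    · rw [b2]
      intro a ha
      rw [mem_insert] at ha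
      rcases ha with rfl | ha
      · exact hvG
      · exact hJs ha
    · intro S hS hSc
      exact ⟨S, by rw [b2]; exact hS.trans (Finset.subset_insert _ _), hSc, fun _ _ h => h⟩
    · intro q hq
      obtain ⟨-, -, D1, hD1, hD1t, hD1J⟩ := hQ3 q hq
      obtain ⟨-, -, -, -, h⟩ := clique_cases hC hT hvu hD1 hJ hD1J
      rcases h with ⟨h, -⟩ | ⟨-, h | h⟩
      · exact absurd huJ h
      · left; rw [← h]; exact hD1t
      · right; rw [← h]; exact hD1t
  · -- second clique: `D + u + v`
    obtain ⟨a1, a2⟩ := two_a' hC (D := supp J) (u := u) (v := v) hJo huJ hvJ hvu.symm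
    have huvJ : u ∉ insert v (supp J) := by
      rw [mem_insert]
      rintro (h | h)
      · exact hvu h.symm
      · exact huJ h
    have hcard : (insert u (insert v (supp J))).card = (supp J).card + 2 := by
      rw [Finset.card_insert_of_notMem huvJ, Finset.card_insert_of_notMem hvJ]
    refine step (insert u (insert v (supp J))) ?_ ?_
      (Finset.insert_ne_empty _ _) ?_ ?_ ?_ ?_ ?_ (by omega)
    · rw [mem_insert, mem_insert]
      rintro (h | h | h)
      · exact hpu h
      · exact hpv h
      · exact hpJ h
    · rw [hcard]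
      obtain ⟨k, hk⟩ := hJo
      exact ⟨k + 1, by omega⟩
    · rw [a1, a2, hcard]
    · rw [a2, hcard]
      omega
    · rw [a2]
      intro a ha
      rw [mem_insert, mem_insert] at ha
      rcases ha with rfl | rfl | ha
      · exact huG
      · exact hvG
      · exact hJs ha
    · intro S hS hSc
      refine ⟨S, ?_, hSc, fun _ _ h => h⟩
      rw [a2]
      exact hS.trans ((Finset.subset_insert _ _).trans (Finset.subset_insert _ _))
    · intro q hq
      obtain ⟨-, -, D1, hD1, hD1t, hD1J⟩ := hQ3 q hq
      obtain ⟨-, -, -, -, h⟩ := clique_cases hC hT hvu hD1 hJ hD1J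
      rcases h with ⟨-, h | h⟩ | ⟨h, -⟩
      · left; rw [← h]; exact hD1t
      · right; rw [← h]; exact hD1t
      · exact absurd h huJ

end Pool.Agent.AOP.U55
end

section
/-!
# MP_7f2998_co : module MAIN (classification of irreducible graphs)
-/
set_option linter.unusedSectionVars false

namespace Pool.Agent.AOP.U55

open Finset Matrix

variable {V : Type*} [Fintype V] [DecidableEq V]
variable {K : Type*} [Field K] [Algebra (ZMod 2) K]

/-- all modules needed -/
structure Ctx (z : V → K) : Prop where
  C : CombSpec V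
  M : MajSpec V
  P : GPSpec V
  R : RankSpec z
  T : TightSpec z
  F : ThmFSpec z
  U : UnqSpec V
  S : ResSpec V

/-- an irreducible non-clique with `c ≥ 4`, all smaller graphs being classified -/
structure Bad (G : EG V) : Prop where
  irr : Irr G
  ncl : ¬ ∃ D : Finset V, Odd D.card ∧ G = kd D
  big : tau G + 4 ≤ (supp G).card
  cls : ClassBelow V (tau G)

variable {z : V → K}

theorem indep_empty (hC : CombSpec V) (G : EG V) : Indep G ∅ := by
  obtain ⟨Y, hF, hc⟩ := hC.exists_feas G
  exact ⟨Y, Finset.disjoint_empty_right _, hc, hF⟩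

/-- a feasible set is disjoint from a basis -/
theorem exists_basis_disjoint (hC : CombSpec V) (hR : RankSpec z) {G : EG V} {Y : Finset V}
    (hY : Feas G Y) : ∃ S : Finset V, Disjoint S Y ∧ Indep G S ∧
      S.card + tau G = Fintype.card V := by
  classical
  let fam : Finset (Finset V) := univ.filter (fun S => Disjoint S Y ∧ Indep G S)
  have hne : fam.Nonempty := ⟨∅, by
    simp only [fam, mem_filter, mem_univ, true_and]
    exact ⟨Finset.disjoint_empty_left _, indep_empty hC G⟩⟩
  obtain ⟨S, hS, hmax⟩ := Finset.exists_max_image fam Finset.card hne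
  simp only [fam, mem_filter, mem_univ, true_and] at hS hmax
  obtain ⟨hSY, hSi⟩ := hS
  refine ⟨S, hSY, hSi, ?_⟩
  have hle : S.card + tau G ≤ Fintype.card V := by
    obtain ⟨Y', hd, hc, -⟩ := hSi
    rw [← hc, add_comm, ← Finset.card_union_of_disjoint hd]
    exact Finset.card_le_univ _
  by_contra hne'
  have hlt : S.card + tau G < Fintype.card V := lt_of_le_of_ne hle hne'
  -- the kernel of the Laplacian
  let N : Submodule K (V → K) := LinearMap.ker (Lm G z).mulVecLin
  have hN : tau G + Module.finrank K N = Fintype.card V := by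
    have h1 := LinearMap.finrank_range_add_finrank_ker (Lm G z).mulVecLin
    have h2 : Module.finrank K (LinearMap.range (Lm G z).mulVecLin) = tau G := hR.rank_eq G
    rw [h2, Module.finrank_fintype_fun_eq_card] at h1
    exact h1
  let ρ : N →ₗ[K] (S → K) :=
    { toFun := fun f a => (f : V → K) a
      map_add' := fun _ _ => rfl
      map_smul' := fun _ _ => rfl }
  have hker : LinearMap.ker ρ ≠ ⊥ := by
    apply LinearMap.ker_ne_bot_of_finrank_lt
    rw [Module.finrank_fintype_fun_eq_card, Fintype.card_coe]
    omega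
  obtain ⟨f, hf, hf0⟩ := Submodule.exists_mem_ne_zero_of_ne_bot hker
  have hfL : Lm G z *ᵥ (f : V → K) = 0 := f.2
  have hfS : ∀ a ∈ S, (f : V → K) a = 0 := by
    intro a ha
    exact congrFun (show ρ f = 0 from hf) ⟨a, ha⟩
  -- some coordinate outside of `Y` does not vanish
  have hex : ∃ a, a ∉ Y ∧ (f : V → K) a ≠ 0 := by
    by_contra hcon
    push Not at hcon
    apply hf0
    apply Subtype.ext
    funext a
    by_cases ha : a ∈ Y
    · refine lminor_ker ((hR.feas_iff G Y).1 hY) (f := (f : V → K)) ?_ ?_ a ha
      · intro y _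
        rw [hfL]; rfl
      · intro y _ b hb
        rw [hcon b hb, mul_zero]
    · exact hcon a ha
  obtain ⟨a, haY, hfa⟩ := hex
  have haS : a ∉ S := fun h => hfa (hfS a h)
  have hI : Indep G (insert a S) := by
    rw [hR.indep_iff]
    intro w hw hwv
    have h1 := hwv f hfL
    have h2 : ∑ b, w b * (f : V → K) b = w a * (f : V → K) a := by
      apply Finset.sum_eq_single a
      · intro b _ hb
        by_cases hbS : b ∈ S
        · rw [hfS b hbS, mul_zero]
        · rw [hw b (by rw [mem_insert]; push Not; exact ⟨hb, hbS⟩), zero_mul]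
      · intro h; exact absurd (mem_univ a) h
    rw [h2] at h1
    have hwa : w a = 0 := (mul_eq_zero.1 h1).resolve_right hfa
    apply (hR.indep_iff G S).1 hSi w _ hwv
    intro b hb
    by_cases hba : b = a
    · rw [hba, hwa]
    · exact hw b (by rw [mem_insert]; push Not; exact ⟨hba, hb⟩)
  have := hmax (insert a S) ⟨by
    rw [Finset.disjoint_insert_left]
    exact ⟨haY, hSY⟩, hI⟩
  rw [Finset.card_insert_of_notMem haS] at this
  omega

section ctx
variable (c : Ctx z) {G : EG V} (h : Bad G)
include c h

theorem Bad.uni {S : Finset V} (hS : S ⊆ supp G) (hc : S.card + tau G ≤ (supp G).card) :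
    Indep G S := uniform_of_irr c.C c.F h.irr hS hc

theorem Bad.uni4 {S : Finset V} (hS : S ⊆ supp G) (hc : S.card = 4) : Indep G S := by
  have := h.big
  exact h.uni c hS (by omega)

/-- good contractions are almost uniform -/
theorem Bad.gp {v u : V} (hg : Good G v u) {S : Finset V} (hS : S ⊆ (supp G).erase v)
    (hc : S.card + 1 + tau G ≤ (supp G).card) : Indep (contr v u G) S := by
  have hvS : v ∉ S := fun hv => (mem_erase.1 (hS hv)).1 rfl
  have hSG : S ⊆ supp G := hS.trans (Finset.erase_subset _ _)
  obtain ⟨hvG, huG⟩ := good_supp hg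
  by_cases hu : u ∈ S
  · have e : insert u (S.erase u) = S := Finset.insert_erase hu
    have h2 := c.P.gp2 G v u (S.erase u) hg (fun hh => hvS (Finset.mem_of_mem_erase hh))
      (Finset.notMem_erase _ _)
    rw [e] at h2
    apply h2
    apply h.uni c
    · rw [Finset.insert_subset_iff]
      exact ⟨hvG, hSG⟩
    · rw [Finset.card_insert_of_notMem hvS]
      omega
  · apply c.P.gp1 G v u S hg hvS hu
    apply h.uni c
    · rw [Finset.insert_subset_iff]
      exact ⟨huG, hSG⟩
    · rw [Finset.card_insert_of_notMem hu]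
      omega

/-- no vertex becomes isolated by a good contraction, except perhaps the merged vertex -/
theorem Bad.mem_contr {v u a : V} (hvu : v ≠ u) (ha : a ∈ supp G) (hav : a ≠ v)
    (hau : a ≠ u) : a ∈ supp (contr v u G) := by
  by_contra hn
  have h0 : ∀ x, x ≠ a → x ≠ u → x ≠ v → adj G a x = 0 := by
    intro x hxa hxu hxv
    have := adj_of_not_supp hn x
    rwa [contr_adj hvu, if_neg (by push Not; exact ⟨hxa.symm, hav, hxv⟩), if_neg hau,
      if_neg hxu, add_zero, add_zero] at this
  have h1 : adj G a u + adj G a v = 0 := by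
    have := adj_of_not_supp hn u
    rwa [contr_adj hvu, if_neg (by push Not; exact ⟨hau, hav, hvu.symm⟩), if_neg hau,
      if_pos rfl, add_zero] at this
  have h2 : adj G a u = 1 ∧ adj G a v = 1 := by
    rcases zmod2_cases (adj G a u) with e1 | e1
    · exfalso
      rw [e1, zero_add] at h1
      obtain ⟨x, hx⟩ := mem_supp.1 ha
      by_cases hxa : x = a
      · rw [hxa, adj_self] at hx; exact absurd hx (by decide)
      · by_cases hxu : x = u
        · rw [hxu, e1] at hx; exact absurd hx (by decide)
        · by_cases hxv : x = v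
          · rw [hxv, h1] at hx; exact absurd hx (by decide)
          · rw [h0 x hxa hxu hxv] at hx; exact absurd hx (by decide)
    · refine ⟨e1, ?_⟩
      rcases zmod2_cases (adj G a v) with e2 | e2
      · rw [e1, e2] at h1; exact absurd h1 (by decide)
      · exact e2
  have hcard : ({a, u, v} : Finset V).card = 3 := by
    rw [Finset.card_eq_three]
    exact ⟨a, u, v, hau, hav, hvu.symm, rfl⟩
  have hodd : Odd ({a, u, v} : Finset V).card := by rw [hcard]; decide
  have haD : a ∈ ({a, u, v} : Finset V) \ supp (G + kd {a, u, v}) := by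
    rw [mem_sdiff]
    refine ⟨by simp, ?_⟩
    rw [mem_supp]
    rintro ⟨x, hx⟩
    rw [add_adj, kd_adj hodd] at hx
    by_cases hxa : x = a
    · rw [hxa] at hx
      simp at hx
    · by_cases hxu : x = u
      · rw [hxu, h2.1, if_pos ⟨by simp, by simp, hau⟩] at hx
        exact absurd hx (by decide)
      · by_cases hxv : x = v
        · rw [hxv, h2.2, if_pos ⟨by simp, by simp, hav⟩] at hx
          exact absurd hx (by decide)
        · rw [h0 x hxa hxu hxv, if_neg (by
            simp only [mem_insert, mem_singleton]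
            rintro ⟨_, hh, _⟩
            rcases hh with hh | hh | hh
            · exact hxa hh
            · exact hxu hh
            · exact hxv hh)] at hx
          exact absurd hx (by decide)
  have hpos := Finset.card_pos.2 ⟨a, haD⟩
  have ht := twin_tight c.C (G := G) hodd (by omega)
  rcases h.irr.2 _ ht with h0' | h0'
  · exact kd_ne_zero hodd (by omega) h0'
  · exact h.ncl ⟨_, hodd, h0'.symm⟩

omit c h in
theorem u_mem_contr {v u : V} (hvu : v ≠ u) (hnt : ¬ Twin G v u) : u ∈ supp (contr v u G) := by
  unfold Twin at hnt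
  push Not at hnt
  obtain ⟨x, hxv, hxu, hne⟩ := hnt
  rw [mem_supp]
  refine ⟨x, ?_⟩
  rw [contr_adj hvu, if_neg (by push Not; exact ⟨hxu.symm, hvu.symm, hxv⟩), if_pos rfl,
    if_neg hxu, add_zero]
  rcases zmod2_cases (adj G v x) with e1 | e1 <;> rcases zmod2_cases (adj G u x) with e2 | e2
  · exact absurd (e1.trans e2.symm) hne
  · rw [e1, e2]; decide
  · rw [e1, e2]; decide
  · exact absurd (e1.trans e2.symm) hne

omit c h in
theorem twin_not_mem {v u : V} (hvu : v ≠ u) (ht : Twin G v u) : u ∉ supp (contr v u G) := by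
  rw [mem_supp]
  rintro ⟨x, hx⟩
  rw [contr_adj hvu] at hx
  by_cases h1 : u = x ∨ u = v ∨ x = v
  · rw [if_pos h1] at hx
    exact absurd hx (by decide)
  · push Not at h1
    rw [if_neg (by push Not; exact h1), if_pos rfl, if_neg h1.1.symm, add_zero,
      ht x h1.2.2 h1.1.symm, zmod2_add_self] at hx
    exact absurd hx (by decide)

/-- support of a good non-twin contraction -/
theorem Bad.supp_contr {v u : V} (hg : Good G v u) (hnt : ¬ Twin G v u) :
    supp (contr v u G) = (supp G).erase v := by
  have hvu := good_ne hg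
  obtain ⟨hvG, huG⟩ := good_supp hg
  ext a
  rw [mem_erase]
  constructor
  · intro ha
    have := c.C.supp_contr G v u hvu ha
    rw [mem_insert, mem_erase] at this
    rcases this with rfl | h2
    · exact ⟨hvu.symm, huG⟩
    · exact h2
  · rintro ⟨hav, haG⟩
    by_cases hau : a = u
    · rw [hau]; exact u_mem_contr hvu hnt
    · exact h.mem_contr c hvu haG hav hau

/-- a good contraction is not a clique on all remaining vertices -/
theorem Bad.not_clique_contr {v u : V} (hg : Good G v u)
    (hk : contr v u G = kd ((supp G).erase v)) : False := by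
  have hvu := good_ne hg
  obtain ⟨hvG, huG⟩ := good_supp hg
  set D := (supp G).erase v with hDdef
  have huD : u ∈ D := mem_erase.2 ⟨hvu.symm, huG⟩
  have hvD : v ∉ D := Finset.notMem_erase _ _
  have hDc : D.card + 1 = (supp G).card := by
    rw [hDdef, Finset.card_erase_of_mem hvG]
    have := Finset.card_pos.2 ⟨v, hvG⟩
    omega
  by_cases hDo : Odd D.card
  swap
  · have h0 : contr v u G = 0 := by rw [hk, kd, dif_neg hDo]
    have h1 := hg.2
    rw [h0, c.C.tau_zero] at h1
    obtain ⟨T, hT, hGT⟩ := tau_one' c.C G h1.symm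
    exact h.ncl ⟨T, by rw [hT]; decide, hGT⟩
  have hab : ∀ a b, a ∈ D → b ∈ D → a ≠ u → b ≠ u → a ≠ b → adj G a b = 1 := by
    intro a b ha hb hau hbu hne
    have h1 := congrArg (fun H => adj H a b) hk
    simp only [kd_adj hDo] at h1
    rw [contr_adj hvu, if_neg (by
      push Not
      exact ⟨hne, fun hh => hvD (hh ▸ ha), fun hh => hvD (hh ▸ hb)⟩), if_neg hau, if_neg hbu,
      add_zero, add_zero, if_pos ⟨ha, hb, hne⟩] at h1
    exact h1
  have huv : ∀ a, a ∈ D → a ≠ u → adj G a u + adj G a v = 1 := by
    intro a ha hau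
    have h1 := congrArg (fun H => adj H a u) hk
    simp only [kd_adj hDo] at h1
    rw [contr_adj hvu, if_neg (by
      push Not
      exact ⟨hau, fun hh => hvD (hh ▸ ha), hvu.symm⟩), if_neg hau, if_pos rfl,
      add_zero, if_pos ⟨ha, huD, hau⟩] at h1
    exact h1
  have hout : ∀ x, x ∉ D → x ≠ v → ∀ a, adj G a x = 0 := by
    intro x hx hxv a
    apply adj_of_not_supp'
    intro hh
    exact hx (mem_erase.2 ⟨hxv, hh⟩)
  let A1 := (D.erase u).filter (fun a => adj G a u = 1)
  let A2 := (D.erase u).filter (fun a => ¬ adj G a u = 1)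
  have hcard : A1.card + A2.card = D.card - 1 := by
    rw [← Finset.card_erase_of_mem huD]
    exact Finset.card_filter_add_card_filter_not _
  -- the two cliques
  have final : ∀ D1 : Finset V, Odd D1.card → D1.card = D.card → (∃ x ∈ supp G, x ∉ D1) →
      (∃ A : Finset V, D.card ≤ 2 * A.card + 1 ∧ ∀ a ∈ A, a ∈ D1 \ supp (G + kd D1)) →
      False := by
    intro D1 h1 h2 h3 ⟨A, hA1, hA2⟩
    have h4 := Finset.card_le_card (s := A) (t := D1 \ supp (G + kd D1)) hA2
    have ht := twin_tight c.C (G := G) h1 (by omega)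
    rcases h.irr.2 _ ht with h0 | h0
    · have := h.big
      exact kd_ne_zero h1 (by omega) h0
    · exact h.ncl ⟨_, h1, h0.symm⟩
  have hor : D.card ≤ 2 * A1.card + 1 ∨ D.card ≤ 2 * A2.card + 1 := by
    obtain ⟨k, hk⟩ := hDo
    omega
  rcases hor with hc | hc
  · refine final D hDo rfl ⟨v, hvG, hvD⟩ ⟨A1, hc, fun a ha => ?_⟩
    simp only [A1, mem_filter, mem_erase] at ha
    obtain ⟨⟨hau, haD⟩, ha1⟩ := ha
    rw [mem_sdiff]
    refine ⟨haD, ?_⟩
    rw [mem_supp]
    rintro ⟨x, hx⟩
    rw [add_adj, kd_adj hDo] at hx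
    by_cases hxa : x = a
    · rw [hxa] at hx; simp at hx
    · by_cases hxu : x = u
      · rw [hxu, ha1, if_pos ⟨haD, huD, hau⟩] at hx
        exact absurd hx (by decide)
      · by_cases hxv : x = v
        · have h1 := huv a haD hau
          rw [ha1] at h1
          have h2 : adj G a v = 0 := by
            rcases zmod2_cases (adj G a v) with e | e
            · exact e
            · rw [e] at h1; exact absurd h1 (by decide)
          rw [hxv, h2, if_neg (fun hh => hvD hh.2.1)] at hx
          exact absurd hx (by decide)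
        · by_cases hxD : x ∈ D
          · rw [hab a x haD hxD hau hxu (Ne.symm hxa), if_pos ⟨haD, hxD, Ne.symm hxa⟩] at hx
            exact absurd hx (by decide)
          · rw [hout x hxD hxv a, if_neg (fun hh => hxD hh.2.1)] at hx
            exact absurd hx (by decide)
  · have hvn : v ∉ D.erase u := fun hh => hvD (Finset.mem_of_mem_erase hh)
    have hcD2 : (insert v (D.erase u)).card = D.card := by
      rw [Finset.card_insert_of_notMem hvn, Finset.card_erase_of_mem huD]
      have := Finset.card_pos.2 ⟨u, huD⟩
      omega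
    have hDo2 : Odd (insert v (D.erase u)).card := by rw [hcD2]; exact hDo
    refine final (insert v (D.erase u)) hDo2 hcD2 ⟨u, huG, ?_⟩ ⟨A2, hc, fun a ha => ?_⟩
    · rw [mem_insert]
      rintro (hh | hh)
      · exact hvu hh.symm
      · exact Finset.notMem_erase _ _ hh
    · simp only [A2, mem_filter, mem_erase] at ha
      obtain ⟨⟨hau, haD⟩, ha1⟩ := ha
      have ha0 := zmod2_ne_one ha1
      have hav1 : adj G a v = 1 := by
        have h1 := huv a haD hau
        rwa [ha0, zero_add] at h1
      have haD2 : a ∈ insert v (D.erase u) := by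
        rw [mem_insert, mem_erase]; exact Or.inr ⟨hau, haD⟩
      have hav : a ≠ v := fun hh => hvD (hh ▸ haD)
      rw [mem_sdiff]
      refine ⟨haD2, ?_⟩
      rw [mem_supp]
      rintro ⟨x, hx⟩
      rw [add_adj, kd_adj hDo2] at hx
      by_cases hxa : x = a
      · rw [hxa] at hx; simp at hx
      · by_cases hxv : x = v
        · rw [hxv, hav1, if_pos ⟨haD2, mem_insert_self _ _, hav⟩] at hx
          exact absurd hx (by decide)
        · by_cases hxu : x = u
          · rw [hxu, ha0, if_neg] at hx
            · exact absurd hx (by decide)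
            · rintro ⟨_, hh, _⟩
              rw [mem_insert] at hh
              rcases hh with hh | hh
              · exact hvu hh.symm
              · exact Finset.notMem_erase _ _ hh
          · by_cases hxD : x ∈ D
            · rw [hab a x haD hxD hau hxu (Ne.symm hxa), if_pos ⟨haD2, by
                rw [mem_insert, mem_erase]; exact Or.inr ⟨hxu, hxD⟩, Ne.symm hxa⟩] at hx
              exact absurd hx (by decide)
            · rw [hout x hxD hxv a, if_neg] at hx
              · exact absurd hx (by decide)
              · rintro ⟨_, hh, _⟩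
                rw [mem_insert, mem_erase] at hh
                rcases hh with hh | hh
                · exact hxv hh
                · exact hxD hh.2

end ctx

end Pool.Agent.AOP.U55
end
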