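import Pool.Agent.Lib.MP_7f2998_co.Main

section
/-!
# MP_7f2998_co : module MAIN4 (irreducible graphs with `c = 4`)
-/
set_option linter.unusedSectionVars false

namespace Pool.Agent.AOP.U72

open Finset Matrix Pool.Agent.AOP.U55

variable {V : Type*} [Fintype V] [DecidableEq V]
variable {K : Type*} [Field K] [Algebra (ZMod 2) K]
variable {z : V → K}

/-! ### twins and transpositions -/

theorem push_swap_twin {G : EG V} {p y : V} (ht : Twin G p y) :
    push (Equiv.swap p y) G = G := by
  apply EG_ext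
  intro a b
  rw [push_adj]
  by_cases hab : a = b
  · rw [if_pos hab, hab, adj_self]
  rw [if_neg hab]
  have e : ∀ x w : V, Equiv.swap p y x = w ↔ x = Equiv.swap p y w := by
    intro x w
    constructor
    · rintro rfl; simp
    · rintro rfl; simp
  have h1 : ∑ x, ∑ w, (if Equiv.swap p y x = a ∧ Equiv.swap p y w = b then adj G x w else 0)
      = adj G (Equiv.swap p y a) (Equiv.swap p y b) := by
    rw [Finset.sum_eq_single (Equiv.swap p y a), Finset.sum_eq_single (Equiv.swap p y b)]
    · simp
    · intro w _ hw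
      rw [if_neg]
      rintro ⟨_, h⟩
      exact hw ((e _ _).1 h)
    · intro h; exact absurd (mem_univ _) h
    · intro x _ hx
      apply Finset.sum_eq_zero
      intro w _
      rw [if_neg]
      rintro ⟨h, _⟩
      exact hx ((e _ _).1 h)
    · intro h; exact absurd (mem_univ _) h
  rw [h1]
  unfold Twin at ht
  by_cases hap : a = p
  · subst hap
    rw [Equiv.swap_apply_left]
    by_cases hby : b = y
    · subst hby
      rw [Equiv.swap_apply_right, adj_comm]
    · rw [Equiv.swap_apply_of_ne_of_ne (Ne.symm hab) hby]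
      exact (ht b (Ne.symm hab) hby).symm
  · by_cases hay : a = y
    · subst hay
      rw [Equiv.swap_apply_right]
      by_cases hbp : b = p
      · subst hbp
        rw [Equiv.swap_apply_left, adj_comm]
      · rw [Equiv.swap_apply_of_ne_of_ne hbp (Ne.symm hab)]
        exact ht b hbp (Ne.symm hab)
    · rw [Equiv.swap_apply_of_ne_of_ne hap hay]
      by_cases hbp : b = p
      · subst hbp
        rw [Equiv.swap_apply_left, adj_comm, ← ht a hap hay, adj_comm]
      · by_cases hby : b = y
        · subst hby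
          rw [Equiv.swap_apply_right, adj_comm, ht a hap hay, adj_comm]
        · rw [Equiv.swap_apply_of_ne_of_ne hbp hby]

theorem indep_swap (hC : CombSpec V) {G : EG V} {p y : V} (ht : Twin G p y) {S : Finset V}
    (hp : p ∉ S) (hy : y ∉ S) (hI : Indep G (insert y S)) :
    Indep G (insert p S) := by
  obtain ⟨Y, hd, hc, hF⟩ := hI
  have h1 := hC.feas_perm G (Equiv.swap p y) Y hF
  rw [push_swap_twin ht] at h1
  refine ⟨_, ?_, by rw [Finset.card_map]; exact hc, h1⟩
  rw [Finset.disjoint_left]
  intro a ha ha'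
  rw [Finset.mem_map] at ha
  obtain ⟨x, hx, rfl⟩ := ha
  have hx' := Finset.disjoint_left.1 hd hx
  apply hx'
  rw [Equiv.coe_toEmbedding, mem_insert] at ha'
  rw [mem_insert]
  rcases ha' with h | h
  · left
    have := congrArg (Equiv.swap p y) h
    simpa using this
  · right
    have hne1 : Equiv.swap p y x ≠ p := fun h' => hp (h' ▸ h)
    have hne2 : Equiv.swap p y x ≠ y := fun h' => hy (h' ▸ h)
    have e : x = Equiv.swap p y x := by
      conv_lhs => rw [← Equiv.swap_apply_self p y x]
      exact Equiv.swap_apply_of_ne_of_ne hne1 hne2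
    rw [e]; exact h

theorem twin_contr {G : EG V} {v u p y : V} (hvu : v ≠ u) (ht : Twin G p y) (hpv : p ≠ v)
    (hpu : p ≠ u) (hyv : y ≠ v) (hyu : y ≠ u) : Twin (contr v u G) p y := by
  intro x hxp hxy
  rw [contr_adj hvu, contr_adj hvu]
  by_cases hxv : x = v
  · rw [if_pos (Or.inr (Or.inr hxv)), if_pos (Or.inr (Or.inr hxv))]
  · have e1 : ¬ (p = x ∨ p = v ∨ x = v) := by push Not; exact ⟨hxp.symm, hpv, hxv⟩
    have e2 : ¬ (y = x ∨ y = v ∨ x = v) := by push Not; exact ⟨hxy.symm, hyv, hxv⟩
    rw [if_neg e1, if_neg e2, if_neg hpu, if_neg hyu, ht x hxp hxy,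
      ht v hpv.symm hyv.symm]

section ctx
variable (c : Ctx z) {G : EG V} (h : Bad G)
include c h

theorem supp_sub {v u : V} (hvu : v ≠ u) (huG : u ∈ supp G) :
    supp (contr v u G) ⊆ (supp G).erase v := by
  intro a ha
  have := c.C.supp_contr G v u hvu ha
  rw [mem_insert] at this
  rcases this with rfl | h2
  · exact mem_erase.2 ⟨hvu.symm, huG⟩
  · exact h2

theorem five_le {v u : V} (hg : Good G v u) {J : EG V} (hJ : Irr J)
    (hTJ : Tight (contr v u G) J) : 5 ≤ (supp J).card := by
  have hs := (supp_subset_of_tight c.C hTJ).trans (supp_sub c h (good_ne hg) (good_supp hg).2)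
  have h1 := c.C.tau_pos J hJ.1
  have h2 := c.C.tau_supp J hJ.1
  obtain ⟨S, hS, hSc⟩ := Finset.exists_subset_card_eq (s := supp J) (n := 3) (by omega)
  have hb := h.big
  have h3 := h.gp c hg (hS.trans hs) (by omega)
  have h4 := c.T.kills_indep _ _ S (c.T.kills _ _ hTJ) hS h3
  by_contra hcon
  have h5 : tau J = 1 := by omega
  obtain ⟨D, hD, hJD⟩ := tau_one' c.C J h5
  have h6 : supp J = D := by rw [hJD]; exact supp_kd' (by rw [hD]; decide) (by omega)
  rw [h6] at h4
  omega

/-- CLAIM P -/
theorem claimP {v u : V} (hg : Good G v u) {J : EG V} (hJ : Irr J)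
    (hTJ : Tight (contr v u G) J) {p : V} (hp : p ∈ supp G) (hpJ : p ∉ supp J) (hpu : p ≠ u)
    (hpv : p ≠ v) : J = kd (supp J) ∧ Odd (supp J).card ∧
      (u ∈ supp J → 7 ≤ (supp J).card) := by
  have hvu := good_ne hg
  have hs := (supp_subset_of_tight c.C hTJ).trans (supp_sub c h hvu (good_supp hg).2)
  have hsG : supp J ⊆ supp G := hs.trans (Finset.erase_subset _ _)
  have h5 := five_le c h hg hJ hTJ
  have hb := h.big
  obtain ⟨B, hB, hBc⟩ := Finset.exists_subset_card_eq (s := (supp J).erase u) (n := 4) (by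
    have := Finset.pred_card_le_card_erase (s := supp J) (a := u)
    omega)
  have hBJ : B ⊆ supp J := hB.trans (Finset.erase_subset _ _)
  have hpB : p ∉ B := fun hh => hpJ (hBJ hh)
  have hBI := h.uni4 c (hBJ.trans hsG) hBc
  obtain ⟨A, hA, hAc, hAg⟩ := c.M.maj G p B hp hpB hBI
  obtain ⟨S, hS, hSc⟩ := Finset.exists_subset_card_eq (s := B) (n := 3) (by omega)
  have hSI := h.gp c hg ((hS.trans hBJ).trans hs) (by omega)
  obtain ⟨Q, hQ, hQc, hQg⟩ := votes c.C c.M c.T c.U h.cls hg hJ hTJ
    (h.mem_contr c hvu hp hpv hpu) hpJ hpu (fun hh => hpB (hS hh)) hSI (by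
      rw [Finset.inter_eq_left.2 (hS.trans hBJ)]; omega)
  have hint : (A ∩ Q).Nonempty := by
    rw [← Finset.card_pos]
    have h1 := Finset.card_union_add_card_inter A Q
    have h2 := Finset.card_le_card (Finset.union_subset hA hQ)
    omega
  obtain ⟨q, hq⟩ := hint
  rw [mem_inter] at hq
  obtain ⟨hgq, hBq⟩ := hAg q hq.1
  obtain ⟨hqu, hqv, -, -, -, -, -, H, hH, hTH, hHJ⟩ := hQg q hq.2
  have hBH : B ⊆ supp H := by
    intro a ha
    have h1 := c.C.supp_contr H v u hvu (supp_subset_of_tight c.C hHJ (hBJ ha))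
    rw [mem_insert, mem_erase] at h1
    rcases h1 with h1 | h1
    · exact absurd h1 (mem_erase.1 (hB ha)).1
    · exact h1.2
  have h6 := c.T.kills_indep _ _ B (c.T.kills _ _ hTH) hBH hBq
  have h7 : tau H < tau G := by
    have := tight_tau_le hTH
    have := hgq.2
    omega
  rcases h.cls H h7 hH with ⟨D1, hD1, hHD⟩ | h8
  · rw [hHD] at hHJ
    obtain ⟨e1, e2, e3, e4, e5⟩ := clique_cases c.C c.T hvu hD1 hJ hHJ
    refine ⟨e1, e2, fun hu => ?_⟩
    have h9 : D1.card = (supp J).card := by
      rcases e5 with ⟨hh, -⟩ | ⟨-, hh | hh⟩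
      · exact absurd hu hh
      · rw [hh]
      · rw [hh, Finset.card_insert_of_notMem (fun hh => e4 (Finset.mem_of_mem_erase hh)),
          Finset.card_erase_of_mem hu]
        omega
    have h10 := tau_kd' c.C hD1
    rw [hHD, supp_kd' hD1 (by omega)] at h6
    omega
  · omega

/-- a basis of a good non-twin contraction inside a set whose complement is feasible -/
theorem exists_four (h4 : (supp G).card = tau G + 4) {v u : V} (hg : Good G v u)
    (hnt : ¬ Twin G v u) {X : Finset V} (hX : Feas (contr v u G) X) :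
    ∃ B ⊆ supp (contr v u G) \ X, B.card = 4 ∧ Indep (contr v u G) B := by
  have hs := h.supp_contr c hg hnt
  obtain ⟨S, hSX, hSI, hSc⟩ := exists_basis_disjoint c.C c.R hX
  have h1 : (supp (contr v u G)).card + 1 = (supp G).card := by
    rw [hs, Finset.card_erase_of_mem (good_supp hg).1]
    have := Finset.card_pos.2 ⟨v, (good_supp hg).1⟩
    omega
  have h2 := hg.2
  have h3 : 4 ≤ (S ∩ supp (contr v u G)).card := by
    have e1 := Finset.card_inter_add_card_sdiff S (supp (contr v u G))
    have e2 : (S \ supp (contr v u G)).card ≤ ((supp (contr v u G))ᶜ).card :=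
      Finset.card_le_card (fun a ha => Finset.mem_compl.2 (mem_sdiff.1 ha).2)
    rw [Finset.card_compl] at e2
    have e3 : (supp (contr v u G)).card ≤ Fintype.card V := Finset.card_le_univ _
    omega
  obtain ⟨B, hB, hBc⟩ := Finset.exists_subset_card_eq h3
  refine ⟨B, fun a ha => ?_, hBc, c.M.mono _ _ _ (fun a ha => (mem_inter.1 (hB ha)).1) hSI⟩
  rw [mem_sdiff]
  exact ⟨(mem_inter.1 (hB ha)).2, Finset.disjoint_left.1 hSX (mem_inter.1 (hB ha)).1⟩

/-- final step: all votes are cliques -/
theorem fin0 (h4 : (supp G).card = tau G + 4) {v u : V} (hg : Good G v u)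
    {J : EG V} (hJ : Irr J) (hTJ : Tight (contr v u G) J) {p : V}
    (hp : p ∈ supp G) (hpJ : p ∉ supp J) (hpu : p ≠ u) (hpv : p ≠ v) {S : Finset V}
    (hSs : S ⊆ supp (contr v u G)) (hSc : S.card = 4) (hpS : p ∉ S)
    (hSI : Indep (contr v u G) S) (h3 : 3 ≤ (S ∩ supp J).card)
    (htw : ∀ q ∈ S, q ≠ u → q ∉ supp J → ¬ Twin G p q) : False := by
  have hvu := good_ne hg
  have hsub := supp_sub c h hvu (good_supp hg).2
  have hsJ := (supp_subset_of_tight c.C hTJ).trans hsub
  obtain ⟨Q, hQ, hQc, hQg⟩ := votes c.C c.M c.T c.U h.cls hg hJ hTJ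
    (h.mem_contr c hvu hp hpv hpu) hpJ hpu hpS hSI h3
  refine resolve c.C c.T c.S h.irr (fun S hS hc => h.uni4 c hS hc) hg hJ
    (hsJ.trans (Finset.erase_subset _ _)) hp hpJ hpu hpv hQ hQc ?_
  intro q hq
  obtain ⟨hqu, hqv, hgq, hgvu, -, hSIq, hTJq, H, hH, hTH, hHJ⟩ := hQg q hq
  have hpq := good_ne hgq
  refine ⟨hgq, ?_, ?_⟩
  · obtain ⟨S3, hS3, hS3c⟩ := Finset.exists_subset_card_eq h3
    refine ⟨S3, fun a ha => (mem_inter.1 (hS3 ha)).2, hS3c, ?_⟩
    refine c.M.back (contr p q G) v u S3 hgvu (fun hh => ?_)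
      (c.M.mono _ _ _ (fun a ha => (mem_inter.1 (hS3 ha)).1) hSIq)
    exact (mem_erase.1 (hsub (hSs (mem_inter.1 (hS3 hh)).1))).1 rfl
  · have hτH := tight_tau_le hTH
    have hτq := hgq.2
    have hcl := h.cls H (by omega) hH
    by_cases hk : ∃ D : Finset V, Odd D.card ∧ H = kd D
    · obtain ⟨D, hD, rfl⟩ := hk
      exact ⟨D, hD, hTH, hHJ⟩
    exfalso
    have hHc := hcl.resolve_left hk
    have hqG := (good_supp hgq).2
    -- the support of `H` contains everything but `p`, `q`
    have hall : ((supp G).erase p).erase q ⊆ supp H := by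
      intro x hx
      rw [mem_erase, mem_erase] at hx
      by_contra hxH
      obtain ⟨e1, e2, -⟩ := claimP c h hgq hH hTH hx.2.2 hxH hx.1 hx.2.1
      exact hk ⟨_, e2, e1⟩
    have e1 := Finset.card_le_card hall
    rw [Finset.card_erase_of_mem (mem_erase.2 ⟨hpq.symm, hqG⟩), Finset.card_erase_of_mem hp] at e1
    -- `H` is everything
    have hH0 : contr p q G = H := by
      apply add_eq_zero_iff_eq'
      by_contra hne
      have := c.C.tau_pos _ hne
      unfold Tight at hTH
      omega
    have hsH : supp H = ((supp G).erase p).erase q := by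
      symm
      apply Finset.eq_of_subset_of_card_le hall
      rw [Finset.card_erase_of_mem (mem_erase.2 ⟨hpq.symm, hqG⟩), Finset.card_erase_of_mem hp]
      omega
    have hqH : q ∉ supp (contr p q G) := by
      rw [hH0, hsH]
      exact Finset.notMem_erase _ _
    have htwin : Twin G p q := by
      by_contra hh
      exact hqH (u_mem_contr hpq hh)
    -- `q ∈ S`
    set T := contr v u (contr p q G) with hTdef
    have hτT : tau T + 2 = tau G := by
      have h1 : tau T + 1 = tau (contr p q G) := hgvu.2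
      omega
    have hTs : supp T ⊆ (((supp G).erase p).erase q).erase v := by
      intro a ha
      have h1 := c.C.supp_contr _ v u hvu ha
      rw [hH0, hsH, mem_insert] at h1
      rcases h1 with rfl | h1
      · rw [mem_erase, mem_erase, mem_erase]
        exact ⟨hvu.symm, hqu.symm, hpu.symm, (good_supp hg).2⟩
      · rw [mem_erase] at h1
        exact mem_erase.2 h1
    have hqS : q ∈ S := by
      by_contra hqS
      have hSW : S ⊆ (((supp G).erase p).erase q).erase v := by
        intro a ha
        have h1 := mem_erase.1 (hsub (hSs ha))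
        rw [mem_erase, mem_erase, mem_erase]
        exact ⟨h1.1, fun hh => hqS (hh ▸ ha), fun hh => hpS (hh ▸ ha), h1.2⟩
      set W := (((supp G).erase p).erase q).erase v with hW
      have hWc : W.card + 3 = (supp G).card := by
        have hvm : v ∈ ((supp G).erase p).erase q := by
          rw [mem_erase, mem_erase]
          exact ⟨hqv.symm, hpv.symm, (good_supp hg).1⟩
        rw [hW, Finset.card_erase_of_mem hvm,
          Finset.card_erase_of_mem (mem_erase.2 ⟨hpq.symm, hqG⟩), Finset.card_erase_of_mem hp]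
        have := Finset.card_pos.2 ⟨v, hvm⟩
        rw [Finset.card_erase_of_mem (mem_erase.2 ⟨hpq.symm, hqG⟩),
          Finset.card_erase_of_mem hp] at this
        omega
      have h1 := c.M.mono _ (S ∪ Wᶜ) _ (Finset.union_subset_union_right
        (Finset.compl_subset_compl.2 hTs)) (c.M.coloop _ _ hSIq)
      have h2 := c.M.card_le _ _ h1
      have h5 : Disjoint S Wᶜ := by
        rw [Finset.disjoint_left]
        intro a ha hb
        exact (Finset.mem_compl.1 hb) (hSW ha)
      rw [Finset.card_union_of_disjoint h5, Finset.card_compl] at h2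
      have h6 : W.card ≤ Fintype.card V := Finset.card_le_univ _
      omega
    have hqJ : q ∉ supp J := by
      intro hh
      have h1 := hTs (supp_subset_of_tight c.C hTJq hh)
      rw [mem_erase, mem_erase] at h1
      exact h1.2.1 rfl
    exact htw q hqS hqu hqJ htwin

theorem fin1 (h4 : (supp G).card = tau G + 4) {v u : V} (hg : Good G v u)
    {J : EG V} (hJ : Irr J) (hTJ : Tight (contr v u G) J) {p : V}
    (hp : p ∈ supp G) (hpJ : p ∉ supp J) (hpu : p ≠ u) (hpv : p ≠ v) {S : Finset V}
    (hSs : S ⊆ supp (contr v u G)) (hSc : S.card = 4) (hSJ : S ⊆ insert u (supp J))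
    (hSI : Indep (contr v u G) S) : False := by
  refine fin0 c h h4 hg hJ hTJ hp hpJ hpu hpv hSs hSc (fun hh => ?_) hSI ?_ ?_
  · have := hSJ hh
    rw [mem_insert] at this
    rcases this with h1 | h1
    · exact hpu h1
    · exact hpJ h1
  · have h1 : S.erase u ⊆ S ∩ supp J := by
      intro a ha
      rw [mem_erase] at ha
      rw [mem_inter]
      exact ⟨ha.2, (mem_insert.1 (hSJ ha.2)).resolve_left ha.1⟩
    have h2 := Finset.card_le_card h1
    have := Finset.pred_card_le_card_erase (s := S) (a := u)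
    omega
  · intro q hq hqu hqJ
    exact absurd ((mem_insert.1 (hSJ hq)).resolve_left hqu) hqJ

theorem fin2 (h4 : (supp G).card = tau G + 4) {v u : V} (hg : Good G v u)
    (hnt : ¬ Twin G v u) {J : EG V} (hJ : Irr J) (hTJ : Tight (contr v u G) J) {p : V}
    (hp : p ∈ supp G) (hpJ : p ∉ supp J) (hpu : p ≠ u) (hpv : p ≠ v) {S : Finset V}
    (hSJ : S ⊆ supp J) (hSc : S.card = 3)
    (hSI : ¬ Indep (contr v u G) (insert p S)) : False := by
  have hvu := good_ne hg
  have hsub := supp_sub c h hvu (good_supp hg).2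
  have hsJ := (supp_subset_of_tight c.C hTJ).trans hsub
  have hpS : p ∉ S := fun hh => hpJ (hSJ hh)
  have h3 := h.gp c hg (hSJ.trans hsJ) (by omega)
  obtain ⟨B, hB, hBc, hBI⟩ := exists_four c h h4 hg hnt (c.C.feas_empty (contr v u G))
  obtain ⟨y, hyB, hyS, hyI⟩ := c.M.augment _ S B h3 hBI (by omega)
  have hyp : p ≠ y := by
    rintro rfl
    exact hSI hyI
  have hys : y ∈ supp (contr v u G) := (mem_sdiff.1 (hB hyB)).1
  refine fin0 c h h4 hg hJ hTJ hp hpJ hpu hpv (S := insert y S) ?_ ?_ ?_ hyI ?_ ?_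
  · rw [Finset.insert_subset_iff]
    exact ⟨hys, hSJ.trans (supp_subset_of_tight c.C hTJ)⟩
  · rw [Finset.card_insert_of_notMem hyS, hSc]
  · rw [mem_insert]
    rintro (h1 | h1)
    · exact hyp h1
    · exact hpS h1
  · have h1 : S ⊆ insert y S ∩ supp J := fun a ha => mem_inter.2 ⟨mem_insert_of_mem ha, hSJ ha⟩
    have := Finset.card_le_card h1
    omega
  · intro q hq hqu hqJ htw
    rw [mem_insert] at hq
    rcases hq with rfl | hq
    · have hqv : q ≠ v := (mem_erase.1 (hsub hys)).1
      exact hSI (indep_swap c.C (twin_contr hvu htw hpv hpu hqv hqu) hpS hyS hyI)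
    · exact hqJ (hSJ hq)

/-- module MAIN4 -/
theorem main4 (h4 : (supp G).card = tau G + 4) {v u : V} (hg : Good G v u)
    (hnt : ¬ Twin G v u) {J : EG V} (hJ : Irr J) (hTJ : Tight (contr v u G) J) {p : V}
    (hp : p ∈ supp G) (hpJ : p ∉ supp J) (hpu : p ≠ u) (hpv : p ≠ v) : False := by
  have hvu := good_ne hg
  have hs := h.supp_contr c hg hnt
  have huG := (good_supp hg).2
  have hvG := (good_supp hg).1
  have hτ := hg.2
  have hsJ' := supp_subset_of_tight c.C hTJ
  have hsJ := hsJ'
  rw [hs] at hsJ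
  have hvJ : v ∉ supp J := fun hh => (mem_erase.1 (hsJ hh)).1 rfl
  have h5 := five_le c h hg hJ hTJ
  obtain ⟨hJk, hJo, hJ7⟩ := claimP c h hg hJ hTJ hp hpJ hpu hpv
  have hsc : (supp (contr v u G)).card + 1 = (supp G).card := by
    rw [hs, Finset.card_erase_of_mem hvG]
    have := Finset.card_pos.2 ⟨v, hvG⟩
    omega
  -- the plane
  set F := insert u (supp J) with hF
  have hFs : F ⊆ supp (contr v u G) := by
    rw [hF, Finset.insert_subset_iff]
    refine ⟨?_, hsJ'⟩
    rw [hs, mem_erase]
    exact ⟨hvu.symm, huG⟩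
  have hF4 : ∀ S ⊆ F, S.card = 4 → ¬ Indep (contr v u G) S := fun S hS hSc hSI =>
    fin1 c h h4 hg hJ hTJ hp hpJ hpu hpv (hS.trans hFs) hSc hS hSI
  obtain ⟨S3, hS3, hS3c⟩ := Finset.exists_subset_card_eq (s := supp J) (n := 3) (by omega)
  set X := supp (contr v u G) \ F with hX
  have hpX : p ∈ X := by
    rw [hX, mem_sdiff, hs, mem_erase, hF, mem_insert]
    refine ⟨⟨hpv, hp⟩, ?_⟩
    rintro (h1 | h1)
    · exact hpu h1
    · exact hpJ h1
  have hXc : X.card + F.card = (supp (contr v u G)).card := by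
    rw [hX]
    exact Finset.card_sdiff_add_card_eq_card hFs
  have hXF : supp (contr v u G) \ X = F := by
    rw [hX]
    exact Finset.sdiff_sdiff_eq_self hFs
  obtain ⟨JF, hJFt, hJFs, hJFc, hJFk⟩ := c.F (contr v u G) X sdiff_subset ⟨p, hpX⟩
    (by
      intro hcon
      obtain ⟨B, hB, hBc, hBI⟩ := exists_four c h h4 hg hnt hcon
      rw [hXF] at hB
      exact hF4 B hB hBc hBI)
    (by
      intro s hsX
      have hsX' := mem_sdiff.1 hsX
      have hsJn : s ∉ supp J := fun hh => hsX'.2 (mem_insert_of_mem hh)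
      have hsu : s ≠ u := by
        rintro rfl
        exact hsX'.2 (mem_insert_self _ _)
      have hsm := hsX'.1
      rw [hs, mem_erase] at hsm
      have hI : Indep (contr v u G) (insert s S3) := by
        by_contra hcon
        exact fin2 c h h4 hg hnt hJ hTJ hsm.2 hsJn hsu hsm.1 hS3 hS3c hcon
      obtain ⟨Y, hYd, hYc, hYF⟩ := hI
      apply c.C.feas_mono _ _ Y _ hYF
      have hYs := c.C.feas_supp _ _ hYF
      have hYsub : Y ⊆ supp (contr v u G) \ insert s S3 := by
        intro a ha
        rw [mem_sdiff]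
        exact ⟨hYs ha, Finset.disjoint_left.1 hYd ha⟩
      have hins : insert s S3 ⊆ supp (contr v u G) := by
        rw [Finset.insert_subset_iff]
        exact ⟨hsX'.1, hS3.trans hsJ'⟩
      have hYeq : Y = supp (contr v u G) \ insert s S3 := by
        apply Finset.eq_of_subset_of_card_le hYsub
        rw [Finset.card_sdiff_of_subset hins,
          Finset.card_insert_of_notMem (fun hh => hsJn (hS3 hh)), hS3c, hYc]
        omega
      rw [hYeq]
      intro a ha
      rw [mem_erase] at ha
      rw [mem_sdiff, mem_insert]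
      refine ⟨(mem_sdiff.1 ha.2).1, ?_⟩
      rintro (h1 | h1)
      · exact ha.1 h1
      · exact (mem_sdiff.1 ha.2).2 (mem_insert_of_mem (hS3 h1)))
  rw [hXF] at hJFs hJFk
  have hKJ : Kills z JF J := hJFk J (Finset.subset_insert _ _) (c.T.kills _ _ hTJ)
  have hTJF : Tight JF J := c.T.sub _ _ _ hJFt hTJ hKJ
  have hτJ := tau_kd' c.C hJo
  rw [← hJk] at hτJ
  -- the rest inside the plane
  have hFc : (u ∈ supp J ∧ F.card = (supp J).card) ∨ (u ∉ supp J ∧ F.card = (supp J).card + 1) := by
    by_cases hu : u ∈ supp J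
    · left
      refine ⟨hu, ?_⟩
      rw [hF, Finset.insert_eq_of_mem hu]
    · right
      refine ⟨hu, ?_⟩
      rw [hF, Finset.card_insert_of_notMem hu]
  have hRpos : 0 < tau (JF + J) := by
    have h6 := hTJF
    unfold Tight at h6
    rcases hFc with ⟨hu, hc⟩ | ⟨hu, hc⟩
    · have := hJ7 hu
      omega
    · omega
  obtain ⟨l, hl1, hl2, -⟩ := c.T.decomp (JF + J)
  have hlne : l ≠ [] := by
    rintro rfl
    rw [List.sum_nil] at hl2
    rw [← hl2, c.C.tau_zero] at hRpos
    exact absurd hRpos (lt_irrefl _)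
  obtain ⟨J1, hJ1l⟩ := List.exists_mem_of_ne_nil l hlne
  obtain ⟨hJ1, hRJ1⟩ := hl1 J1 hJ1l
  have hne : J1 ≠ J := by
    rintro rfl
    exact c.T.direct JF J1 hTJF hJ1.1 (c.T.kills _ _ hRJ1)
  have hTFJ1 : Tight JF J1 := c.T.trans _ _ _ (c.T.compl _ _ hTJF) hRJ1
  have hTJ1 : Tight (contr v u G) J1 := c.T.trans _ _ _ hJFt hTFJ1
  have hJ1F : supp J1 ⊆ F := (supp_subset_of_tight c.C hTFJ1).trans hJFs
  have hpF : p ∉ F := (mem_sdiff.1 hpX).2
  obtain ⟨hJ1k, hJ1o, -⟩ := claimP c h hg hJ1 hTJ1 hp (fun hh => hpF (hJ1F hh)) hpu hpv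
  -- a point of the plane outside `J1`
  have hex : ∃ p1 ∈ F, p1 ∉ supp J1 ∧ p1 ≠ u := by
    by_contra hcon
    push Not at hcon
    have hsub1 : F.erase u ⊆ supp J1 := by
      intro a ha
      rw [mem_erase] at ha
      by_contra hh
      exact ha.1 (hcon a ha.2 hh)
    have hc1 := Finset.card_le_card hsub1
    rw [Finset.card_erase_of_mem (show u ∈ F from mem_insert_self _ _)] at hc1
    have hc2 := Finset.card_le_card hJ1F
    obtain ⟨k1, hk1⟩ := hJo
    obtain ⟨k2, hk2⟩ := hJ1o
    apply hne
    rw [hJ1k, hJk]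
    congr 1
    rcases hFc with ⟨hu, hc⟩ | ⟨hu, hc⟩
    · have hFJ : F = supp J := Finset.insert_eq_of_mem hu
      rw [← hFJ]
      apply Finset.eq_of_subset_of_card_le hJ1F
      omega
    · symm
      apply Finset.eq_of_subset_of_card_le
      · have : F.erase u = supp J := Finset.erase_insert hu
        rw [← this]
        exact hsub1
      · omega
  obtain ⟨p1, hp1F, hp1J, hp1u⟩ := hex
  have hp1 := hFs hp1F
  rw [hs, mem_erase] at hp1
  have h51 := five_le c h hg hJ1 hTJ1
  obtain ⟨S1, hS1, hS1c⟩ := Finset.exists_subset_card_eq (s := supp J1) (n := 3) (by omega)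
  refine fin2 c h h4 hg hnt hJ1 hTJ1 hp1.2 hp1J hp1u hp1.1 hS1 hS1c (hF4 _ ?_ ?_)
  · rw [Finset.insert_subset_iff]
    exact ⟨hp1F, hS1.trans hJ1F⟩
  · rw [Finset.card_insert_of_notMem (fun hh => hp1J (hS1 hh)), hS1c]

end ctx

end Pool.Agent.AOP.U72
end

section
/-!
# MP_7f2998_co : module MAIN5 (parts of good contractions, the case `c ≥ 5`, assembly of the
classification theorem from the case `c = 4`)
-/
set_option linter.unusedSectionVars false

namespace Pool.Agent.AOP.U55

open Finset Matrix

variable {V : Type*} [Fintype V] [DecidableEq V]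
variable {K : Type*} [Field K] [Algebra (ZMod 2) K]
variable {z : V → K}

/-- contractions of graphs with `c ≤ 3` have `c ≤ 3` -/
theorem contr_c3 (hC : CombSpec V) {H : EG V} {v u : V} (hvu : v ≠ u)
    (h3 : (supp H).card ≤ tau H + 3)
    (ht : tau (contr v u H) + (if adj H v u = 1 then 1 else 0) = tau H) :
    (supp (contr v u H)).card ≤ tau (contr v u H) + 3 := by
  by_cases hv : v ∈ supp H
  · have h1 := Finset.card_le_card (hC.supp_contr H v u hvu)
    by_cases hu : u ∈ supp H
    · rw [Finset.insert_eq_of_mem (mem_erase.2 ⟨hvu.symm, hu⟩), Finset.card_erase_of_mem hv] at h1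
      have := Finset.card_pos.2 ⟨v, hv⟩
      split_ifs at ht <;> omega
    · have h2 : adj H v u = 0 := adj_of_not_supp' hu v
      rw [if_neg (by rw [h2]; decide), add_zero] at ht
      have h3' : (insert u ((supp H).erase v)).card ≤ ((supp H).erase v).card + 1 :=
        Finset.card_insert_le _ _
      rw [Finset.card_erase_of_mem hv] at h3'
      have := Finset.card_pos.2 ⟨v, hv⟩
      omega
  · rw [hC.contr_eq_self H v u hv]
    exact h3

section ctx
variable (c : Ctx z) {G : EG V} (h : Bad G)
include c h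

theorem Bad.part_supp {v u : V} (hg : Good G v u) {J : EG V}
    (hTJ : Tight (contr v u G) J) : supp J ⊆ (supp G).erase v := by
  have h1 := supp_subset_of_tight c.C hTJ
  have h2 := c.C.supp_contr G v u (good_ne hg)
  rw [Finset.insert_eq_of_mem (mem_erase.2 ⟨(good_ne hg).symm, (good_supp hg).2⟩)] at h2
  exact h1.trans h2

/-- parts of good contractions have many vertices -/
theorem Bad.card_part {v u : V} (hg : Good G v u) {J : EG V} (hJ : Irr J)
    (hTJ : Tight (contr v u G) J) : (supp G).card ≤ (supp J).card + tau G := by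
  by_contra hcon
  have h1 := h.gp c hg (h.part_supp c hg hTJ) (by omega)
  have h2 := c.T.kills_indep _ _ _ (c.T.kills _ _ hTJ) (Finset.Subset.refl _) h1
  have h3 := c.C.tau_pos _ hJ.1
  omega

theorem Bad.part_cls {v u : V} (hg : Good G v u) {J : EG V} (hJ : Irr J)
    (hTJ : Tight (contr v u G) J) :
    (∃ D : Finset V, Odd D.card ∧ J = kd D) ∨ (supp J).card = tau J + 3 := by
  have h1 := tight_tau_le hTJ
  have h2 := hg.2
  exact h.cls J (by omega) hJ

theorem Bad.five_le {v u : V} (hg : Good G v u) {J : EG V} (hJ : Irr J)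
    (hTJ : Tight (contr v u G) J) : 5 ≤ (supp J).card := by
  have h1 := h.card_part c hg hJ hTJ
  have h2 := h.big
  by_contra hcon
  have h4 : (supp J).card = 4 := by omega
  rcases h.part_cls c hg hJ hTJ with ⟨D, hD, rfl⟩ | h3
  · have h5 : 1 < D.card := by
      by_contra h5
      exact hJ.1 (kd_of_card_le_one (by omega))
    rw [supp_kd' hD h5] at h4
    rw [h4] at hD
    exact absurd hD (by decide)
  · obtain ⟨T, hT, rfl⟩ := tau_one' c.C J (by omega)
    have hTo : Odd T.card := by rw [hT]; decide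
    rw [supp_kd' hTo (by omega)] at h4
    omega

/-- a good non-twin contraction has an irreducible part `J` and a vertex outside of `J + u` -/
theorem Bad.exists_out {v u : V} (hg : Good G v u) (hnt : ¬ Twin G v u) :
    ∃ (J : EG V) (p : V), Irr J ∧ Tight (contr v u G) J ∧ p ∈ supp (contr v u G) ∧
      p ∉ supp J ∧ p ≠ u := by
  by_contra hcon
  push Not at hcon
  have hsup := h.supp_contr c hg hnt
  obtain ⟨hvG, huG⟩ := good_supp hg
  have hcard : (supp (contr v u G)).card + 1 = (supp G).card := by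
    rw [hsup, Finset.card_erase_of_mem hvG]
    have := Finset.card_pos.2 ⟨v, hvG⟩
    omega
  have hbig := h.big
  have htau := hg.2
  have hG0 : contr v u G ≠ 0 := by
    apply ne_zero_of_supp
    apply Finset.card_pos.1
    omega
  -- the erased support is inside every part
  have hin : ∀ J : EG V, Irr J → Tight (contr v u G) J →
      (supp (contr v u G)).erase u ⊆ supp J := by
    intro J hJ hTJ a ha
    rw [mem_erase] at ha
    by_contra hn
    exact ha.1 (hcon J a hJ hTJ ha.2 hn)
  have hinc : ∀ J : EG V, Irr J → Tight (contr v u G) J →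
      (supp (contr v u G)).card ≤ (supp J).card + 1 := by
    intro J hJ hTJ
    have h1 := Finset.card_le_card (hin J hJ hTJ)
    have h2 := Finset.pred_card_le_card_erase (s := supp (contr v u G)) (a := u)
    omega
  obtain ⟨l, hl1, hl2, -⟩ := c.T.decomp (contr v u G)
  have hlne : l ≠ [] := by
    rintro rfl
    exact hG0 hl2.symm
  obtain ⟨J1, hJ1l⟩ := List.exists_mem_of_ne_nil l hlne
  obtain ⟨hJ1, hTJ1⟩ := hl1 J1 hJ1l
  by_cases hJ' : contr v u G + J1 = 0
  · have he := add_eq_zero_iff_eq' hJ'
    rcases h.part_cls c hg hJ1 hTJ1 with ⟨D, hD, hJD⟩ | h3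
    · have h5 : 1 < D.card := by
        by_contra h5
        exact hJ1.1 (by rw [hJD]; exact kd_of_card_le_one (by omega))
      have hDs : D = (supp G).erase v := by
        rw [← hsup, he, hJD, supp_kd' hD h5]
      exact h.not_clique_contr c hg (by rw [he, hJD, hDs])
    · rw [← he] at h3
      omega
  · obtain ⟨l', hl1', hl2', -⟩ := c.T.decomp (contr v u G + J1)
    have hlne' : l' ≠ [] := by
      rintro rfl
      exact hJ' hl2'.symm
    obtain ⟨J2, hJ2l⟩ := List.exists_mem_of_ne_nil l' hlne'
    obtain ⟨hJ2, hTJ2'⟩ := hl1' J2 hJ2l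
    have hTJ' := c.T.compl _ _ hTJ1
    have hTJ2 := c.T.trans _ _ _ hTJ' hTJ2'
    have hne : J2 ≠ J1 := by
      rintro rfl
      exact c.T.direct _ _ hTJ1 hJ1.1 (c.T.kills _ _ hTJ2')
    have ht1 : tau (contr v u G + J1) + tau J1 = tau (contr v u G) := hTJ1
    have ht2 := tight_tau_le hTJ2'
    have hp1 := c.C.tau_pos _ hJ1.1
    have hp2 := c.C.tau_pos _ hJ2.1
    have hc1 := hinc J1 hJ1 hTJ1
    have hc2 := hinc J2 hJ2 hTJ2
    rcases h.part_cls c hg hJ1 hTJ1 with ⟨D1, hD1, hJD1⟩ | h3
    · rcases h.part_cls c hg hJ2 hTJ2 with ⟨D2, hD2, hJD2⟩ | h3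
      · have h51 := h.five_le c hg hJ1 hTJ1
        have h52 := h.five_le c hg hJ2 hTJ2
        have e1 : supp J1 = D1 := by
          rw [hJD1]
          apply supp_kd' hD1
          by_contra h5
          exact hJ1.1 (by rw [hJD1]; exact kd_of_card_le_one (by omega))
        have e2 : supp J2 = D2 := by
          rw [hJD2]
          apply supp_kd' hD2
          by_contra h5
          exact hJ2.1 (by rw [hJD2]; exact kd_of_card_le_one (by omega))
        have s1 := hin J1 hJ1 hTJ1
        have s2 := hin J2 hJ2 hTJ2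
        have t1 := supp_subset_of_tight c.C hTJ1
        have t2 := supp_subset_of_tight c.C hTJ2
        rw [e1] at s1 t1
        rw [e2] at s2 t2
        apply hne
        rw [hJD1, hJD2]
        congr 1
        by_cases hu1 : u ∈ D1 <;> by_cases hu2 : u ∈ D2
        · ext a
          constructor
          · intro ha
            by_cases hau : a = u
            · rw [hau]; exact hu1
            · exact s1 (mem_erase.2 ⟨hau, t2 ha⟩)
          · intro ha
            by_cases hau : a = u
            · rw [hau]; exact hu2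
            · exact s2 (mem_erase.2 ⟨hau, t1 ha⟩)
        · exfalso
          have e3 : D2 = D1.erase u := by
            ext a
            rw [mem_erase]
            constructor
            · intro ha
              have hau : a ≠ u := fun hh => hu2 (hh ▸ ha)
              exact ⟨hau, s1 (mem_erase.2 ⟨hau, t2 ha⟩)⟩
            · rintro ⟨hau, ha⟩
              exact s2 (mem_erase.2 ⟨hau, t1 ha⟩)
          rw [e3, Finset.card_erase_of_mem hu1] at hD2
          obtain ⟨k1, hk1⟩ := hD1
          obtain ⟨k2, hk2⟩ := hD2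
          omega
        · exfalso
          have e3 : D1 = D2.erase u := by
            ext a
            rw [mem_erase]
            constructor
            · intro ha
              have hau : a ≠ u := fun hh => hu1 (hh ▸ ha)
              exact ⟨hau, s2 (mem_erase.2 ⟨hau, t1 ha⟩)⟩
            · rintro ⟨hau, ha⟩
              exact s1 (mem_erase.2 ⟨hau, t2 ha⟩)
          rw [e3, Finset.card_erase_of_mem hu2] at hD1
          obtain ⟨k1, hk1⟩ := hD1
          obtain ⟨k2, hk2⟩ := hD2
          omega
        · ext a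
          constructor
          · intro ha
            have hau : a ≠ u := fun hh => hu2 (hh ▸ ha)
            exact s1 (mem_erase.2 ⟨hau, t2 ha⟩)
          · intro ha
            have hau : a ≠ u := fun hh => hu1 (hh ▸ ha)
            exact s2 (mem_erase.2 ⟨hau, t1 ha⟩)
      · omega
    · omega

/-- the case `c ≥ 5` -/
theorem Bad.five (h5 : tau G + 5 ≤ (supp G).card) : False := by
  obtain ⟨v, hv⟩ : (supp G).Nonempty := supp_nonempty h.irr.1
  obtain ⟨u, hg, hnt⟩ := exists_good_nontwin c.C c.M h.irr h.ncl hv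
  obtain ⟨J, p, hJ, hTJ, hp, hpJ, hpu⟩ := h.exists_out c hg hnt
  have hvu := good_ne hg
  have hJs := h.part_supp c hg hTJ
  have hJ5 := h.five_le c hg hJ hTJ
  obtain ⟨S, hSJ, hS4⟩ := Finset.exists_subset_card_eq (s := supp J) (n := 4) (by omega)
  have hSI : Indep (contr v u G) S := h.gp c hg (hSJ.trans hJs) (by omega)
  obtain ⟨Q, hQ, hQc, hQ'⟩ := votes c.C c.M c.T c.U h.cls hg hJ hTJ hp hpJ hpu
    (fun hh => hpJ (hSJ hh)) hSI (by
      rw [Finset.inter_eq_left.2 hSJ]; omega)
  have hpG : p ∈ supp G ∧ p ≠ v := by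
    have := c.C.supp_contr G v u hvu hp
    rw [mem_insert, mem_erase] at this
    rcases this with hh | hh
    · exact absurd hh hpu
    · exact ⟨hh.2, hh.1⟩
  refine resolve c.C c.T c.S h.irr (fun S hS hSc => h.uni4 c hS hSc) hg hJ
    (hJs.trans (Finset.erase_subset _ _)) hpG.1 hpJ hpu hpG.2 hQ hQc ?_
  intro q hq
  obtain ⟨hqu, hqv, hg1, hg2, hg3, hSi, hTJ', H, hH, hTH, hHJ⟩ := hQ' q hq
  have hvS : v ∉ S := fun hh => (mem_erase.1 (hJs (hSJ hh))).1 rfl
  refine ⟨hg1, ?_, ?_⟩
  · obtain ⟨S3, hS3, hS3c⟩ := Finset.exists_subset_card_eq (s := S) (n := 3) (by omega)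
    exact ⟨S3, hS3.trans hSJ, hS3c, c.M.mono _ _ _ hS3 (c.M.back _ _ _ _ hg2 hvS hSi)⟩
  · have h1 := tight_tau_le hTH
    have h2 := hg1.2
    rcases h.cls H (by omega) hH with ⟨D1, hD1, rfl⟩ | h3
    · exact ⟨D1, hD1, hTH, hHJ⟩
    · exfalso
      obtain ⟨h4, h5'⟩ := c.T.tight_contr _ _ v u hg2 hTH
      have h6 := contr_c3 c.C hvu (by omega) h5'
      have h7 := c.T.kills_indep _ _ S (c.T.kills _ _ h4)
        (hSJ.trans (supp_subset_of_tight c.C hHJ)) hSi
      omega

end ctx

/-- assembly: the classification theorem from the case `c = 4` -/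
theorem classSpec_of_four (c : Ctx z)
    (main4 : ∀ G : EG V, Bad G → (supp G).card = tau G + 4 → False) : ClassSpec V := by
  have key : ∀ (n : ℕ) (J : EG V), tau J = n → Irr J →
      (∃ D : Finset V, Odd D.card ∧ J = kd D) ∨ (supp J).card = tau J + 3 := by
    intro n
    induction n using Nat.strong_induction_on with
    | _ n ih =>
      intro J hJn hJ
      by_cases hk : ∃ D : Finset V, Odd D.card ∧ J = kd D
      · exact Or.inl hk
      right
      have h2 := c.C.tau_supp J hJ.1
      have hcls : ClassBelow V (tau J) := fun J' hJ' hI => ih (tau J') (by omega) J' rfl hI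
      by_cases h3 : (supp J).card = tau J + 2
      · exfalso
        have h4 := c.C.tau_pos _ hJ.1
        obtain ⟨D, hDs, hD⟩ := Finset.exists_subset_card_eq (s := supp J) (n := 3) (by omega)
        have hni : ¬ Indep J D := by
          intro hI
          have := card_le_of_indep c.M hI hDs
          omega
        have ht := c.T.tri J D hD ((c.T.tri_iff J D hD).1 hni)
        have hDo : Odd D.card := by rw [hD]; decide
        rcases hJ.2 _ ht with h0 | h0
        · exact kd_ne_zero hDo (by omega) h0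
        · exact hk ⟨D, hDo, h0.symm⟩
      · by_contra h4
        have hB : Bad J := ⟨hJ, hk, by omega, hcls⟩
        by_cases h5 : (supp J).card = tau J + 4
        · exact main4 J hB h5
        · exact hB.five c (by omega)
  exact fun J hJ => key _ J rfl hJ

end Pool.Agent.AOP.U55
end
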