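import Pool.Agent.Lib.MP_7f2998_co.Defs

/-!
# MP_7f2998_co : exact statements of the modules

Every module proves `theorem xxx : XxxSpec ...` (taking the Specs it needs as hypotheses).
`V` is the fixed vertex set, `z : V → K` a generic point (`AlgebraicIndependent (ZMod 2) z`).
-/

namespace Pool.Agent.AOP

open Finset Matrix

section comb
variable (V : Type*) [Fintype V] [DecidableEq V]

/-- module COMB: elementary combinatorics of linear orders -/
structure CombSpec : Prop where
  feas_empty : ∀ G : EG V, Feas G ∅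
  feas_mono : ∀ (G : EG V) (Y Y' : Finset V), Y ⊆ Y' → Feas G Y' → Feas G Y
  feas_supp : ∀ (G : EG V) (Y : Finset V), Feas G Y → Y ⊆ supp G
  /-- take for `v` the first element of `Y` in the order -/
  feas_step : ∀ (G : EG V) (Y : Finset V), Feas G Y → Y.Nonempty →
    ∃ v ∈ Y, ∃ u, adj G v u = 1 ∧ Feas (contr v u G) (Y.erase v)
  feas_of_contr : ∀ (G : EG V) (Y : Finset V) (v u : V), v ∈ Y → adj G v u = 1 →
    Feas (contr v u G) (Y.erase v) → Feas G Y
  card_le_tau : ∀ (G : EG V) (Y : Finset V), Feas G Y → Y.card ≤ tau G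
  exists_feas : ∀ G : EG V, ∃ Y : Finset V, Feas G Y ∧ Y.card = tau G
  tau_zero : tau (0 : EG V) = 0
  tau_pos : ∀ G : EG V, G ≠ 0 → 1 ≤ tau G
  tau_supp : ∀ G : EG V, G ≠ 0 → tau G + 2 ≤ (supp G).card
  tau_add_le : ∀ G H : EG V, tau (G + H) ≤ tau G + tau H
  tau_contr_le : ∀ (G : EG V) (v u : V), v ≠ u →
    tau (contr v u G) + (if adj G v u = 1 then 1 else 0) ≤ tau G
  /-- parity: `tau G` has the parity of the number of edges -/
  tau_tri : ∀ (G : EG V) (D : Finset V), D.card = 3 → tau (G + kd D) % 2 ≠ tau G % 2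
  feas_perm : ∀ (G : EG V) (σ : Equiv.Perm V) (Y : Finset V), Feas G Y →
    Feas (push σ G) (Y.map σ.toEmbedding)
  tau_perm : ∀ (G : EG V) (σ : Equiv.Perm V), tau (push σ G) = tau G
  supp_contr : ∀ (G : EG V) (v u : V), v ≠ u → supp (contr v u G) ⊆ insert u ((supp G).erase v)
  contr_eq_self : ∀ (G : EG V) (v u : V), v ∉ supp G → contr v u G = G

end comb

section alg
variable {V : Type*} [Fintype V] [DecidableEq V]
variable {K : Type*} [Field K] [Algebra (ZMod 2) K]

/-- the functional `w` vanishes on the kernel of `L_G` -/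
def VanishOn (z : V → K) (G : EG V) (w : V → K) : Prop :=
  ∀ f : V → K, Lm G z *ᵥ f = 0 → ∑ a, w a * f a = 0

/-- row `b` of the Laplacian of `H` vanishes on the kernel of `L_G` -/
def RowVan (z : V → K) (G H : EG V) (b : V) : Prop :=
  ∀ f : V → K, Lm G z *ᵥ f = 0 → (Lm H z *ᵥ f) b = 0

/-- `w` is a functional with zero entry at `s` and entries that do not involve `z s` -/
def Const (z : V → K) (s : V) (w : V → K) : Prop :=
  w s = 0 ∧ ∀ a, w a ∈ Subfield.closure (z '' {s}ᶜ)

/-- principal minor of the Laplacian on the vertex set `Y` -/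
def lminor (G : EG V) (z : V → K) (Y : Finset V) : K :=
  ((Lm G z).submatrix (fun a : Y => (a : V)) (fun a : Y => (a : V))).det

/-- module RANK: combinatorics = algebra at a generic point -/
structure RankSpec (z : V → K) : Prop where
  rank_eq : ∀ G : EG V, (Lm G z).rank = tau G
  feas_iff : ∀ (G : EG V) (Y : Finset V), Feas G Y ↔ lminor G z Y ≠ 0
  indep_iff : ∀ (G : EG V) (S : Finset V), Indep G S ↔
    ∀ w : V → K, (∀ a, a ∉ S → w a = 0) → VanishOn z G w → w = 0

/-- module COUNT -/
structure CountSpec (z : V → K) : Prop where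
  count_const : ∀ (G : EG V) (s : V) (m : ℕ) (y : Fin m → V → K), s ∈ supp G →
    (∀ i, Const z s (y i)) →
    (∀ c : Fin m → K, VanishOn z G (fun a => ∑ i, c i * y i a) → c = 0) →
    ∃ A ⊆ nb G s, (nb G s).card + 2 ≤ 2 * A.card ∧ ∀ x ∈ A, Good G s x ∧
      ∀ c : Fin m → K, VanishOn z (contr s x G) (fun a => ∑ i, c i * y i a) → c = 0
  count_lin : ∀ (G : EG V) (s : V) (y0 y1 : V → K), s ∈ supp G →
    Const z s y0 → Const z s y1 → ¬ VanishOn z G (fun a => y0 a + z s * y1 a) →
    ∃ A ⊆ nb G s, (nb G s).card ≤ 2 * A.card ∧ ∀ x ∈ A, Good G s x ∧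
      ¬ VanishOn z (contr s x G) (fun a => y0 a + z x * y1 a)
  spec_lin : ∀ (G : EG V) (s x : V) (y0 y1 : V → K), Good G s x →
    Const z s y0 → Const z s y1 → VanishOn z G (fun a => y0 a + z s * y1 a) →
    VanishOn z (contr s x G) (fun a => y0 a + z x * y1 a)

end alg

section poly
variable (V : Type*) [Fintype V] [DecidableEq V]

/-- module COUNT, exact form for principal minors (needed for Theorem F).
`F ⊂ K` fields of characteristic 2, `z0 : V → F` the values at the vertices `≠ s`,
`t : K` the value at `s`.  The polynomial `g` (evaluated at `t^2`) is the determinant of the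
principal minor `Y` of the Laplacian with its denominators at `s` cleared. -/
def MinorPolySpec (F K : Type*) [Field F] [Algebra (ZMod 2) F] [Field K] [Algebra (ZMod 2) K]
    [Algebra F K] : Prop :=
  ∀ (z0 : V → F) (G : EG V) (s : V) (Y : Finset V),
    s ∈ supp G → s ∈ Y → ∃ g : Polynomial F, 2 * g.natDegree + 2 ≤ (nb G s).card ∧
      (∀ t : K, (∀ i ∈ nb G s, t ≠ algebraMap F K (z0 i)) →
        Polynomial.aeval (t ^ 2) g = (∏ i ∈ nb G s, (t + algebraMap F K (z0 i))) *
          lminor G (Function.update (fun v => algebraMap F K (z0 v)) s t) Y) ∧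
      (∀ x ∈ nb G s, (∀ i ∈ nb G s, i ≠ x → z0 i ≠ z0 x) →
        Polynomial.eval ((z0 x) ^ 2) g = (∏ i ∈ (nb G s).erase x, (z0 x + z0 i)) *
          lminor (contr s x G) z0 (Y.erase s))

/-- module MAJ (consequences of COUNT + COMB, purely combinatorial statements) -/
structure MajSpec : Prop where
  maj : ∀ (G : EG V) (s : V) (S : Finset V), s ∈ supp G → s ∉ S → Indep G S →
    ∃ A ⊆ nb G s, (nb G s).card + 2 ≤ 2 * A.card ∧ ∀ x ∈ A, Good G s x ∧ Indep (contr s x G) S
  lemL : ∀ (H : EG V) (s : V) (A : Finset V) (ρ : ℕ), s ∈ supp H → A ⊆ nb H s →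
    (nb H s).card ≤ 2 * A.card → (∀ x ∈ A, tau (contr s x H) + 1 ≤ ρ) → tau H ≤ ρ
  back : ∀ (G : EG V) (s x : V) (S : Finset V), Good G s x → s ∉ S →
    Indep (contr s x G) S → Indep G S
  mono : ∀ (G : EG V) (S S' : Finset V), S ⊆ S' → Indep G S' → Indep G S
  /-- isolated vertices are coloops -/
  coloop : ∀ (G : EG V) (S : Finset V), Indep G S → Indep G (S ∪ (supp G)ᶜ)
  card_le : ∀ (G : EG V) (S : Finset V), Indep G S → S.card + tau G ≤ Fintype.card V
  /-- augmentation (matroid exchange) -/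
  augment : ∀ (G : EG V) (S S' : Finset V), Indep G S → Indep G S' → S.card < S'.card →
    ∃ a ∈ S', a ∉ S ∧ Indep G (insert a S)
  /-- there is a basis -/
  basis : ∀ G : EG V, ∃ S : Finset V, Indep G S ∧ S.card + tau G = Fintype.card V
  pair : ∀ (G : EG V) (a b : V), Indep G {a, b}

/-- module GP -/
structure GPSpec : Prop where
  gp1 : ∀ (G : EG V) (v u : V) (S : Finset V), Good G v u → v ∉ S → u ∉ S →
    Indep G (insert u S) → Indep (contr v u G) S
  gp2 : ∀ (G : EG V) (v u : V) (S : Finset V), Good G v u → v ∉ S → u ∉ S →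
    Indep G (insert v (insert u S)) → Indep (contr v u G) (insert u S)

end poly

section tight
variable {V : Type*} [Fintype V] [DecidableEq V]
variable {K : Type*} [Field K] [Algebra (ZMod 2) K]

/-- module TIGHT -/
structure TightSpec (z : V → K) : Prop where
  kills : ∀ G J : EG V, Tight G J → Kills z G J
  kills_tau : ∀ G J : EG V, Kills z G J → tau J ≤ tau G
  compl : ∀ G J : EG V, Tight G J → Tight G (G + J)
  trans : ∀ A B C : EG V, Tight A B → Tight B C → Tight A C
  orth : ∀ T J J' : EG V, Tight T J → Tight T J' → Kills z (T + J') J → Tight (T + J') J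
  sub : ∀ G B C : EG V, Tight G B → Tight G C → Kills z B C → Tight B C
  direct : ∀ T J : EG V, Tight T J → J ≠ 0 → ¬ Kills z (T + J) J
  decomp : ∀ G : EG V, ∃ l : List (EG V), (∀ J ∈ l, Irr J ∧ Tight G J) ∧ l.sum = G ∧
    (l.map tau).sum = tau G
  list_tight : ∀ (G : EG V) (l : List (EG V)), l.sum = G → (l.map tau).sum = tau G →
    ∀ J ∈ l, Tight G J
  tight_contr : ∀ (G J : EG V) (v u : V), Good G v u → Tight G J →
    Tight (contr v u G) (contr v u J) ∧
      tau (contr v u J) + (if adj J v u = 1 then 1 else 0) = tau J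
  list_contr : ∀ (G : EG V) (l : List (EG V)) (v u : V), Good G v u → l.sum = G →
    (l.map tau).sum = tau G →
    (l.map (contr v u)).sum = contr v u G ∧ (l.map (fun J => tau (contr v u J))).sum
      = tau (contr v u G)
  tri : ∀ (G : EG V) (D : Finset V), D.card = 3 → Kills z G (kd D) → Tight G (kd D)
  /-- three vertices are dependent iff the triangle is killed -/
  tri_iff : ∀ (G : EG V) (D : Finset V), D.card = 3 → (¬ Indep G D ↔ Kills z G (kd D))
  /-- the restriction of `N_T` to the support of a killed graph `J` factors through `N_J` -/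
  kills_indep : ∀ (T J : EG V) (S : Finset V), Kills z T J → S ⊆ supp J → Indep T S →
    S.card + tau J ≤ (supp J).card
  kills_indep' : ∀ (T J : EG V) (S : Finset V), Kills z T J → S ⊆ supp J → Indep T S →
    Indep J S

/-- module FUNC -/
structure FuncSpec (z : V → K) : Prop where
  /-- Lemma V -/
  transfer : ∀ (G H : EG V) (s b : V) (A : Finset V), s ∈ supp G → b ≠ s →
    A ⊆ (nb G s).erase b →
    (∀ x ∈ A, Good G s x ∧ RowVan z (contr s x G) (contr s x H) b) →
    (nb G s).card + 2 ≤ 2 * A.card + (if b ∈ nb G s then 2 else 0) → RowVan z G H b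
  kills_contr : ∀ (G H : EG V) (v u : V), Kills z G H → Good G v u →
    Kills z (contr v u G) (contr v u H)

/-- module CLIQ -/
structure CliqSpec (z : V → K) : Prop where
  feas_kd : ∀ D Y : Finset V, Y ⊆ D → 2 * Y.card + 1 = D.card → Feas (kd D) Y
  tau_kd : ∀ D : Finset V, Odd D.card → 2 * tau (kd D) + 1 = D.card
  supp_kd : ∀ D : Finset V, Odd D.card → 1 < D.card → supp (kd D) = D
  kd_irr : ∀ D : Finset V, Odd D.card → 3 ≤ D.card → Irr (kd D)
  contr_kd_both : ∀ (D : Finset V) (s x : V), s ∈ D → x ∈ D → s ≠ x → Odd D.card →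
    contr s x (kd D) = kd ((D.erase s).erase x)
  contr_kd_one : ∀ (D : Finset V) (s x : V), s ∈ D → x ∉ D → Odd D.card →
    contr s x (kd D) = kd (insert x (D.erase s))
  tau_one : ∀ G : EG V, tau G = 1 → ∃ D : Finset V, D.card = 3 ∧ G = kd D
  /-- `K_D + K_{D+u+v}` has `c = 2` -/
  two_a : ∀ (D : Finset V) (u v : V), Odd D.card → u ∉ D → v ∉ D → u ≠ v →
    tau (kd D + kd (insert u (insert v D))) = D.card ∧
    supp (kd D + kd (insert u (insert v D))) = insert u (insert v D)
  /-- `J + J[s→x]` is a complete bipartite graph and has `c = 2` -/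
  two_b : ∀ (J : EG V) (s x : V), s ∈ supp J → x ∉ supp J →
    tau (J + contr s x J) = (nb J s).card ∧
    supp (J + contr s x J) = insert s (insert x (nb J s))
  /-- uniformity of cliques -/
  mds : ∀ (D : Finset V) (w f : V → K), Odd D.card → (∀ a, a ∉ D → w a = 0) → w ≠ 0 →
    VanishOn z (kd D) w → Lm (kd D) z *ᵥ f = 0 → (∀ a, w a ≠ 0 → f a = 0) → ∀ a ∈ D, f a = 0

end tight

section main
variable (V : Type*) [Fintype V] [DecidableEq V]

/-- module THMF (Theorem F): `X` is the support of a kernel vector with minimal support -/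
def ThmFSpec {V : Type*} [Fintype V] [DecidableEq V] {K : Type*} [Field K] [Algebra (ZMod 2) K]
    (z : V → K) : Prop :=
  ∀ (G : EG V) (X : Finset V), X ⊆ supp G → X.Nonempty → ¬ Feas G X →
    (∀ s ∈ X, Feas G (X.erase s)) →
    ∃ J : EG V, Tight G J ∧ supp J ⊆ supp G \ X ∧ tau J + X.card = tau G + 1 ∧
      ∀ H : EG V, supp H ⊆ supp G \ X → Kills z G H → Kills z J H

/-- the classification of irreducible graphs with `tau < θ` -/
def ClassBelow (θ : ℕ) : Prop :=
  ∀ J : EG V, tau J < θ → Irr J →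
    (∃ D : Finset V, Odd D.card ∧ J = kd D) ∨ (supp J).card = tau J + 3

/-- module UNQ -/
def UnqSpec : Prop :=
  ∀ θ : ℕ, ClassBelow V θ → ∀ T J J' : EG V, tau T < θ → Irr J → Irr J' →
    Tight T J → Tight T J' → J ≠ J' → (∃ S ⊆ supp J, S.card = 3 ∧ Indep T S) →
    Tight (T + J) J'

/-- module RES (resolution of two alternatives) -/
def ResSpec : Prop :=
  ∀ (G : EG V) (p : V) (D1 D2 A : Finset V), p ∈ supp G → p ∉ D1 → p ∉ D2 →
    (supp (kd D1 + kd D2)).card = tau (kd D1 + kd D2) + 2 →
    4 ≤ (supp (kd D1 + kd D2)).card →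
    (∀ S ⊆ supp (kd D1 + kd D2), S.card = 4 → Indep G S) →
    A ⊆ nb G p → (nb G p).card ≤ 2 * A.card →
    (∀ q ∈ A, Good G p q ∧ (∃ S ⊆ supp (kd D1 + kd D2), S.card = 3 ∧ Indep (contr p q G) S) ∧
      (Tight (contr p q G) (kd D1) ∨ Tight (contr p q G) (kd D2))) →
    Tight G (kd D1) ∨ Tight G (kd D2)

/-- the main theorem -/
def ClassSpec : Prop :=
  ∀ J : EG V, Irr J → (∃ D : Finset V, Odd D.card ∧ J = kd D) ∨ (supp J).card = tau J + 3

end main

end Pool.Agent.AOP
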