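import Mathlib
import Pool.Agent.Lib.MP_7f2998_co.Spec
import Pool.Agent.Lib.MP_7f2998_co.Main

section
/-!
# Jacobi's formula and the key evenness lemma (module COUNT)
-/
namespace Pool.Agent.AOP.C62

open Finset Matrix Polynomial

section char2
variable {R : Type*} [CommRing R] [CharP R 2]

/-- in characteristic 2 a double sum of a symmetric function is the diagonal sum -/
theorem sum_symm_eq_diag {n : Type*} [DecidableEq n] (s : Finset n) (S : n → n → R)
    (hS : ∀ i j, S i j = S j i) : ∑ i ∈ s, ∑ j ∈ s, S i j = ∑ i ∈ s, S i i := by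
  induction s using Finset.induction_on with
  | empty => simp
  | insert x s hx ih =>
    rw [Finset.sum_insert hx, Finset.sum_insert hx]
    simp only [Finset.sum_insert hx, Finset.sum_add_distrib, ih]
    have : ∑ i ∈ s, S i x = ∑ i ∈ s, S x i := Finset.sum_congr rfl fun i _ => hS i x
    rw [this]
    have h2 : ∑ i ∈ s, S x i + ∑ i ∈ s, S x i = 0 := CharTwo.add_self_eq_zero _
    linear_combination h2

end char2

section jacobi
variable {R : Type*} [CommRing R] {n : Type*} [Fintype n] [DecidableEq n]

/-- Jacobi's formula -/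
theorem derivative_det (M : Matrix n n R[X]) :
    derivative M.det = ∑ i, ∑ k, M.adjugate i k * derivative (M k i) := by
  have h1 : ∀ i, ∑ k, M.adjugate i k * derivative (M k i)
      = (M.updateCol i (fun k => derivative (M k i))).det := by
    intro i
    rw [← cramer_apply, cramer_eq_adjugate_mulVec]
    rfl
  simp only [h1]
  rw [Matrix.det_apply, map_sum]
  simp only [Matrix.det_apply]
  rw [Finset.sum_comm]
  refine Finset.sum_congr rfl fun σ _ => ?_
  have h2 : derivative (Equiv.Perm.sign σ • ∏ i, M (σ i) i)
      = Equiv.Perm.sign σ • derivative (∏ i, M (σ i) i) := by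
    rw [Units.smul_def, Units.smul_def, derivative_smul]
  rw [h2, derivative_prod_finset, Finset.smul_sum]
  refine Finset.sum_congr rfl fun i _ => ?_
  congr 1
  rw [← Finset.mul_prod_erase univ _ (Finset.mem_univ i)]
  simp only [updateCol_self]
  rw [mul_comm]
  congr 1
  refine Finset.prod_congr rfl fun j hj => ?_
  rw [updateCol_ne (Finset.ne_of_mem_erase hj)]

end jacobi

section key
variable {R : Type*} [CommRing R] [CharP R 2] {n : Type*} [Fintype n] [DecidableEq n]

/-- evenness of the determinant of a symmetric matrix with a `0/1` row marking the variable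
diagonal entries -/
theorem derivative_det_eq_zero (M : Matrix n n R[X]) (hM : ∀ i j, M i j = M j i)
    (I : Finset n) (s : n) (hs : s ∉ I) (hrow : ∀ j, M s j = if j ∈ I then 1 else 0)
    (hdiag : ∀ i, derivative (M i i) = if i ∈ I then 1 else 0) : derivative M.det = 0 := by
  have hadj : ∀ i j, M.adjugate i j = M.adjugate j i := by
    intro i j
    have hT : Mᵀ = M := by ext i j; simp [hM j i]
    have := congrFun (congrFun (adjugate_transpose M) j) i
    rw [hT] at this
    simpa using this
  have : CharP R[X] 2 := inferInstance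
  rw [derivative_det]
  rw [sum_symm_eq_diag univ (fun i k => M.adjugate i k * derivative (M k i))
    (fun i j => by rw [hadj i j, hM j i])]
  have h1 : ∑ i, M.adjugate i i * derivative (M i i) = ∑ i ∈ I, M.adjugate i i := by
    simp only [hdiag, mul_ite, mul_one, mul_zero]
    rw [Finset.sum_ite_mem, Finset.univ_inter]
  rw [h1, ← sum_symm_eq_diag I (fun i j => M.adjugate i j) hadj]
  have h2 : ∀ i ∈ I, ∑ j ∈ I, M.adjugate i j = 0 := by
    intro i hi
    have h3 : (M.adjugate * M) i s = 0 := by
      rw [adjugate_mul]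
      simp only [Matrix.smul_apply, Matrix.one_apply]
      rw [if_neg (fun h : i = s => hs (h ▸ hi))]
      simp
    rw [Matrix.mul_apply] at h3
    rw [← h3]
    have : ∀ j, M.adjugate i j * M j s = if j ∈ I then M.adjugate i j else 0 := by
      intro j
      rw [hM j s, hrow j]
      simp
    simp only [this]
    rw [Finset.sum_ite_mem, Finset.univ_inter]
  exact Finset.sum_eq_zero h2

/-- the bordered determinant is an additive quadratic form of the border in characteristic 2 -/
theorem det_border_add (M : Matrix n n R) (hM : ∀ i j, M i j = M j i) (j : n) (y y' : n → R)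
    (hy : y j = 0) (hy' : y' j = 0) :
    ((M.updateCol j (y + y')).updateRow j (y + y')).det
      = ((M.updateCol j y).updateRow j y).det + ((M.updateCol j y').updateRow j y').det := by
  have hcomm : ∀ r c : n → R, r j = c j →
      (M.updateCol j c).updateRow j r = (M.updateRow j r).updateCol j c := by
    intro r c h
    ext a b
    by_cases ha : a = j
    · subst ha
      by_cases hb : b = a
      · subst hb; simp [h]
      · simp [updateCol_ne hb]
    · by_cases hb : b = j
      · subst hb; simp [updateRow_ne ha]
      · simp [updateRow_ne ha, updateCol_ne hb]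
  have hT : ∀ r c : n → R, r j = c j →
      ((M.updateCol j c).updateRow j r).det = ((M.updateCol j r).updateRow j c).det := by
    intro r c h
    rw [← det_transpose, hcomm r c h]
    congr 1
    ext a b
    by_cases ha : a = j
    · subst ha
      by_cases hb : b = a
      · subst hb; simp [h]
      · simp [updateRow_ne hb, updateCol_ne hb]
    · by_cases hb : b = j
      · subst hb; simp [updateRow_ne ha, updateCol_ne ha]
      · simp [updateRow_ne ha, updateRow_ne hb, updateCol_ne ha, updateCol_ne hb, hM a b]
  have e1 : ((M.updateCol j (y + y')).updateRow j (y + y')).det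
      = ((M.updateCol j (y + y')).updateRow j y).det
        + ((M.updateCol j (y + y')).updateRow j y').det := det_updateRow_add _ _ _ _
  have hz : (y + y') j = 0 := by simp [hy, hy']
  have e2 : ((M.updateCol j (y + y')).updateRow j y).det
      = ((M.updateCol j y).updateRow j y).det + ((M.updateCol j y').updateRow j y).det := by
    rw [hcomm y (y + y') (by rw [hz, hy]), det_updateCol_add, ← hcomm y y rfl,
      ← hcomm y y' (by rw [hy, hy'])]
  have e3 : ((M.updateCol j (y + y')).updateRow j y').det
      = ((M.updateCol j y).updateRow j y').det + ((M.updateCol j y').updateRow j y').det := by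
    rw [hcomm y' (y + y') (by rw [hz, hy']), det_updateCol_add, ← hcomm y' y (by rw [hy, hy']),
      ← hcomm y' y' rfl]
  rw [e1, e2, e3, hT y' y (by rw [hy, hy'])]
  have h2 : ((M.updateCol j y').updateRow j y).det + ((M.updateCol j y').updateRow j y).det = 0 :=
    CharTwo.add_self_eq_zero _
  linear_combination h2

theorem det_border_smul (M : Matrix n n R) (j : n) (y : n → R) (hy : y j = 0) (c : R) :
    ((M.updateCol j (c • y)).updateRow j (c • y)).det
      = c ^ 2 * ((M.updateCol j y).updateRow j y).det := by
  have hcomm : ∀ r c : n → R, r j = c j →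
      (M.updateCol j c).updateRow j r = (M.updateRow j r).updateCol j c := by
    intro r c h
    ext a b
    by_cases ha : a = j
    · subst ha
      by_cases hb : b = a
      · subst hb; simp [h]
      · simp [updateCol_ne hb]
    · by_cases hb : b = j
      · subst hb; simp [updateRow_ne ha]
      · simp [updateRow_ne ha, updateCol_ne hb]
  rw [det_updateRow_smul, hcomm y (c • y) (by simp [hy]), det_updateCol_smul, ← hcomm y y rfl]
  ring

/-- row-wise degree bound for determinants -/
theorem natDegree_det_le {R : Type*} [CommRing R] (M : Matrix n n R[X]) (r : n → ℕ)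
    (h : ∀ i j, (M i j).natDegree ≤ r i) : M.det.natDegree ≤ ∑ i, r i := by
  rw [Matrix.det_apply]
  refine natDegree_sum_le_of_forall_le _ _ fun σ _ => ?_
  have h1 : (Equiv.Perm.sign σ • ∏ i, M (σ i) i).natDegree ≤ (∏ i, M (σ i) i).natDegree := by
    rw [Units.smul_def]
    exact natDegree_smul_le _ _
  refine h1.trans ((natDegree_prod_le _ _).trans ?_)
  calc ∑ i, (M (σ i) i).natDegree ≤ ∑ i, r (σ i) := Finset.sum_le_sum fun i _ => h _ _
    _ = ∑ i, r i := Equiv.sum_comp σ r

end key

end Pool.Agent.AOP.C62
end

section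
/-!
# The cleared bordered matrix (module COUNT)
-/
namespace Pool.Agent.AOP.C62

open Finset Matrix Polynomial

variable {V : Type*} [Fintype V] [DecidableEq V]

theorem zmod2_eq_zero_or_one (a : ZMod 2) : a = 0 ∨ a = 1 := by
  revert a; decide

section bit
variable {K : Type*} [Field K] [Algebra (ZMod 2) K]

@[simp] theorem bit_zero : (bit (0 : ZMod 2) : K) = 0 := map_zero _
@[simp] theorem bit_one : (bit (1 : ZMod 2) : K) = 1 := map_one _
@[simp] theorem bit_add (a b : ZMod 2) : (bit (a + b) : K) = bit a + bit b := map_add _ _ _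

theorem bit_eq_ite (a : ZMod 2) : (bit a : K) = if a = 1 then 1 else 0 := by
  rcases zmod2_eq_zero_or_one a with h | h
  · subst h; simp
  · subst h; simp

theorem charTwo (K : Type*) [Field K] [Algebra (ZMod 2) K] : CharP K 2 :=
  charP_of_injective_algebraMap (algebraMap (ZMod 2) K).injective 2

theorem add_self_zero {K : Type*} [Field K] [Algebra (ZMod 2) K] (a : K) : a + a = 0 := by
  have := charTwo K
  exact CharTwo.add_self_eq_zero a

theorem add_eq_zero_iff' {K : Type*} [Field K] [Algebra (ZMod 2) K] {a b : K} :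
    a + b = 0 ↔ a = b := by
  have := charTwo K
  exact CharTwo.add_eq_zero

/-- explicit action of the Laplacian -/
theorem Lm_mulVec (G : EG V) (z f : V → K) (a : V) :
    (Lm G z *ᵥ f) a = ∑ c, (bit (adj G a c) : K) * ((f a + f c) / (z a + z c)) := by
  simp only [Matrix.mulVec, dotProduct, Lm]
  rw [← Finset.add_sum_erase _ _ (Finset.mem_univ a)]
  have h1 : ∑ x ∈ univ.erase a, (if a = x then ∑ c, (bit (adj G a c) : K) / (z a + z c)
        else (bit (adj G a x) : K) / (z a + z x)) * f x
      = ∑ x ∈ univ.erase a, (bit (adj G a x) : K) / (z a + z x) * f x := by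
    refine Finset.sum_congr rfl fun x hx => ?_
    rw [if_neg (fun h : a = x => (Finset.ne_of_mem_erase hx) h.symm)]
  rw [h1, if_pos rfl, Finset.sum_mul]
  have h2 : ∑ x ∈ univ.erase a, (bit (adj G a x) : K) / (z a + z x) * f x
      = ∑ x, (bit (adj G a x) : K) / (z a + z x) * f x := by
    rw [← Finset.add_sum_erase univ (fun x => (bit (adj G a x) : K) / (z a + z x) * f x)
      (Finset.mem_univ a)]
    simp
  rw [h2, ← Finset.sum_add_distrib]
  refine Finset.sum_congr rfl fun x _ => ?_
  ring

theorem Lm_symm (G : EG V) (z : V → K) (a b : V) : Lm G z a b = Lm G z b a := by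
  simp only [Lm]
  by_cases h : a = b
  · subst h; rfl
  · rw [if_neg h, if_neg (fun h' => h h'.symm), adj_comm G a b, add_comm]

theorem Lm_add (G H : EG V) (z : V → K) : Lm (G + H) z = Lm G z + Lm H z := by
  ext a b
  simp only [Lm, Matrix.add_apply, add_adj, bit_add]
  by_cases h : a = b
  · simp only [if_pos h, ← Finset.sum_add_distrib]
    refine Finset.sum_congr rfl fun x _ => ?_
    ring
  · simp only [if_neg h]
    ring

end bit

section BB
variable {ι : Type*} [Fintype ι] [DecidableEq ι]
variable {F : Type*} [Field F] [Algebra (ZMod 2) F]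

/-- Laplacian of `G - s` -/
def Lm0 (G : EG V) (s : V) (z0 : V → F) : Matrix V V F := fun u v =>
  if u = s ∨ v = s then 0
  else if u = v then ∑ c ∈ univ.erase s, (bit (adj G u c) : F) / (z0 u + z0 c)
  else (bit (adj G u v) : F) / (z0 u + z0 v)

theorem Lm0_symm (G : EG V) (s : V) (z0 : V → F) (a b : V) :
    Lm0 G s z0 a b = Lm0 G s z0 b a := by
  simp only [Lm0]
  by_cases h : a = b
  · subst h; rfl
  · by_cases h1 : a = s ∨ b = s
    · rw [if_pos h1, if_pos h1.symm]
    · rw [if_neg h1, if_neg h, if_neg (fun h' => h1 h'.symm), if_neg (fun h' => h h'.symm),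
        adj_comm G a b, add_comm]

/-- the cleared bordered matrix: index set `N(s) ⊕ (V ⊕ ι)` -/
noncomputable def BB (G : EG V) (s : V) (z0 : V → F) (Ψ : V → ι → F[X]) :
    Matrix ({i // i ∈ nb G s} ⊕ (V ⊕ ι)) ({i // i ∈ nb G s} ⊕ (V ⊕ ι)) F[X]
  | .inl i, .inl j => if i = j then X + C (z0 i) else 0
  | .inl i, .inr (.inl v) => if v = s ∨ v = i then 1 else 0
  | .inr (.inl v), .inl i => if v = s ∨ v = i then 1 else 0
  | .inl _, .inr (.inr _) => 0
  | .inr (.inr _), .inl _ => 0
  | .inr (.inl u), .inr (.inl v) => C (Lm0 G s z0 u v)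
  | .inr (.inl v), .inr (.inr j) => Ψ v j
  | .inr (.inr j), .inr (.inl v) => Ψ v j
  | .inr (.inr _), .inr (.inr _) => 0

theorem BB_symm (G : EG V) (s : V) (z0 : V → F) (Ψ : V → ι → F[X]) (a b) :
    BB G s z0 Ψ a b = BB G s z0 Ψ b a := by
  rcases a with i | u | j <;> rcases b with i' | u' | j' <;> simp only [BB]
  · by_cases h : i = i'
    · subst h; rfl
    · rw [if_neg h, if_neg (fun h' => h h'.symm)]
  · rw [Lm0_symm]

theorem mem_nb {G : EG V} {s x : V} : x ∈ nb G s ↔ adj G s x = 1 := by
  simp [nb]

theorem ne_of_mem_nb {G : EG V} {s x : V} (h : x ∈ nb G s) : x ≠ s := by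
  rintro rfl
  rw [mem_nb, adj_self] at h
  exact zero_ne_one h

theorem even_nb (G : EG V) (s : V) : Even (nb G s).card := by
  have h := sum_adj G s
  have h1 : ∑ u, adj G s u = ((nb G s).card : ZMod 2) := by
    rw [nb, Finset.card_filter, Nat.cast_sum]
    refine Finset.sum_congr rfl fun u _ => ?_
    rcases zmod2_eq_zero_or_one (adj G s u) with h | h <;> simp [h]
  rw [h1] at h
  exact (ZMod.natCast_eq_zero_iff_even).1 h

theorem nb_nonempty {G : EG V} {s : V} (hs : s ∈ supp G) : (nb G s).Nonempty := by
  simp only [supp, Finset.mem_filter] at hs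
  obtain ⟨u, hu⟩ := hs.2
  exact ⟨u, mem_nb.2 hu⟩

/-- the determinant of the cleared bordered matrix has derivative zero -/
theorem derivative_det_BB (G : EG V) (s : V) (z0 : V → F) (Ψ : V → ι → F[X])
    (hΨ : ∀ j, Ψ s j = 0) : derivative (BB G s z0 Ψ).det = 0 := by
  have := charTwo F
  refine derivative_det_eq_zero (BB G s z0 Ψ) (BB_symm G s z0 Ψ)
    (univ.filter (fun a => a.isLeft = true)) (.inr (.inl s)) (by simp) ?_ ?_
  · rintro (i | u | j)
    · simp [BB]
    · simp [BB, Lm0]
    · simp [BB, hΨ]
  · rintro (i | u | j)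
    · simp [BB]
    · simp [BB]
    · simp [BB]

theorem natDegree_even_of_derivative {p : F[X]} (hp : derivative p = 0) : Even p.natDegree := by
  have := charTwo F
  rw [← expand_contract 2 hp two_ne_zero, natDegree_expand]
  exact ⟨_, by ring⟩

/-- degree bound for constant borders -/
theorem natDegree_det_BB (G : EG V) (s : V) (z0 : V → F) (Ψ : V → ι → F)
    (hΨ : ∀ j, Ψ s j = 0) (hs : s ∈ supp G) :
    (BB G s z0 (fun v j => C (Ψ v j))).det.natDegree + 2 ≤ (nb G s).card := by
  have := charTwo F
  set A := BB G s z0 (fun v j => C (Ψ v j)) with hA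
  have hd : 2 ≤ (nb G s).card := by
    obtain ⟨k, hk⟩ := even_nb G s
    have := Finset.card_pos.2 (nb_nonempty hs)
    omega
  by_cases hp : A.det = 0
  · rw [hp, natDegree_zero]; omega
  · let c : ({i // i ∈ nb G s} ⊕ (V ⊕ ι)) → F[X] := fun k => match k with
      | .inl _ => 1
      | .inr (.inl v) => if v = s then X else 0
      | .inr (.inr _) => 0
    have h1 := Matrix.det_updateRow_sum A (.inr (.inl s)) c
    have hc : c (.inr (.inl s)) = X := by simp [c]
    rw [hc, smul_eq_mul] at h1
    -- the new row is constant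
    have hrow : ∀ k, (∑ l, c l • A l) k = match k with
        | .inl i => C (z0 i)
        | .inr (.inl v) => if v ∈ nb G s then 1 else 0
        | .inr (.inr _) => 0 := by
      intro k
      simp only [Finset.sum_apply, Pi.smul_apply, smul_eq_mul, Fintype.sum_sum_type, c, one_mul,
        zero_mul, Finset.sum_const_zero, add_zero, ite_mul, Finset.sum_ite_eq', Finset.mem_univ,
        if_true]
      rcases k with i | v | j
      · have e1 : ∑ x, A (.inl x) (.inl i) = X + C (z0 i) := by
          simp only [hA, BB]
          rw [Finset.sum_eq_single i]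
          · simp
          · intro b _ hb; rw [if_neg hb]
          · simp
        have e2 : A (.inr (.inl s)) (.inl i) = 1 := by simp [hA, BB]
        rw [e1, e2, mul_one]
        have : (X : F[X]) + X = 0 := CharTwo.add_self_eq_zero _
        linear_combination this
      · have e2 : A (.inr (.inl s)) (.inr (.inl v)) = 0 := by simp [hA, BB, Lm0]
        rw [e2, mul_zero, add_zero]
        simp only [hA, BB]
        by_cases hv : v = s
        · subst hv
          have : v ∉ nb G v := fun h => ne_of_mem_nb h rfl
          simp only [true_or, if_true, this, if_false, Finset.sum_const, Finset.card_univ,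
            Fintype.card_coe, nsmul_eq_mul, mul_one]
          obtain ⟨k, hk⟩ := even_nb G v
          rw [hk, Nat.cast_add]
          exact CharTwo.add_self_eq_zero _
        · simp only [hv, false_or]
          by_cases hvn : v ∈ nb G s
          · rw [if_pos hvn, Finset.sum_eq_single ⟨v, hvn⟩]
            · simp
            · intro b _ hb
              rw [if_neg]
              rintro rfl
              exact hb rfl
            · simp
          · rw [if_neg hvn]
            refine Finset.sum_eq_zero fun b _ => ?_
            rw [if_neg]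
            rintro rfl
            exact hvn b.2
      · have e2 : A (.inr (.inl s)) (.inr (.inr j)) = 0 := by simp [hA, BB, hΨ]
        rw [e2, mul_zero, add_zero]
        simp only [hA, BB, Finset.sum_const_zero]
    have h2 : (A.updateRow (.inr (.inl s)) (∑ k, c k • A k)).det.natDegree ≤ (nb G s).card := by
      refine (natDegree_det_le _ (fun k => match k with
        | .inl _ => 1
        | .inr _ => 0) ?_).trans ?_
      · intro k l
        by_cases hk : k = .inr (.inl s)
        · subst hk
          rw [updateRow_self, hrow]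
          rcases l with i | v | j
          · simp
          · simp only []
            split_ifs <;> simp
          · simp
        · rw [updateRow_ne hk, hA]
          rcases k with i | v | j <;> rcases l with i' | v' | j' <;> simp only [BB]
          · split_ifs
            · exact (natDegree_X_add_C _).le
            · simp
          · split_ifs <;> simp
          · simp
          · split_ifs <;> simp
          · simp
          · simp
          · simp
          · simp
          · simp
      · simp [Fintype.sum_sum_type]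
    rw [h1, natDegree_X_mul hp] at h2
    have h3 := natDegree_even_of_derivative (F := F) (p := A.det)
      (derivative_det_BB G s z0 _ (fun j => by simp [hΨ j]))
    obtain ⟨k, hk⟩ := h3
    obtain ⟨k', hk'⟩ := even_nb G s
    omega

/-- degree bound when one border column is linear in `X` -/
theorem natDegree_det_BB_lin (G : EG V) (s : V) (z0 : V → F) (Ψ : V → ι → F) (j0 : ι)
    (y0 y1 : V → F) (hΨ : ∀ j, Ψ s j = 0) (hy0 : y0 s = 0) (hy1 : y1 s = 0) (hs : s ∈ supp G) :
    (BB G s z0 (fun v j => if j = j0 then C (y0 v) + X * C (y1 v) else C (Ψ v j))).det.natDegree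
      ≤ (nb G s).card := by
  have := charTwo F
  let vec : (V → F[X]) → ({i // i ∈ nb G s} ⊕ (V ⊕ ι)) → F[X] := fun y k => match k with
    | .inl _ => 0
    | .inr (.inl v) => y v
    | .inr (.inr _) => 0
  have key : ∀ y : V → F[X], BB G s z0 (fun v j => if j = j0 then y v else C (Ψ v j))
      = ((BB G s z0 (fun v j => C (Ψ v j))).updateCol (.inr (.inr j0)) (vec y)).updateRow
        (.inr (.inr j0)) (vec y) := by
    intro y
    ext k l : 2
    by_cases hk : k = .inr (.inr j0)
    · subst hk
      rw [updateRow_self]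
      rcases l with i | v | j <;> simp [BB, vec]
    · rw [updateRow_ne hk]
      by_cases hl : l = .inr (.inr j0)
      · subst hl
        rw [updateCol_self]
        rcases k with i | v | j <;> simp [BB, vec]
      · rw [updateCol_ne hl]
        rcases k with i | v | j
        · rcases l with i' | v' | j' <;> simp [BB]
        · rcases l with i' | v' | j'
          · simp [BB]
          · simp [BB]
          · have : j' ≠ j0 := fun h => hl (by rw [h])
            simp [BB, this]
        · have : j ≠ j0 := fun h => hk (by rw [h])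
          rcases l with i' | v' | j' <;> simp [BB, this]
  have hvec : vec (fun v => C (y0 v) + X * C (y1 v))
      = vec (fun v => C (y0 v)) + (X : F[X]) • vec (fun v => C (y1 v)) := by
    funext k
    rcases k with i | v | j <;> simp [vec]
  rw [key, hvec, det_border_add _ (BB_symm G s z0 _) _ _ _ (by simp [vec]) (by simp [vec]),
    det_border_smul _ _ _ (by simp [vec]), ← key, ← key]
  have c0 : (fun (v : V) (j : ι) => if j = j0 then C (y0 v) else C (Ψ v j))
      = fun v j => C (if j = j0 then y0 v else Ψ v j) := by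
    funext v j; split_ifs <;> rfl
  have c1 : (fun (v : V) (j : ι) => if j = j0 then C (y1 v) else C (Ψ v j))
      = fun v j => C (if j = j0 then y1 v else Ψ v j) := by
    funext v j; split_ifs <;> rfl
  rw [c0, c1]
  have h0 := natDegree_det_BB G s z0 (fun v j => if j = j0 then y0 v else Ψ v j)
    (fun j => by split_ifs <;> simp [hy0, hΨ]) hs
  have h1 := natDegree_det_BB G s z0 (fun v j => if j = j0 then y1 v else Ψ v j)
    (fun j => by split_ifs <;> simp [hy1, hΨ]) hs
  refine (natDegree_add_le _ _).trans (max_le (by omega) ?_)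
  refine natDegree_mul_le.trans ?_
  rw [natDegree_X_pow]
  omega

section eval
variable {K : Type*} [Field K] [Algebra (ZMod 2) K] [Algebra F K]

theorem algebraMap_bit (a : ZMod 2) : algebraMap F K (bit a) = bit a := by
  rw [bit_eq_ite, bit_eq_ite]; split_ifs <;> simp

theorem algebraMap_Lm0 (G : EG V) (s : V) (z0 : V → F) (u v : V) :
    algebraMap F K (Lm0 G s z0 u v) = Lm0 G s (fun a => algebraMap F K (z0 a)) u v := by
  simp only [Lm0]
  split_ifs with h1 h2
  · simp
  · rw [map_sum]
    refine Finset.sum_congr rfl fun c _ => ?_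
    rw [map_div₀, algebraMap_bit, map_add]
  · rw [map_div₀, algebraMap_bit, map_add]

/-- action of the Laplacian of `G - s` -/
theorem Lm0_mulVec (G : EG V) (s : V) (z f : V → K) (a : V) (ha : a ≠ s) :
    (Lm0 G s z *ᵥ f) a = ∑ c ∈ univ.erase s, (bit (adj G a c) : K) * ((f a + f c) / (z a + z c)) := by
  simp only [Matrix.mulVec, dotProduct, Lm0]
  rw [← Finset.add_sum_erase _ _ (Finset.mem_univ s)]
  have h0 : (if a = s ∨ s = s then (0 : K) else if a = s then
      ∑ c ∈ univ.erase s, (bit (adj G a c) : K) / (z a + z c)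
      else (bit (adj G a s) : K) / (z a + z s)) * f s = 0 := by simp
  rw [h0, zero_add]
  have hmem : a ∈ (univ : Finset V).erase s := by simp [ha]
  rw [← Finset.add_sum_erase _ _ hmem, ← Finset.add_sum_erase (univ.erase s)
    (fun c => (bit (adj G a c) : K) * ((f a + f c) / (z a + z c))) hmem]
  have h1 : (if a = s ∨ a = s then (0 : K) else if a = a then
      ∑ c ∈ univ.erase s, (bit (adj G a c) : K) / (z a + z c)
      else (bit (adj G a a) : K) / (z a + z a)) * f a
      = ∑ c ∈ (univ.erase s).erase a, (bit (adj G a c) : K) / (z a + z c) * f a := by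
    rw [if_neg (by simp [ha]), if_pos rfl, Finset.sum_mul, ← Finset.add_sum_erase _ _ hmem]
    simp
  have h2 : ∑ x ∈ (univ.erase s).erase a, (if a = s ∨ x = s then (0 : K) else if a = x then
      ∑ c ∈ univ.erase s, (bit (adj G a c) : K) / (z a + z c)
      else (bit (adj G a x) : K) / (z a + z x)) * f x
      = ∑ x ∈ (univ.erase s).erase a, (bit (adj G a x) : K) / (z a + z x) * f x := by
    refine Finset.sum_congr rfl fun x hx => ?_
    have hx1 : x ≠ a := Finset.ne_of_mem_erase hx
    have hx2 : x ≠ s := Finset.ne_of_mem_erase (Finset.mem_of_mem_erase hx)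
    rw [if_neg (by simp [ha, hx2]), if_neg (fun h => hx1 h.symm)]
  rw [h1, h2, ← Finset.sum_add_distrib]
  simp only [adj_self, bit_zero, zero_mul, zero_add]
  refine Finset.sum_congr rfl fun x _ => ?_
  ring

/-- the rows of the cleared bordered matrix evaluated at `t` -/
theorem BB_row_inl (G : EG V) (s : V) (z0 : V → F) (Ψ : V → ι → F[X]) (t : K)
    (w : ({i // i ∈ nb G s} ⊕ (V ⊕ ι)) → K) (i : {i // i ∈ nb G s}) :
    ((BB G s z0 Ψ).map (aeval t) *ᵥ w) (.inl i)
      = (t + algebraMap F K (z0 i)) * w (.inl i) + (w (.inr (.inl s)) + w (.inr (.inl i))) := by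
  simp only [Matrix.mulVec, dotProduct, Fintype.sum_sum_type, Matrix.map_apply, BB, map_zero,
    zero_mul, Finset.sum_const_zero, add_zero]
  congr 1
  · rw [Finset.sum_eq_single i]
    · simp
    · intro b _ hb; rw [if_neg (fun h => hb h.symm)]; simp
    · simp
  · have hi : (i : V) ≠ s := ne_of_mem_nb i.2
    rw [← Finset.add_sum_erase _ _ (Finset.mem_univ s)]
    have hmem : (i : V) ∈ (univ : Finset V).erase s := by simp [hi]
    rw [← Finset.add_sum_erase _ _ hmem, Finset.sum_eq_zero, add_zero]
    · simp
    · intro v hv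
      have hv1 : v ≠ i := Finset.ne_of_mem_erase hv
      have hv2 : v ≠ s := Finset.ne_of_mem_erase (Finset.mem_of_mem_erase hv)
      simp [hv1, hv2]

theorem BB_row_s (G : EG V) (s : V) (z0 : V → F) (Ψ : V → ι → F[X]) (hΨ : ∀ j, Ψ s j = 0) (t : K)
    (w : ({i // i ∈ nb G s} ⊕ (V ⊕ ι)) → K) :
    ((BB G s z0 Ψ).map (aeval t) *ᵥ w) (.inr (.inl s)) = ∑ i, w (.inl i) := by
  simp [Matrix.mulVec, dotProduct, Fintype.sum_sum_type, BB, Lm0, hΨ]

theorem BB_row_v (G : EG V) (s : V) (z0 : V → F) (Ψ : V → ι → F[X]) (t : K)
    (w : ({i // i ∈ nb G s} ⊕ (V ⊕ ι)) → K) (v : V) (hv : v ≠ s) :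
    ((BB G s z0 Ψ).map (aeval t) *ᵥ w) (.inr (.inl v))
      = (if h : v ∈ nb G s then w (.inl ⟨v, h⟩) else 0)
        + (Lm0 G s (fun a => algebraMap F K (z0 a)) *ᵥ (fun a => w (.inr (.inl a)))) v
        + ∑ j, aeval t (Ψ v j) * w (.inr (.inr j)) := by
  simp only [Matrix.mulVec, dotProduct, Fintype.sum_sum_type, Matrix.map_apply, BB]
  rw [add_assoc]
  congr 1
  · by_cases h : v ∈ nb G s
    · rw [dif_pos h, Finset.sum_eq_single ⟨v, h⟩]
      · simp
      · intro b _ hb
        rw [if_neg]
        · simp
        · rintro (h' | h')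
          · exact hv h'
          · exact hb (Subtype.ext h'.symm)
      · simp
    · rw [dif_neg h]
      refine Finset.sum_eq_zero fun b _ => ?_
      rw [if_neg]
      · simp
      · rintro (h' | h')
        · exact hv h'
        · exact h (h' ▸ b.2)
  · congr 1
    refine Finset.sum_congr rfl fun a _ => ?_
    rw [aeval_C, algebraMap_Lm0]

theorem BB_row_j (G : EG V) (s : V) (z0 : V → F) (Ψ : V → ι → F[X]) (t : K)
    (w : ({i // i ∈ nb G s} ⊕ (V ⊕ ι)) → K) (j : ι) :
    ((BB G s z0 Ψ).map (aeval t) *ᵥ w) (.inr (.inr j))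
      = ∑ a, aeval t (Ψ a j) * w (.inr (.inl a)) := by
  simp [Matrix.mulVec, dotProduct, Fintype.sum_sum_type, BB]

end eval

end BB

end Pool.Agent.AOP.C62
end

section
/-!
# Module COUNT: counting lemma for functionals on the kernel of the Laplacian
-/
namespace Pool.Agent.AOP.C62

open Finset Matrix Polynomial

variable {V : Type*} [Fintype V] [DecidableEq V]

section rows
variable {K : Type*} [Field K] [Algebra (ZMod 2) K]

theorem sum_bit_eq (G : EG V) (s : V) (h : V → K) (S : Finset V) :
    ∑ c ∈ S, (bit (adj G s c) : K) * h c = ∑ c ∈ S ∩ nb G s, h c := by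
  rw [← Finset.filter_mem_eq_inter, Finset.sum_filter]
  refine Finset.sum_congr rfl fun c _ => ?_
  rw [bit_eq_ite]
  by_cases hc : c ∈ nb G s
  · rw [if_pos hc, if_pos (mem_nb.1 hc), one_mul]
  · rw [if_neg hc, if_neg (fun h => hc (mem_nb.2 h)), zero_mul]

theorem Lm_row_s (G : EG V) (s : V) (z f : V → K) :
    (Lm G z *ᵥ f) s = ∑ i ∈ nb G s, (f s + f i) / (z s + z i) := by
  rw [Lm_mulVec, sum_bit_eq, Finset.univ_inter]

theorem Lm_row_v (G : EG V) (s : V) (z f : V → K) (v : V) (hv : v ≠ s) :
    (Lm G z *ᵥ f) v = (Lm0 G s z *ᵥ f) v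
      + (if v ∈ nb G s then (f v + f s) / (z v + z s) else 0) := by
  rw [Lm_mulVec, Lm0_mulVec G s z f v hv, ← Finset.add_sum_erase _ _ (Finset.mem_univ s), add_comm]
  congr 1
  rw [bit_eq_ite, adj_comm]
  by_cases h : v ∈ nb G s
  · rw [if_pos h, if_pos (mem_nb.1 h), one_mul]
  · rw [if_neg h, if_neg (fun h' => h (mem_nb.2 h')), zero_mul]

theorem contr_adj_s (G : EG V) {s x : V} (hx : s ≠ x) (c : V) : adj (contr s x G) s c = 0 := by
  rw [contr_adj hx]; simp

theorem Lm_contr_row_s (G : EG V) {s x : V} (hx : s ≠ x) (z f : V → K) :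
    (Lm (contr s x G) z *ᵥ f) s = 0 := by
  rw [Lm_mulVec]
  refine Finset.sum_eq_zero fun c _ => ?_
  rw [contr_adj_s G hx]; simp

theorem Lm_contr_row_v (G : EG V) {s x : V} (hx : s ≠ x) (z f : V → K) (v : V) (hv : v ≠ s)
    (hvx : v ≠ x) :
    (Lm (contr s x G) z *ᵥ f) v = (Lm0 G s z *ᵥ f) v
      + (if v ∈ nb G s then (f v + f x) / (z v + z x) else 0) := by
  have h2 : ∀ c, (bit (adj (contr s x G) v c) : K) * ((f v + f c) / (z v + z c))
      = (if c ∈ univ.erase s then (bit (adj G v c) : K) * ((f v + f c) / (z v + z c)) else 0)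
        + (if c = x then (bit (adj G v s) : K) * ((f v + f x) / (z v + z x)) else 0) := by
    intro c
    by_cases hc : c = s
    · subst hc
      rw [contr_adj hx]
      simp [hx]
    · by_cases hvc : v = c
      · subst hvc
        simp [hvx]
      · have e : adj (contr s x G) v c = adj G v c + (if c = x then adj G v s else 0) := by
          rw [contr_adj hx]; simp [hc, hvc, hv, hvx]
        have hmem : c ∈ (univ : Finset V).erase s := by simp [hc]
        rw [e, if_pos hmem, bit_add, add_mul]
        congr 1
        by_cases hcx : c = x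
        · subst hcx; simp
        · simp [hcx]
  rw [Lm_mulVec, Lm0_mulVec G s z f v hv]
  simp only [h2, Finset.sum_add_distrib, Finset.sum_ite_mem, Finset.univ_inter]
  congr 1
  rw [Finset.sum_ite_eq' univ x, if_pos (Finset.mem_univ _), bit_eq_ite, adj_comm]
  by_cases h : v ∈ nb G s
  · rw [if_pos h, if_pos (mem_nb.1 h), one_mul]
  · rw [if_neg h, if_neg (fun h' => h (mem_nb.2 h')), zero_mul]

theorem Lm_contr_row_x (G : EG V) {s x : V} (hx : s ≠ x) (z f : V → K) :
    (Lm (contr s x G) z *ᵥ f) x = (Lm0 G s z *ᵥ f) x
      + ∑ i ∈ (nb G s).erase x, (f x + f i) / (z x + z i) := by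
  have h2 : ∀ c, (bit (adj (contr s x G) x c) : K) * ((f x + f c) / (z x + z c))
      = (if c ∈ univ.erase s then (bit (adj G x c) : K) * ((f x + f c) / (z x + z c)) else 0)
        + (if c ∈ univ.erase x then
            (bit (adj G s c) : K) * ((f x + f c) / (z x + z c)) else 0) := by
    intro c
    by_cases hvc : x = c
    · subst hvc
      simp
    · have hcx : c ≠ x := fun h => hvc h.symm
      by_cases hc : c = s
      · subst hc
        rw [contr_adj hx]
        simp
      · have e : adj (contr s x G) x c = adj G x c + adj G s c := by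
          rw [contr_adj hx]; simp [hc, hvc, hx.symm, hcx]
        have hmem : c ∈ (univ : Finset V).erase s := by simp [hc]
        have hmem' : c ∈ (univ : Finset V).erase x := by simp [hcx]
        rw [e, if_pos hmem, if_pos hmem', bit_add, add_mul]
  rw [Lm_mulVec, Lm0_mulVec G s z f x hx.symm]
  simp only [h2, Finset.sum_add_distrib, Finset.sum_ite_mem, Finset.univ_inter]
  congr 1
  rw [sum_bit_eq]
  refine Finset.sum_congr ?_ fun _ _ => rfl
  ext c
  simp only [Finset.mem_inter, Finset.mem_erase, Finset.mem_univ]
  tauto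

/-- the Laplacian of a contraction does not involve `z s` and `f s` -/
theorem Lm_contr_congr (G : EG V) {s x : V} (hx : s ≠ x) (z z' f f' : V → K)
    (hz : ∀ a, a ≠ s → z a = z' a) (hf : ∀ a, a ≠ s → f a = f' a) :
    Lm (contr s x G) z *ᵥ f = Lm (contr s x G) z' *ᵥ f' := by
  funext v
  by_cases hv : v = s
  · subst hv; rw [Lm_contr_row_s G hx, Lm_contr_row_s G hx]
  · rw [Lm_mulVec, Lm_mulVec]
    refine Finset.sum_congr rfl fun c _ => ?_
    by_cases hc : c = s
    · subst hc
      rw [adj_comm, contr_adj_s G hx]; simp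
    · rw [hz v hv, hz c hc, hf v hv, hf c hc]

end rows

section equiv
variable {ι : Type*} [Fintype ι] [DecidableEq ι]
variable {F : Type*} [Field F] [Algebra (ZMod 2) F]
variable {K : Type*} [Field K] [Algebra (ZMod 2) K] [Algebra F K]

/-- determinant of the cleared bordered matrix at a generic value `t` of `z s` -/
theorem aeval_det_BB_generic (G : EG V) (s : V) (z0 : V → F) (Ψ : V → ι → F[X])
    (hΨ : ∀ j, Ψ s j = 0) (t : K) (ht : ∀ i ∈ nb G s, t ≠ algebraMap F K (z0 i)) (z : V → K)
    (hzs : z s = t) (hz : ∀ a, a ≠ s → z a = algebraMap F K (z0 a)) :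
    aeval t (BB G s z0 Ψ).det ≠ 0 ↔ ∀ (f : V → K) (μ : ι → K),
      (∀ a, (Lm G z *ᵥ f) a + ∑ j, aeval t (Ψ a j) * μ j = 0) →
      (∀ j, ∑ a, aeval t (Ψ a j) * f a = 0) → f = 0 ∧ μ = 0 := by
  have hdet : aeval t (BB G s z0 Ψ).det = ((BB G s z0 Ψ).map (aeval t)).det := by
    rw [AlgHom.map_det]; rfl
  have hL0 : ∀ (f : V → K) (v : V), v ≠ s →
      (Lm0 G s (fun a => algebraMap F K (z0 a)) *ᵥ f) v = (Lm0 G s z *ᵥ f) v := by
    intro f v hv
    rw [Lm0_mulVec _ _ _ _ _ hv, Lm0_mulVec _ _ _ _ _ hv]
    refine Finset.sum_congr rfl fun c hc => ?_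
    rw [hz v hv, hz c (Finset.ne_of_mem_erase hc)]
  have hne : ∀ i ∈ nb G s, t + algebraMap F K (z0 i) ≠ 0 := fun i hi h =>
    ht i hi (add_eq_zero_iff'.1 h)
  rw [hdet, ne_eq, ← Matrix.exists_mulVec_eq_zero_iff]
  push Not
  constructor
  · intro h f μ h1 h2
    by_contra hcon
    -- build the kernel vector
    let w : ({i // i ∈ nb G s} ⊕ (V ⊕ ι)) → K := fun k => match k with
      | .inl i => (f s + f i) / (t + algebraMap F K (z0 i))
      | .inr (.inl v) => f v
      | .inr (.inr j) => μ j
    have hw : w ≠ 0 := by
      intro hw0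
      apply hcon
      refine ⟨funext fun v => ?_, funext fun j => ?_⟩
      · exact congrFun hw0 (.inr (.inl v))
      · exact congrFun hw0 (.inr (.inr j))
    refine h w hw (funext fun k => ?_)
    rcases k with i | v | j
    · rw [BB_row_inl]
      simp only [w, Pi.zero_apply]
      rw [mul_div_cancel₀ _ (hne i i.2), ]
      exact add_self_zero _
    · by_cases hv : v = s
      · subst hv
        rw [BB_row_s _ _ _ _ hΨ]
        have := h1 v
        simp only [hΨ, map_zero, zero_mul, Finset.sum_const_zero, add_zero] at this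
        rw [Lm_row_s] at this
        simp only [w, Pi.zero_apply]
        rw [← this, ← Finset.sum_coe_sort (nb G v) (fun i => (f v + f i) / (z v + z i))]
        refine Finset.sum_congr rfl fun i _ => ?_
        rw [hzs, hz i (ne_of_mem_nb i.2)]
      · rw [BB_row_v _ _ _ _ _ _ _ hv]
        have := h1 v
        rw [Lm_row_v G s z f v hv] at this
        have e0 : (Lm0 G s (fun a => algebraMap F K (z0 a)) *ᵥ fun a => w (.inr (.inl a))) v
            = (Lm0 G s z *ᵥ f) v := hL0 f v hv
        rw [e0]
        simp only [w, Pi.zero_apply]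
        by_cases hvn : v ∈ nb G s
        · rw [dif_pos hvn]
          rw [if_pos hvn, hz v hv, hzs, add_comm (f v), add_comm (algebraMap F K (z0 v))] at this
          linear_combination this
        · rw [dif_neg hvn]
          rw [if_neg hvn] at this
          linear_combination this
    · rw [BB_row_j]
      exact h2 j
  · intro h w hw h0
    apply hw
    have hα : ∀ i : {i // i ∈ nb G s}, w (.inl i)
        = (w (.inr (.inl s)) + w (.inr (.inl i))) / (t + algebraMap F K (z0 i)) := by
      intro i
      have := congrFun h0 (.inl i)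
      rw [BB_row_inl] at this
      rw [eq_div_iff (hne i i.2)]
      have := add_eq_zero_iff'.1 this
      rw [mul_comm]; exact this
    obtain ⟨hf, hμ⟩ := h (fun v => w (.inr (.inl v))) (fun j => w (.inr (.inr j))) (fun a => by
      by_cases ha : a = s
      · subst ha
        have := congrFun h0 (.inr (.inl a))
        rw [BB_row_s _ _ _ _ hΨ] at this
        simp only [hΨ, map_zero, zero_mul, Finset.sum_const_zero, add_zero]
        rw [Lm_row_s, ← Finset.sum_coe_sort (nb G a)
          (fun i => (w (.inr (.inl a)) + w (.inr (.inl i))) / (z a + z i))]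
        simp only [Pi.zero_apply] at this
        rw [← this]
        refine Finset.sum_congr rfl fun i _ => ?_
        rw [hα i, hzs, hz i (ne_of_mem_nb i.2)]
      · have := congrFun h0 (.inr (.inl a))
        rw [BB_row_v _ _ _ _ _ _ _ ha] at this
        simp only [Pi.zero_apply] at this
        rw [Lm_row_v G s z _ a ha, ← hL0 _ a ha]
        by_cases han : a ∈ nb G s
        · rw [if_pos han, hz a ha, hzs]
          rw [dif_pos han, hα ⟨a, han⟩, add_comm (w (.inr (.inl s))), add_comm t] at this
          linear_combination this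
        · rw [if_neg han]
          rw [dif_neg han] at this
          linear_combination this) (fun j => by
      have := congrFun h0 (.inr (.inr j))
      rw [BB_row_j] at this
      exact this)
    funext k
    rcases k with i | v | j
    · rw [hα i]
      have e1 := congrFun hf s
      have e2 := congrFun hf i
      simp only [Pi.zero_apply] at e1 e2 ⊢
      rw [e1, e2]; simp
    · exact congrFun hf v
    · exact congrFun hμ j

/-- determinant of the cleared bordered matrix at `z x`, `x` a neighbour of `s` -/
theorem aeval_det_BB_special (G : EG V) (s : V) (z0 : V → F) (Ψ : V → ι → F[X])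
    (hΨ : ∀ j, Ψ s j = 0) (x : V) (hx : x ∈ nb G s)
    (hinj : ∀ i ∈ nb G s, i ≠ x → z0 i ≠ z0 x) (z : V → K)
    (hz : ∀ a, a ≠ s → z a = algebraMap F K (z0 a)) :
    aeval (algebraMap F K (z0 x)) (BB G s z0 Ψ).det ≠ 0 ↔ ∀ (f : V → K) (μ : ι → K), f s = 0 →
      (∀ a, a ≠ s → (Lm (contr s x G) z *ᵥ f) a
        + ∑ j, aeval (algebraMap F K (z0 x)) (Ψ a j) * μ j = 0) →
      (∀ j, ∑ a, aeval (algebraMap F K (z0 x)) (Ψ a j) * f a = 0) → f = 0 ∧ μ = 0 := by
  set t := algebraMap F K (z0 x) with ht
  have hxs : x ≠ s := ne_of_mem_nb hx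
  have hdet : aeval t (BB G s z0 Ψ).det = ((BB G s z0 Ψ).map (aeval t)).det := by
    rw [AlgHom.map_det]; rfl
  have hL0 : ∀ (f f' : V → K) (v : V), v ≠ s → (∀ a, a ≠ s → f a = f' a) →
      (Lm0 G s (fun a => algebraMap F K (z0 a)) *ᵥ f) v = (Lm0 G s z *ᵥ f') v := by
    intro f f' v hv hf
    rw [Lm0_mulVec _ _ _ _ _ hv, Lm0_mulVec _ _ _ _ _ hv]
    refine Finset.sum_congr rfl fun c hc => ?_
    rw [hz v hv, hz c (Finset.ne_of_mem_erase hc), hf v hv, hf c (Finset.ne_of_mem_erase hc)]
  have hne : ∀ i ∈ nb G s, i ≠ x → t + algebraMap F K (z0 i) ≠ 0 := fun i hi hix h => by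
    have := add_eq_zero_iff'.1 h
    exact hinj i hi hix ((algebraMap F K).injective this).symm
  rw [hdet, ne_eq, ← Matrix.exists_mulVec_eq_zero_iff]
  push Not
  constructor
  · intro h f μ hfs h1 h2
    by_contra hcon
    -- build the kernel vector
    let α : V → K := fun i => if i = x then ∑ i' ∈ (nb G s).erase x, (f x + f i') / (t + z i')
      else (f x + f i) / (t + z i)
    let w : ({i // i ∈ nb G s} ⊕ (V ⊕ ι)) → K := fun k => match k with
      | .inl i => α i
      | .inr (.inl v) => if v = s then f x else f v
      | .inr (.inr j) => μ j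
    have hw : w ≠ 0 := by
      intro hw0
      apply hcon
      refine ⟨funext fun v => ?_, funext fun j => ?_⟩
      · by_cases hv : v = s
        · subst hv; exact hfs
        · have := congrFun hw0 (.inr (.inl v))
          simpa [w, hv] using this
      · exact congrFun hw0 (.inr (.inr j))
    refine h w hw (funext fun k => ?_)
    rcases k with i | v | j
    · rw [BB_row_inl]
      have his : (i : V) ≠ s := ne_of_mem_nb i.2
      simp only [w, if_true, if_neg his, Pi.zero_apply]
      by_cases hix : (i : V) = x
      · rw [hix, ← ht, add_self_zero, zero_mul, zero_add, add_self_zero]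
      · simp only [α, if_neg hix]
        rw [hz i his, mul_div_cancel₀ _ (hne i i.2 hix)]
        exact add_self_zero _
    · by_cases hv : v = s
      · subst hv
        rw [BB_row_s _ _ _ _ hΨ]
        simp only [w, Pi.zero_apply]
        rw [Finset.sum_coe_sort (nb G v) α, ← Finset.add_sum_erase _ _ hx]
        have : ∑ i ∈ (nb G v).erase x, α i = ∑ i' ∈ (nb G v).erase x, (f x + f i') / (t + z i') := by
          refine Finset.sum_congr rfl fun i hi => ?_
          simp only [α, if_neg (Finset.ne_of_mem_erase hi)]
        rw [this]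
        simp only [α, if_true]
        exact add_self_zero _
      · rw [BB_row_v _ _ _ _ _ _ _ hv]
        have h1v := h1 v hv
        have e0 : (Lm0 G s (fun a => algebraMap F K (z0 a)) *ᵥ fun a => w (.inr (.inl a))) v
            = (Lm0 G s z *ᵥ f) v := hL0 _ f v hv (fun a ha => by simp [w, ha])
        rw [e0]
        by_cases hvx : v = x
        · subst hvx
          rw [Lm_contr_row_x G (Ne.symm hv)] at h1v
          rw [dif_pos hx]
          simp only [w, α, if_true, Pi.zero_apply]
          have e1 : z v = t := by rw [hz v hv]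
          rw [e1] at h1v
          linear_combination h1v
        · rw [Lm_contr_row_v G hxs.symm z f v hv hvx] at h1v
          have e1 : z x = t := by rw [hz x hxs]
          rw [e1] at h1v
          by_cases hvn : v ∈ nb G s
          · rw [dif_pos hvn]
            rw [if_pos hvn] at h1v
            simp only [w, α, if_neg hvx, Pi.zero_apply]
            rw [add_comm (f x), add_comm t]
            linear_combination h1v
          · rw [dif_neg hvn]
            rw [if_neg hvn] at h1v
            simp only [w, Pi.zero_apply]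
            linear_combination h1v
    · rw [BB_row_j]
      simp only [w, Pi.zero_apply]
      rw [← h2 j]
      refine Finset.sum_congr rfl fun a _ => ?_
      by_cases ha : a = s
      · subst ha; simp [hΨ]
      · rw [if_neg ha]
  · intro h w hw h0
    apply hw
    -- `f s = f x`
    have hfx : w (.inr (.inl s)) = w (.inr (.inl x)) := by
      have := congrFun h0 (.inl ⟨x, hx⟩)
      rw [BB_row_inl] at this
      simp only [← ht, add_self_zero, zero_mul, zero_add, Pi.zero_apply] at this
      exact add_eq_zero_iff'.1 this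
    have hα : ∀ i : {i // i ∈ nb G s}, (i : V) ≠ x → w (.inl i)
        = (w (.inr (.inl x)) + w (.inr (.inl i))) / (t + z i) := by
      intro i hix
      have := congrFun h0 (.inl i)
      rw [BB_row_inl] at this
      rw [hz i (ne_of_mem_nb i.2), eq_div_iff (hne i i.2 hix), ← hfx]
      have := add_eq_zero_iff'.1 this
      rw [mul_comm]; exact this
    have hαx : w (.inl ⟨x, hx⟩) = ∑ i ∈ (nb G s).erase x,
        (w (.inr (.inl x)) + w (.inr (.inl i))) / (t + z i) := by
      have h3 := congrFun h0 (.inr (.inl s))
      rw [BB_row_s _ _ _ _ hΨ] at h3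
      simp only [Pi.zero_apply] at h3
      rw [← Finset.add_sum_erase univ _ (Finset.mem_univ (⟨x, hx⟩ : {i // i ∈ nb G s}))] at h3
      have h4 := add_eq_zero_iff'.1 h3
      rw [h4]
      have h5 : ∑ i ∈ (nb G s).erase x, (w (.inr (.inl x)) + w (.inr (.inl i))) / (t + z i)
          = ∑ i ∈ nb G s, if i = x then 0 else
            (w (.inr (.inl x)) + w (.inr (.inl i))) / (t + z i) := by
        rw [← Finset.add_sum_erase _ _ hx, if_pos rfl, zero_add]
        refine Finset.sum_congr rfl fun i hi => ?_
        rw [if_neg (Finset.ne_of_mem_erase hi)]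
      rw [h5, ← Finset.sum_coe_sort (nb G s) (fun i => if i = x then 0 else
            (w (.inr (.inl x)) + w (.inr (.inl i))) / (t + z i)), ← Finset.add_sum_erase univ
        (fun i : {i // i ∈ nb G s} => if (i : V) = x then 0 else
            (w (.inr (.inl x)) + w (.inr (.inl (i : V)))) / (t + z i))
        (Finset.mem_univ (⟨x, hx⟩ : {i // i ∈ nb G s})), if_pos rfl, zero_add]
      refine Finset.sum_congr rfl fun i hi => ?_
      have hix : (i : V) ≠ x := fun h => (Finset.ne_of_mem_erase hi) (Subtype.ext h)
      rw [if_neg hix, hα i hix]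
    let f : V → K := fun v => if v = s then 0 else w (.inr (.inl v))
    have hff : ∀ a, a ≠ s → f a = w (.inr (.inl a)) := fun a ha => by simp [f, ha]
    obtain ⟨hf, hμ⟩ := h f (fun j => w (.inr (.inr j))) (by simp [f]) (fun a ha => by
      have h3 := congrFun h0 (.inr (.inl a))
      rw [BB_row_v _ _ _ _ _ _ _ ha] at h3
      simp only [Pi.zero_apply] at h3
      have e0 : (Lm0 G s (fun a => algebraMap F K (z0 a)) *ᵥ fun a => w (.inr (.inl a))) a
            = (Lm0 G s z *ᵥ f) a := hL0 _ f a ha (fun b hb => (hff b hb).symm)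
      rw [e0] at h3
      have e1 : z x = t := by rw [hz x hxs]
      by_cases hax : a = x
      · subst hax
        rw [Lm_contr_row_x G (Ne.symm ha), e1]
        rw [dif_pos hx, hαx] at h3
        have e2 : ∑ i ∈ (nb G s).erase a, (f a + f i) / (t + z i)
            = ∑ i ∈ (nb G s).erase a, (w (.inr (.inl a)) + w (.inr (.inl i))) / (t + z i) := by
          refine Finset.sum_congr rfl fun i hi => ?_
          rw [hff a ha, hff i (ne_of_mem_nb (Finset.mem_of_mem_erase hi))]
        rw [e2]
        linear_combination h3
      · rw [Lm_contr_row_v G hxs.symm z f a ha hax, e1]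
        by_cases han : a ∈ nb G s
        · rw [if_pos han]
          rw [dif_pos han, hα ⟨a, han⟩ hax] at h3
          rw [hff a ha, hff x hxs, add_comm (w (.inr (.inl a))), add_comm (z a)]
          linear_combination h3
        · rw [if_neg han]
          rw [dif_neg han] at h3
          linear_combination h3) (fun j => by
      have h3 := congrFun h0 (.inr (.inr j))
      rw [BB_row_j] at h3
      simp only [Pi.zero_apply] at h3
      rw [← h3]
      refine Finset.sum_congr rfl fun a _ => ?_
      by_cases ha : a = s
      · subst ha; simp [hΨ]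
      · rw [hff a ha])
    have hv0 : ∀ v, w (.inr (.inl v)) = 0 := by
      have h4 : ∀ v, v ≠ s → w (.inr (.inl v)) = 0 := fun v hv => by
        rw [← hff v hv, hf]; rfl
      intro v
      by_cases hv : v = s
      · subst hv; rw [hfx]; exact h4 x hxs
      · exact h4 v hv
    funext k
    rcases k with i | v | j
    · by_cases hix : (i : V) = x
      · have : i = ⟨x, hx⟩ := Subtype.ext hix
        rw [this, hαx]
        simp [hv0]
      · rw [hα i hix]; simp [hv0]
    · exact hv0 v
    · exact congrFun hμ j

end equiv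

end Pool.Agent.AOP.C62
end

section
/-!
# Module COUNT: the counting lemma, proof of `CountSpec`
-/
namespace Pool.Agent.AOP.C62

open Finset Matrix Polynomial

variable {V : Type*} [Fintype V] [DecidableEq V]

section linalg
variable {K : Type*} [Field K] {ι : Type*} [Fintype ι]

/-- evaluation of functionals on the kernel -/
noncomputable def evMap (L : Matrix V V K) (y : ι → V → K) :
    LinearMap.ker L.mulVecLin →ₗ[K] (ι → K) :=
  (LinearMap.pi fun j => ∑ a, (y j a) • (LinearMap.proj a : (V → K) →ₗ[K] K)).comp
    (LinearMap.ker L.mulVecLin).subtype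

theorem evMap_apply (L : Matrix V V K) (y : ι → V → K) (f : LinearMap.ker L.mulVecLin) (j : ι) :
    evMap L y f j = ∑ a, y j a * (f : V → K) a := by
  simp [evMap]

theorem finrank_ker (L : Matrix V V K) :
    Module.finrank K (LinearMap.ker L.mulVecLin) + L.rank = Fintype.card V := by
  have h := LinearMap.finrank_range_add_finrank_ker L.mulVecLin
  rw [Module.finrank_fintype_fun_eq_card] at h
  rw [← h, add_comm]
  rfl

theorem evMap_injective_iff (L : Matrix V V K) (y : ι → V → K) :
    Function.Injective (evMap L y) ↔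
      ∀ f : V → K, L *ᵥ f = 0 → (∀ j, ∑ a, y j a * f a = 0) → f = 0 := by
  rw [← LinearMap.ker_eq_bot, LinearMap.ker_eq_bot']
  constructor
  · intro h f hf hy
    have hmem : f ∈ LinearMap.ker L.mulVecLin := by
      rw [LinearMap.mem_ker]; exact hf
    have := h ⟨f, hmem⟩ (funext fun j => by rw [evMap_apply]; exact hy j)
    exact congrArg Subtype.val this
  · intro h f hf
    apply Subtype.ext
    refine h f (by have := f.2; rw [LinearMap.mem_ker] at this; exact this) fun j => ?_
    rw [← evMap_apply, hf]; rfl

theorem ev_surj (L : Matrix V V K) (y : ι → V → K)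
    (hcard : Fintype.card ι + L.rank = Fintype.card V)
    (hsep : ∀ f : V → K, L *ᵥ f = 0 → (∀ j, ∑ a, y j a * f a = 0) → f = 0) (e : ι → K) :
    ∃ f : V → K, L *ᵥ f = 0 ∧ ∀ j, ∑ a, y j a * f a = e j := by
  have hinj := (evMap_injective_iff L y).2 hsep
  have hfr := finrank_ker L
  have hfin : Module.finrank K (LinearMap.ker L.mulVecLin) = Module.finrank K (ι → K) := by
    rw [Module.finrank_fintype_fun_eq_card]; omega
  have hsurj := (LinearMap.injective_iff_surjective_of_finrank_eq_finrank hfin).1 hinj
  obtain ⟨f, hf⟩ := hsurj e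
  refine ⟨f, by have := f.2; rw [LinearMap.mem_ker] at this; exact this, fun j => ?_⟩
  rw [← evMap_apply, hf]

theorem indep_of_sep (L : Matrix V V K) (y : ι → V → K)
    (hcard : Fintype.card ι + L.rank = Fintype.card V)
    (hsep : ∀ f : V → K, L *ᵥ f = 0 → (∀ j, ∑ a, y j a * f a = 0) → f = 0) (c : ι → K)
    (hc : ∀ f : V → K, L *ᵥ f = 0 → ∑ a, (∑ j, c j * y j a) * f a = 0) : c = 0 := by
  classical
  funext j
  obtain ⟨f, hf, hfe⟩ := ev_surj L y hcard hsep (Pi.single j 1)
  have h := hc f hf
  have h2 : ∑ a, (∑ j, c j * y j a) * f a = ∑ j, c j * ∑ a, y j a * f a := by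
    simp only [Finset.sum_mul, Finset.mul_sum]
    rw [Finset.sum_comm]
    refine Finset.sum_congr rfl fun a _ => Finset.sum_congr rfl fun j _ => ?_
    ring
  rw [h2] at h
  simp only [hfe] at h
  simpa [Pi.single_apply] using h

theorem sys_of_sep (L : Matrix V V K) (hL : ∀ a b, L a b = L b a) (y : ι → V → K)
    (hcard : Fintype.card ι + L.rank = Fintype.card V)
    (hsep : ∀ f : V → K, L *ᵥ f = 0 → (∀ j, ∑ a, y j a * f a = 0) → f = 0)
    (f : V → K) (μ : ι → K) (h1 : ∀ a, (L *ᵥ f) a + ∑ j, y j a * μ j = 0)
    (h2 : ∀ j, ∑ a, y j a * f a = 0) : f = 0 ∧ μ = 0 := by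
  have hμ : μ = 0 := by
    refine indep_of_sep L y hcard hsep μ fun g hg => ?_
    have h3 : ∑ a, g a * ((L *ᵥ f) a + ∑ j, y j a * μ j) = 0 :=
      Finset.sum_eq_zero fun a _ => by rw [h1 a, mul_zero]
    have h4 : ∑ a, g a * (L *ᵥ f) a = 0 := by
      have h5 : ∑ a, g a * (L *ᵥ f) a = ∑ b, (L *ᵥ g) b * f b := by
        simp only [Matrix.mulVec, dotProduct, Finset.mul_sum, Finset.sum_mul]
        rw [Finset.sum_comm]
        refine Finset.sum_congr rfl fun a _ => Finset.sum_congr rfl fun b _ => ?_
        rw [hL b a]; ring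
      rw [h5, hg]; simp
    simp only [mul_add, Finset.sum_add_distrib, h4, zero_add] at h3
    rw [← h3]
    refine Finset.sum_congr rfl fun a _ => ?_
    rw [mul_comm]
    congr 1
    refine Finset.sum_congr rfl fun j _ => ?_
    ring
  refine ⟨hsep f (funext fun a => ?_) h2, hμ⟩
  have := h1 a
  rw [hμ] at this
  simpa using this

/-- independent functionals give a surjective evaluation map -/
theorem evMap_surjective_of_indep (L : Matrix V V K) (y : ι → V → K)
    (hind : ∀ c : ι → K, (∀ f : V → K, L *ᵥ f = 0 → ∑ a, (∑ j, c j * y j a) * f a = 0) → c = 0) :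
    Function.Surjective (evMap L y) := by
  classical
  rw [← LinearMap.range_eq_top]
  by_contra hne
  obtain ⟨φ, hφ, hle⟩ := Submodule.exists_le_ker_of_lt_top _ (lt_top_iff_ne_top.2 hne)
  apply hφ
  have hφc : ∀ e : ι → K, φ e = ∑ j, φ (Pi.single j 1) * e j := by
    intro e
    conv_lhs => rw [LinearMap.pi_apply_eq_sum_univ φ e]
    refine Finset.sum_congr rfl fun j _ => ?_
    rw [smul_eq_mul, mul_comm]
    congr 2
    funext i
    simp [Pi.single_apply, eq_comm]
  have hc := hind (fun j => φ (Pi.single j 1)) fun f hf => by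
    have hmem : f ∈ LinearMap.ker L.mulVecLin := by
      rw [LinearMap.mem_ker]; exact hf
    have h3 : φ (evMap L y ⟨f, hmem⟩) = 0 := by
      have := hle (LinearMap.mem_range_self (evMap L y) ⟨f, hmem⟩)
      rwa [LinearMap.mem_ker] at this
    rw [hφc] at h3
    simp only [evMap_apply] at h3
    rw [← h3]
    simp only [Finset.sum_mul, Finset.mul_sum]
    rw [Finset.sum_comm]
    refine Finset.sum_congr rfl fun j _ => Finset.sum_congr rfl fun a _ => ?_
    ring
  ext1 j
  have := congrFun hc j
  simp only [Pi.zero_apply] at this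
  ext
  simpa using this

theorem card_le_of_indep (L : Matrix V V K) (y : ι → V → K)
    (hind : ∀ c : ι → K, (∀ f : V → K, L *ᵥ f = 0 → ∑ a, (∑ j, c j * y j a) * f a = 0) → c = 0) :
    Fintype.card ι + L.rank ≤ Fintype.card V := by
  have h := LinearMap.finrank_le_finrank_of_surjective (evMap_surjective_of_indep L y hind)
  rw [Module.finrank_fintype_fun_eq_card] at h
  have := finrank_ker L
  omega

/-- independent functionals, as many as the dimension of the kernel, separate it -/
theorem sep_of_indep (L : Matrix V V K) (y : ι → V → K)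
    (hcard : Fintype.card ι + L.rank = Fintype.card V)
    (hind : ∀ c : ι → K, (∀ f : V → K, L *ᵥ f = 0 → ∑ a, (∑ j, c j * y j a) * f a = 0) → c = 0) :
    ∀ f : V → K, L *ᵥ f = 0 → (∀ j, ∑ a, y j a * f a = 0) → f = 0 := by
  rw [← evMap_injective_iff]
  have hfr := finrank_ker L
  have hfin : Module.finrank K (LinearMap.ker L.mulVecLin) = Module.finrank K (ι → K) := by
    rw [Module.finrank_fintype_fun_eq_card]; omega
  rw [LinearMap.injective_iff_surjective_of_finrank_eq_finrank hfin]
  exact evMap_surjective_of_indep L y hind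

end linalg

section generic
variable {K : Type*} [Field K] [Algebra (ZMod 2) K]

/-- the field generated by the `z a`, `a ≠ s` -/
abbrev Es (z : V → K) (s : V) : IntermediateField (ZMod 2) K :=
  IntermediateField.adjoin (ZMod 2) (z '' {s}ᶜ)

theorem mem_Es_of_closure {z : V → K} {s : V} {a : K}
    (h : a ∈ Subfield.closure (z '' {s}ᶜ)) : a ∈ Es z s := by
  have h1 : Subfield.closure (z '' {s}ᶜ) ≤ (Es z s).toSubfield :=
    Subfield.closure_le.2 (fun x hx => IntermediateField.subset_adjoin _ _ hx)
  exact h1 h

/-- the values at the vertices different from `s` -/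
noncomputable def zE (z : V → K) (s : V) : V → Es z s := fun a =>
  if h : a = s then 0 else ⟨z a, IntermediateField.subset_adjoin _ _ ⟨a, h, rfl⟩⟩

theorem algebraMap_zE (z : V → K) (s a : V) (h : a ≠ s) :
    algebraMap (Es z s) K (zE z s a) = z a := by
  simp only [zE, dif_neg h]
  rfl

theorem transcendental_s {z : V → K} (hz : AlgebraicIndependent (ZMod 2) z) (s : V) :
    Transcendental (Es z s) (z s) := by
  rw [IntermediateField.transcendental_adjoin_iff]
  exact hz.transcendental_adjoin (by simp)

theorem aeval_ne_zero_of_ne {z : V → K} (hz : AlgebraicIndependent (ZMod 2) z) (s : V)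
    {p : (Es z s)[X]} (hp : p ≠ 0) : aeval (z s) p ≠ 0 := by
  intro h
  exact hp (transcendental_iff.1 (transcendental_s hz s) p h)

section core
variable {z : V → K} (hz : AlgebraicIndependent (ZMod 2) z) (hR : RankSpec z) (hC : CombSpec V)
  (G : EG V) (s : V) {ι : Type*} [Fintype ι] [DecidableEq ι] (Ψ : V → ι → (Es z s)[X])
  (hΨ : ∀ j, Ψ s j = 0) (hcard : Fintype.card ι + tau G = Fintype.card V)

include hz in
theorem zinj {a b : V} (h : a ≠ b) : z a ≠ z b := fun h' => h (hz.injective h')

include hz in
theorem zE_ne {a b : V} (ha : a ≠ s) (hb : b ≠ s) (h : a ≠ b) : zE z s a ≠ zE z s b := by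
  intro h'
  have := congrArg (algebraMap (Es z s) K) h'
  rw [algebraMap_zE z s a ha, algebraMap_zE z s b hb] at this
  exact zinj hz h this

include hz hR hΨ hcard in
/-- separation at the generic point implies that the determinant is nonzero -/
theorem core_generic (hsep : ∀ f : V → K, Lm G z *ᵥ f = 0 →
      (∀ j, ∑ a, aeval (z s) (Ψ a j) * f a = 0) → f = 0) :
    (BB G s (zE z s) Ψ).det ≠ 0 := by
  intro h0
  have h1 := (aeval_det_BB_generic (K := K) G s (zE z s) Ψ hΨ (z s) (fun i hi => by
    rw [algebraMap_zE z s i (ne_of_mem_nb hi)]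
    exact zinj hz (ne_of_mem_nb hi).symm) z rfl
    (fun a ha => (algebraMap_zE z s a ha).symm)).2
  refine h1 ?_ (by rw [h0, map_zero])
  intro f μ hf hμ
  exact sys_of_sep (Lm G z) (Lm_symm G z) (fun j a => aeval (z s) (Ψ a j))
    (by rw [hR.rank_eq]; exact hcard) hsep f μ hf hμ

include hz hΨ in
/-- a nonzero determinant implies separation at the generic point -/
theorem core_generic' (hdet : (BB G s (zE z s) Ψ).det ≠ 0) (f : V → K)
    (hf : Lm G z *ᵥ f = 0) (hj : ∀ j, ∑ a, aeval (z s) (Ψ a j) * f a = 0) : f = 0 := by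
  have h1 := (aeval_det_BB_generic (K := K) G s (zE z s) Ψ hΨ (z s) (fun i hi => by
    rw [algebraMap_zE z s i (ne_of_mem_nb hi)]
    exact zinj hz (ne_of_mem_nb hi).symm) z rfl
    (fun a ha => (algebraMap_zE z s a ha).symm)).1 (aeval_ne_zero_of_ne hz s hdet)
  exact (h1 f 0 (fun a => by simp [hf]) hj).1

include hz hR hC hΨ hcard in
/-- consequences of a nonzero value at a neighbour -/
theorem core_special {x : V} (hx : x ∈ nb G s)
    (hdet : aeval (z x) (BB G s (zE z s) Ψ).det ≠ 0) :
    Good G s x ∧ ∀ c : ι → K,
      VanishOn z (contr s x G) (fun a => ∑ j, c j * aeval (z x) (Ψ a j)) → c = 0 := by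
  have hxs : x ≠ s := ne_of_mem_nb hx
  have h1 := (aeval_det_BB_special (K := K) G s (zE z s) Ψ hΨ x hx (fun i hi hix =>
    zE_ne hz s (ne_of_mem_nb hi) hxs hix) z
    (fun a ha => (algebraMap_zE z s a ha).symm)).1
    (by rw [algebraMap_zE z s x hxs]; exact hdet)
  rw [algebraMap_zE z s x hxs] at h1
  -- the extended family
  let y : Option ι → V → K := fun o => match o with
    | none => Pi.single s 1
    | some j => fun a => aeval (z x) (Ψ a j)
  have hsep : ∀ f : V → K, Lm (contr s x G) z *ᵥ f = 0 → (∀ j, ∑ a, y j a * f a = 0) → f = 0 := by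
    intro f hf hy
    have hfs : f s = 0 := by
      have := hy none
      simpa [y, Pi.single_apply] using this
    exact (h1 f 0 hfs (fun a _ => by simp [hf]) (fun j => hy (some j))).1
  have hfin := finrank_ker (Lm (contr s x G) z)
  rw [hR.rank_eq] at hfin
  have hle := LinearMap.finrank_le_finrank_of_injective
    ((evMap_injective_iff (Lm (contr s x G) z) y).2 hsep)
  rw [Module.finrank_fintype_fun_eq_card, Fintype.card_option] at hle
  have htau := hC.tau_contr_le G s x hxs.symm
  rw [if_pos (mem_nb.1 hx)] at htau
  have hgood : tau (contr s x G) + 1 = tau G := by omega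
  refine ⟨⟨mem_nb.1 hx, hgood⟩, fun c hc => ?_⟩
  have := indep_of_sep (Lm (contr s x G) z) y
    (by rw [hR.rank_eq, Fintype.card_option]; omega) hsep
    (fun o => match o with | none => 0 | some j => c j) (fun f hf => by
      have := hc f hf
      simp only [Fintype.sum_option, zero_mul, zero_add, y]
      exact this)
  funext j
  exact congrFun this (some j)

include hz hR hΨ hcard in
/-- separation at a good neighbour implies a nonzero value -/
theorem core_special' {x : V} (hg : Good G s x)
    (hsep : ∀ f : V → K, f s = 0 → Lm (contr s x G) z *ᵥ f = 0 →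
      (∀ j, ∑ a, aeval (z x) (Ψ a j) * f a = 0) → f = 0) :
    aeval (z x) (BB G s (zE z s) Ψ).det ≠ 0 := by
  have hx : x ∈ nb G s := mem_nb.2 hg.1
  have hxs : x ≠ s := ne_of_mem_nb hx
  have h1 := (aeval_det_BB_special (K := K) G s (zE z s) Ψ hΨ x hx (fun i hi hix =>
    zE_ne hz s (ne_of_mem_nb hi) hxs hix) z
    (fun a ha => (algebraMap_zE z s a ha).symm)).2
  rw [algebraMap_zE z s x hxs] at h1
  apply h1
  intro f μ hfs hf hj
  let y : Option ι → V → K := fun o => match o with
    | none => Pi.single s 1
    | some j => fun a => aeval (z x) (Ψ a j)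
  have hsep' : ∀ f : V → K, Lm (contr s x G) z *ᵥ f = 0 →
      (∀ j, ∑ a, y j a * f a = 0) → f = 0 := by
    intro f hf hy
    have hfs : f s = 0 := by
      have := hy none
      simpa [y, Pi.single_apply] using this
    exact hsep f hfs hf (fun j => hy (some j))
  have hsys := sys_of_sep (Lm (contr s x G) z) (Lm_symm _ z) y
    (by rw [hR.rank_eq, Fintype.card_option]; have := hg.2; omega) hsep' f
    (fun o => match o with | none => 0 | some j => μ j)
    (fun a => by
      by_cases ha : a = s
      · subst ha
        rw [Lm_contr_row_s G hxs.symm]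
        simp [Fintype.sum_option, y, hΨ]
      · have := hf a ha
        simpa [Fintype.sum_option, y, ha] using this)
    (fun o => by
      rcases o with _ | j
      · simp [y, Pi.single_apply, hfs]
      · exact hj j)
  refine ⟨hsys.1, funext fun j => ?_⟩
  exact congrFun hsys.2 (some j)

include hz in
/-- number of neighbours at which an even polynomial vanishes -/
theorem card_roots_le (p : (Es z s)[X]) (hp : p ≠ 0) (hd : derivative p = 0) :
    ∃ A ⊆ nb G s, 2 * (nb G s).card ≤ 2 * A.card + p.natDegree ∧
      ∀ x ∈ A, aeval (z x) p ≠ 0 := by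
  classical
  have := charTwo (Es z s)
  set q := contract 2 p with hq
  have hpq : expand (Es z s) 2 q = p := expand_contract 2 hd two_ne_zero
  have hq0 : q ≠ 0 := by
    intro h; apply hp; rw [← hpq, h]; simp
  have hdeg : p.natDegree = q.natDegree * 2 := by rw [← hpq, natDegree_expand]
  refine ⟨(nb G s).filter (fun x => aeval (z x) p ≠ 0), Finset.filter_subset _ _, ?_,
    fun x hx => (Finset.mem_filter.1 hx).2⟩
  have hsplit := Finset.card_filter_add_card_filter_not (s := nb G s)
    (fun x => aeval (z x) p ≠ 0)
  have hroots : ((nb G s).filter (fun x => ¬ aeval (z x) p ≠ 0)).card ≤ q.natDegree := by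
    have himg : ((nb G s).filter (fun x => ¬ aeval (z x) p ≠ 0)).image (fun x => zE z s x ^ 2)
        ⊆ q.roots.toFinset := by
      intro r hr
      rw [Finset.mem_image] at hr
      obtain ⟨x, hx, rfl⟩ := hr
      rw [Finset.mem_filter, not_not] at hx
      rw [Multiset.mem_toFinset, mem_roots hq0, IsRoot]
      have hxs : x ≠ s := ne_of_mem_nb hx.1
      have h2 := hx.2
      rw [← algebraMap_zE z s x hxs, aeval_algebraMap_apply_eq_algebraMap_eval,
        ← hpq, expand_eval] at h2
      exact (map_eq_zero _).1 h2
    have hinj : Set.InjOn (fun x => zE z s x ^ 2)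
        ((nb G s).filter (fun x => ¬ aeval (z x) p ≠ 0) : Finset V) := by
      intro a ha b hb hab
      simp only [Finset.coe_filter, Set.mem_ofPred_eq] at ha hb
      by_contra hne
      refine zE_ne hz s (ne_of_mem_nb ha.1) (ne_of_mem_nb hb.1) hne ?_
      have h3 : (zE z s a + zE z s b) ^ 2 = 0 := by
        rw [CharTwo.add_sq]
        have h4 : zE z s a ^ 2 = zE z s b ^ 2 := hab
        rw [h4]
        exact CharTwo.add_self_eq_zero _
      exact add_eq_zero_iff'.1 (pow_eq_zero_iff (two_ne_zero)|>.1 h3)
    calc ((nb G s).filter (fun x => ¬ aeval (z x) p ≠ 0)).card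
        = (((nb G s).filter (fun x => ¬ aeval (z x) p ≠ 0)).image
            (fun x => zE z s x ^ 2)).card := (Finset.card_image_of_injOn hinj).symm
      _ ≤ q.roots.toFinset.card := Finset.card_le_card himg
      _ ≤ Multiset.card q.roots := Multiset.toFinset_card_le _
      _ ≤ q.natDegree := card_roots' q
  omega

end core

/-- independence of a family of functionals on the kernel -/
def Ind (z : V → K) (G : EG V) {ι : Type*} [Fintype ι] (y : ι → V → K) : Prop :=
  ∀ c : ι → K, VanishOn z G (fun a => ∑ i, c i * y i a) → c = 0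

theorem ext_step {z : V → K} (hR : RankSpec z) (H : EG V) (s : V) {ι : Type*} [Fintype ι]
    (y : ι → V → K) (hy : Ind z H y)
    (hB : ∀ f : V → K, Lm H z *ᵥ f = 0 → (∀ j, ∑ a, y j a * f a = 0) →
      (∀ b, b ≠ s → f b = 0) → f = 0)
    (hlt : Fintype.card ι + tau H < Fintype.card V) :
    ∃ b, b ≠ s ∧ Ind z H (Sum.elim y (fun _ : Unit => (Pi.single b 1 : V → K))) := by
  by_contra hcon
  push Not at hcon
  have hsep : ∀ f : V → K, Lm H z *ᵥ f = 0 → (∀ j, ∑ a, y j a * f a = 0) → f = 0 := by
    intro f hf hj
    refine hB f hf hj fun b hb => ?_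
    have h1 := hcon b hb
    simp only [Ind] at h1
    push Not at h1
    obtain ⟨c, hc, hc0⟩ := h1
    have h2 := hc f hf
    have h3 : ∑ a, (∑ i, c i * (Sum.elim y (fun _ : Unit => (Pi.single b 1 : V → K))) i a) * f a
        = c (.inr ()) * f b := by
      simp only [Fintype.sum_sum_type, Sum.elim_inl, Sum.elim_inr, Finset.univ_unique,
        Finset.sum_singleton, add_mul, Finset.sum_add_distrib]
      have e1 : ∑ a, (∑ i, c (.inl i) * y i a) * f a = 0 := by
        simp only [Finset.sum_mul]
        rw [Finset.sum_comm]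
        refine Finset.sum_eq_zero fun j _ => ?_
        have := hj j
        calc ∑ a, c (.inl j) * y j a * f a = c (.inl j) * ∑ a, y j a * f a := by
              rw [Finset.mul_sum]; refine Finset.sum_congr rfl fun a _ => by ring
          _ = 0 := by rw [this, mul_zero]
      rw [e1, zero_add, Finset.sum_eq_single b]
      · simp
      · intro a _ ha; simp [ha]
      · simp
    rw [h3] at h2
    rcases mul_eq_zero.1 h2 with h4 | h4
    · exfalso
      apply hc0
      have h5 : (fun i => c (.inl i)) = 0 := by
        refine hy _ fun g hg => ?_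
        have h6 := hc g hg
        simp only [Fintype.sum_sum_type, Sum.elim_inl, Sum.elim_inr, Finset.univ_unique,
          Finset.sum_singleton] at h6
        have h7 : c (Sum.inr (default : Unit)) = 0 := h4
        simp only [h7, zero_mul, add_zero] at h6
        exact h6
      funext i
      rcases i with i | i
      · exact congrFun h5 i
      · exact h4
    · exact h4
  have h1 := LinearMap.finrank_le_finrank_of_injective ((evMap_injective_iff (Lm H z) y).2 hsep)
  rw [Module.finrank_fintype_fun_eq_card] at h1
  have h2 := finrank_ker (Lm H z)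
  rw [hR.rank_eq] at h2
  omega

theorem exists_ext {z : V → K} (hR : RankSpec z) (H : EG V) (s : V) (n : ℕ) :
    ∀ (ι : Type) [Fintype ι] (y : ι → V → K), Ind z H y →
    (∀ f : V → K, Lm H z *ᵥ f = 0 → (∀ j, ∑ a, y j a * f a = 0) →
      (∀ b, b ≠ s → f b = 0) → f = 0) →
    Fintype.card ι + n + tau H = Fintype.card V →
    ∃ b : Fin n → V, (∀ k, b k ≠ s) ∧
      Ind z H (Sum.elim y (fun k : Fin n => (Pi.single (b k) 1 : V → K))) := by
  induction n with
  | zero =>
    intro ι _ y hy _ _
    refine ⟨fun k => k.elim0, fun k => k.elim0, fun c hc => ?_⟩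
    have h1 : (fun i => c (.inl i)) = 0 := by
      refine hy _ fun g hg => ?_
      have h6 := hc g hg
      simpa only [Fintype.sum_sum_type, Sum.elim_inl, Sum.elim_inr, Finset.univ_eq_empty,
          Finset.sum_empty, add_zero] using h6
    funext i
    rcases i with i | i
    · exact congrFun h1 i
    · exact i.elim0
  | succ n ih =>
    intro ι _ y hy hB hcard
    obtain ⟨b0, hb0, hind⟩ := ext_step hR H s y hy hB (by omega)
    obtain ⟨b, hb, hind'⟩ := ih (ι ⊕ Unit) _ hind (fun f hf hj hs =>
      hB f hf (fun j => hj (.inl j)) hs) (by rw [Fintype.card_sum, Fintype.card_unit]; omega)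
    refine ⟨Fin.cons b0 b, fun k => ?_, fun c hc => ?_⟩
    · refine Fin.cases ?_ (fun k => ?_) k
      · exact hb0
      · exact hb k
    · let c' : (ι ⊕ Unit) ⊕ Fin n → K := fun i => match i with
        | .inl (.inl i) => c (.inl i)
        | .inl (.inr _) => c (.inr 0)
        | .inr k => c (.inr k.succ)
      have hc' : c' = 0 := by
        refine hind' c' fun g hg => ?_
        have h6 := hc g hg
        simp only [Fintype.sum_sum_type, Sum.elim_inl, Sum.elim_inr, Fin.sum_univ_succ,
          Fin.cons_zero, Fin.cons_succ] at h6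
        simp only [Fintype.sum_sum_type, Sum.elim_inl, Sum.elim_inr, Finset.univ_unique,
          Finset.sum_singleton, c']
        rw [← h6]
        refine Finset.sum_congr rfl fun a _ => ?_
        ring
      funext i
      rcases i with i | k
      · exact congrFun hc' (.inl (.inl i))
      · refine Fin.cases ?_ (fun k => ?_) k
        · exact congrFun hc' (.inl (.inr ()))
        · exact congrFun hc' (.inr k)

/-- if `s` is not isolated, the coordinates different from `s` separate the kernel -/
theorem sep_compl {z : V → K} (hz : AlgebraicIndependent (ZMod 2) z) (G : EG V) (s : V)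
    (hs : s ∈ supp G) (f : V → K) (hf : Lm G z *ᵥ f = 0) (h0 : ∀ b, b ≠ s → f b = 0) : f = 0 := by
  obtain ⟨i, hi⟩ := nb_nonempty hs
  have his : i ≠ s := ne_of_mem_nb hi
  have h1 := congrFun hf i
  rw [Lm_row_v G s z f i his, Lm0_mulVec G s z f i his, if_pos hi, Pi.zero_apply] at h1
  have h2 : ∑ c ∈ univ.erase s, (bit (adj G i c) : K) * ((f i + f c) / (z i + z c)) = 0 := by
    refine Finset.sum_eq_zero fun c hc => ?_
    rw [h0 i his, h0 c (Finset.ne_of_mem_erase hc)]; simp
  rw [h2, zero_add, h0 i his, zero_add, div_eq_zero_iff] at h1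
  have h3 : f s = 0 := by
    rcases h1 with h1 | h1
    · exact h1
    · exact absurd (add_eq_zero_iff'.1 h1) (zinj hz his)
  funext b
  by_cases hb : b = s
  · subst hb; exact h3
  · exact h0 b hb

theorem single_mem {z : V → K} {s b a : V} : (Pi.single b 1 : V → K) a ∈ Es z s := by
  by_cases h : a = b
  · subst h; simp [one_mem]
  · simp [h]

/-- module COUNT -/
theorem _root_.Pool.Agent.AOP.countSpec {z : V → K} (hz : AlgebraicIndependent (ZMod 2) z) (hC : CombSpec V)
    (hR : RankSpec z) : CountSpec z where
  count_const := by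
    intro G s m y hs hy hind
    have hle := card_le_of_indep (Lm G z) y hind
    rw [Fintype.card_fin, hR.rank_eq] at hle
    obtain ⟨n, hn⟩ := Nat.exists_eq_add_of_le hle
    obtain ⟨b, hb, hindb⟩ := exists_ext hR G s n (Fin m) y hind
      (fun f hf _ h0 => sep_compl hz G s hs f hf h0) (by rw [Fintype.card_fin]; omega)
    set Y : (Fin m ⊕ Fin n) → V → K :=
      Sum.elim y (fun k : Fin n => (Pi.single (b k) 1 : V → K)) with hY
    have hcard : Fintype.card (Fin m ⊕ Fin n) + tau G = Fintype.card V := by
      rw [Fintype.card_sum, Fintype.card_fin, Fintype.card_fin]; omega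
    have hYs : ∀ j, Y j s = 0 := by
      rintro (j | j)
      · exact (hy j).1
      · simp [hY, (hb j).symm]
    have hYE : ∀ a j, ∃ e : Es z s, algebraMap (Es z s) K e = Y j a := by
      rintro a (j | j)
      · exact ⟨⟨y j a, mem_Es_of_closure ((hy j).2 a)⟩, rfl⟩
      · exact ⟨⟨_, single_mem⟩, rfl⟩
    choose Ψ hΨ using hYE
    have hΨs : ∀ j, Ψ s j = 0 := by
      intro j
      apply (algebraMap (Es z s) K).injective
      rw [hΨ, hYs, map_zero]
    have hae : ∀ (t : K) (a : V) (j : Fin m ⊕ Fin n),
        aeval t ((fun (v : V) (j : Fin m ⊕ Fin n) => (C (Ψ v j) : (Es z s)[X])) a j) = Y j a := by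
      intro t a j
      rw [← hΨ a j]; exact aeval_C _ _
    have hdet := core_generic hz hR G s (fun v j => (C (Ψ v j) : (Es z s)[X]))
      (fun j => by simp [hΨs]) hcard (fun f hf hj =>
        sep_of_indep (Lm G z) Y (by rw [hR.rank_eq]; exact hcard) hindb f hf
          (fun j => by rw [← hj j]; exact Finset.sum_congr rfl fun a _ => by rw [hae]))
    obtain ⟨A, hA, hcardA, hAne⟩ := card_roots_le hz G s _ hdet
      (derivative_det_BB G s (zE z s) _ (fun j => by simp [hΨs]))
    have hdeg := natDegree_det_BB G s (zE z s) Ψ hΨs hs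
    refine ⟨A, hA, by omega, fun x hx => ?_⟩
    obtain ⟨h1, h2⟩ := core_special hz hR hC G s (fun v j => (C (Ψ v j) : (Es z s)[X]))
      (fun j => by simp [hΨs]) hcard (hA hx) (hAne x hx)
    refine ⟨h1, fun c hc => ?_⟩
    have h3 := h2 (Sum.elim c (fun _ => 0)) (fun f hf => by
      refine Eq.trans ?_ (hc f hf)
      refine Finset.sum_congr rfl fun a _ => ?_
      congr 1
      simp only [hae, Fintype.sum_sum_type, Sum.elim_inl, Sum.elim_inr, zero_mul,
        Finset.sum_const_zero, add_zero, hY])
    funext j
    exact congrFun h3 (.inl j)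
  count_lin := by
    intro G s y0 y1 hs hy0 hy1 hne
    have hind : Ind z G (fun (_ : Unit) (a : V) => y0 a + z s * y1 a) := by
      intro c hc
      by_contra hc0
      have hc1 : c () ≠ 0 := fun h => hc0 (funext fun i => by cases i; exact h)
      apply hne
      intro f hf
      have h1 := hc f hf
      simp only [Finset.univ_unique, Finset.sum_singleton] at h1
      have h2 : c () * ∑ a, (y0 a + z s * y1 a) * f a = 0 := by
        rw [← h1, Finset.mul_sum]
        refine Finset.sum_congr rfl fun a _ => ?_
        change _ = c () * (y0 a + z s * y1 a) * f a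
        ring
      exact (mul_eq_zero.1 h2).resolve_left hc1
    have hle := card_le_of_indep (Lm G z) _ hind
    rw [Fintype.card_unit, hR.rank_eq] at hle
    obtain ⟨n, hn⟩ := Nat.exists_eq_add_of_le hle
    obtain ⟨b, hb, hindb⟩ := exists_ext hR G s n Unit _ hind
      (fun f hf _ h0 => sep_compl hz G s hs f hf h0) (by rw [Fintype.card_unit]; omega)
    set Y : (Unit ⊕ Fin n) → V → K :=
      Sum.elim (fun (_ : Unit) (a : V) => y0 a + z s * y1 a)
        (fun k : Fin n => (Pi.single (b k) 1 : V → K)) with hY
    have hcard : Fintype.card (Unit ⊕ Fin n) + tau G = Fintype.card V := by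
      rw [Fintype.card_sum, Fintype.card_fin, Fintype.card_unit]; omega
    have hE : ∀ a (j : Unit ⊕ Fin n), ∃ e : Es z s, algebraMap (Es z s) K e
        = match j with | .inl _ => 0 | .inr k => (Pi.single (b k) 1 : V → K) a := by
      rintro a (j | j)
      · exact ⟨0, map_zero _⟩
      · exact ⟨⟨_, single_mem⟩, rfl⟩
    choose Ψ hΨ using hE
    have hΨs : ∀ j, Ψ s j = 0 := by
      intro j
      apply (algebraMap (Es z s) K).injective
      rw [hΨ, map_zero]
      rcases j with j | j
      · rfl
      · simp [(hb j).symm]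
    have hyE : ∀ w : V → K, Const z s w → ∃ e : V → Es z s,
        ∀ a, algebraMap (Es z s) K (e a) = w a := fun w hw =>
      ⟨fun a => ⟨w a, mem_Es_of_closure (hw.2 a)⟩, fun a => rfl⟩
    obtain ⟨e0, he0⟩ := hyE y0 hy0
    obtain ⟨e1, he1⟩ := hyE y1 hy1
    have he0s : e0 s = 0 := by
      apply (algebraMap (Es z s) K).injective; rw [he0, map_zero]; exact hy0.1
    have he1s : e1 s = 0 := by
      apply (algebraMap (Es z s) K).injective; rw [he1, map_zero]; exact hy1.1
    set Φ : V → (Unit ⊕ Fin n) → (Es z s)[X] := fun v j =>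
      if j = .inl () then C (e0 v) + X * C (e1 v) else C (Ψ v j) with hΦ
    have hΦs : ∀ j, Φ s j = 0 := by
      intro j
      simp only [hΦ, he0s, he1s, hΨs]
      split_ifs <;> simp
    have hae : ∀ (t : K) (a : V) (j : Unit ⊕ Fin n), aeval t (Φ a j)
        = match j with
          | .inl _ => y0 a + t * y1 a
          | .inr k => (Pi.single (b k) 1 : V → K) a := by
      intro t a j
      rcases j with j | j
      · simp only [hΦ, if_true, map_add, map_mul, aeval_X, aeval_C, he0, he1]
      · have : (Sum.inr j : Unit ⊕ Fin n) ≠ .inl () := by simp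
        simp only [hΦ, if_neg this, aeval_C, hΨ]
    have hdet := core_generic hz hR G s Φ hΦs hcard (fun f hf hj =>
        sep_of_indep (Lm G z) Y (by rw [hR.rank_eq]; exact hcard) hindb f hf
          (fun j => by
            rw [← hj j]
            refine Finset.sum_congr rfl fun a _ => ?_
            rw [hae]
            rcases j with j | j <;> rfl))
    obtain ⟨A, hA, hcardA, hAne⟩ := card_roots_le hz G s _ hdet
      (derivative_det_BB G s (zE z s) _ hΦs)
    have hdeg := natDegree_det_BB_lin G s (zE z s) Ψ (.inl ()) e0 e1 hΨs he0s he1s hs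
    have hdeg' : (BB G s (zE z s) Φ).det.natDegree ≤ (nb G s).card := hdeg
    refine ⟨A, hA, by omega, fun x hx => ?_⟩
    obtain ⟨h1, h2⟩ := core_special hz hR hC G s Φ hΦs hcard (hA hx) (hAne x hx)
    refine ⟨h1, fun hc => ?_⟩
    have h3 := h2 (fun j => if j = .inl () then 1 else 0) (fun f hf => by
      refine Eq.trans ?_ (hc f hf)
      refine Finset.sum_congr rfl fun a _ => ?_
      congr 1
      simp only [hae, ite_mul, one_mul, zero_mul, Finset.sum_ite_eq', Finset.mem_univ, if_true])
    have h4 := congrFun h3 (.inl ())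
    simp at h4
  spec_lin := by
    intro G s x y0 y1 hg hy0 hy1 hvan
    by_contra hne
    have hx : x ∈ nb G s := mem_nb.2 hg.1
    have hxs : x ≠ s := ne_of_mem_nb hx
    -- the family `e_s, y(z x)` is independent on the kernel of the contraction
    let y : Fin 2 → V → K := fun i => if i = 0 then Pi.single s 1 else fun a => y0 a + z x * y1 a
    have hsingle : Lm (contr s x G) z *ᵥ (Pi.single s 1 : V → K) = 0 := by
      rw [Lm_contr_congr G hxs.symm z z (Pi.single s 1) 0 (fun _ _ => rfl)
        (fun a ha => by simp [ha])]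
      simp
    have hind : Ind z (contr s x G) y := by
      intro c hc
      have h1 := hc _ hsingle
      have hs0 : y0 s + z x * y1 s = 0 := by rw [hy0.1, hy1.1]; simp
      simp only [Fin.sum_univ_two, y, if_true, Pi.single_apply] at h1
      have hc0 : c 0 = 0 := by
        have h2 : ∀ a, (c 0 * (if a = s then (1 : K) else 0) + c 1 * (if (1 : Fin 2) = 0 then
            (Pi.single s 1 : V → K) else fun a => y0 a + z x * y1 a) a) *
              (if a = s then (1 : K) else 0) = if a = s then c 0 else 0 := by
          intro a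
          by_cases ha : a = s
          · subst ha; simp [hs0]
          · simp [ha]
        rw [Finset.sum_congr rfl (fun a _ => h2 a)] at h1
        simpa using h1
      have hc1 : c 1 = 0 := by
        by_contra hc1
        apply hne
        intro f hf
        have h2 := hc f hf
        simp only [Fin.sum_univ_two, y, if_true, hc0, zero_mul, zero_add] at h2
        have h3 : c 1 * ∑ a, (y0 a + z x * y1 a) * f a = 0 := by
          rw [← h2, Finset.mul_sum]
          refine Finset.sum_congr rfl fun a _ => ?_
          simp only [one_ne_zero, if_false]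
          ring
        exact (mul_eq_zero.1 h3).resolve_left hc1
      funext i
      fin_cases i
      · exact hc0
      · exact hc1
    have hle := card_le_of_indep (Lm (contr s x G) z) y hind
    rw [Fintype.card_fin, hR.rank_eq] at hle
    obtain ⟨n, hn⟩ := Nat.exists_eq_add_of_le hle
    obtain ⟨b, hb, hindb⟩ := exists_ext hR (contr s x G) s n (Fin 2) y hind
      (fun f hf hj h0 => by
        funext a
        by_cases ha : a = s
        · subst ha
          have := hj 0
          simpa [y, Pi.single_apply] using this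
        · exact h0 a ha) (by rw [Fintype.card_fin]; omega)
    have hgood := hg.2
    have hcard : Fintype.card (Unit ⊕ Fin n) + tau G = Fintype.card V := by
      rw [Fintype.card_sum, Fintype.card_fin, Fintype.card_unit]; omega
    have hyE : ∀ w : V → K, Const z s w → ∃ e : V → Es z s,
        ∀ a, algebraMap (Es z s) K (e a) = w a := fun w hw =>
      ⟨fun a => ⟨w a, mem_Es_of_closure (hw.2 a)⟩, fun a => rfl⟩
    obtain ⟨e0, he0⟩ := hyE y0 hy0
    obtain ⟨e1, he1⟩ := hyE y1 hy1
    have he0s : e0 s = 0 := by
      apply (algebraMap (Es z s) K).injective; rw [he0, map_zero]; exact hy0.1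
    have he1s : e1 s = 0 := by
      apply (algebraMap (Es z s) K).injective; rw [he1, map_zero]; exact hy1.1
    set Φ : V → (Unit ⊕ Fin n) → (Es z s)[X] := fun v j => match j with
      | .inl _ => C (e0 v) + X * C (e1 v)
      | .inr k => C ⟨(Pi.single (b k) 1 : V → K) v, single_mem⟩ with hΦ
    have hΦs : ∀ j, Φ s j = 0 := by
      rintro (j | j)
      · simp only [hΦ, he0s, he1s]; simp
      · simp only [hΦ]
        rw [C_eq_zero]
        apply Subtype.ext
        simp [(hb j).symm]
    have hae : ∀ (t : K) (a : V) (j : Unit ⊕ Fin n), aeval t (Φ a j)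
        = match j with
          | .inl _ => y0 a + t * y1 a
          | .inr k => (Pi.single (b k) 1 : V → K) a := by
      intro t a j
      rcases j with j | j
      · simp only [hΦ, map_add, map_mul, aeval_X, aeval_C, he0, he1]
      · simp only [hΦ, aeval_C]; rfl
    have hdetx := core_special' hz hR G s Φ hΦs hcard hg (fun f hfs hf hj =>
      sep_of_indep (Lm (contr s x G) z) _ (by
        rw [hR.rank_eq, Fintype.card_sum, Fintype.card_fin, Fintype.card_fin]; omega) hindb f hf
        (fun j => by
          rcases j with j | j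
          · fin_cases j
            · simp [y, Pi.single_apply, hfs]
            · have := hj (.inl ())
              simp only [hae] at this
              simpa [y] using this
          · have := hj (.inr j)
            simp only [hae] at this
            exact this))
    have hdet : (BB G s (zE z s) Φ).det ≠ 0 := fun h => hdetx (by rw [h, map_zero])
    have hsep := core_generic' hz G s Φ hΦs hdet
    have hind' := indep_of_sep (Lm G z) (fun (j : Unit ⊕ Fin n) a => aeval (z s) (Φ a j))
      (by rw [hR.rank_eq]; exact hcard) (fun f hf hj => hsep f hf hj)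
      (fun j => if j = .inl () then 1 else 0) (fun f hf => by
        refine Eq.trans ?_ (hvan f hf)
        refine Finset.sum_congr rfl fun a _ => ?_
        congr 1
        simp only [hae, ite_mul, one_mul, zero_mul, Finset.sum_ite_eq', Finset.mem_univ, if_true])
    have h4 := congrFun hind' (.inl ())
    simp at h4

end generic

end Pool.Agent.AOP.C62
end

section
/-!
# Module FUNC: transfer of vanishing rows between a graph and its contractions
-/
namespace Pool.Agent.AOP.C62

open Finset Matrix

variable {V : Type*} [Fintype V] [DecidableEq V]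
variable {K : Type*} [Field K] [Algebra (ZMod 2) K]

theorem rowVan_iff (z : V → K) (G H : EG V) (b : V) :
    RowVan z G H b ↔ VanishOn z G (fun a => Lm H z b a) := Iff.rfl

theorem bit_mem_closure (S : Set K) (a : ZMod 2) : (bit a : K) ∈ Subfield.closure S := by
  rw [bit_eq_ite]
  split_ifs
  · exact one_mem _
  · exact zero_mem _

theorem z_mem {z : V → K} {s a : V} (h : a ≠ s) : z a ∈ Subfield.closure (z '' {s}ᶜ) :=
  Subfield.subset_closure ⟨a, h, rfl⟩

theorem frac_mem {z : V → K} {s a b : V} (ha : a ≠ s) (hb : b ≠ s) (c : ZMod 2) :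
    (bit c : K) / (z a + z b) ∈ Subfield.closure (z '' {s}ᶜ) :=
  div_mem (bit_mem_closure _ _) (add_mem (z_mem ha) (z_mem hb))

theorem const_Lm0 (z : V → K) (M : EG V) (s b : V) :
    Const z s (fun a => Lm0 M s z b a) := by
  refine ⟨by simp [Lm0], fun a => ?_⟩
  simp only [Lm0]
  split_ifs with h1 h2
  · exact zero_mem _
  · refine sum_mem fun c hc => ?_
    refine frac_mem ?_ (Finset.ne_of_mem_erase hc) _
    intro h; exact h1 (Or.inl h)
  · refine frac_mem ?_ ?_ _
    · intro h; exact h1 (Or.inl h)
    · intro h; exact h1 (Or.inr h)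

theorem const_add {z : V → K} {s : V} {w w' : V → K} (h : Const z s w) (h' : Const z s w') :
    Const z s (fun a => w a + w' a) :=
  ⟨by simp [h.1, h'.1], fun a => add_mem (h.2 a) (h'.2 a)⟩

theorem const_smul {z : V → K} {s : V} {w : V → K} (h : Const z s w) {c : K}
    (hc : c ∈ Subfield.closure (z '' {s}ᶜ)) : Const z s (fun a => c * w a) :=
  ⟨by simp [h.1], fun a => mul_mem hc (h.2 a)⟩

theorem const_single {z : V → K} {s b : V} (h : b ≠ s) :
    Const z s (fun a => (Pi.single b 1 : V → K) a) := by
  refine ⟨by simp [h.symm], fun a => ?_⟩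
  by_cases hab : a = b
  · subst hab; simp [one_mem]
  · simp [hab, zero_mem]

theorem const_zero {z : V → K} {s : V} : Const z s (fun _ => (0 : K)) :=
  ⟨rfl, fun _ => zero_mem _⟩

/-- pairing with the row of the Laplacian of `G - s` -/
theorem Lm0_pair (z : V → K) (M : EG V) (s b : V) (f : V → K) :
    ∑ a, Lm0 M s z b a * f a = (Lm0 M s z *ᵥ f) b := rfl

theorem row_of_adj_zero (z : V → K) (M : EG V) {s b : V} (hb : b ≠ s) (h0 : adj M s b = 0)
    (f : V → K) : (Lm M z *ᵥ f) b = (Lm0 M s z *ᵥ f) b := by
  rw [Lm_row_v M s z f b hb, if_neg, add_zero]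
  intro h; rw [mem_nb] at h; rw [h] at h0; exact one_ne_zero h0

theorem row_contr_of_adj_zero (z : V → K) (M : EG V) {s b x : V} (hx : s ≠ x) (hb : b ≠ s)
    (hbx : b ≠ x) (h0 : adj M s b = 0) (f : V → K) :
    (Lm (contr s x M) z *ᵥ f) b = (Lm0 M s z *ᵥ f) b := by
  rw [Lm_contr_row_v M hx z f b hb hbx, if_neg, add_zero]
  intro h; rw [mem_nb] at h; rw [h] at h0; exact one_ne_zero h0

theorem Lm_add_mulVec (z : V → K) (G H : EG V) (f : V → K) (b : V) :
    (Lm (G + H) z *ᵥ f) b = (Lm G z *ᵥ f) b + (Lm H z *ᵥ f) b := by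
  rw [Lm_add, Matrix.add_mulVec]; rfl

/-- the functional describing row `b` of `H` on the kernel of `G`, affine in `z s`, with zero
entry at `s` -/
theorem exists_pair {z : V → K} (hz : AlgebraicIndependent (ZMod 2) z) (G H : EG V) (s b : V)
    (hs : s ∈ supp G) (hb : b ≠ s) : ∃ y0 y1 : V → K, Const z s y0 ∧ Const z s y1 ∧
      (RowVan z G H b ↔ VanishOn z G (fun a => y0 a + z s * y1 a)) ∧
      (∀ x ∈ nb G s, x ≠ b → (RowVan z (contr s x G) (contr s x H) b ↔
        VanishOn z (contr s x G) (fun a => y0 a + z x * y1 a))) ∧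
      ((adj H s b = 0 ∨ b ∈ nb G s) → y1 = 0) := by
  by_cases h0 : adj H s b = 0
  · refine ⟨fun a => Lm0 H s z b a, fun _ => 0, const_Lm0 z H s b, const_zero, ?_, ?_,
      fun _ => rfl⟩
    · simp only [mul_zero, add_zero, VanishOn, RowVan, Lm0_pair]
      refine forall_congr' fun f => imp_congr_right fun _ => ?_
      rw [row_of_adj_zero z H hb h0]
    · intro x hx hxb
      simp only [mul_zero, add_zero, VanishOn, RowVan, Lm0_pair]
      refine forall_congr' fun f => imp_congr_right fun _ => ?_
      rw [row_contr_of_adj_zero z H (ne_of_mem_nb hx).symm hb hxb.symm h0]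
  · have h1 : adj H s b = 1 := (zmod2_eq_zero_or_one _).resolve_left h0
    by_cases hbn : b ∈ nb G s
    · -- use row `b` of `H + G`
      have h2 : adj (H + G) s b = 0 := by
        rw [add_adj, h1, mem_nb.1 hbn]; decide
      refine ⟨fun a => Lm0 (H + G) s z b a, fun _ => 0, const_Lm0 z _ s b, const_zero, ?_, ?_,
        fun _ => rfl⟩
      · simp only [mul_zero, add_zero, VanishOn, RowVan, Lm0_pair]
        refine forall_congr' fun f => imp_congr_right fun hf => ?_
        rw [← row_of_adj_zero z (H + G) hb h2, Lm_add_mulVec, hf]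
        simp
      · intro x hx hxb
        simp only [mul_zero, add_zero, VanishOn, RowVan, Lm0_pair]
        refine forall_congr' fun f => imp_congr_right fun hf => ?_
        rw [← row_contr_of_adj_zero z (H + G) (ne_of_mem_nb hx).symm hb hxb.symm h2, map_add,
          Lm_add_mulVec, hf]
        simp
    · -- linear case
      obtain ⟨x0, hx0⟩ := nb_nonempty hs
      have hx0s : x0 ≠ s := ne_of_mem_nb hx0
      have hbH : b ∈ nb H s := mem_nb.2 h1
      let y1 : V → K := fun a => Lm0 H s z b a + Lm0 G s z x0 a
      let y0 : V → K := fun a => (z b * Lm0 H s z b a + z x0 * Lm0 G s z x0 a)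
        + ((Pi.single b 1 : V → K) a + (Pi.single x0 1 : V → K) a)
      have key : ∀ (t : K) (f : V → K), ∑ a, (y0 a + t * y1 a) * f a
          = (t + z b) * (Lm0 H s z *ᵥ f) b + (t + z x0) * (Lm0 G s z *ᵥ f) x0 + (f b + f x0) := by
        intro t f
        rw [← Lm0_pair, ← Lm0_pair, Finset.mul_sum, Finset.mul_sum]
        have e1 : f b = ∑ a, (Pi.single b 1 : V → K) a * f a := by simp [Pi.single_apply]
        have e2 : f x0 = ∑ a, (Pi.single x0 1 : V → K) a * f a := by simp [Pi.single_apply]
        rw [e1, e2, ← Finset.sum_add_distrib, ← Finset.sum_add_distrib, ← Finset.sum_add_distrib]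
        refine Finset.sum_congr rfl fun a _ => ?_
        simp only [y0, y1]
        ring
      refine ⟨y0, y1, ?_, ?_, ?_, ?_, ?_⟩
      · exact const_add (const_add (const_smul (const_Lm0 z H s b) (z_mem hb))
          (const_smul (const_Lm0 z G s x0) (z_mem hx0s))) (const_add (const_single hb)
          (const_single hx0s))
      · exact const_add (const_Lm0 z H s b) (const_Lm0 z G s x0)
      · have hzb : z s + z b ≠ 0 := fun h => zinj hz hb.symm (add_eq_zero_iff'.1 h)
        have hzx : z s + z x0 ≠ 0 := fun h => zinj hz hx0s.symm (add_eq_zero_iff'.1 h)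
        simp only [VanishOn, RowVan]
        refine forall_congr' fun f => imp_congr_right fun hf => ?_
        rw [key]
        have e1 := Lm_row_v H s z f b hb
        rw [if_pos hbH] at e1
        have e2 := congrFun hf x0
        rw [Lm_row_v G s z f x0 hx0s, if_pos hx0, Pi.zero_apply] at e2
        have e3 : (z s + z b) * (Lm0 H s z *ᵥ f) b + (z s + z x0) * (Lm0 G s z *ᵥ f) x0
            + (f b + f x0) = (z s + z b) * (Lm H z *ᵥ f) b := by
          have e4 : (z s + z x0) * (Lm0 G s z *ᵥ f) x0 = f x0 + f s := by
            have e5 : (Lm0 G s z *ᵥ f) x0 = (f x0 + f s) / (z x0 + z s) :=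
              add_eq_zero_iff'.1 e2
            rw [e5, add_comm (z x0), mul_div_cancel₀ _ hzx]
          have e6 : (z s + z b) * ((f b + f s) / (z b + z s)) = f b + f s := by
            rw [add_comm (z b), mul_div_cancel₀ _ hzb]
          rw [e1, mul_add, e6, e4]
          have e7 := add_self_zero (f x0)
          linear_combination e7
        rw [e3]
        constructor
        · intro h; rw [h, mul_zero]
        · intro h; exact (mul_eq_zero.1 h).resolve_left hzb
      · intro x hx hxb
        have hxs : x ≠ s := ne_of_mem_nb hx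
        have hzb : z x + z b ≠ 0 := fun h => zinj hz hxb (add_eq_zero_iff'.1 h)
        simp only [VanishOn, RowVan]
        refine forall_congr' fun f => imp_congr_right fun hf => ?_
        rw [key]
        have e1 := Lm_contr_row_v H hxs.symm z f b hb hxb.symm
        rw [if_pos hbH] at e1
        have e4 : (z x + z x0) * (Lm0 G s z *ᵥ f) x0 = f x0 + f x := by
          by_cases hxx : x = x0
          · subst hxx
            rw [add_self_zero, zero_mul, add_self_zero]
          · have hzx : z x + z x0 ≠ 0 := fun h => zinj hz hxx (add_eq_zero_iff'.1 h)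
            have e2 := congrFun hf x0
            rw [Lm_contr_row_v G hxs.symm z f x0 hx0s (fun h => hxx h.symm), if_pos hx0,
              Pi.zero_apply] at e2
            have e5 : (Lm0 G s z *ᵥ f) x0 = (f x0 + f x) / (z x0 + z x) :=
              add_eq_zero_iff'.1 e2
            rw [e5, add_comm (z x0), mul_div_cancel₀ _ hzx]
        have e3 : (z x + z b) * (Lm0 H s z *ᵥ f) b + (z x + z x0) * (Lm0 G s z *ᵥ f) x0
            + (f b + f x0) = (z x + z b) * (Lm (contr s x H) z *ᵥ f) b := by
          have e6 : (z x + z b) * ((f b + f x) / (z b + z x)) = f b + f x := by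
            rw [add_comm (z b), mul_div_cancel₀ _ hzb]
          rw [e1, mul_add, e6, e4]
          have e7 := add_self_zero (f x0)
          linear_combination e7
        rw [e3]
        constructor
        · intro h; rw [h, mul_zero]
        · intro h; exact (mul_eq_zero.1 h).resolve_left hzb
      · rintro (h | h)
        · exact absurd h h0
        · exact absurd h hbn

theorem sum_rows_zero (z : V → K) (H : EG V) (f : V → K) : ∑ b, (Lm H z *ᵥ f) b = 0 := by
  simp only [Lm_mulVec]
  have := charTwo K
  rw [sum_symm_eq_diag univ (fun a c => (bit (adj H a c) : K) * ((f a + f c) / (z a + z c)))]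
  · refine Finset.sum_eq_zero fun a _ => ?_
    simp
  · intro i j
    rw [adj_comm, add_comm (f i), add_comm (z i)]

theorem inter_of_card {α : Type*} [DecidableEq α] {N A B : Finset α} (hA : A ⊆ N) (hB : B ⊆ N)
    (h : N.card < A.card + B.card) : ∃ x, x ∈ A ∧ x ∈ B := by
  by_contra hcon
  push Not at hcon
  have hd : Disjoint A B := Finset.disjoint_left.2 hcon
  have := Finset.card_le_card (Finset.union_subset hA hB)
  rw [Finset.card_union_of_disjoint hd] at this
  omega

/-- module FUNC -/
theorem _root_.Pool.Agent.AOP.funcSpec {z : V → K} (hz : AlgebraicIndependent (ZMod 2) z)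
    (hN : CountSpec z) : FuncSpec z where
  transfer := by
    intro G H s b A hs hb hA hAx hcard
    obtain ⟨y0, y1, hy0, hy1, hgen, hspec, hconst⟩ := exists_pair hz G H s b hs hb
    rw [hgen]
    have hAn : A ⊆ nb G s := fun x hx => Finset.mem_of_mem_erase (hA hx)
    by_contra hne
    by_cases hc : adj H s b = 0 ∨ b ∈ nb G s
    · have h1 := hconst hc
      subst h1
      obtain ⟨B, hB, hBc, hBx⟩ := hN.count_const G s 1 (fun _ => y0) hs (fun _ => hy0) (by
        intro c hcv
        by_contra hc0
        have hc1 : c 0 ≠ 0 := fun h => hc0 (funext fun i => by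
          rw [Subsingleton.elim i 0]; exact h)
        apply hne
        intro f hf
        have h2 := hcv f hf
        simp only [Fin.sum_univ_one] at h2
        have h3 : c 0 * ∑ a, (y0 a + z s * (0 : V → K) a) * f a = 0 := by
          rw [← h2, Finset.mul_sum]
          refine Finset.sum_congr rfl fun a _ => ?_
          simp only [Pi.zero_apply]
          ring
        exact (mul_eq_zero.1 h3).resolve_left hc1)
      obtain ⟨x, hxA, hxB⟩ := inter_of_card hAn hB (by split_ifs at hcard <;> omega)
      have hxb : x ≠ b := Finset.ne_of_mem_erase (hA hxA)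
      have h2 := (hspec x (hAn hxA) hxb).1 (hAx x hxA).2
      have h3 := (hBx x hxB).2 (fun _ => 1) (fun f hf => by
        have := h2 f hf
        simp only [Pi.zero_apply, mul_zero, add_zero] at this
        simpa using this)
      exact one_ne_zero (congrFun h3 0)
    · push Not at hc
      rw [if_neg hc.2] at hcard
      obtain ⟨B, hB, hBc, hBx⟩ := hN.count_lin G s y0 y1 hs hy0 hy1 hne
      obtain ⟨x, hxA, hxB⟩ := inter_of_card hAn hB (by omega)
      have hxb : x ≠ b := Finset.ne_of_mem_erase (hA hxA)
      exact (hBx x hxB).2 ((hspec x (hAn hxA) hxb).1 (hAx x hxA).2)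
  kills_contr := by
    intro G H v u hk hg
    have hun : u ∈ nb G v := mem_nb.2 hg.1
    have huv : u ≠ v := ne_of_mem_nb hun
    have hv : v ∈ supp G := by
      simp only [supp, Finset.mem_filter, Finset.mem_univ, true_and]
      exact ⟨u, hg.1⟩
    have hrow : ∀ b, b ≠ v → b ≠ u → RowVan z (contr v u G) (contr v u H) b := by
      intro b hbv hbu
      obtain ⟨y0, y1, hy0, hy1, hgen, hspec, -⟩ := exists_pair hz G H v b hv hbv
      rw [hspec u hun hbu.symm]
      refine hN.spec_lin G v u y0 y1 hg hy0 hy1 (hgen.1 fun f hf => ?_)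
      rw [hk f hf]; rfl
    intro f hf
    have hsum := sum_rows_zero z (contr v u H) f
    rw [Finset.sum_eq_single u] at hsum
    · funext b
      by_cases hbv : b = v
      · subst hbv; exact Lm_contr_row_s H huv.symm z f
      · by_cases hbu : b = u
        · subst hbu; exact hsum
        · exact hrow b hbv hbu f hf
    · intro b _ hbu
      by_cases hbv : b = v
      · subst hbv; exact Lm_contr_row_s H huv.symm z f
      · exact hrow b hbv hbu f hf
    · simp

end Pool.Agent.AOP.C62
end

section
/-!
# Module TIGHT, second part: fields `kills_indep`, `kills_indep'`, `kills_tau`, `tri`, `tri_iff`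
-/
namespace Pool.Agent.AOP.C62

open Finset Matrix

variable {V : Type*} [Fintype V] [DecidableEq V]
variable {K : Type*} [Field K] [Algebra (ZMod 2) K]

theorem t_kills_indep' {z : V → K} (hR : RankSpec z) (T J : EG V) (S : Finset V)
    (hK : Kills z T J) (hI : Indep T S) : Indep J S := by
  rw [hR.indep_iff] at hI ⊢
  intro w hw hv
  exact hI w hw fun f hf => hv f (hK f hf)

theorem t_kills_indep {z : V → K} (hC : CombSpec V) (hR : RankSpec z) (T J : EG V)
    (S : Finset V) (hK : Kills z T J) (hS : S ⊆ supp J) (hI : Indep T S) :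
    S.card + tau J ≤ (supp J).card := by
  obtain ⟨Y, hd, hc, hf⟩ := t_kills_indep' hR T J S hK hI
  rw [← hc, ← Finset.card_union_of_disjoint hd.symm]
  exact Finset.card_le_card (Finset.union_subset hS (hC.feas_supp _ _ hf))

theorem t_kills_tau {z : V → K} (hR : RankSpec z) (G J : EG V) (hK : Kills z G J) :
    tau J ≤ tau G := by
  have h1 := finrank_ker (Lm G z)
  have h2 := finrank_ker (Lm J z)
  have h3 : Module.finrank K (LinearMap.ker (Lm G z).mulVecLin)
      ≤ Module.finrank K (LinearMap.ker (Lm J z).mulVecLin) := by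
    apply Submodule.finrank_mono
    intro f hf
    rw [LinearMap.mem_ker] at hf ⊢
    exact hK f hf
  rw [hR.rank_eq] at h1 h2
  omega

theorem t_const_mem (z : V → K) (G : EG V) : Lm G z *ᵥ (fun _ => 1) = 0 := by
  funext a
  rw [Lm_mulVec]
  exact Finset.sum_eq_zero fun c _ => by rw [add_self_zero, zero_div, mul_zero]

theorem t_z_mem {z : V → K} (hz : Function.Injective z) (G : EG V) : Lm G z *ᵥ z = 0 := by
  funext a
  rw [Lm_mulVec]
  have h1 : ∀ c, (bit (adj G a c) : K) * ((z a + z c) / (z a + z c)) = bit (adj G a c) := by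
    intro c
    by_cases hac : a = c
    · subst hac; simp
    · rw [div_self, mul_one]
      intro h
      exact hac (hz (add_eq_zero_iff'.1 h))
  simp only [h1]
  have h2 := congrArg (bit (K := K)) (sum_adj G a)
  rw [bit_zero] at h2
  rw [Pi.zero_apply, ← h2]
  simp only [bit, map_sum]

/-- the functional of a triangle -/
theorem t_tri_apply {z : V → K} (hz : Function.Injective z) {a b c : V} (hab : a ≠ b)
    (hac : a ≠ c) (hbc : b ≠ c) (f : V → K) :
    (Lm (kd {a, b, c}) z *ᵥ f) a * ((z a + z b) * (z a + z c))
      = f a * (z b + z c) + f b * (z a + z c) + f c * (z a + z b) := by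
  have hcard : ({a, b, c} : Finset V).card = 3 := Finset.card_eq_three.2 ⟨a, b, c, hab, hac, hbc, rfl⟩
  have hodd : Odd ({a, b, c} : Finset V).card := by rw [hcard]; decide
  have h2 : CharP K 2 := charTwo K
  have nab : z a + z b ≠ 0 := fun h => hab (hz (add_eq_zero_iff'.1 h))
  have nac : z a + z c ≠ 0 := fun h => hac (hz (add_eq_zero_iff'.1 h))
  rw [Lm_mulVec]
  have h3 : ∀ x, (bit (adj (kd {a, b, c}) a x) : K) * ((f a + f x) / (z a + z x))
      = if x ∈ ({b, c} : Finset V) then (f a + f x) / (z a + z x) else 0 := by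
    intro x
    rw [U55.kd_adj hodd]
    by_cases hx : x = b ∨ x = c
    · have : a ≠ x := by rcases hx with rfl | rfl <;> assumption
      have hx' : x ∈ ({b, c} : Finset V) := by simpa using hx
      have hx'' : x ∈ ({a, b, c} : Finset V) := Finset.mem_insert_of_mem hx'
      rw [if_pos ⟨Finset.mem_insert_self _ _, hx'', this⟩, if_pos hx', bit_one, one_mul]
    · push Not at hx
      by_cases hxa : a = x
      · subst hxa
        rw [if_neg (fun h => h.2.2 rfl), if_neg (by simp [hab, hac]), bit_zero, zero_mul]
      · simp [hx.1, hx.2, Ne.symm hxa]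
  simp only [h3]
  rw [Finset.sum_ite_mem, Finset.univ_inter, Finset.sum_pair hbc]
  field_simp
  have e1 : f a * z a + f a * z a = 0 := add_self_zero _
  linear_combination e1

theorem t_kills_iff {z : V → K} (hz : Function.Injective z) {a b c : V} (hab : a ≠ b)
    (hac : a ≠ c) (hbc : b ≠ c) (G : EG V) :
    Kills z G (kd {a, b, c}) ↔ ∀ f : V → K, Lm G z *ᵥ f = 0 →
      f a * (z b + z c) + f b * (z a + z c) + f c * (z a + z b) = 0 := by
  have nab : z a + z b ≠ 0 := fun h => hab (hz (add_eq_zero_iff'.1 h))
  have nac : z a + z c ≠ 0 := fun h => hac (hz (add_eq_zero_iff'.1 h))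
  have nbc : z b + z c ≠ 0 := fun h => hbc (hz (add_eq_zero_iff'.1 h))
  constructor
  · intro h f hf
    rw [← t_tri_apply hz hab hac hbc, h f hf, Pi.zero_apply, zero_mul]
  · intro h f hf
    have hq := h f hf
    funext x
    rw [Pi.zero_apply]
    by_cases hxa : x = a
    · subst hxa
      have := t_tri_apply hz hab hac hbc f
      rw [hq] at this
      exact (mul_eq_zero.1 this).resolve_right (mul_ne_zero nab nac)
    · by_cases hxb : x = b
      · subst hxb
        have := t_tri_apply hz hab.symm hbc hac f
        have e : ({x, a, c} : Finset V) = {a, x, c} := Finset.insert_comm _ _ _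
        rw [e] at this
        have e2 : f x * (z a + z c) + f a * (z x + z c) + f c * (z x + z a) = 0 := by
          rw [← hq]; ring
        rw [e2] at this
        refine (mul_eq_zero.1 this).resolve_right (mul_ne_zero ?_ nbc)
        rw [add_comm]; exact nab
      · by_cases hxc : x = c
        · subst hxc
          have := t_tri_apply hz (a := x) (b := a) (c := b) hac.symm hbc.symm hab f
          have e : ({x, a, b} : Finset V) = {a, b, x} := by
            ext y; simp only [mem_insert, mem_singleton]; tauto
          rw [e] at this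
          have e2 : f x * (z a + z b) + f a * (z x + z b) + f b * (z x + z a) = 0 := by
            rw [← hq]; ring
          rw [e2] at this
          refine (mul_eq_zero.1 this).resolve_right (mul_ne_zero ?_ ?_)
          · rw [add_comm]; exact nac
          · rw [add_comm]; exact nbc
        · have hcard : ({a, b, c} : Finset V).card = 3 :=
            Finset.card_eq_three.2 ⟨a, b, c, hab, hac, hbc, rfl⟩
          have hodd : Odd ({a, b, c} : Finset V).card := by rw [hcard]; decide
          rw [Lm_mulVec]
          refine Finset.sum_eq_zero fun y _ => ?_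
          rw [U55.kd_adj hodd, if_neg, bit_zero, zero_mul]
          rintro ⟨h1, -⟩
          simp [hxa, hxb, hxc] at h1

theorem t_tri_iff {z : V → K} (hz : Function.Injective z) (hR : RankSpec z) (G : EG V)
    (D : Finset V) (hD : D.card = 3) : ¬ Indep G D ↔ Kills z G (kd D) := by
  obtain ⟨a, b, c, hab, hac, hbc, rfl⟩ := Finset.card_eq_three.1 hD
  have nab : z a + z b ≠ 0 := fun h => hab (hz (add_eq_zero_iff'.1 h))
  have nac : z a + z c ≠ 0 := fun h => hac (hz (add_eq_zero_iff'.1 h))
  have nbc : z b + z c ≠ 0 := fun h => hbc (hz (add_eq_zero_iff'.1 h))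
  rw [t_kills_iff hz hab hac hbc, hR.indep_iff]
  have hsum : ∀ (w f : V → K), (∀ x, x ∉ ({a, b, c} : Finset V) → w x = 0) →
      ∑ x, w x * f x = w a * f a + w b * f b + w c * f c := by
    intro w f hw
    rw [← Finset.sum_subset (Finset.subset_univ ({a, b, c} : Finset V))
      (fun x _ hx => by rw [hw x hx, zero_mul])]
    rw [Finset.sum_insert (by simp [hab, hac]), Finset.sum_pair hbc]
    ring
  constructor
  · intro h f hf
    push Not at h
    obtain ⟨w, hw, hv, hne⟩ := h
    have h1 := hv _ (t_const_mem z G)
    have h2 := hv _ (t_z_mem hz G)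
    have h3 := hv _ hf
    rw [hsum w _ hw] at h1 h2 h3
    simp only [mul_one] at h1
    -- w a + w b + w c = 0, w·z = 0
    have e2 : ∀ x : K, x + x = 0 := add_self_zero
    have hwc : w a = w b + w c := by
      have := h1
      have h5 : w a + (w b + w c) = 0 := by rw [← this]; ring
      exact add_eq_zero_iff'.1 h5
    have h6 : w b * (z a + z b) = w c * (z a + z c) := by
      apply add_eq_zero_iff'.1
      rw [hwc] at h2
      rw [← h2]; ring
    -- w b ≠ 0
    have hwb : w b ≠ 0 := by
      intro h0
      rw [h0, zero_mul] at h6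
      have hc0 : w c = 0 := (mul_eq_zero.1 h6.symm).resolve_right nac
      apply hne
      funext x
      rw [Pi.zero_apply]
      by_cases hx : x ∈ ({a, b, c} : Finset V)
      · simp only [mem_insert, mem_singleton] at hx
        rcases hx with rfl | rfl | rfl
        · rw [hwc, h0, hc0, add_zero]
        · exact h0
        · exact hc0
      · exact hw x hx
    -- conclusion
    have h7 : w b * (f a * (z b + z c) + f b * (z a + z c) + f c * (z a + z b)) = 0 := by
      rw [hwc] at h3
      have h8 : w b * (z a + z c) * f b + w b * (z b + z c) * f a + w b * (z a + z b) * f c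
          = (z a + z c) * ((w b + w c) * f a + w b * f b + w c * f c) := by
        rw [h6]
        have h9 : w b * (z b + z c) = (z a + z c) * (w b + w c) := by
          have : w b * (z b + z c) = w b * (z a + z b) + w b * (z a + z c) := by
            have e3 : w b * z a + w b * z a = 0 := e2 _
            linear_combination e3 * (-1)
          rw [this, h6]; ring
        rw [h9]; ring
      rw [h3, mul_zero] at h8
      rw [← h8]; ring
    exact (mul_eq_zero.1 h7).resolve_left hwb
  · intro h hI
    have h0 := hI (fun x => if x = a then z b + z c else if x = b then z a + z c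
      else if x = c then z a + z b else 0) (by
        intro x hx
        simp only [mem_insert, mem_singleton, not_or] at hx
        simp [hx.1, hx.2.1, hx.2.2]) (by
        intro f hf
        rw [hsum _ f (by
          intro x hx
          simp only [mem_insert, mem_singleton, not_or] at hx
          simp [hx.1, hx.2.1, hx.2.2])]
        simp only [if_true, if_neg hab.symm, if_neg hac.symm, if_neg hbc.symm]
        rw [← h f hf]; ring)
    have := congrFun h0 a
    simp only [if_true, Pi.zero_apply] at this
    exact nbc this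

theorem t_tri {z : V → K} (hC : CombSpec V) (hR : RankSpec z) (G : EG V)
    (D : Finset V) (hD : D.card = 3) (hK : Kills z G (kd D)) : Tight G (kd D) := by
  have hodd : Odd D.card := by rw [hD]; decide
  have h1 := U55.tau_kd' hC hodd
  have h2 : tau (G + kd D) ≤ tau G := by
    apply t_kills_tau hR
    intro f hf
    rw [Lm_add, Matrix.add_mulVec, hf, hK f hf, add_zero]
  have h3 := hC.tau_add_le (G + kd D) (kd D)
  rw [add_assoc, EG_add_self, add_zero] at h3
  have h4 := hC.tau_tri G D hD
  unfold Tight
  omega

/-! ### contraction of tight parts (purely combinatorial) -/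

theorem t_contr_add (v u : V) (G H : EG V) :
    contr v u (G + H) = contr v u G + contr v u H := map_add _ _ _

theorem t_tight_contr (hC : CombSpec V) (G J : EG V) (v u : V) (hg : Good G v u)
    (hT : Tight G J) : Tight (contr v u G) (contr v u J) ∧
      tau (contr v u J) + (if adj J v u = 1 then 1 else 0) = tau J := by
  have hvu : v ≠ u := by
    rintro rfl
    have := hg.1
    rw [adj_self] at this
    exact absurd this (by decide)
  have h1 := hC.tau_contr_le J v u hvu
  have h2 := hC.tau_contr_le (G + J) v u hvu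
  have h3 := hC.tau_add_le (contr v u G + contr v u J) (contr v u J)
  rw [add_assoc, EG_add_self, add_zero] at h3
  have h4 := hg.2
  unfold Tight at hT ⊢
  rw [t_contr_add] at h2
  rw [add_adj, hg.1] at h2
  rcases zmod2_eq_zero_or_one (adj J v u) with h | h
  · rw [h] at h1 h2 ⊢
    simp only [add_zero, if_true, zero_ne_one, if_false] at h1 h2 ⊢
    omega
  · rw [h] at h1 h2 ⊢
    have e : (1 : ZMod 2) + 1 = 0 := by decide
    rw [e] at h2
    simp only [if_true, zero_ne_one, if_false] at h1 h2 ⊢
    omega

theorem t_tau_sum_le (hC : CombSpec V) (l : List (EG V)) : tau l.sum ≤ (l.map tau).sum := by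
  induction l with
  | nil => simp [hC.tau_zero]
  | cons a l ih =>
    rw [List.sum_cons, List.map_cons, List.sum_cons]
    exact (hC.tau_add_le _ _).trans (Nat.add_le_add_left ih _)

theorem t_list_le (hC : CombSpec V) {v u : V} (hvu : v ≠ u) (l : List (EG V)) :
    (l.map (fun J => tau (contr v u J))).sum + (if adj l.sum v u = 1 then 1 else 0)
      ≤ (l.map tau).sum := by
  induction l with
  | nil => simp
  | cons a l ih =>
    have h1 := hC.tau_contr_le a v u hvu
    have h2 : (if adj (a :: l).sum v u = 1 then 1 else 0)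
        ≤ (if adj a v u = 1 then 1 else 0) + (if adj l.sum v u = 1 then 1 else 0) := by
      rw [List.sum_cons, add_adj]
      generalize adj a v u = p
      generalize adj l.sum v u = q
      revert p q
      decide
    simp only [List.map_cons, List.sum_cons] at h2 ⊢
    omega

theorem t_list_contr (hC : CombSpec V) (G : EG V) (l : List (EG V)) (v u : V)
    (hg : Good G v u) (hs : l.sum = G) (ht : (l.map tau).sum = tau G) :
    (l.map (contr v u)).sum = contr v u G ∧ (l.map (fun J => tau (contr v u J))).sum
      = tau (contr v u G) := by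
  have hvu : v ≠ u := by
    rintro rfl
    have := hg.1
    rw [adj_self] at this
    exact absurd this (by decide)
  have h1 : (l.map (contr v u)).sum = contr v u G := by
    rw [← hs, map_list_sum]
  refine ⟨h1, ?_⟩
  have h2 := t_list_le hC hvu l
  rw [hs, hg.1, if_pos rfl, ht] at h2
  have h3 := t_tau_sum_le hC (l.map (contr v u))
  rw [h1, List.map_map] at h3
  have h4 : (tau ∘ contr v u : EG V → ℕ) = fun J => tau (contr v u J) := rfl
  rw [h4] at h3
  have h5 := hg.2
  omega

end Pool.Agent.AOP.C62
end

section
/-!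
# MP_7f2998_co : module UNQ (unique decomposition)
-/
set_option linter.unusedSectionVars false
set_option linter.unusedSimpArgs false

namespace Pool.Agent.AOP.Unq

open Finset Matrix
open Pool.Agent.AOP.U55 (zmod2_cases kd_adj kd_adj_one supp_kd_subset kd_of_card_le_one
  odd_card_erase_erase)

section basic
variable {V : Type*} [Fintype V] [DecidableEq V]

theorem mem_nb {G : EG V} {s u : V} : u ∈ nb G s ↔ adj G s u = 1 := by simp [nb]

theorem mem_supp {G : EG V} {v : V} : v ∈ supp G ↔ ∃ u, adj G v u = 1 := by simp [supp]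

theorem adj_eq_zero {G : EG V} {v : V} (h : v ∉ supp G) (u : V) : adj G v u = 0 := by
  rcases zmod2_cases (adj G v u) with h1 | h1
  · exact h1
  · exact absurd (mem_supp.2 ⟨u, h1⟩) h

theorem nb_add {G J : EG V} {s : V} (hs : s ∉ supp J) : nb (G + J) s = nb G s := by
  ext u
  rw [mem_nb, mem_nb, add_adj, adj_eq_zero hs, add_zero]

theorem mem_supp_add {G J : EG V} {s : V} (hs : s ∉ supp J) : s ∈ supp (G + J) ↔ s ∈ supp G := by
  rw [mem_supp, mem_supp]
  refine exists_congr fun u => ?_
  rw [add_adj, adj_eq_zero hs, add_zero]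

theorem good_ne {G : EG V} {s x : V} (h : Good G s x) : s ≠ x := by
  rintro rfl
  have := h.1
  rw [adj_self] at this
  exact absurd this (by decide)

theorem good_mem {G : EG V} {s x : V} (h : Good G s x) : s ∈ supp G := mem_supp.2 ⟨x, h.1⟩

theorem supp_add_subset (G J : EG V) : supp (G + J) ⊆ supp G ∪ supp J := by
  intro v hv
  rw [mem_union]
  by_contra hcon
  push Not at hcon
  obtain ⟨u, hu⟩ := mem_supp.1 hv
  rw [add_adj, adj_eq_zero hcon.1, adj_eq_zero hcon.2] at hu
  exact absurd hu (by decide)

theorem add_add_self (G J : EG V) : G + J + J = G := by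
  rw [add_assoc, EG_add_self, add_zero]

theorem eq_of_add_eq_zero {G J : EG V} (h : G + J = 0) : G = J := by
  have := add_add_self G J
  rw [h, zero_add] at this
  exact this.symm

end basic

section perm
variable {V : Type*} [Fintype V] [DecidableEq V]

theorem push_perm_adj (σ : Equiv.Perm V) (G : EG V) (x y : V) :
    adj (push σ G) x y = adj G (σ.symm x) (σ.symm y) := by
  rw [push_adj]
  by_cases hxy : x = y
  · subst hxy; simp
  · rw [if_neg hxy, Finset.sum_eq_single (σ.symm x), Finset.sum_eq_single (σ.symm y)]
    · simp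
    · intro b _ hb
      rw [if_neg]
      rintro ⟨_, h⟩
      exact hb (by rw [← h]; simp)
    · simp
    · intro a _ ha
      refine Finset.sum_eq_zero fun b _ => ?_
      rw [if_neg]
      rintro ⟨h, _⟩
      exact ha (by rw [← h]; simp)
    · simp

theorem push_symm_push (σ : Equiv.Perm V) (G : EG V) : push σ.symm (push σ G) = G := by
  apply EG_ext
  intro x y
  rw [push_perm_adj, push_perm_adj]
  simp

theorem push_push_symm (σ : Equiv.Perm V) (G : EG V) : push σ (push σ.symm G) = G := by
  apply EG_ext
  intro x y
  rw [push_perm_adj, push_perm_adj]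
  simp

theorem tight_perm (hC : CombSpec V) (σ : Equiv.Perm V) {G J : EG V} (h : Tight G J) :
    Tight (push σ G) (push σ J) := by
  unfold Tight at h ⊢
  rw [← map_add, hC.tau_perm, hC.tau_perm, hC.tau_perm]
  exact h

theorem irr_perm (hC : CombSpec V) (σ : Equiv.Perm V) {J : EG V} (h : Irr J) :
    Irr (push σ J) := by
  refine ⟨fun h0 => h.1 ?_, fun H hH => ?_⟩
  · rw [← push_symm_push σ J, h0, map_zero]
  · have h1 := tight_perm hC σ.symm hH
    rw [push_symm_push] at h1
    rcases h.2 _ h1 with h2 | h2
    · left
      rw [← push_push_symm σ H, h2, map_zero]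
    · right
      rw [← push_push_symm σ H, h2]

theorem contr_eq_swap {J : EG V} {s x : V} (hsx : s ≠ x) (hx : x ∉ supp J) :
    contr s x J = push (Equiv.swap s x) J := by
  apply EG_ext
  intro a b
  rw [push_perm_adj, contr_adj hsx, Equiv.symm_swap]
  have h1 : ∀ u, adj J x u = 0 := adj_eq_zero hx
  have h2 : ∀ u, adj J u x = 0 := fun u => by rw [adj_comm]; exact h1 u
  by_cases hab : a = b
  · subst hab; simp
  by_cases has : a = s
  · subst has
    simp [h1]
  by_cases hbs : b = s
  · subst hbs
    simp [h2]
  rw [if_neg (by simp [hab, has, hbs])]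
  by_cases hax : a = x
  · subst hax
    have hba : b ≠ a := Ne.symm hab
    rw [Equiv.swap_apply_right, Equiv.swap_apply_of_ne_of_ne hbs hba, h1]
    simp [hba]
  · by_cases hbx : b = x
    · subst hbx
      rw [Equiv.swap_apply_right, Equiv.swap_apply_of_ne_of_ne has hax, h2]
      simp [hax]
    · rw [Equiv.swap_apply_of_ne_of_ne has hax, Equiv.swap_apply_of_ne_of_ne hbs hbx]
      simp [hax, hbx]

theorem two_le_nb {J : EG V} {s : V} (hs : s ∈ supp J) : 2 ≤ (nb J s).card := by
  obtain ⟨u, hu⟩ := mem_supp.1 hs
  by_contra hlt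
  have h1 : u ∈ nb J s := mem_nb.2 hu
  have h2 : (nb J s).card = 1 := by
    have : 0 < (nb J s).card := Finset.card_pos.2 ⟨u, h1⟩
    omega
  obtain ⟨q, hq⟩ := Finset.card_eq_one.1 h2
  have h3 := sum_adj J s
  rw [Finset.sum_eq_single q] at h3
  · have : q ∈ nb J s := by rw [hq]; simp
    rw [mem_nb] at this
    rw [this] at h3
    exact absurd h3 (by decide)
  · intro b _ hb
    rcases zmod2_cases (adj J s b) with h4 | h4
    · exact h4
    · exfalso
      apply hb
      have : b ∈ nb J s := mem_nb.2 h4
      rw [hq] at this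
      exact Finset.mem_singleton.1 this
  · simp

end perm

section alg
variable {V : Type*} [Fintype V] [DecidableEq V]
variable {K : Type*} [Field K] [Algebra (ZMod 2) K] {z : V → K}

theorem K2 (x : K) : x + x = 0 := by
  have h : (2 : K) = 0 := by
    have h1 : algebraMap (ZMod 2) K 2 = (2 : K) := map_ofNat _ 2
    rw [← h1, show (2 : ZMod 2) = 0 from by decide, map_zero]
  rw [← two_mul, h, zero_mul]

theorem K_eq_of_add {x y : K} (h : x + y = 0) : x = y := by
  have h1 := K2 (K := K) y
  calc x = x + (y + y) := by rw [h1, add_zero]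
    _ = (x + y) + y := by ring
    _ = y := by rw [h, zero_add]

theorem zadd_ne (hz : Function.Injective z) {a b : V} (h : a ≠ b) : z a + z b ≠ 0 :=
  fun h' => h (hz (K_eq_of_add h'))

theorem Lm_apply (G : EG V) (f : V → K) (a : V) :
    (Lm G z *ᵥ f) a = ∑ c, (bit (adj G a c) : K) / (z a + z c) * (f a + f c) := by
  have h0 : ∀ b, Lm G z a b * f b
      = (if a = b then (∑ c, (bit (adj G a c) : K) / (z a + z c)) * f b else 0)
        + (bit (adj G a b) : K) / (z a + z b) * f b := by
    intro b
    unfold Lm
    by_cases h : a = b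
    · subst h; simp [bit]
    · simp [h]
  simp only [Matrix.mulVec, dotProduct, h0, Finset.sum_add_distrib, Finset.sum_ite_eq, mem_univ,
    if_true, mul_add, Finset.sum_mul]

theorem Lm_add_apply (G H : EG V) (f : V → K) (a : V) :
    (Lm (G + H) z *ᵥ f) a = (Lm G z *ᵥ f) a + (Lm H z *ᵥ f) a := by
  rw [Lm_apply, Lm_apply, Lm_apply, ← Finset.sum_add_distrib]
  refine Finset.sum_congr rfl fun c _ => ?_
  rw [add_adj]
  unfold bit
  rw [map_add]
  ring

theorem Lm_add (G H : EG V) (f : V → K) :
    Lm (G + H) z *ᵥ f = Lm G z *ᵥ f + Lm H z *ᵥ f := by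
  funext a
  exact Lm_add_apply G H f a

theorem Lm_zero (f : V → K) : Lm (0 : EG V) z *ᵥ f = 0 := by
  funext a
  rw [Lm_apply]
  simp [bit]

theorem kills_add {T G H : EG V} (hG : Kills z T G) (hH : Kills z T H) : Kills z T (G + H) := by
  intro f hf
  rw [Lm_add, hG f hf, hH f hf, add_zero]

theorem kills_zero (T : EG V) : Kills z T 0 := fun f _ => Lm_zero f

theorem kills_list_sum {T : EG V} {l : List (EG V)} (h : ∀ J ∈ l, Kills z T J) :
    Kills z T l.sum := by
  induction l with
  | nil => exact kills_zero T
  | cons a l ih =>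
    rw [List.sum_cons]
    exact kills_add (h a (by simp)) (ih fun J hJ => h J (by simp [hJ]))

theorem kills_refl (T : EG V) : Kills z T T := fun _ h => h

theorem kills_trans {A B C : EG V} (h1 : Kills z A B) (h2 : Kills z B C) : Kills z A C :=
  fun f hf => h2 f (h1 f hf)

/-- the sum of the rows of a Laplacian vanishes -/
theorem sum_rows (G : EG V) (f : V → K) : ∑ a, (Lm G z *ᵥ f) a = 0 := by
  simp only [Lm_apply]
  rw [← Finset.sum_product' (f := fun a c => (bit (adj G a c) : K) / (z a + z c) * (f a + f c))]
  refine Finset.sum_involution (fun p _ => (p.2, p.1)) ?_ ?_ ?_ ?_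
  · rintro ⟨a, c⟩ _
    simp only
    rw [adj_comm G c a, add_comm (z c) (z a), add_comm (f c) (f a)]
    exact K2 _
  · rintro ⟨a, c⟩ _ hne heq
    simp only [Prod.mk.injEq] at heq
    apply hne
    obtain ⟨h1, _⟩ := heq
    subst h1
    simp [bit]
  · intro a _
    simp
  · intro a _
    simp

theorem kills_of_rows {T H : EG V} (s : V) (h : ∀ b, b ≠ s → RowVan z T H b) : Kills z T H := by
  intro f hf
  funext b
  rw [Pi.zero_apply]
  by_cases hb : b = s
  · subst hb
    have h1 := sum_rows (z := z) H f
    rw [← Finset.add_sum_erase _ _ (Finset.mem_univ b)] at h1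
    have h2 : ∑ a ∈ univ.erase b, (Lm H z *ᵥ f) a = 0 :=
      Finset.sum_eq_zero fun a ha => h a (Finset.ne_of_mem_erase ha) f hf
    rw [h2, add_zero] at h1
    exact h1
  · exact h b hb f hf

theorem row_isolated {H : EG V} {b : V} (hb : b ∉ supp H) (f : V → K) :
    (Lm H z *ᵥ f) b = 0 := by
  rw [Lm_apply]
  refine Finset.sum_eq_zero fun c _ => ?_
  rw [adj_eq_zero hb]
  simp [bit]

theorem supp_of_kills (hz : Function.Injective z) {T J : EG V} (h : Kills z T J) :
    supp J ⊆ supp T := by
  intro e he
  by_contra hT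
  obtain ⟨a, ha⟩ := mem_supp.1 he
  have hae : a ≠ e := by
    rintro rfl
    rw [adj_self] at ha
    exact absurd ha (by decide)
  have h1 : Lm T z *ᵥ (Pi.single e (1 : K)) = 0 := by
    funext b
    rw [Lm_apply, Pi.zero_apply]
    refine Finset.sum_eq_zero fun c _ => ?_
    by_cases hb : b = e
    · subst hb
      rw [adj_eq_zero hT]
      simp [bit]
    · by_cases hc : c = e
      · subst hc
        rw [adj_comm, adj_eq_zero hT]
        simp [bit]
      · rw [Pi.single_eq_of_ne hb, Pi.single_eq_of_ne hc, add_zero, mul_zero]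
  have h2 := congrFun (h _ h1) a
  rw [Lm_apply, Pi.zero_apply, Finset.sum_eq_single e] at h2
  · rw [adj_comm J a e, ha, Pi.single_eq_of_ne hae, Pi.single_eq_same, zero_add, mul_one] at h2
    simp only [bit, map_one, one_div, inv_eq_zero] at h2
    exact zadd_ne hz hae h2
  · intro c _ hc
    rw [Pi.single_eq_of_ne hae, Pi.single_eq_of_ne hc, add_zero, mul_zero]
  · simp

/-- dual basis vectors -/
theorem exists_ker (hR : RankSpec z) {T : EG V} {S : Finset V} {p : V} (hp : p ∉ S)
    (hI : Indep T (insert p S)) :
    ∃ f : V → K, Lm T z *ᵥ f = 0 ∧ (∀ a ∈ S, f a = 0) ∧ f p = 1 := by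
  classical
  by_contra hcon
  push Not at hcon
  have hcon' : ∀ f : V → K, Lm T z *ᵥ f = 0 → (∀ a ∈ S, f a = 0) → f p = 0 := by
    intro f hf h0
    by_contra hne
    apply hcon ((f p)⁻¹ • f) ?_ ?_ ?_
    · rw [Matrix.mulVec_smul, hf, smul_zero]
    · intro a ha
      simp [h0 a ha]
    · simp [hne]
  let N : Submodule K (V → K) := LinearMap.ker (Lm T z).mulVecLin
  let φ : V → Module.Dual K N := fun a => (LinearMap.proj a : (V → K) →ₗ[K] K).comp N.subtype
  have h1 : φ p ∈ Submodule.span K (Set.range fun a : S => φ a) := by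
    apply mem_span_of_iInf_ker_le_ker
    rintro ⟨f, hf⟩ hf'
    simp only [Submodule.mem_iInf, LinearMap.mem_ker] at hf'
    rw [LinearMap.mem_ker]
    exact hcon' f hf fun a ha => hf' ⟨a, ha⟩
  rw [Submodule.mem_span_range_iff_exists_fun] at h1
  obtain ⟨c, hc⟩ := h1
  rw [hR.indep_iff] at hI
  have h2 := hI (fun a => (if a = p then 1 else 0) - (if h : a ∈ S then c ⟨a, h⟩ else 0)) (by
    intro a ha
    rw [mem_insert] at ha
    push Not at ha
    simp [ha.1, ha.2]) (by
    intro f hf
    have h3 := congrArg (fun ψ : Module.Dual K N => ψ ⟨f, hf⟩) hc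
    simp only [LinearMap.sum_apply, LinearMap.smul_apply] at h3
    have h4 : ∑ x : S, c x * f x = f p := h3
    simp only [sub_mul, Finset.sum_sub_distrib, ite_mul, one_mul, zero_mul, Finset.sum_ite_eq',
      mem_univ, if_true]
    rw [← h4, sub_eq_zero]
    have h5 : ∑ x, (if h : x ∈ S then c ⟨x, h⟩ else 0) * f x
        = ∑ x ∈ S, (if h : x ∈ S then c ⟨x, h⟩ else 0) * f x := by
      symm
      refine Finset.sum_subset (Finset.subset_univ _) fun x _ hx => ?_
      rw [dif_neg hx, zero_mul]
    rw [h5, ← Finset.sum_coe_sort S]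
    refine Finset.sum_congr rfl fun x _ => ?_
    rw [dif_pos x.2])
  have h5 := congrFun h2 p
  simp [hp] at h5

/-- a kernel vector which vanishes at `a`, `b` vanishes at every vertex of the line `ab` -/
theorem ker_line (hR : RankSpec z) (hM : MajSpec V) {T : EG V} {a b e : V} {f : V → K}
    (hf : Lm T z *ᵥ f = 0) (ha : f a = 0) (hb : f b = 0) (hI : ¬ Indep T {a, b, e}) :
    f e = 0 := by
  rw [hR.indep_iff] at hI
  push Not at hI
  obtain ⟨w, hw, hv, hne⟩ := hI
  have hv' := hv f hf
  have h1 : w e * f e = 0 := by
    by_cases hea : e = a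
    · rw [hea, ha, mul_zero]
    by_cases heb : e = b
    · rw [heb, hb, mul_zero]
    rw [← hv']
    symm
    apply Finset.sum_eq_single e
    · intro c _ hc
      by_cases hca : c = a
      · rw [hca, ha, mul_zero]
      by_cases hcb : c = b
      · rw [hcb, hb, mul_zero]
      rw [hw c (by simp [hca, hcb, hc]), zero_mul]
    · simp
  rcases mul_eq_zero.1 h1 with h2 | h2
  · exfalso
    apply hne
    have h3 := hM.pair T a b
    rw [hR.indep_iff] at h3
    refine h3 w (fun c hc => ?_) hv
    simp only [mem_insert, mem_singleton, not_or] at hc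
    by_cases hce : c = e
    · rw [hce, h2]
    · exact hw c (by simp [hc.1, hc.2, hce])
  · exact h2

/-- kernel vectors which vanish on a set `S` but not at `p` -/
theorem indep_insert_of_ker (hR : RankSpec z) {T : EG V} {S : Finset V} {p : V} {f : V → K}
    (hf : Lm T z *ᵥ f = 0) (h0 : ∀ a ∈ S, f a = 0) (hp : f p ≠ 0) (hI : Indep T S) :
    Indep T (insert p S) := by
  rw [hR.indep_iff] at hI ⊢
  intro w hw hv
  have hv' := hv f hf
  rw [Finset.sum_eq_single p] at hv'
  · have h1 : w p = 0 := (mul_eq_zero.1 hv').resolve_right hp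
    refine hI w (fun a ha => ?_) hv
    by_cases hap : a = p
    · rw [hap, h1]
    · exact hw a (by simp [hap, ha])
  · intro c _ hc
    by_cases hcS : c ∈ S
    · rw [h0 c hcS, mul_zero]
    · rw [hw c (by simp [hc, hcS]), zero_mul]
  · simp

/-- three collinear vertices of a part of rank three -/
theorem rank3_triple (hR : RankSpec z) (hM : MajSpec V) (hT : TightSpec z) (hQ : CliqSpec z)
    {T J : EG V} (hJ : Irr J) (h3 : (supp J).card = tau J + 3) (hK : Kills z T J)
    {S D : Finset V} (hS : S ⊆ supp J) (hSc : S.card = 3) (hSI : Indep T S)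
    (hD : D ⊆ supp J) (hDc : D.card = 3) : Indep T D := by
  by_contra hcon
  obtain ⟨a, b, e, hab, hae, hbe, rfl⟩ := Finset.card_eq_three.1 hDc
  obtain ⟨p, hpS, hp, hpI⟩ := hM.augment T {a, b} S (hM.pair T a b) hSI (by
    rw [hSc, Finset.card_pair hab]; norm_num)
  obtain ⟨f, hf, h0, h1⟩ := exists_ker hR hp hpI
  have hfa : f a = 0 := h0 a (by simp)
  have hfb : f b = 0 := h0 b (by simp)
  have hfe := ker_line hR hM hf hfa hfb hcon
  have hfJ := hK f hf
  have hJD : ¬ Indep J {a, b, e} := by
    intro hI
    have h4 : Indep J (insert p {a, b, e}) := by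
      refine indep_insert_of_ker hR hfJ ?_ (by rw [h1]; exact one_ne_zero) hI
      intro c hc
      simp only [mem_insert, mem_singleton] at hc
      rcases hc with rfl | rfl | rfl <;> assumption
    have hpD : p ∉ ({a, b, e} : Finset V) := by
      simp only [mem_insert, mem_singleton, not_or] at hp ⊢
      refine ⟨hp.1, hp.2, ?_⟩
      rintro rfl
      rw [hfe] at h1
      exact zero_ne_one h1
    have h5 := hT.kills_indep J J _ (kills_refl J) (by
      rw [Finset.insert_subset_iff]
      exact ⟨hS hpS, hD⟩) h4
    rw [Finset.card_insert_of_notMem hpD, hDc] at h5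
    omega
  have hkill := (hT.tri_iff J _ hDc).1 hJD
  have htight := hT.tri J _ hDc hkill
  have hodd : Odd ({a, b, e} : Finset V).card := by rw [hDc]; decide
  have hsk := hQ.supp_kd {a, b, e} hodd (by rw [hDc]; norm_num)
  rcases hJ.2 _ htight with h6 | h6
  · rw [h6] at hsk
    have : ({a, b, e} : Finset V) = ∅ := by
      rw [← hsk]
      ext v
      rw [mem_supp]
      simp
    rw [this] at hDc
    simp at hDc
  · have h7 := hQ.tau_kd {a, b, e} hodd
    rw [h6] at h7 hsk
    rw [hDc] at h7
    rw [hsk, hDc] at h3
    omega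

/-- contraction of a good edge in a tight complement -/
theorem good_compl (hT : TightSpec z) {T J : EG V} {s x : V} (hg : Good T s x)
    (hJ : Tight T J) (hs : s ∉ supp J) (hcs : contr s x J = J) :
    Good (T + J) s x ∧ Tight (contr s x T) J ∧ contr s x (T + J) = contr s x T + J := by
  have h1 := hT.tight_contr T J s x hg hJ
  rw [hcs] at h1
  have h2 : contr s x (T + J) = contr s x T + J := by rw [map_add, hcs]
  refine ⟨⟨?_, ?_⟩, h1.1, h2⟩
  · rw [add_adj, adj_eq_zero hs, add_zero]
    exact hg.1
  · rw [h2]
    have h3 := h1.1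
    have h4 := hg.2
    unfold Tight at h3 hJ
    omega

theorem card_erase_aux {A N : Finset V} {b : V} (hA : A ⊆ N) (hc : N.card + 2 ≤ 2 * A.card) :
    N.card + 2 ≤ 2 * (A.erase b).card + (if b ∈ N then 2 else 0) := by
  by_cases hb : b ∈ N
  · rw [if_pos hb]
    have := Finset.pred_card_le_card_erase (s := A) (a := b)
    omega
  · rw [if_neg hb, Finset.erase_eq_of_notMem fun h => hb (hA h)]
    omega

/-- LEMMA FL -/
theorem lemFL (hz : Function.Injective z) (hC : CombSpec V) (hM : MajSpec V)
    (hT : TightSpec z) (hF : FuncSpec z) (hQ : CliqSpec z) :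
    ∀ (n : ℕ) (T Y : EG V) (D : Finset V) (a b e : V), tau T = n → Kills z T Y →
      D.card = 3 → a ∈ D → b ∈ D → a ≠ b → Kills z T (kd D) → e ∉ D → Indep T {a, b, e} →
      RowVan z (T + kd D) Y e := by
  intro n
  induction n using Nat.strong_induction_on with
  | _ n ih =>
  intro T Y D a b e hn hY hDc ha hb hab hD he hI
  by_cases heT : e ∈ supp T
  swap
  · intro f _
    exact row_isolated (fun h => heT (supp_of_kills hz hY h)) f
  have hodd : Odd D.card := by rw [hDc]; decide
  have hsk : supp (kd D) = D := hQ.supp_kd D hodd (by rw [hDc]; norm_num)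
  have hDT : D ⊆ supp T := by
    have := supp_of_kills hz hD
    rwa [hsk] at this
  have hex : ∃ s ∈ supp T, s ∉ insert e D := by
    by_contra hcon
    push Not at hcon
    have h1 : (supp T).card ≤ 4 := by
      have h2 := Finset.card_le_card (show supp T ⊆ insert e D from hcon)
      have h3 := Finset.card_insert_le e D
      omega
    have hIc : ({a, b, e} : Finset V).card = 3 := by
      rw [Finset.card_eq_three]
      exact ⟨a, b, e, hab, fun h => he (h ▸ ha), fun h => he (h ▸ hb), rfl⟩
    have h2 := hT.kills_indep T T _ (kills_refl T) (by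
      intro v hv
      simp only [mem_insert, mem_singleton] at hv
      rcases hv with rfl | rfl | rfl
      · exact hDT ha
      · exact hDT hb
      · exact heT) hI
    rw [hIc] at h2
    have hT0 : T ≠ 0 := by
      rintro rfl
      obtain ⟨u, hu⟩ := mem_supp.1 heT
      rw [zero_adj] at hu
      exact absurd hu (by decide)
    have h3 := hC.tau_pos T hT0
    obtain ⟨D', hD', hTD⟩ := hQ.tau_one T (by omega)
    have h4 := hQ.supp_kd D' (by rw [hD']; decide) (by rw [hD']; norm_num)
    rw [← hTD] at h4
    rw [h4] at h2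
    omega
  obtain ⟨s, hsT, hs⟩ := hex
  rw [mem_insert] at hs
  push Not at hs
  obtain ⟨hse, hsD⟩ := hs
  have hskd : s ∉ supp (kd D) := by rw [hsk]; exact hsD
  have hsI : s ∉ ({a, b, e} : Finset V) := by
    simp only [mem_insert, mem_singleton, not_or]
    exact ⟨fun h => hsD (h ▸ ha), fun h => hsD (h ▸ hb), hse⟩
  obtain ⟨A, hA, hAc, hAg⟩ := hM.maj T s _ hsT hsI hI
  have htD := hT.tri T D hDc hD
  have hnb : nb (T + kd D) s = nb T s := nb_add hskd
  refine hF.transfer (T + kd D) Y s e (A.erase e) ((mem_supp_add hskd).2 hsT) hse.symm ?_ ?_ ?_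
  · rw [hnb]
    exact Finset.erase_subset_erase _ hA
  · intro x hx
    have hxA := Finset.mem_of_mem_erase hx
    obtain ⟨hg, hIx⟩ := hAg x hxA
    obtain ⟨h1, h2, h3⟩ := good_compl hT hg htD hskd (hC.contr_eq_self _ _ _ hskd)
    refine ⟨h1, ?_⟩
    rw [h3]
    have h4 := hg.2
    exact ih (tau (contr s x T)) (by omega) _ _ D a b e rfl (hF.kills_contr _ _ _ _ hY hg) hDc
      ha hb hab (hT.kills _ _ h2) he hIx
  · rw [hnb]
    exact card_erase_aux hA hAc

theorem indep_card_le_two (hM : MajSpec V) (T : EG V) {C : Finset V} (hC : C.card ≤ 2) :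
    Indep T C := by
  rcases Nat.lt_or_ge C.card 1 with h0 | h0
  · have : C = ∅ := Finset.card_eq_zero.1 (by omega)
    subst this
    obtain ⟨S, hS, _⟩ := hM.basis T
    exact hM.mono T ∅ S (Finset.empty_subset _) hS
  rcases Nat.lt_or_ge C.card 2 with h1 | h1
  · obtain ⟨a, rfl⟩ := Finset.card_eq_one.1 (show C.card = 1 by omega)
    have := hM.pair T a a
    rwa [Finset.pair_eq_singleton] at this
  · obtain ⟨a, b, _, rfl⟩ := Finset.card_eq_two.1 (show C.card = 2 by omega)
    exact hM.pair T a b

theorem Lm_symm (G : EG V) (a b : V) : Lm G z a b = Lm G z b a := by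
  unfold Lm
  by_cases h : a = b
  · subst h; rfl
  · rw [if_neg h, if_neg (Ne.symm h), adj_comm G b a, add_comm (z b) (z a)]

theorem vanish_image (J : EG V) (g : V → K) : VanishOn z J (Lm J z *ᵥ g) := by
  intro f hf
  have h1 : ∑ a, (Lm J z *ᵥ g) a * f a = ∑ b, g b * (Lm J z *ᵥ f) b := by
    simp only [Matrix.mulVec, dotProduct, Finset.sum_mul, Finset.mul_sum]
    rw [Finset.sum_comm]
    refine Finset.sum_congr rfl fun b _ => Finset.sum_congr rfl fun a _ => ?_
    rw [Lm_symm J b a]
    ring
  rw [h1, hf]
  simp

/-- a part of rank at least three is orthogonal to every collinear triangle -/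
theorem orth_triple (hz : Function.Injective z) (hC : CombSpec V) (hR : RankSpec z)
    (hM : MajSpec V) (hT : TightSpec z) (hF : FuncSpec z) (hQ : CliqSpec z)
    {T J : EG V} (hJ : Irr J)
    (hcl : (∃ D : Finset V, Odd D.card ∧ J = kd D) ∨ (supp J).card = tau J + 3)
    (hTJ : Tight T J) {S D : Finset V} (hS : S ⊆ supp J) (hSc : S.card = 3) (hSI : Indep T S)
    (hDc : D.card = 3) (hD : ¬ Indep T D) : Kills z (T + kd D) J := by
  classical
  have hK := hT.kills T J hTJ
  have hDk := (hT.tri_iff T D hDc).1 hD
  obtain ⟨a, b, d, hab, had, hbd, rfl⟩ := Finset.card_eq_three.1 hDc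
  intro g hg
  by_contra hne
  set y : V → K := Lm J z *ᵥ g with hy
  obtain ⟨p, hpS, hp, hpI⟩ := hM.augment T {a, b} S (hM.pair T a b) hSI (by
    rw [hSc, Finset.card_pair hab]; norm_num)
  obtain ⟨f, hf, h0, h1⟩ := exists_ker hR hp hpI
  have hfa : f a = 0 := h0 a (by simp)
  have hfb : f b = 0 := h0 b (by simp)
  have hfd := ker_line hR hM hf hfa hfb hD
  have hyf : ∀ e, y e ≠ 0 → f e = 0 := by
    intro e he
    by_cases heD : e ∈ ({a, b, d} : Finset V)
    · simp only [mem_insert, mem_singleton] at heD
      rcases heD with rfl | rfl | rfl <;> assumption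
    · refine ker_line hR hM hf hfa hfb fun hI => he ?_
      exact lemFL hz hC hM hT hF hQ _ T J _ a b e rfl hK hDc (by simp) (by simp) hab hDk heD hI
        g hg
  have hvan : VanishOn z J y := vanish_image J g
  have hfJ := hK f hf
  rcases hcl with ⟨D1, hD1, rfl⟩ | h3
  · have h2 := hQ.mds D1 y f hD1 (fun v hv => row_isolated (fun h => hv (supp_kd_subset D1 h)) g)
      hne hvan hfJ hyf p (supp_kd_subset D1 (hS hpS))
    rw [h1] at h2
    exact one_ne_zero h2
  · let C : Finset V := univ.filter fun e => y e ≠ 0
    have hC3 : 3 ≤ C.card := by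
      by_contra hlt
      have h4 := indep_card_le_two hM J (C := C) (by omega)
      rw [hR.indep_iff] at h4
      apply hne
      refine h4 y (fun e he => ?_) hvan
      by_contra h5
      exact he (by simp [C, h5])
    obtain ⟨D', hD'C, hD'c⟩ := Finset.exists_subset_card_eq hC3
    have hD'y : ∀ e ∈ D', y e ≠ 0 := fun e he => by
      have := hD'C he
      simpa [C] using this
    have hD'J : D' ⊆ supp J := by
      intro e he
      by_contra h5
      exact hD'y e he (row_isolated h5 g)
    have hI' := rank3_triple hR hM hT hQ hJ h3 hK hS hSc hSI hD'J hD'c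
    have hpD' : p ∉ D' := by
      intro h5
      rw [hyf p (hD'y p h5)] at h1
      exact zero_ne_one h1
    have h6 : Indep T (insert p D') :=
      indep_insert_of_ker hR hf (fun e he => hyf e (hD'y e he)) (by rw [h1]; exact one_ne_zero) hI'
    have h7 := hT.kills_indep T J _ hK (by
      rw [Finset.insert_subset_iff]
      exact ⟨hS hpS, hD'J⟩) h6
    rw [Finset.card_insert_of_notMem hpD', hD'c] at h7
    omega

/-- the row space of a graph is spanned by triangles -/
theorem kills_of_triples {T J : EG V}
    (h : ∀ D : Finset V, D ⊆ supp J → D.card = 3 → Kills z T (kd D)) : Kills z T J := by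
  intro f hf
  have htri : ∀ a b d : V, a ∈ supp J → b ∈ supp J → d ∈ supp J → a ≠ b → a ≠ d → b ≠ d →
      (f a + f b) / (z a + z b) = (f a + f d) / (z a + z d) := by
    intro a b d ha hb hd hab had hbd
    have hDc : ({a, b, d} : Finset V).card = 3 := Finset.card_eq_three.2 ⟨a, b, d, hab, had, hbd, rfl⟩
    have hodd : Odd ({a, b, d} : Finset V).card := by rw [hDc]; decide
    have h1 := congrFun (h {a, b, d} (by
      intro v hv
      simp only [mem_insert, mem_singleton] at hv
      rcases hv with rfl | rfl | rfl <;> assumption) hDc f hf) a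
    rw [Lm_apply, Pi.zero_apply] at h1
    have h2 : ∀ c, (bit (adj (kd {a, b, d}) a c) : K) / (z a + z c) * (f a + f c)
        = (if c = b then (f a + f b) / (z a + z b) else 0)
          + (if c = d then (f a + f d) / (z a + z d) else 0) := by
      intro c
      rw [kd_adj hodd]
      by_cases hcb : c = b
      · subst hcb
        simp [hab, hbd, bit]
        ring
      · by_cases hcd : c = d
        · subst hcd
          simp [had, hcb, bit]
          ring
        · by_cases hca : c = a
          · subst hca
            simp [hab, had, bit]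
          · simp [hca, hcb, hcd, bit]
    simp only [h2, Finset.sum_add_distrib, Finset.sum_ite_eq', mem_univ, if_true] at h1
    exact K_eq_of_add h1
  funext c
  rw [Lm_apply, Pi.zero_apply]
  by_cases hc : c ∈ supp J
  swap
  · refine Finset.sum_eq_zero fun d _ => ?_
    rw [adj_eq_zero hc]
    simp [bit]
  obtain ⟨b, hb⟩ := mem_supp.1 hc
  have hcb : c ≠ b := by
    rintro rfl
    rw [adj_self] at hb
    exact absurd hb (by decide)
  have hbs : b ∈ supp J := mem_supp.2 ⟨c, by rw [adj_comm]; exact hb⟩
  have h3 : ∀ d, (bit (adj J c d) : K) / (z c + z d) * (f c + f d)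
      = bit (adj J c d) * ((f c + f b) / (z c + z b)) := by
    intro d
    rcases zmod2_cases (adj J c d) with h4 | h4
    · rw [h4]; simp [bit]
    · have hcd : c ≠ d := by
        rintro rfl
        rw [adj_self] at h4
        exact absurd h4 (by decide)
      have hds : d ∈ supp J := mem_supp.2 ⟨c, by rw [adj_comm]; exact h4⟩
      rw [h4]
      simp only [bit, map_one, one_mul]
      by_cases hdb : d = b
      · subst hdb
        ring
      · rw [htri c b d hc hbs hds hcb hcd (Ne.symm hdb)]
        ring
  simp only [h3, ← Finset.sum_mul]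
  have h5 : ∑ d, (bit (adj J c d) : K) = 0 := by
    unfold bit
    rw [← map_sum, sum_adj, map_zero]
  rw [h5, zero_mul]

theorem tight_swap {T J J' : EG V} (h1 : Tight T J) (h2 : Tight T J') (h : Tight (T + J') J) :
    Tight (T + J) J' := by
  unfold Tight at *
  rw [add_right_comm] at h
  omega

/-- a part of rank three on all vertices is everything -/
theorem eq_of_full (hC : CombSpec V) (hT : TightSpec z) {T J : EG V}
    (h3 : (supp J).card = tau J + 3) (hTJ : Tight T J) {S : Finset V} (hS : S ⊆ supp J)
    (hSc : S.card = 3) (hSI : Indep T S) (hsupp : supp J = supp T) : T = J := by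
  have h1 := hT.kills_indep T T S (kills_refl T) (by rw [← hsupp]; exact hS) hSI
  have h2 := hT.kills_tau T J (hT.kills T J hTJ)
  unfold Tight at hTJ
  apply eq_of_add_eq_zero
  by_contra hne
  have h4 := hC.tau_pos _ hne
  rw [← hsupp] at h1
  omega

theorem unq_excl (hz : Function.Injective z) (hC : CombSpec V) (hR : RankSpec z)
    (hM : MajSpec V) (hT : TightSpec z) (hQ : CliqSpec z) {T J J' : EG V}
    (hJ : Irr J) (hJ' : Irr J') (hTJ : Tight T J) (hTJ' : Tight T J') (hne : J ≠ J')
    {S : Finset V} (hS : S ⊆ supp J) (hSc : S.card = 3) (hSI : Indep T S)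
    {s x : V} (hs : s ∈ supp J) (hsx : s ≠ x) (hfull : supp T ⊆ supp J ∪ supp J')
    (hcl : (∃ D : Finset V, Odd D.card ∧ J = kd D) ∨ (supp J).card = tau J + 3)
    (hx : Tight (contr s x J) J') : False := by
  have hK := hT.kills T J hTJ
  have hK' := hT.kills T J' hTJ'
  by_cases hxJ : x ∈ supp J
  swap
  · -- `x` outside of `J`
    have hirr : Irr (contr s x J) := by
      rw [contr_eq_swap hsx hxJ]
      exact irr_perm hC _ hJ
    have hJ'e : J' = contr s x J := (hirr.2 _ hx).resolve_left hJ'.1
    obtain ⟨h1, h2⟩ := hQ.two_b J s x hs hxJ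
    rw [← hJ'e] at h1 h2
    have hKK := kills_add hK hK'
    have h3 : ∀ D : Finset V, D ⊆ insert s (nb J s) → D.card = 3 → Indep T D → False := by
      intro D hD hDc hDI
      have h4 := hT.kills_indep T _ D hKK (by
        rw [h2]
        exact hD.trans (Finset.insert_subset_insert _ (Finset.subset_insert _ _))) hDI
      rw [h1, h2, hDc] at h4
      have h5 := Finset.card_insert_le s (insert x (nb J s))
      have h6 := Finset.card_insert_le x (nb J s)
      omega
    rcases hcl with ⟨D, hD, rfl⟩ | hc3
    · refine h3 S (fun a ha => ?_) hSc hSI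
      rw [mem_insert]
      by_cases has : a = s
      · exact Or.inl has
      · right
        rw [mem_nb, kd_adj_one hD]
        exact ⟨supp_kd_subset D hs, supp_kd_subset D (hS ha), Ne.symm has⟩
    · obtain ⟨q, hq, q', hq', hqq⟩ := Finset.one_lt_card.1 (two_le_nb hs)
      have hsq : s ≠ q := by
        rintro rfl
        rw [mem_nb, adj_self] at hq
        exact absurd hq (by decide)
      have hsq' : s ≠ q' := by
        rintro rfl
        rw [mem_nb, adj_self] at hq'
        exact absurd hq' (by decide)
      have hDc : ({s, q, q'} : Finset V).card = 3 :=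
        Finset.card_eq_three.2 ⟨s, q, q', hsq, hsq', hqq, rfl⟩
      refine h3 {s, q, q'} ?_ hDc (rank3_triple hR hM hT hQ hJ hc3 hK hS hSc hSI ?_ hDc)
      · intro v hv
        simp only [mem_insert, mem_singleton] at hv
        rw [mem_insert]
        rcases hv with rfl | rfl | rfl
        · exact Or.inl rfl
        · exact Or.inr hq
        · exact Or.inr hq'
      · intro v hv
        simp only [mem_insert, mem_singleton] at hv
        rcases hv with rfl | rfl | rfl
        · exact hs
        · exact mem_supp.2 ⟨s, by rw [adj_comm]; exact mem_nb.1 hq⟩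
        · exact mem_supp.2 ⟨s, by rw [adj_comm]; exact mem_nb.1 hq'⟩
  · -- `x` inside of `J`
    have hsub : supp J' ⊆ supp J := by
      have h1 := supp_of_kills hz (hT.kills _ _ hx)
      refine h1.trans ((hC.supp_contr J s x hsx).trans ?_)
      rw [Finset.insert_subset_iff]
      exact ⟨hxJ, Finset.erase_subset _ _⟩
    have heq : supp J = supp T := by
      refine subset_antisymm (supp_of_kills hz hK) (hfull.trans ?_)
      exact Finset.union_subset (Finset.Subset.refl _) hsub
    rcases hcl with ⟨D, hD, rfl⟩ | hc3
    · have hsD := supp_kd_subset D hs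
      have hxD := supp_kd_subset D hxJ
      obtain ⟨h1, h2⟩ := odd_card_erase_erase hsD hxD hsx hD
      rw [hQ.contr_kd_both D s x hsD hxD hsx hD] at hx
      by_cases hc : ((D.erase s).erase x).card ≤ 1
      · rw [kd_of_card_le_one hc] at hx
        unfold Tight at hx
        rw [hC.tau_zero] at hx
        have := hC.tau_pos J' hJ'.1
        omega
      · have hc3 : 3 ≤ ((D.erase s).erase x).card := by
          obtain ⟨k, hk⟩ := h1
          omega
        have hJ'e := ((hQ.kd_irr _ h1 hc3).2 _ hx).resolve_left hJ'.1
        have hs0 : s ∉ (D.erase s).erase x := by simp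
        have hx0 : x ∉ (D.erase s).erase x := by simp
        obtain ⟨h4, h5⟩ := hQ.two_a _ s x h1 hs0 hx0 hsx
        have h6 : insert s (insert x ((D.erase s).erase x)) = D := by
          rw [Finset.insert_erase (Finset.mem_erase.2 ⟨hsx.symm, hxD⟩), Finset.insert_erase hsD]
        rw [h6] at h4 h5
        have h7 : Kills z T (kd ((D.erase s).erase x) + kd D) := by
          rw [← hJ'e]
          exact kills_add hK' hK
        have h8 := hT.kills_indep T _ S h7 (by
          rw [h5]
          exact hS.trans (supp_kd_subset D)) hSI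
        rw [h4, h5, hSc] at h8
        omega
    · have hTe := eq_of_full hC hT hc3 hTJ hS hSc hSI heq
      rw [hTe] at hTJ'
      rcases hJ.2 _ hTJ' with h1 | h1
      · exact hJ'.1 h1
      · exact hne h1.symm

theorem unq_core (hz : Function.Injective z) (hC : CombSpec V) (hR : RankSpec z)
    (hM : MajSpec V) (hT : TightSpec z) (hF : FuncSpec z) (hQ : CliqSpec z) {T J J' : EG V}
    (ih : ∀ T' : EG V, tau T' < tau T → ∀ J J' : EG V, Irr J → Irr J' → Tight T' J →
      Tight T' J' → J ≠ J' → (∃ S ⊆ supp J, S.card = 3 ∧ Indep T' S) → Tight (T' + J) J')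
    (hJ : Irr J) (hJ' : Irr J') (hTJ : Tight T J) (hTJ' : Tight T J') (hne : J ≠ J')
    {S S' : Finset V} (hS : S ⊆ supp J) (hSc : S.card = 3) (hSI : Indep T S)
    (hS' : S' ⊆ supp J') (hSc' : S'.card = 3) (hSI' : Indep T S')
    {s : V} (hs : s ∈ supp J) (hs' : s ∉ supp J') (hfull : supp T ⊆ supp J ∪ supp J')
    (hcl : (∃ D : Finset V, Odd D.card ∧ J = kd D) ∨ (supp J).card = tau J + 3) :
    Kills z (T + J') J := by
  have hK := hT.kills T J hTJ
  have hsT : s ∈ supp T := supp_of_kills hz hK hs
  obtain ⟨A, hA, hAc, hAg⟩ := hM.maj T s S' hsT (fun h => hs' (hS' h)) hSI'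
  have hnb : nb (T + J') s = nb T s := nb_add hs'
  have hcs := hC.contr_eq_self J' s
  refine kills_of_rows s fun b hb => ?_
  refine hF.transfer (T + J') J s b (A.erase b) ((mem_supp_add hs').2 hsT) hb ?_ ?_ ?_
  · rw [hnb]
    exact Finset.erase_subset_erase _ hA
  · intro x hx
    have hxA := Finset.mem_of_mem_erase hx
    obtain ⟨hg, hIx⟩ := hAg x hxA
    obtain ⟨h1, h2, h3⟩ := good_compl hT hg hTJ' hs' (hcs x hs')
    refine ⟨h1, ?_⟩
    rw [h3]
    have hJx := (hT.tight_contr T J s x hg hTJ).1
    obtain ⟨l, hl, hsum, _⟩ := hT.decomp (contr s x J)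
    have hkill : Kills z (contr s x T + J') (contr s x J) := by
      rw [← hsum]
      refine kills_list_sum fun P hP => ?_
      obtain ⟨hPi, hPt⟩ := hl P hP
      have hPT := hT.trans _ _ _ hJx hPt
      have hPne : J' ≠ P := by
        rintro rfl
        exact unq_excl hz hC hR hM hT hQ hJ hJ' hTJ hTJ' hne hS hSc hSI hs (good_ne hg) hfull
          hcl hPt
      have h4 := hg.2
      exact hT.kills _ _ (ih (contr s x T) (by omega) J' P hJ' hPi h2 hPT hPne
        ⟨S', hS', hSc', hIx⟩)
    intro f hf
    rw [hkill f hf]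
    rfl
  · rw [hnb]
    exact card_erase_aux hA hAc

/-- module UNQ -/
theorem unqSpec (hz : Function.Injective z) (hC : CombSpec V) (hR : RankSpec z)
    (hM : MajSpec V) (hT : TightSpec z) (hF : FuncSpec z) (hQ : CliqSpec z) : UnqSpec V := by
  intro θ hθ
  have main : ∀ (n : ℕ) (T : EG V), tau T = n → tau T < θ → ∀ J J' : EG V, Irr J → Irr J' →
      Tight T J → Tight T J' → J ≠ J' → (∃ S ⊆ supp J, S.card = 3 ∧ Indep T S) →
      Tight (T + J) J' := by
    intro n
    induction n using Nat.strong_induction_on with
    | _ n ih0 =>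
    intro T hn hTθ J J' hJ hJ' hTJ hTJ' hne hr
    have ih : ∀ T' : EG V, tau T' < tau T → ∀ J J' : EG V, Irr J → Irr J' → Tight T' J →
        Tight T' J' → J ≠ J' → (∃ S ⊆ supp J, S.card = 3 ∧ Indep T' S) → Tight (T' + J) J' :=
      fun T' h => ih0 (tau T') (by omega) T' rfl (by omega)
    obtain ⟨S, hS, hSc, hSI⟩ := hr
    have hK := hT.kills T J hTJ
    have hK' := hT.kills T J' hTJ'
    have hcl : (∃ D : Finset V, Odd D.card ∧ J = kd D) ∨ (supp J).card = tau J + 3 :=
      hθ J (by have := hT.kills_tau T J hK; omega) hJ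
    have hcl' : (∃ D : Finset V, Odd D.card ∧ J' = kd D) ∨ (supp J').card = tau J' + 3 :=
      hθ J' (by have := hT.kills_tau T J' hK'; omega) hJ'
    by_cases hr' : ∃ S ⊆ supp J', S.card = 3 ∧ Indep T S
    swap
    · -- `J'` lies on a line
      push Not at hr'
      refine hT.orth T J' J hTJ' hTJ (kills_of_triples fun D hD hDc => ?_)
      have hDI := hr' D hD hDc
      have hDk := (hT.tri_iff T D hDc).1 hDI
      have hDt := hT.tri T D hDc hDk
      have h1 := orth_triple hz hC hR hM hT hF hQ hJ hcl hTJ hS hSc hSI hDc hDI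
      have h2 := hT.orth T J (kd D) hTJ hDt h1
      exact hT.kills _ _ (tight_swap hTJ hDt h2)
    obtain ⟨S', hS', hSc', hSI'⟩ := hr'
    by_cases hout : ∃ s ∈ supp T, s ∉ supp J ∧ s ∉ supp J'
    · -- a vertex outside of both
      obtain ⟨s, hsT, hs, hs'⟩ := hout
      obtain ⟨A, hA, hAc, hAg⟩ := hM.maj T s S hsT (fun h => hs (hS h)) hSI
      have hnb : nb (T + J + J') s = nb T s := by rw [nb_add hs', nb_add hs]
      have hsH : s ∈ supp (T + J + J') := by
        rw [mem_supp_add hs', mem_supp_add hs]
        exact hsT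
      have h0 : tau T = tau J + tau (T + J) := by
        unfold Tight at hTJ
        omega
      have h00 : tau (T + J) ≤ tau (T + J + J') + tau J' := by
        have := hC.tau_add_le (T + J + J') J'
        rwa [add_add_self] at this
      have key : ∀ x ∈ A, tau (contr s x (T + J + J')) + 1 + tau J' = tau (T + J) := by
        intro x hx
        obtain ⟨hg, hIx⟩ := hAg x hx
        have hcJ := hC.contr_eq_self J s x hs
        have hcJ' := hC.contr_eq_self J' s x hs'
        obtain ⟨h1, h2, h3⟩ := good_compl hT hg hTJ hs hcJ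
        obtain ⟨h1', h2', h3'⟩ := good_compl hT hg hTJ' hs' hcJ'
        have h4 := hg.2
        have h5 := ih (contr s x T) (by omega) J J' hJ hJ' h2 h2' hne ⟨S, hS, hSc, hIx⟩
        unfold Tight at h5 h2
        rw [map_add, map_add, hcJ, hcJ']
        omega
      have hAne : A.Nonempty := by
        rw [← Finset.card_pos]
        omega
      obtain ⟨x0, hx0⟩ := hAne
      have hx0k := key x0 hx0
      have h6 := hM.lemL (T + J + J') s A (tau (T + J) - tau J') hsH (by rw [hnb]; exact hA)
        (by rw [hnb]; omega) (fun x hx => by have := key x hx; omega)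
      unfold Tight
      omega
    · push Not at hout
      have hfull : supp T ⊆ supp J ∪ supp J' := by
        intro s hs
        rw [mem_union]
        by_contra hcon
        push Not at hcon
        exact hcon.2 (hout s hs hcon.1)
      by_cases h1 : supp J ⊆ supp J'
      · by_cases h2 : supp J' ⊆ supp J
        · -- equal supports
          exfalso
          have h3 : supp J = supp J' := subset_antisymm h1 h2
          have h4 : supp J = supp T := by
            refine subset_antisymm (supp_of_kills hz hK) (hfull.trans ?_)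
            exact Finset.union_subset (Finset.Subset.refl _) h2
          rcases hcl with ⟨D, hD, hJD⟩ | hc3
          · rcases hcl' with ⟨D', hD', hJD'⟩ | hc3'
            · have hbig : ∀ (E : Finset V) (P : EG V), P = kd E → Irr P → 1 < E.card := by
                intro E P hP hPi
                by_contra hlt
                rw [kd_of_card_le_one (by omega)] at hP
                exact hPi.1 hP
              have h5 := hQ.supp_kd D hD (hbig D J hJD hJ)
              have h6 := hQ.supp_kd D' hD' (hbig D' J' hJD' hJ')
              rw [← hJD] at h5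
              rw [← hJD'] at h6
              apply hne
              rw [hJD, hJD', ← h5, ← h6, h3]
            · have hTe := eq_of_full hC hT hc3' hTJ' hS' hSc' hSI' (by rw [← h3]; exact h4)
              rw [hTe] at hTJ
              rcases hJ'.2 _ hTJ with h7 | h7
              · exact hJ.1 h7
              · exact hne h7
          · have hTe := eq_of_full hC hT hc3 hTJ hS hSc hSI h4
            rw [hTe] at hTJ'
            rcases hJ.2 _ hTJ' with h7 | h7
            · exact hJ'.1 h7
            · exact hne h7.symm
        · -- `s ∈ supp J' \ supp J`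
          obtain ⟨s, hs', hs⟩ := Finset.not_subset.1 h2
          have h3 := unq_core hz hC hR hM hT hF hQ (T := T) (J := J') (J' := J) ih hJ' hJ hTJ' hTJ
            (Ne.symm hne) hS' hSc' hSI' hS hSc hSI hs' hs
            (by rw [Finset.union_comm]; exact hfull) hcl'
          exact hT.orth T J' J hTJ' hTJ h3
      · obtain ⟨s, hs, hs'⟩ := Finset.not_subset.1 h1
        have h3 := unq_core hz hC hR hM hT hF hQ ih hJ hJ' hTJ hTJ'
            hne hS hSc hSI hS' hSc' hSI' hs hs' hfull hcl
        exact tight_swap hTJ hTJ' (hT.orth T J J' hTJ hTJ' h3)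
  intro T J J' hTθ hJ hJ' hTJ hTJ' hne hr
  exact main _ T rfl hTθ J J' hJ hJ' hTJ hTJ' hne hr

end alg

end Pool.Agent.AOP.Unq
end
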