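import Mathlib
import Pool.Agent.Lib.MP_7f2998_co.Spec
import Pool.Agent.Lib.MP_7f2998_co.Unq

section
/-!
# MP_7f2998_co : the generic point
-/
namespace Pool.Agent.AOP

/-- The field of rational functions over `F_2` in the variables `W`. -/
abbrev KF (W : Type*) : Type _ := FractionRing (MvPolynomial W (ZMod 2))

/-- The variables. -/
noncomputable def zF (W : Type*) : W → KF W :=
  fun w => algebraMap (MvPolynomial W (ZMod 2)) (KF W) (MvPolynomial.X w)

theorem algInd_zF (W : Type*) : AlgebraicIndependent (ZMod 2) (zF W) := by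
  have h1 : AlgebraicIndependent (ZMod 2) (MvPolynomial.X : W → MvPolynomial W (ZMod 2)) :=
    MvPolynomial.algebraicIndependent_X W (ZMod 2)
  exact h1.map' (f := IsScalarTower.toAlgHom (ZMod 2) (MvPolynomial W (ZMod 2)) (KF W))
    (IsFractionRing.injective (MvPolynomial W (ZMod 2)) (KF W))

end Pool.Agent.AOP
end

section
/-!
Determinant algebra in characteristic two (helper45) for MP_7f2998_co.
-/
namespace Pool.Agent.Lib.MP7f2998.H45

open Matrix Polynomial Finset

section General

variable {n : Type*} [Fintype n] [DecidableEq n]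

theorem derivative_det {R : Type*} [CommRing R] (M : Matrix n n R[X]) :
    derivative M.det = ∑ j, (M.updateCol j (fun i => derivative (M i j))).det := by
  simp only [det_apply, map_sum]
  rw [Finset.sum_comm]
  refine Finset.sum_congr rfl fun σ _ => ?_
  rw [Units.smul_def, zsmul_eq_mul, ← Polynomial.C_eq_intCast, derivative_C_mul,
    derivative_prod_finset, Finset.mul_sum]
  refine Finset.sum_congr rfl fun j _ => ?_
  rw [Units.smul_def, zsmul_eq_mul, ← Polynomial.C_eq_intCast]
  congr 1
  rw [← Finset.prod_erase_mul (Finset.univ) _ (Finset.mem_univ j)]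
  congr 1
  · refine Finset.prod_congr rfl fun i hi => ?_
    rw [updateCol_ne (Finset.ne_of_mem_erase hi)]
  · rw [updateCol_self]

theorem sum_sum_symm_charTwo {R : Type*} [AddCommMonoid R] (h2 : ∀ a : R, a + a = 0)
    (f : n → n → R) (hf : ∀ i j, f i j = f j i) :
    ∑ i, ∑ j, f i j = ∑ i, f i i := by
  have h1 : ∀ i, ∑ j, f i j = f i i + ∑ j ∈ univ.erase i, f i j := fun i => by
    rw [Finset.add_sum_erase _ _ (Finset.mem_univ i)]
  simp_rw [h1]
  rw [Finset.sum_add_distrib]
  have h0 : ∑ i, ∑ j ∈ univ.erase i, f i j = 0 := by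
    rw [Finset.sum_sigma']
    refine Finset.sum_involution (fun p _ => ⟨p.2, p.1⟩) ?_ ?_ ?_ ?_
    · rintro ⟨i, j⟩ _
      simp only
      rw [hf j i]
      exact h2 _
    · rintro ⟨i, j⟩ hp _ h
      simp only [Finset.mem_sigma, Finset.mem_univ, true_and, Finset.mem_erase, ne_eq,
        and_true] at hp
      simp only [Sigma.mk.injEq, heq_eq_eq] at h
      exact hp h.1
    · rintro ⟨i, j⟩ hp
      simp only [Finset.mem_sigma, Finset.mem_univ, true_and, Finset.mem_erase, ne_eq,
        and_true] at hp ⊢
      exact fun h => hp h.symm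
    · rintro ⟨i, j⟩ _
      rfl
  rw [h0, add_zero]

theorem derivative_det_symm {R : Type*} [CommRing R] [CharP R 2] (M : Matrix n n R[X])
    (hM : Mᵀ = M) :
    derivative M.det = ∑ j, M.adjugate j j * derivative (M j j) := by
  rw [derivative_det]
  have h1 : ∀ j, (M.updateCol j (fun i => derivative (M i j))).det
      = ∑ i, M.adjugate j i * derivative (M i j) := fun j => by
    rw [← cramer_apply, cramer_eq_adjugate_mulVec]
    rfl
  simp_rw [h1]
  apply sum_sum_symm_charTwo (fun a => CharTwo.add_self_eq_zero a)
  intro i j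
  have h3 : M.adjugate i j = M.adjugate j i := by
    have := congrFun (congrFun (adjugate_transpose M) i) j
    rw [hM, transpose_apply] at this
    exact this.symm
  have h4 : M i j = M j i := by
    have := congrFun (congrFun hM i) j
    rw [transpose_apply] at this
    exact this.symm
  rw [h3, h4]

end General

end Pool.Agent.Lib.MP7f2998.H45
end

section
/-!
Determinant algebra, second part: border matrices (helper45) for MP_7f2998_co.
-/
namespace Pool.Agent.Lib.MP7f2998.H45

open Matrix Polynomial Finset

variable {n : Type*} [Fintype n] [DecidableEq n]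

theorem natDegree_det_le {R : Type*} [CommRing R] (M : Matrix n n R[X]) (α β : n → ℕ)
    (h : ∀ i j, (M i j).natDegree ≤ α j + β i) : M.det.natDegree ≤ ∑ j, α j + ∑ i, β i := by
  rw [det_apply]
  refine Polynomial.natDegree_sum_le_of_forall_le _ _ fun σ _ => ?_
  rw [Units.smul_def, zsmul_eq_mul, ← Polynomial.C_eq_intCast]
  refine le_trans (natDegree_C_mul_le _ _) ?_
  refine le_trans (natDegree_prod_le _ _) ?_
  have h1 : ∑ i, β i = ∑ j, β (σ j) := (Equiv.sum_comp σ β).symm
  rw [h1, ← Finset.sum_add_distrib]
  exact Finset.sum_le_sum fun j _ => h _ _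

/-- clear row and column `s` -/
def clr {R : Type*} [CommRing R] (s : n) (M : Matrix n n R) : Matrix n n R := fun a b =>
  if a = s ∨ b = s then (if a = b then 1 else 0) else M a b

theorem det_updateRow_single {R : Type*} [CommRing R] (M : Matrix n n R) (s : n) :
    (M.updateRow s (Pi.single s 1)).det = (clr s M).det := by
  refine det_eq_of_forall_row_eq_smul_add_const (fun i => if i = s then 0 else M i s) s
    (by simp) fun i j => ?_
  by_cases hi : i = s
  · subst hi
    rw [updateRow_self]
    by_cases hj : j = i
    · subst hj; simp [clr]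
    · simp [clr, hj, Ne.symm hj]
  · rw [updateRow_ne hi]
    by_cases hj : j = s
    · subst hj; simp [clr, hi]
    · simp [clr, hi, hj, Ne.symm hj]

theorem det_add_single {R : Type*} [CommRing R] (M : Matrix n n R) (s : n) :
    (M + vecMulVec (Pi.single s 1) (Pi.single s 1)).det = M.det + (clr s M).det := by
  have h1 : M + vecMulVec (Pi.single s 1) (Pi.single s 1)
      = M.updateRow s (M s + Pi.single s 1) := by
    ext a b
    by_cases ha : a = s
    · subst ha
      simp [vecMulVec_apply]
    · simp [vecMulVec_apply, ha]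
  rw [h1, det_updateRow_add, updateRow_eq_self, det_updateRow_single]

/-- the matrix obtained by merging `s` into `x` (with coefficient `β`), characteristic two -/
def merge {R : Type*} [CommRing R] (s x : n) (β : R) (M : Matrix n n R) : Matrix n n R :=
  fun a b => M a b + (if a = x then β * M s b else 0) + (if b = x then β * M a s else 0)
    + (if a = x ∧ b = x then β * β * M s s else 0)

theorem det_add_merge {R : Type*} [CommRing R] [CharP R 2] (M : Matrix n n R) {s x : n}
    (hsx : s ≠ x) (β : R) :
    (M + vecMulVec (Pi.single s 1 + Pi.single x β) (Pi.single s 1 + Pi.single x β)).det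
      = M.det + (clr s (merge s x β M)).det := by
  set b : n → R := Pi.single s 1 + Pi.single x β with hb
  set T : Matrix n n R := 1 + Matrix.single x s β with hT
  have hTdet : T.det = 1 := by
    rw [hT]
    exact det_transvection_of_ne x s (Ne.symm hsx) β
  have hTTdet : Tᵀ.det = 1 := by rw [det_transpose, hTdet]
  have hTM : ∀ N : Matrix n n R, T * N * Tᵀ = merge s x β N := by
    intro N
    ext a c
    have h1 : ∀ a c, (T * N) a c = N a c + (if a = x then β * N s c else 0) := by
      intro a c
      rw [hT, Matrix.add_mul, Matrix.one_mul, Matrix.add_apply]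
      congr 1
      by_cases ha : a = x
      · subst ha; simp [Matrix.single_mul_apply_same]
      · rw [Matrix.single_mul_apply_of_ne _ _ _ _ _ ha, if_neg ha]
    have h2 : (T * N * Tᵀ) a c = (T * N) a c + (if c = x then β * (T * N) a s else 0) := by
      rw [hT, Matrix.transpose_add, Matrix.transpose_one, Matrix.mul_add, Matrix.mul_one,
        Matrix.add_apply]
      congr 1
      rw [Matrix.transpose_single]
      by_cases hc : c = x
      · subst hc; simp [Matrix.mul_single_apply_same, mul_comm]
      · rw [Matrix.mul_single_apply_of_ne _ _ _ _ _ hc, if_neg hc]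
    rw [h2, h1, h1, merge]
    by_cases ha : a = x
    · by_cases hc : c = x
      · simp only [ha, hc, if_true, and_self]; ring
      · simp only [ha, hc, if_true, if_false, and_false, add_zero]
    · by_cases hc : c = x
      · simp only [ha, hc, if_true, if_false, false_and]; ring
      · simp only [ha, hc, if_false, and_false, add_zero]
  have hTb : T *ᵥ b = Pi.single s 1 := by
    rw [hT, Matrix.add_mulVec, Matrix.one_mulVec]
    ext a
    have h3 : (Matrix.single x s β *ᵥ b) a = if a = x then β else 0 := by
      rw [Matrix.single_mulVec]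
      by_cases ha : a = x
      · subst ha
        simp [hb, hsx]
      · simp [ha]
    rw [Pi.add_apply, h3, hb, Pi.add_apply]
    by_cases ha : a = x
    · subst ha
      simp [hsx.symm, CharTwo.add_self_eq_zero]
    · simp [ha]
  have hbb : T * vecMulVec b b * Tᵀ = vecMulVec (Pi.single s 1) (Pi.single s 1) := by
    rw [mul_vecMulVec, vecMulVec_mul, vecMul_transpose, hTb]
  have h4 : (M + vecMulVec b b).det = (T * (M + vecMulVec b b) * Tᵀ).det := by
    rw [det_mul, det_mul, hTdet, hTTdet, one_mul, mul_one]
  have h5 : M.det = (T * M * Tᵀ).det := by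
    rw [det_mul, det_mul, hTdet, hTTdet, one_mul, mul_one]
  rw [h4, h5, Matrix.mul_add, Matrix.add_mul, hbb, hTM, det_add_single]

end Pool.Agent.Lib.MP7f2998.H45
end

section
/-!
Block determinants in characteristic two (helper45) for MP_7f2998_co.
-/
namespace Pool.Agent.Lib.MP7f2998.H45

open Matrix Polynomial Finset

section blk
variable {m n : Type*} [Fintype m] [DecidableEq m] [Fintype n] [DecidableEq n]
variable {E : Type*} [Field E] [CharP E 2]

theorem det_blk (δ : m → E) (hδ : ∀ i, δ i ≠ 0) (B B' : Matrix n m E) (A : Matrix n n E) :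
    (fromBlocks (diagonal δ) B'ᵀ B A).det
      = (∏ i, δ i) * (A + B * diagonal (fun i => (δ i)⁻¹) * B'ᵀ).det := by
  letI : Invertible (diagonal δ) :=
    ⟨diagonal (fun i => (δ i)⁻¹), by
      rw [diagonal_mul_diagonal]
      have : (fun i => (δ i)⁻¹ * δ i) = fun _ => (1 : E) := by
        funext i; exact inv_mul_cancel₀ (hδ i)
      rw [this, diagonal_one], by
      rw [diagonal_mul_diagonal]
      have : (fun i => δ i * (δ i)⁻¹) = fun _ => (1 : E) := by
        funext i; exact mul_inv_cancel₀ (hδ i)
      rw [this, diagonal_one]⟩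
  rw [det_fromBlocks₁₁, det_diagonal]
  congr 1
  have h1 : ⅟(diagonal δ) = diagonal (fun i => (δ i)⁻¹) := rfl
  rw [h1]
  congr 1
  ext a b
  rw [Matrix.sub_apply, Matrix.add_apply, CharTwo.sub_eq_add]

theorem det_blk_zero (δ : m → E) (x : m) (hx : δ x = 0) (hδ : ∀ i, i ≠ x → δ i ≠ 0)
    (B : Matrix n m E) (A : Matrix n n E) :
    (fromBlocks (diagonal δ) Bᵀ B A).det
      = (∏ i ∈ univ.erase x, δ i) *
        ((A + B * diagonal (fun i => if i = x then 0 else (δ i)⁻¹) * Bᵀ
            + vecMulVec (fun a => B a x) (fun a => B a x)).det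
          + (A + B * diagonal (fun i => if i = x then 0 else (δ i)⁻¹) * Bᵀ).det) := by
  set δ' : m → E := Function.update δ x 1 with hδ'
  have hδ'0 : ∀ i, δ' i ≠ 0 := by
    intro i
    by_cases hi : i = x
    · subst hi; simp [hδ']
    · rw [hδ', Function.update_of_ne hi]; exact hδ i hi
  have hprod : ∏ i, δ' i = ∏ i ∈ univ.erase x, δ i := by
    rw [← Finset.mul_prod_erase _ _ (Finset.mem_univ x)]
    rw [hδ', Function.update_self, one_mul]
    refine Finset.prod_congr rfl fun i hi => ?_
    rw [Function.update_of_ne (Finset.ne_of_mem_erase hi)]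
  set B' : Matrix n m E := B.updateCol x 0 with hB'
  set M0 := fromBlocks (diagonal δ) Bᵀ B A with hM0
  have h1 : fromBlocks (diagonal δ') Bᵀ B A
      = M0.updateRow (Sum.inl x) (M0 (Sum.inl x) + Pi.single (Sum.inl x) 1) := by
    ext i j
    rcases i with i | i
    · by_cases hi : i = x
      · subst hi
        rw [updateRow_self]
        rcases j with j | j
        · by_cases hj : i = j
          · subst hj
            simp [hM0, hδ', hx]
          · simp [hM0, diagonal_apply_ne _ hj, Ne.symm hj]
        · simp [hM0]
      · rw [updateRow_ne (by simpa using hi)]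
        rcases j with j | j
        · by_cases hj : i = j
          · subst hj
            simp [hM0, hδ', Function.update_of_ne hi]
          · simp [hM0, diagonal_apply_ne _ hj]
        · simp [hM0]
    · rw [updateRow_ne (by simp)]
      rcases j with j | j <;> simp [hM0]
  have h2 : fromBlocks (diagonal δ') B'ᵀ B A
      = M0.updateRow (Sum.inl x) (Pi.single (Sum.inl x) 1) := by
    ext i j
    rcases i with i | i
    · by_cases hi : i = x
      · subst hi
        rw [updateRow_self]
        rcases j with j | j
        · by_cases hj : i = j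
          · subst hj
            simp [hδ']
          · simp [diagonal_apply_ne _ hj, Ne.symm hj]
        · simp [hB']
      · rw [updateRow_ne (by simpa using hi)]
        rcases j with j | j
        · by_cases hj : i = j
          · subst hj
            simp [hM0, hδ', Function.update_of_ne hi]
          · simp [hM0, diagonal_apply_ne _ hj]
        · simp [hM0, hB', updateCol_ne hi]
    · rw [updateRow_ne (by simp)]
      rcases j with j | j <;> simp [hM0]
  have h3 : M0.det = (fromBlocks (diagonal δ') Bᵀ B A).det
      + (fromBlocks (diagonal δ') B'ᵀ B A).det := by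
    rw [h1, h2, det_updateRow_add, updateRow_eq_self, add_assoc, CharTwo.add_self_eq_zero,
      add_zero]
  rw [h3, det_blk δ' hδ'0 B B A, det_blk δ' hδ'0 B B' A, ← mul_add, hprod]
  congr 1
  have h4 : B * diagonal (fun i => (δ' i)⁻¹) * Bᵀ
      = B * diagonal (fun i => if i = x then 0 else (δ i)⁻¹) * Bᵀ
        + vecMulVec (fun a => B a x) (fun a => B a x) := by
    ext a b
    rw [Matrix.add_apply, Matrix.mul_apply, Matrix.mul_apply, vecMulVec_apply,
      ← Finset.sum_erase_add _ _ (Finset.mem_univ x), ← Finset.sum_erase_add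
        (f := fun j => (B * diagonal (fun i => if i = x then 0 else (δ i)⁻¹)) a j * Bᵀ j b) _
        (Finset.mem_univ x)]
    simp only [mul_diagonal, transpose_apply, if_true, mul_zero, zero_mul, add_zero]
    congr 1
    · refine Finset.sum_congr rfl fun i hi => ?_
      have hi' := Finset.ne_of_mem_erase hi
      rw [if_neg hi', hδ', Function.update_of_ne hi']
    · rw [hδ', Function.update_self, inv_one, mul_one]
  have h5 : B * diagonal (fun i => (δ' i)⁻¹) * B'ᵀ
      = B * diagonal (fun i => if i = x then 0 else (δ i)⁻¹) * Bᵀ := by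
    ext a b
    rw [Matrix.mul_apply, Matrix.mul_apply]
    refine Finset.sum_congr rfl fun i _ => ?_
    simp only [mul_diagonal, transpose_apply]
    by_cases hi : i = x
    · subst hi; simp [hB']
    · rw [if_neg hi, hδ', Function.update_of_ne hi, hB', updateCol_ne hi]
  rw [h4, h5, ← add_assoc]

end blk

section mask
variable {V : Type*} [Fintype V] [DecidableEq V]

/-- keep the principal block `Y`, identity elsewhere -/
def mask {R : Type*} [CommRing R] (Y : Finset V) (M : Matrix V V R) : Matrix V V R := fun a b =>
  if a ∈ Y ∧ b ∈ Y then M a b else if a = b then 1 else 0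

theorem det_inst {n R : Type*} [CommRing R] (f1 f2 : Fintype n) (d1 d2 : DecidableEq n)
    (M : Matrix n n R) : @Matrix.det n d1 f1 R _ M = @Matrix.det n d2 f2 R _ M := by
  obtain rfl : f1 = f2 := Subsingleton.elim _ _
  obtain rfl : d1 = d2 := Subsingleton.elim _ _
  rfl

theorem det_mask {R : Type*} [CommRing R] (Y : Finset V) (M : Matrix V V R) :
    (mask Y M).det = (M.submatrix (fun a : Y => (a : V)) (fun a : Y => (a : V))).det := by
  rw [twoBlockTriangular_det (mask Y M) (fun a => a ∈ Y)]
  · have h1 : toSquareBlockProp (mask Y M) (fun a => a ∈ Y)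
        = M.submatrix (fun a : Y => (a : V)) (fun a : Y => (a : V)) := by
      ext a b
      simp only [toSquareBlockProp_def, of_apply, submatrix_apply, mask, a.2, b.2, and_self,
        if_true]
    have h2 : toSquareBlockProp (mask Y M) (fun a => ¬ a ∈ Y) = 1 := by
      ext a b
      simp only [toSquareBlockProp_def, of_apply, mask, a.2, false_and, if_false,
        Matrix.one_apply, Subtype.ext_iff]
    rw [h1, h2, det_one, mul_one]
    exact det_inst _ _ _ _ _
  · intro i hi j hj
    have : ¬ i = j := fun h => hi (h ▸ hj)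
    simp [mask, hi, this]

end mask

end Pool.Agent.Lib.MP7f2998.H45
end

section
/-!
Entries of the border matrices (helper45) for MP_7f2998_co.
-/
namespace Pool.Agent.AOP.M45

open Finset Matrix Polynomial Pool.Agent.Lib.MP7f2998.H45 Pool.Agent.AOP

variable {V : Type*} [Fintype V] [DecidableEq V]

section
variable {E : Type*} [Field E] [Algebra (ZMod 2) E]

theorem charTwo_of_alg (E : Type*) [Field E] [Algebra (ZMod 2) E] : CharP E 2 :=
  charP_of_injective_algebraMap (algebraMap (ZMod 2) E).injective 2

theorem bit_add (a b : ZMod 2) : (bit (a + b) : E) = bit a + bit b := map_add _ _ _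
@[simp] theorem bit_zero : (bit 0 : E) = 0 := map_zero _
@[simp] theorem bit_one : (bit 1 : E) = 1 := map_one _

theorem zmod2_cases (a : ZMod 2) : a = 0 ∨ a = 1 := by
  revert a; decide

theorem bit_adj_eq (G : EG V) (a c : V) :
    (bit (adj G a c) : E) = if c ∈ nb G a then 1 else 0 := by
  rcases zmod2_cases (adj G a c) with h | h
  · rw [h, bit_zero, if_neg]
    simp [nb, h]
  · rw [h, bit_one, if_pos]
    simp [nb, h]

theorem mem_nb (G : EG V) (s a : V) : a ∈ nb G s ↔ adj G s a = 1 := by simp [nb]

theorem not_mem_nb_self (G : EG V) (s : V) : s ∉ nb G s := by simp [nb]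

theorem mem_nb_comm (G : EG V) (s a : V) : a ∈ nb G s ↔ s ∈ nb G a := by
  rw [mem_nb, mem_nb, adj_comm]

/-- the Laplacian of `G - s` -/
def lms (G : EG V) (s : V) (z : V → E) : Matrix V V E := fun a b =>
  if a = s ∨ b = s then 0 else
  if a = b then ∑ c ∈ univ.erase s, (bit (adj G a c) : E) / (z a + z c)
  else (bit (adj G a b) : E) / (z a + z b)

/-- the border matrix -/
def bB (R : Type*) [CommRing R] (G : EG V) (s : V) (Y : Finset V) : Matrix V V R := fun a i =>
  if i ∈ nb G s ∧ a ∈ Y ∧ (a = s ∨ a = i) then 1 else 0

theorem bB_sum (G : EG V) (s : V) (Y : Finset V) (d : V → E) (a b : V) :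
    (bB E G s Y * diagonal d * (bB E G s Y)ᵀ) a b
      = if a ∈ Y ∧ b ∈ Y then ∑ i ∈ nb G s, (if (a = s ∨ a = i) ∧ (b = s ∨ b = i) then d i else 0)
        else 0 := by
  rw [Matrix.mul_apply]
  by_cases hab : a ∈ Y ∧ b ∈ Y
  · rw [if_pos hab, ← Finset.sum_subset (Finset.subset_univ (nb G s))]
    · refine Finset.sum_congr rfl fun i hi => ?_
      simp only [mul_diagonal, transpose_apply, bB, hi, hab.1, hab.2, true_and]
      by_cases h1 : a = s ∨ a = i
      · by_cases h2 : b = s ∨ b = i
        · simp [h1, h2]
        · simp [h1, h2]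
      · simp [h1]
    · intro i _ hi
      simp [bB, hi]
  · rw [if_neg hab]
    refine Finset.sum_eq_zero fun i _ => ?_
    simp only [mul_diagonal, transpose_apply, bB]
    by_cases h1 : a ∈ Y
    · have h2 : b ∉ Y := fun h => hab ⟨h1, h⟩
      simp [h2]
    · simp [h1]

theorem entries_t (G : EG V) (s : V) (Y : Finset V) (z : V → E) (t : E) :
    mask Y (lms G s z) + bB E G s Y *
        diagonal (fun i => ((if i ∈ nb G s then t + z i else 1 : E))⁻¹) * (bB E G s Y)ᵀ
      = mask Y (Lm G (Function.update z s t)) := by
  ext a b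
  rw [Matrix.add_apply, bB_sum]
  by_cases hab : a ∈ Y ∧ b ∈ Y
  · simp only [mask, if_pos hab]
    have hs : ∀ i ∈ nb G s, ¬ i = s := fun i hi h => not_mem_nb_self G s (h ▸ hi)
    by_cases ha : a = s
    · by_cases hb : b = s
      · subst ha
        rw [hb]
        simp only [lms, Lm, true_or, if_true, and_self, zero_add, Function.update_self]
        rw [← Finset.sum_subset (Finset.subset_univ (nb G a))]
        · refine Finset.sum_congr rfl fun i hi => ?_
          rw [if_pos hi, Function.update_of_ne (hs i hi), bit_adj_eq, if_pos hi, one_div]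
        · intro i _ hi
          rw [bit_adj_eq, if_neg hi, zero_div]
      · subst ha
        have hb' : ¬ a = b := fun h => hb h.symm
        simp only [lms, Lm, true_or, if_true, true_and, zero_add, Function.update_self, hb,
          false_or, hb', if_false, Function.update_of_ne hb]
        rw [Finset.sum_ite_eq, bit_adj_eq]
        by_cases hn : b ∈ nb G a
        · simp [hn]
        · simp [hn]
    · by_cases hb : b = s
      · subst hb
        simp only [lms, Lm, or_true, if_true, and_true, zero_add, Function.update_self, ha,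
          false_or, true_or, if_false, Function.update_of_ne ha]
        rw [Finset.sum_ite_eq, adj_comm, bit_adj_eq]
        by_cases hn : a ∈ nb G b
        · simp [hn, add_comm]
        · simp [hn]
      · by_cases he : a = b
        · subst he
          simp only [lms, Lm, ha, or_self, if_false, if_true, false_or, and_self,
            Function.update_of_ne ha]
          rw [← Finset.sum_erase_add _ _ (Finset.mem_univ s)]
          congr 1
          · refine Finset.sum_congr rfl fun c hc => ?_
            rw [Function.update_of_ne (Finset.ne_of_mem_erase hc)]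
          · rw [Finset.sum_ite_eq, Function.update_self, adj_comm, bit_adj_eq]
            by_cases hn : a ∈ nb G s
            · simp [hn, add_comm]
            · simp [hn]
        · simp only [lms, Lm, ha, hb, or_self, if_false, he, false_or,
            Function.update_of_ne ha, Function.update_of_ne hb]
          rw [Finset.sum_eq_zero, add_zero]
          intro i _
          rw [if_neg]
          rintro ⟨h1, h2⟩
          exact he (h1.trans h2.symm)
  · simp only [mask, if_neg hab, add_zero]

theorem bB_col (G : EG V) (s x : V) (Y : Finset V) (hs : s ∈ Y) (hx : x ∈ nb G s) :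
    (fun a => bB E G s Y a x) = Pi.single s 1 + Pi.single x (if x ∈ Y then 1 else 0) := by
  have hxs : x ≠ s := fun h => not_mem_nb_self G s (h ▸ hx)
  funext a
  simp only [bB, hx, true_and, Pi.add_apply]
  by_cases ha : a = s
  · subst ha
    simp [hs, hxs.symm]
  · by_cases hax : a = x
    · subst hax
      simp [hxs]
    · simp [ha, hax]

theorem entries_x (G : EG V) (s x : V) (Y : Finset V) (z : V → E) (hs : s ∈ Y)
    (hx : x ∈ nb G s) :
    clr s (merge s x (if x ∈ Y then 1 else 0) (mask Y (lms G s z) + bB E G s Y *
        diagonal (fun i => if i = x then 0 else ((if i ∈ nb G s then z x + z i else 1 : E))⁻¹)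
          * (bB E G s Y)ᵀ))
      = mask (Y.erase s) (Lm (contr s x G) z) := by
  have hxs : x ≠ s := fun h => not_mem_nb_self G s (h ▸ hx)
  have hsx : s ≠ x := hxs.symm
  have hsn : ∀ i ∈ nb G s, ¬ i = s := fun i hi h => not_mem_nb_self G s (h ▸ hi)
  set M : Matrix V V E := mask Y (lms G s z) + bB E G s Y *
        diagonal (fun i => if i = x then 0 else ((if i ∈ nb G s then z x + z i else 1 : E))⁻¹)
          * (bB E G s Y)ᵀ with hM
  have hout : ∀ a b, ¬ (a ∈ Y ∧ b ∈ Y) → M a b = if a = b then 1 else 0 := by
    intro a b hab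
    rw [hM, Matrix.add_apply, bB_sum, if_neg hab, add_zero, mask, if_neg hab]
  have hss : M s s = ∑ i ∈ (nb G s).erase x, (1 : E) / (z x + z i) := by
    rw [hM, Matrix.add_apply, bB_sum, if_pos ⟨hs, hs⟩, mask, if_pos ⟨hs, hs⟩]
    simp only [lms, true_or, if_true, zero_add, and_self]
    rw [← Finset.sum_erase_add _ _ hx, if_pos rfl, add_zero]
    refine Finset.sum_congr rfl fun i hi => ?_
    rw [if_neg (Finset.ne_of_mem_erase hi), if_pos (Finset.mem_of_mem_erase hi), one_div]
  have hsb : ∀ b ∈ Y, b ≠ s → M s b = if b ∈ nb G s ∧ b ≠ x then 1 / (z x + z b) else 0 := by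
    intro b hb hbs
    rw [hM, Matrix.add_apply, bB_sum, if_pos ⟨hs, hb⟩, mask, if_pos ⟨hs, hb⟩]
    simp only [lms, true_or, if_true, zero_add, true_and, hbs, false_or]
    rw [Finset.sum_ite_eq]
    by_cases hn : b ∈ nb G s
    · by_cases hbx : b = x
      · simp [hbx]
      · simp [hn, hbx]
    · simp [hn]
  have hbs' : ∀ b ∈ Y, b ≠ s → M b s = if b ∈ nb G s ∧ b ≠ x then 1 / (z x + z b) else 0 := by
    intro b hb hbs
    rw [hM, Matrix.add_apply, bB_sum, if_pos ⟨hb, hs⟩, mask, if_pos ⟨hb, hs⟩]
    simp only [lms, or_true, if_true, zero_add, and_true, hbs, false_or, true_or]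
    rw [Finset.sum_ite_eq]
    by_cases hn : b ∈ nb G s
    · by_cases hbx : b = x
      · simp [hbx]
      · simp [hn, hbx]
    · simp [hn]
  have haa : ∀ a ∈ Y, a ≠ s → M a a = (∑ c ∈ univ.erase s, (bit (adj G a c) : E) / (z a + z c))
      + if a ∈ nb G s ∧ a ≠ x then 1 / (z x + z a) else 0 := by
    intro a ha has
    rw [hM, Matrix.add_apply, bB_sum, if_pos ⟨ha, ha⟩, mask, if_pos ⟨ha, ha⟩]
    simp only [lms, has, or_self, if_false, if_true, false_or, and_self]
    congr 1
    rw [Finset.sum_ite_eq]
    by_cases hn : a ∈ nb G s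
    · by_cases hbx : a = x
      · simp [hbx]
      · simp [hn, hbx]
    · simp [hn]
  have hab : ∀ a ∈ Y, ∀ b ∈ Y, a ≠ s → b ≠ s → a ≠ b →
      M a b = (bit (adj G a b) : E) / (z a + z b) := by
    intro a ha b hb has hbs hne
    rw [hM, Matrix.add_apply, bB_sum, if_pos ⟨ha, hb⟩, mask, if_pos ⟨ha, hb⟩]
    simp only [lms, has, hbs, hne, or_self, if_false, false_or]
    rw [Finset.sum_eq_zero, add_zero]
    intro i _
    rw [if_neg]
    rintro ⟨h1, h2⟩
    exact hne (h1.trans h2.symm)
  ext a b
  rw [clr]
  by_cases hab0 : a = s ∨ b = s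
  · have hn : ¬ (a ∈ Y.erase s ∧ b ∈ Y.erase s) := by
      rintro ⟨h1, h2⟩
      rcases hab0 with h | h
      · exact Finset.ne_of_mem_erase h1 h
      · exact Finset.ne_of_mem_erase h2 h
    rw [if_pos hab0, mask, if_neg hn]
  rw [if_neg hab0]
  push Not at hab0
  obtain ⟨has, hbs⟩ := hab0
  by_cases hY : a ∈ Y ∧ b ∈ Y
  · obtain ⟨ha, hb⟩ := hY
    have e1 : mask (Y.erase s) (Lm (contr s x G) z) a b = Lm (contr s x G) z a b := by
      rw [mask, if_pos ⟨Finset.mem_erase.2 ⟨has, ha⟩, Finset.mem_erase.2 ⟨hbs, hb⟩⟩]
    rw [e1]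
    by_cases hne : a = b
    · subst hne
      simp only [Lm, if_true]
      by_cases hax : a = x
      · subst hax
        simp only [merge, if_true, and_self, ha, hss, haa a ha has, hsb a ha has,
          hbs' a ha has, ne_eq, not_true_eq_false, and_false, if_false, add_zero, mul_zero,
          one_mul]
        -- compare the sums
        rw [← Finset.sum_erase_add univ
          (fun c => (bit (adj (contr s a G) a c) : E) / (z a + z c)) (Finset.mem_univ s)]
        have e2 : (bit (adj (contr s a G) a s) : E) = 0 := by
          rw [contr_adj hsx]; simp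
        rw [e2, zero_div, add_zero]
        have e3 : ∑ i ∈ (nb G s).erase a, (1 : E) / (z a + z i)
            = ∑ c ∈ univ.erase s, (if c = a then 0 else (bit (adj G s c) : E)) / (z a + z c) := by
          symm
          rw [← Finset.sum_subset (s₁ := (nb G s).erase a)]
          · refine Finset.sum_congr rfl fun i hi => ?_
            rw [if_neg (Finset.ne_of_mem_erase hi), bit_adj_eq,
              if_pos (Finset.mem_of_mem_erase hi)]
          · intro i hi
            exact Finset.mem_erase.2 ⟨hsn i (Finset.mem_of_mem_erase hi), Finset.mem_univ _⟩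
          · intro i _ hi
            by_cases hia : i = a
            · simp [hia]
            · have : i ∉ nb G s := fun h => hi (Finset.mem_erase.2 ⟨hia, h⟩)
              rw [if_neg hia, bit_adj_eq, if_neg this, zero_div]
        rw [e3, ← Finset.sum_add_distrib]
        refine Finset.sum_congr rfl fun c hc => ?_
        have hcs := Finset.ne_of_mem_erase hc
        rw [contr_adj hsx]
        by_cases hca : c = a
        · subst hca; simp
        · have hac : ¬ a = c := fun h => hca h.symm
          simp only [hac, has, hcs, or_self, if_false, if_true, hca, add_zero, bit_add]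
          rw [add_div]
      · simp only [merge, hax, if_false, and_self, add_zero, haa a ha has, ne_eq,
          not_false_eq_true, and_true]
        rw [← Finset.sum_erase_add univ
          (fun c => (bit (adj (contr s x G) a c) : E) / (z a + z c)) (Finset.mem_univ s)]
        have e2 : (bit (adj (contr s x G) a s) : E) = 0 := by
          rw [contr_adj hsx]; simp
        rw [e2, zero_div, add_zero]
        have e3 : (if a ∈ nb G s then 1 / (z x + z a) else 0 : E)
            = ∑ c ∈ univ.erase s, (if c = x then (bit (adj G a s) : E) else 0) / (z a + z c) := by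
          rw [Finset.sum_eq_single x]
          · rw [if_pos rfl, adj_comm, bit_adj_eq]
            by_cases hn : a ∈ nb G s
            · simp [hn, add_comm]
            · simp [hn]
          · intro c _ hc
            simp [hc]
          · intro h
            exact absurd (Finset.mem_erase.2 ⟨hxs, Finset.mem_univ _⟩) h
        rw [e3, ← Finset.sum_add_distrib]
        refine Finset.sum_congr rfl fun c hc => ?_
        have hcs := Finset.ne_of_mem_erase hc
        rw [contr_adj hsx]
        by_cases hca : c = a
        · subst hca; simp [hax]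
        · have hac : ¬ a = c := fun h => hca h.symm
          simp only [hac, has, hcs, or_self, if_false, hax, add_zero]
          rw [← add_div, bit_add]
          by_cases hcx : c = x
          · simp [hcx]
          · simp [hcx]
    · have e4 : Lm (contr s x G) z a b = (bit (adj (contr s x G) a b) : E) / (z a + z b) := by
        simp [Lm, hne]
      have hc0 : ¬ (a = b ∨ a = s ∨ b = s) := by
        rintro (h | h | h)
        · exact hne h
        · exact has h
        · exact hbs h
      rw [e4, contr_adj hsx, if_neg hc0]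
      by_cases hax : a = x
      · subst hax
        have hbx : ¬ b = a := fun h => hne h.symm
        simp only [merge, if_true, hbx, if_false, and_false, add_zero, ha, one_mul,
          hab a ha b hb has hbs hne, hsb b hb hbs, ne_eq, not_false_eq_true, and_true, bit_add]
        rw [add_div, bit_adj_eq G s b]
        by_cases hn : b ∈ nb G s
        · simp [hn]
        · simp [hn]
      · by_cases hbx : b = x
        · subst hbx
          simp only [merge, if_true, hax, if_false, false_and, add_zero, hb, one_mul,
            hab a ha b hb has hbs hne, hbs' a ha has, ne_eq, not_false_eq_true, and_true, bit_add]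
          rw [add_div, adj_comm G a s, bit_adj_eq G s a, add_comm (z b) (z a)]
          by_cases hn : a ∈ nb G s
          · simp [hn]
          · simp [hn]
        · simp only [merge, hax, hbx, if_false, false_and, add_zero,
            hab a ha b hb has hbs hne]
  · have hY' : ¬ (a ∈ Y.erase s ∧ b ∈ Y.erase s) := fun h =>
      hY ⟨Finset.mem_of_mem_erase h.1, Finset.mem_of_mem_erase h.2⟩
    rw [mask, if_neg hY', merge, hout a b hY]
    have h1 : (if a = x then (if x ∈ Y then (1 : E) else 0) * M s b else 0) = 0 := by
      by_cases hax : a = x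
      · rw [if_pos hax]
        by_cases hxY : x ∈ Y
        · have hbY : b ∉ Y := fun h => hY ⟨hax ▸ hxY, h⟩
          have : ¬ s = b := fun h => hbs h.symm
          rw [hout s b (fun h => hbY h.2), if_pos hxY, if_neg this, mul_zero]
        · rw [if_neg hxY, zero_mul]
      · rw [if_neg hax]
    have h2 : (if b = x then (if x ∈ Y then (1 : E) else 0) * M a s else 0) = 0 := by
      by_cases hbx : b = x
      · rw [if_pos hbx]
        by_cases hxY : x ∈ Y
        · have haY : a ∉ Y := fun h => hY ⟨h, hbx ▸ hxY⟩
          rw [hout a s (fun h => haY h.1), if_pos hxY, if_neg has, mul_zero]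
        · rw [if_neg hxY, zero_mul]
      · rw [if_neg hbx]
    have h3 : (if a = x ∧ b = x then (if x ∈ Y then (1 : E) else 0) * (if x ∈ Y then 1 else 0)
        * M s s else 0) = 0 := by
      by_cases hx2 : a = x ∧ b = x
      · have hxY : x ∉ Y := fun h => hY ⟨hx2.1 ▸ h, hx2.2 ▸ h⟩
        rw [if_pos hx2, if_neg hxY, zero_mul, zero_mul]
      · rw [if_neg hx2]
    rw [h1, h2, h3, add_zero, add_zero, add_zero]

end

end Pool.Agent.AOP.M45
end

section
/-!
Module MINOR (helper45): the exact counting polynomial for principal minors.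
-/
namespace Pool.Agent.AOP.M45

open Finset Matrix Polynomial Pool.Agent.Lib.MP7f2998.H45 Pool.Agent.AOP

variable {V : Type*} [Fintype V] [DecidableEq V]

theorem even_card_nb (G : EG V) (s : V) : Even (nb G s).card := by
  have h := sum_adj G s
  have h1 : ∑ u, adj G s u = ((nb G s).card : ZMod 2) := by
    rw [Finset.card_eq_sum_ones, Nat.cast_sum, nb, Finset.sum_filter]
    refine Finset.sum_congr rfl fun u _ => ?_
    rcases zmod2_cases (adj G s u) with h0 | h0 <;> simp [h0]
  rw [h1] at h
  exact (ZMod.natCast_eq_zero_iff_even).1 h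

theorem lms_symm {E : Type*} [Field E] [Algebra (ZMod 2) E] (G : EG V) (s : V) (z : V → E)
    (a b : V) : lms G s z a b = lms G s z b a := by
  unfold lms
  by_cases hab : a = b
  · subst hab; rfl
  · have hba : ¬ b = a := fun h => hab h.symm
    by_cases h : a = s ∨ b = s
    · rw [if_pos h, if_pos h.symm]
    · have h' : ¬ (b = s ∨ a = s) := fun h0 => h h0.symm
      rw [if_neg h, if_neg h', if_neg hab, if_neg hba, adj_comm, add_comm (z a)]

section
variable {F : Type*} [Field F] [Algebra (ZMod 2) F]

/-- the border matrix over `F[X]` -/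
noncomputable def bigM (G : EG V) (s : V) (Y : Finset V) (z0 : V → F) :
    Matrix (V ⊕ V) (V ⊕ V) F[X] :=
  fromBlocks (diagonal fun i => if i ∈ nb G s then X + C (z0 i) else 1)
    (bB F[X] G s Y)ᵀ (bB F[X] G s Y) ((mask Y (lms G s z0)).map C)

theorem bigM_symm (G : EG V) (s : V) (Y : Finset V) (z0 : V → F) :
    (bigM G s Y z0)ᵀ = bigM G s Y z0 := by
  unfold bigM
  rw [fromBlocks_transpose, diagonal_transpose, transpose_transpose]
  congr 1
  ext1 a b
  simp only [transpose_apply, map_apply, mask]
  by_cases h : a ∈ Y ∧ b ∈ Y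
  · rw [if_pos h, if_pos h.symm, lms_symm]
  · rw [if_neg h, if_neg (fun h' => h h'.symm)]
    by_cases hab : a = b
    · subst hab; rfl
    · rw [if_neg hab, if_neg (fun h' => hab h'.symm)]

theorem bigM_col (G : EG V) (s : V) (Y : Finset V) (hs : s ∈ Y) (z0 : V → F) :
    (fun j => bigM G s Y z0 j (Sum.inr s))
      = Sum.elim (fun i => if i ∈ nb G s then 1 else 0) (fun _ => 0) := by
  funext j
  rcases j with i | a
  · simp [bigM, bB, hs]
  · simp only [bigM, fromBlocks_apply₂₂, map_apply, Sum.elim_inr, mask, lms, or_true, if_true, hs,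
      and_true]
    by_cases ha : a ∈ Y
    · simp [ha]
    · have : ¬ a = s := fun h => ha (h ▸ hs)
      simp [ha, this]

theorem derivative_bigM (G : EG V) (s : V) (Y : Finset V) (hs : s ∈ Y) (z0 : V → F) :
    derivative (bigM G s Y z0).det = 0 := by
  have : CharP F 2 := charTwo_of_alg F
  set M := bigM G s Y z0 with hM
  have hsym : Mᵀ = M := bigM_symm G s Y z0
  have hcol := bigM_col G s Y hs z0
  rw [derivative_det_symm M hsym, Fintype.sum_sum_type]
  have h2 : ∑ a, M.adjugate (Sum.inr a) (Sum.inr a) * derivative (M (Sum.inr a) (Sum.inr a))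
      = 0 := by
    refine Finset.sum_eq_zero fun a _ => ?_
    have : M (Sum.inr a) (Sum.inr a) = C (mask Y (lms G s z0) a a) := rfl
    rw [this, derivative_C, mul_zero]
  have h1 : ∀ i, derivative (M (Sum.inl i) (Sum.inl i)) = if i ∈ nb G s then (1 : F[X]) else 0 := by
    intro i
    have : M (Sum.inl i) (Sum.inl i) = if i ∈ nb G s then X + C (z0 i) else 1 := by
      rw [hM, bigM, fromBlocks_apply₁₁, diagonal_apply_eq]
    rw [this]
    by_cases hi : i ∈ nb G s
    · rw [if_pos hi, if_pos hi]; simp
    · rw [if_neg hi, if_neg hi]; simp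
  rw [h2, add_zero]
  simp_rw [h1]
  -- the vector of the column
  set v : V ⊕ V → F[X] := fun j => M j (Sum.inr s) with hv
  have hadj : ∀ i, ∑ j, M.adjugate i j * v j = if i = Sum.inr s then M.det else 0 := by
    intro i
    have := congrFun (congrFun (adjugate_mul M) i) (Sum.inr s)
    rw [Matrix.mul_apply] at this
    rw [hv, this, Matrix.smul_apply, Matrix.one_apply]
    by_cases hi : i = Sum.inr s
    · rw [if_pos hi, if_pos hi, smul_eq_mul, mul_one]
    · rw [if_neg hi, if_neg hi, smul_zero]
  have hzero : ∑ i, ∑ j, v i * (M.adjugate i j * v j) = 0 := by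
    simp_rw [← Finset.mul_sum, hadj]
    rw [Finset.sum_eq_single (Sum.inr s)]
    · have : v (Sum.inr s) = 0 := by rw [hcol]; rfl
      rw [this, zero_mul]
    · intro i _ hi
      rw [if_neg hi, mul_zero]
    · intro h; exact absurd (Finset.mem_univ _) h
  rw [sum_sum_symm_charTwo (fun a => CharTwo.add_self_eq_zero a)] at hzero
  · rw [Fintype.sum_sum_type] at hzero
    have e2 : ∑ a, v (Sum.inr a) * (M.adjugate (Sum.inr a) (Sum.inr a) * v (Sum.inr a)) = 0 := by
      refine Finset.sum_eq_zero fun a _ => ?_
      have : v (Sum.inr a) = 0 := by rw [hcol]; rfl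
      rw [this, zero_mul]
    rw [e2, add_zero] at hzero
    refine Eq.trans (Finset.sum_congr rfl fun i _ => ?_) hzero
    have : v (Sum.inl i) = if i ∈ nb G s then 1 else 0 := by rw [hcol]; rfl
    rw [this]
    by_cases hi : i ∈ nb G s
    · simp only [hi, if_true, one_mul, mul_one]
    · simp only [hi, if_false, zero_mul, mul_zero]
  · intro i j
    have : M.adjugate i j = M.adjugate j i := by
      have := congrFun (congrFun (adjugate_transpose M) i) j
      rw [hsym, transpose_apply] at this
      exact this.symm
    rw [this]; ring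

theorem natDegree_bigM (G : EG V) (s : V) (Y : Finset V) (hs : s ∈ Y) (z0 : V → F)
    (hne : (nb G s).Nonempty) :
    (bigM G s Y z0).det.natDegree + 1 ≤ (nb G s).card := by
  have : CharP F 2 := charTwo_of_alg F
  obtain ⟨i0, hi0⟩ := hne
  set M := bigM G s Y z0 with hM
  have hcol := bigM_col G s Y hs z0
  set c : V ⊕ V → F[X] := Sum.elim (fun i => if i ∈ nb G s then 1 else 0)
    (fun a => if a = s then X else 0) with hc
  have h1 := det_updateCol_sum M (Sum.inl i0) c
  have hc0 : c (Sum.inl i0) = 1 := by rw [hc, Sum.elim_inl, if_pos hi0]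
  rw [hc0, one_smul] at h1
  rw [← h1]
  have hsum : ∀ k, (∑ i, c i • M k i).natDegree ≤ 0 := by
    intro k
    rw [Fintype.sum_sum_type]
    have e2 : ∑ a, c (Sum.inr a) • M k (Sum.inr a) = X * M k (Sum.inr s) := by
      rw [Finset.sum_eq_single s]
      · simp [hc]
      · intro a _ ha; simp [hc, ha]
      · intro h; exact absurd (Finset.mem_univ _) h
    rw [e2]
    rcases k with k | a
    · have e3 : ∑ i, c (Sum.inl i) • M (Sum.inl k) (Sum.inl i)
          = if k ∈ nb G s then X + C (z0 k) else 0 := by
        rw [Finset.sum_eq_single k]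
        · by_cases hk : k ∈ nb G s
          · simp [hc, hM, bigM, hk]
          · simp [hc, hk]
        · intro i _ hi
          simp [hM, bigM, diagonal_apply_ne _ (Ne.symm hi)]
        · intro h; exact absurd (Finset.mem_univ _) h
      have e4 : M (Sum.inl k) (Sum.inr s) = if k ∈ nb G s then 1 else 0 := by
        have := congrFun hcol (Sum.inl k); exact this
      rw [e3, e4]
      by_cases hk : k ∈ nb G s
      · rw [if_pos hk, if_pos hk, mul_one, add_right_comm, CharTwo.add_self_eq_zero, zero_add]
        simp
      · rw [if_neg hk, if_neg hk]; simp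
    · have e4 : M (Sum.inr a) (Sum.inr s) = 0 := by
        have := congrFun hcol (Sum.inr a); exact this
      rw [e4, mul_zero, add_zero]
      refine Polynomial.natDegree_sum_le_of_forall_le _ _ fun i _ => ?_
      simp only [hc, hM, bigM, Sum.elim_inl, fromBlocks_apply₂₁, bB, smul_eq_mul]
      split_ifs <;> simp
  refine le_trans (Nat.add_le_add_right (natDegree_det_le _
    (Sum.elim (fun i => if i ∈ (nb G s).erase i0 then 1 else 0) (fun _ => 0)) (fun _ => 0)
    ?_) 1) ?_
  · intro i j
    rw [add_zero]
    by_cases hj : j = Sum.inl i0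
    · subst hj
      rw [updateCol_self]
      exact le_trans (hsum i) (Nat.zero_le _)
    · rw [updateCol_ne hj]
      rcases j with j | b
      · have hj' : j ≠ i0 := fun h => hj (by rw [h])
        rcases i with i | a
        · simp only [hM, bigM, fromBlocks_apply₁₁, Sum.elim_inl]
          by_cases hij : i = j
          · subst hij
            rw [diagonal_apply_eq]
            by_cases hi : i ∈ nb G s
            · rw [if_pos hi, if_pos (Finset.mem_erase.2 ⟨hj', hi⟩)]
              exact (natDegree_X_add_C _).le
            · rw [if_neg hi]; simp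
          · rw [diagonal_apply_ne _ hij]; simp
        · simp only [hM, bigM, fromBlocks_apply₂₁, bB]
          split_ifs <;> simp
      · rcases i with i | a
        · simp only [hM, bigM, fromBlocks_apply₁₂, bB, transpose_apply]
          split_ifs <;> simp
        · simp only [hM, bigM, fromBlocks_apply₂₂, map_apply, natDegree_C]
          exact Nat.zero_le _
  · rw [Fintype.sum_sum_type]
    simp only [Sum.elim_inl, Sum.elim_inr, Finset.sum_const_zero, add_zero]
    rw [Finset.sum_ite_mem, Finset.univ_inter, Finset.sum_const, smul_eq_mul, mul_one,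
      Finset.card_erase_of_mem hi0]
    have := Finset.card_pos.2 ⟨i0, hi0⟩
    omega

end

end Pool.Agent.AOP.M45

namespace Pool.Agent.AOP

open Finset Matrix Polynomial Pool.Agent.Lib.MP7f2998.H45 Pool.Agent.AOP.M45

theorem minorPolySpec (V : Type*) [Fintype V] [DecidableEq V] (F K : Type*) [Field F]
    [Algebra (ZMod 2) F] [Field K] [Algebra (ZMod 2) K] [Algebra F K] :
    MinorPolySpec V F K := by
  intro z0 G s Y hsupp hsY
  have : CharP F 2 := charTwo_of_alg F
  have : CharP K 2 := charTwo_of_alg K
  have : Fact (Nat.Prime 2) := ⟨Nat.prime_two⟩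
  have hne : (nb G s).Nonempty := by
    simp only [supp, Finset.mem_filter, Finset.mem_univ, true_and] at hsupp
    obtain ⟨u, hu⟩ := hsupp
    exact ⟨u, (mem_nb G s u).2 hu⟩
  set P := (bigM G s Y z0).det with hP
  have hder : derivative P = 0 := derivative_bigM G s Y hsY z0
  have hexp : expand F 2 (contract 2 P) = P := expand_contract 2 hder two_ne_zero
  have hdeg := natDegree_bigM G s Y hsY z0 hne
  rw [← hP] at hdeg
  refine ⟨contract 2 P, ?_, ?_, ?_⟩
  · have h1 : P.natDegree = (contract 2 P).natDegree * 2 := by
      conv_lhs => rw [← hexp]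
      rw [natDegree_expand]
    obtain ⟨k, hk⟩ := even_card_nb G s
    omega
  · intro t ht
    rw [← expand_aeval, hexp, hP]
    have h1 : Polynomial.aeval t (bigM G s Y z0).det
        = ((bigM G s Y z0).map (Polynomial.aeval t : F[X] →ₐ[F] K)).det := by
      rw [AlgHom.map_det]; rfl
    have h2 : (bigM G s Y z0).map (Polynomial.aeval t : F[X] →ₐ[F] K)
        = fromBlocks (diagonal fun i => if i ∈ nb G s then t + algebraMap F K (z0 i) else 1)
          (bB K G s Y)ᵀ (bB K G s Y) (mask Y (lms G s (fun v => algebraMap F K (z0 v)))) := by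
      unfold bigM
      rw [fromBlocks_map]
      congr 1
      · ext1 i j
        rw [map_apply]
        by_cases hij : i = j
        · subst hij
          rw [diagonal_apply_eq, diagonal_apply_eq]
          by_cases hi : i ∈ nb G s
          · rw [if_pos hi, if_pos hi]; simp
          · rw [if_neg hi, if_neg hi]; simp
        · rw [diagonal_apply_ne _ hij, diagonal_apply_ne _ hij, map_zero]
      · ext1 i a
        simp only [map_apply, transpose_apply, bB]
        split_ifs <;> simp
      · ext1 i a
        simp only [map_apply, bB]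
        split_ifs <;> simp
      · ext1 a b
        simp only [map_apply, mask]
        by_cases hab : a ∈ Y ∧ b ∈ Y
        · rw [if_pos hab, if_pos hab, aeval_C, lms, lms]
          by_cases h1 : a = s ∨ b = s
          · rw [if_pos h1, if_pos h1, map_zero]
          · rw [if_neg h1, if_neg h1]
            have hbit : ∀ c : ZMod 2, algebraMap F K (bit c) = bit c := fun c =>
              (RingHom.congr_fun (Subsingleton.elim ((algebraMap F K).comp
                (algebraMap (ZMod 2) F)) (algebraMap (ZMod 2) K)) c)
            by_cases h2 : a = b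
            · rw [if_pos h2, if_pos h2, map_sum]
              refine Finset.sum_congr rfl fun c _ => ?_
              rw [map_div₀, map_add, hbit]
            · rw [if_neg h2, if_neg h2, map_div₀, map_add, hbit]
        · rw [if_neg hab, if_neg hab]
          split_ifs <;> simp
    rw [h1, h2, det_blk]
    · congr 1
      · rw [← Finset.prod_subset (Finset.subset_univ (nb G s))]
        · refine Finset.prod_congr rfl fun i hi => by rw [if_pos hi]
        · intro i _ hi; rw [if_neg hi]
      · rw [lminor, ← det_mask, ← entries_t G s Y (fun v => algebraMap F K (z0 v)) t]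
    · intro i
      by_cases hi : i ∈ nb G s
      · rw [if_pos hi]
        intro h
        exact ht i hi (CharTwo.add_eq_zero.1 h)
      · rw [if_neg hi]; exact one_ne_zero
  · intro x hx hdist
    rw [← expand_eval, hexp, hP]
    have h1 : Polynomial.eval (z0 x) (bigM G s Y z0).det
        = ((bigM G s Y z0).map (Polynomial.evalRingHom (z0 x))).det := by
      rw [← Polynomial.coe_evalRingHom, RingHom.map_det]; rfl
    have h2 : (bigM G s Y z0).map (Polynomial.evalRingHom (z0 x))
        = fromBlocks (diagonal fun i => if i ∈ nb G s then z0 x + z0 i else 1)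
          (bB F G s Y)ᵀ (bB F G s Y) (mask Y (lms G s z0)) := by
      unfold bigM
      rw [fromBlocks_map]
      congr 1
      · ext1 i j
        rw [map_apply]
        by_cases hij : i = j
        · subst hij
          rw [diagonal_apply_eq, diagonal_apply_eq]
          by_cases hi : i ∈ nb G s
          · rw [if_pos hi, if_pos hi]; simp
          · rw [if_neg hi, if_neg hi]; simp
        · rw [diagonal_apply_ne _ hij, diagonal_apply_ne _ hij, map_zero]
      · ext1 i a
        simp only [map_apply, transpose_apply, bB]
        split_ifs <;> simp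
      · ext1 i a
        simp only [map_apply, bB]
        split_ifs <;> simp
      · ext1 a b
        simp only [map_apply, Polynomial.coe_evalRingHom, eval_C]
    rw [h1, h2, det_blk_zero _ x]
    · congr 1
      · have hsub : (nb G s).erase x ⊆ univ.erase x :=
          Finset.erase_subset_erase _ (Finset.subset_univ _)
        rw [← Finset.prod_subset hsub]
        · refine Finset.prod_congr rfl fun i hi => by rw [if_pos (Finset.mem_of_mem_erase hi)]
        · intro i hi hi'
          have : i ∉ nb G s := fun h => hi' (Finset.mem_erase.2 ⟨Finset.ne_of_mem_erase hi, h⟩)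
          rw [if_neg this]
      · have hxs : s ≠ x := fun h => not_mem_nb_self G s (by rw [h]; rw [← h] at hx ⊢; exact hx)
        rw [bB_col G s x Y hsY hx, det_add_merge _ hxs, add_right_comm,
          CharTwo.add_self_eq_zero, zero_add, entries_x G s x Y z0 hsY hx, det_mask]
        rfl
    · rw [if_pos hx, CharTwo.add_self_eq_zero]
    · intro i hi
      by_cases hin : i ∈ nb G s
      · rw [if_pos hin]
        intro h
        exact hdist i hin hi (CharTwo.add_eq_zero.1 h).symm
      · rw [if_neg hin]; exact one_ne_zero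

end Pool.Agent.AOP
end

section
/-!
# MP_7f2998_co : `feas_iff` (part of RANK) and tools for THMF

`Feas G Y` iff the principal minor of the Laplacian on `Y` is nonzero at a generic point.
-/
namespace Pool.Agent.AOP

open Finset Matrix Polynomial

namespace M45

set_option linter.unusedSectionVars false

variable {V : Type*} [Fintype V] [DecidableEq V]
variable {K : Type*} [Field K] [Algebra (ZMod 2) K]

/-- the field generated by the `z a` with `a ∈ T` -/
noncomputable abbrev Kf (z : V → K) (T : Set V) : IntermediateField (ZMod 2) K :=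
  IntermediateField.adjoin (ZMod 2) (z '' T)

theorem z_mem_Kf {z : V → K} {T : Set V} {a : V} (h : a ∈ T) : z a ∈ Kf z T :=
  IntermediateField.subset_adjoin _ _ ⟨a, h, rfl⟩

theorem bit_mem_Kf {z : V → K} {T : Set V} (a : ZMod 2) : (bit a : K) ∈ Kf z T :=
  (Kf z T).algebraMap_mem a

theorem Kf_mono {z : V → K} {T T' : Set V} (h : T ⊆ T') : Kf z T ≤ Kf z T' :=
  IntermediateField.adjoin.mono _ _ _ (Set.image_mono h)

theorem trans_Kf {z : V → K} (hz : AlgebraicIndependent (ZMod 2) z) {T : Set V} {v : V}
    (hv : v ∉ T) : Transcendental (Kf z T) (z v) := by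
  rw [IntermediateField.transcendental_adjoin_iff]
  exact hz.transcendental_adjoin hv

theorem aeval_sq_ne_zero {z : V → K} (hz : AlgebraicIndependent (ZMod 2) z) {T : Set V} {v : V}
    (hv : v ∉ T) {p : (Kf z T)[X]} (hp : p ≠ 0) : aeval (z v ^ 2) p ≠ 0 := by
  intro h
  have h1 : aeval (z v) (expand _ 2 p) = 0 := by
    rw [expand_aeval]
    exact h
  have h2 := transcendental_iff.1 (trans_Kf hz hv) _ h1
  exact hp ((expand_eq_zero (by norm_num)).1 h2)

/-- the values at `T` as elements of `Kf z T` -/
noncomputable def zT (z : V → K) (T : Set V) [DecidablePred (· ∈ T)] : V → Kf z T := fun a =>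
  if h : a ∈ T then ⟨z a, z_mem_Kf h⟩ else 0

theorem algebraMap_zT (z : V → K) (T : Set V) [DecidablePred (· ∈ T)] {a : V} (h : a ∈ T) :
    algebraMap (Kf z T) K (zT z T a) = z a := by
  unfold zT
  rw [dif_pos h]
  rfl

theorem algebraMap_bit' {F : Type*} [Field F] [Algebra (ZMod 2) F] [Algebra F K] (a : ZMod 2) :
    algebraMap F K (bit a) = bit a := by
  unfold bit
  have : (algebraMap F K).comp (algebraMap (ZMod 2) F) = algebraMap (ZMod 2) K :=
    Subsingleton.elim _ _
  rw [← this]
  rfl

theorem map_Lm {F : Type*} [Field F] [Algebra (ZMod 2) F] [Algebra F K] (G : EG V)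
    (z0 : V → F) (a b : V) :
    algebraMap F K (Lm G z0 a b) = Lm G (fun v => algebraMap F K (z0 v)) a b := by
  unfold Lm
  by_cases hab : a = b
  · simp only [if_pos hab, map_sum, map_div₀, map_add, algebraMap_bit']
  · simp only [if_neg hab, map_div₀, map_add, algebraMap_bit']

theorem map_lminor {F : Type*} [Field F] [Algebra (ZMod 2) F] [Algebra F K] (G : EG V)
    (z0 : V → F) (Y : Finset V) :
    algebraMap F K (lminor G z0 Y) = lminor G (fun v => algebraMap F K (z0 v)) Y := by
  unfold lminor
  rw [RingHom.map_det]
  congr 1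
  ext a b
  simp only [RingHom.mapMatrix_apply, Matrix.map_apply, Matrix.submatrix_apply, map_Lm]

theorem adj_eq_zero_of (G : EG V) {v : V} (hv : v ∉ supp G) (u : V) : adj G v u = 0 := by
  apply (zmod2_cases _).resolve_right
  intro h
  apply hv
  simp only [supp, Finset.mem_filter, Finset.mem_univ, true_and]
  exact ⟨u, h⟩

theorem Lm_congr (G : EG V) {z z' : V → K} (a b : V)
    (h : ∀ c, c ∈ supp G → z c = z' c) : Lm G z a b = Lm G z' a b := by
  have key : ∀ a c, (bit (adj G a c) : K) / (z a + z c) = bit (adj G a c) / (z' a + z' c) := by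
    intro a c
    rcases zmod2_cases (adj G a c) with h0 | h0
    · rw [h0, bit_zero, zero_div, zero_div]
    · have ha : a ∈ supp G := by
        simp only [supp, Finset.mem_filter, Finset.mem_univ, true_and]
        exact ⟨c, h0⟩
      have hc : c ∈ supp G := by
        simp only [supp, Finset.mem_filter, Finset.mem_univ, true_and]
        exact ⟨a, by rw [adj_comm]; exact h0⟩
      rw [h a ha, h c hc]
  unfold Lm
  by_cases hab : a = b
  · simp only [if_pos hab, key]
  · simp only [if_neg hab, key]

theorem lminor_congr (G : EG V) {z z' : V → K} (Y : Finset V)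
    (h : ∀ c, c ∈ supp G → z c = z' c) : lminor G z Y = lminor G z' Y := by
  unfold lminor
  congr 1
  ext a b
  simp only [Matrix.submatrix_apply]
  exact Lm_congr G _ _ h

/-- row of an isolated vertex -/
theorem Lm_row_zero (G : EG V) (z : V → K) {a : V} (ha : a ∉ supp G) (b : V) :
    Lm G z a b = 0 := by
  unfold Lm
  by_cases hab : a = b
  · rw [if_pos hab]
    exact Finset.sum_eq_zero fun c _ => by
      rw [adj_eq_zero_of G ha, bit_zero, zero_div]
  · rw [if_neg hab, adj_eq_zero_of G ha, bit_zero, zero_div]

theorem lminor_eq_zero_of_not_supp (G : EG V) (z : V → K) {Y : Finset V} {a : V} (haY : a ∈ Y)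
    (ha : a ∉ supp G) : lminor G z Y = 0 := by
  unfold lminor
  refine Matrix.det_eq_zero_of_row_eq_zero ⟨a, haY⟩ fun b => ?_
  rw [Matrix.submatrix_apply]
  exact Lm_row_zero G z ha _

theorem lminor_empty (G : EG V) (z : V → K) : lminor G z ∅ = 1 := by
  unfold lminor
  exact Matrix.det_isEmpty

theorem v_not_mem_contr {v u : V} (h : v ≠ u) (G : EG V) : v ∉ supp (contr v u G) := by
  intro hv
  simp only [supp, Finset.mem_filter, Finset.mem_univ, true_and] at hv
  obtain ⟨w, hw⟩ := hv
  rw [contr_adj h] at hw
  simp at hw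

/-- the counting polynomial over the field without `z s` -/
theorem minor_poly {z : V → K} (hz : AlgebraicIndependent (ZMod 2) z) (G : EG V) (s : V)
    (Y : Finset V) (hs : s ∈ supp G) (hsY : s ∈ Y) :
    ∃ g : (Kf z {s}ᶜ)[X], 2 * g.natDegree + 2 ≤ (nb G s).card ∧
      aeval (z s ^ 2) g = (∏ i ∈ nb G s, (z s + z i)) * lminor G z Y ∧
      ∀ x ∈ nb G s, aeval (z x ^ 2) g =
        (∏ i ∈ (nb G s).erase x, (z x + z i)) * lminor (contr s x G) z (Y.erase s) := by
  classical
  obtain ⟨g, hg1, hg2, hg3⟩ := minorPolySpec V (Kf z {s}ᶜ) K (zT z {s}ᶜ) G s Y hs hsY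
  have hzT : ∀ a, a ≠ s → algebraMap (Kf z {s}ᶜ) K (zT z {s}ᶜ a) = z a := fun a ha =>
    algebraMap_zT z _ ha
  have hns : ∀ i ∈ nb G s, i ≠ s := by
    intro i hi h
    rw [h] at hi
    exact not_mem_nb_self G s hi
  refine ⟨g, hg1, ?_, fun x hx => ?_⟩
  · have hne : ∀ i ∈ nb G s, z s ≠ algebraMap (Kf z {s}ᶜ) K (zT z {s}ᶜ i) := by
      intro i hi
      rw [hzT i (hns i hi)]
      intro h
      exact hns i hi (hz.injective h).symm
    rw [hg2 (z s) hne]
    congr 1
    · refine Finset.prod_congr rfl fun i hi => ?_
      rw [hzT i (hns i hi)]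
    · refine lminor_congr G Y fun c _ => ?_
      by_cases hc : c = s
      · rw [hc, Function.update_self]
      · rw [Function.update_of_ne hc, hzT c hc]
  · have hdist : ∀ i ∈ nb G s, i ≠ x → zT z {s}ᶜ i ≠ zT z {s}ᶜ x := by
      intro i hi hix h
      have := congrArg (algebraMap (Kf z {s}ᶜ) K) h
      rw [hzT i (hns i hi), hzT x (hns x hx)] at this
      exact hix (hz.injective this)
    have h3 := congrArg (algebraMap (Kf z {s}ᶜ) K) (hg3 x hx hdist)
    have e1 : algebraMap (Kf z {s}ᶜ) K (eval (zT z {s}ᶜ x ^ 2) g) = aeval (z x ^ 2) g := by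
      rw [← aeval_algebraMap_apply_eq_algebraMap_eval, map_pow, hzT x (hns x hx)]
    rw [e1] at h3
    rw [h3, map_mul, map_prod, map_lminor]
    congr 1
    · refine Finset.prod_congr rfl fun i hi => ?_
      rw [map_add, hzT i (hns i (Finset.mem_of_mem_erase hi)), hzT x (hns x hx)]
    · refine lminor_congr _ _ fun c hc => ?_
      refine hzT c ?_
      rintro rfl
      exact v_not_mem_contr (hns x hx).symm G hc

theorem prod_ne_zero_s {z : V → K} (hz : AlgebraicIndependent (ZMod 2) z) (G : EG V) (s : V) :
    ∏ i ∈ nb G s, (z s + z i) ≠ 0 := by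
  have : CharP K 2 := charTwo_of_alg K
  rw [Finset.prod_ne_zero_iff]
  intro i hi h
  have := hz.injective (CharTwo.add_eq_zero.1 h)
  rw [this] at hi
  exact not_mem_nb_self G _ hi

theorem prod_ne_zero_x {z : V → K} (hz : AlgebraicIndependent (ZMod 2) z) (G : EG V) (s x : V) :
    ∏ i ∈ (nb G s).erase x, (z x + z i) ≠ 0 := by
  have : CharP K 2 := charTwo_of_alg K
  rw [Finset.prod_ne_zero_iff]
  intro i hi h
  exact Finset.ne_of_mem_erase hi (hz.injective (CharTwo.add_eq_zero.1 h)).symm

end M45

open M45 in
/-- field `feas_iff` of `RankSpec` -/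
theorem feas_iff_lminor {V : Type*} [Fintype V] [DecidableEq V] {K : Type*} [Field K]
    [Algebra (ZMod 2) K] (hC : CombSpec V) {z : V → K}
    (hz : AlgebraicIndependent (ZMod 2) z) (G : EG V) (Y : Finset V) :
    Feas G Y ↔ lminor G z Y ≠ 0 := by
  classical
  obtain ⟨n, hn⟩ : ∃ n, Y.card = n := ⟨_, rfl⟩
  induction n generalizing G Y with
  | zero =>
    rw [Finset.card_eq_zero.1 hn, lminor_empty]
    exact ⟨fun _ => one_ne_zero, fun _ => hC.feas_empty G⟩
  | succ n ih =>
    constructor
    · intro hf
      have hne : Y.Nonempty := Finset.card_pos.1 (by omega)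
      obtain ⟨v, hvY, u, huv, hf'⟩ := hC.feas_step G Y hf hne
      have hvs : v ∈ supp G := hC.feas_supp G Y hf hvY
      have hu : u ∈ nb G v := (mem_nb G v u).2 huv
      obtain ⟨g, hg1, hg2, hg3⟩ := minor_poly hz G v Y hvs hvY
      have h1 := (ih (contr v u G) (Y.erase v) (by rw [Finset.card_erase_of_mem hvY]; omega)).1 hf'
      have h2 : aeval (z u ^ 2) g ≠ 0 := by
        rw [hg3 u hu]
        exact mul_ne_zero (prod_ne_zero_x hz G v u) h1
      have hg : g ≠ 0 := by
        rintro rfl
        exact h2 (by simp)
      have h3 : aeval (z v ^ 2) g ≠ 0 := aeval_sq_ne_zero hz (by simp) hg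
      rw [hg2] at h3
      exact right_ne_zero_of_mul h3
    · intro hm
      have hne : Y.Nonempty := Finset.card_pos.1 (by omega)
      obtain ⟨v, hvY⟩ := hne
      have hvs : v ∈ supp G := by
        by_contra h
        exact hm (lminor_eq_zero_of_not_supp G z hvY h)
      obtain ⟨g, hg1, hg2, hg3⟩ := minor_poly hz G v Y hvs hvY
      have hg : g ≠ 0 := by
        rintro rfl
        have : (∏ i ∈ nb G v, (z v + z i)) * lminor G z Y = 0 := by rw [← hg2]; simp
        exact (mul_ne_zero (prod_ne_zero_s hz G v) hm) this
      obtain ⟨x, hx, hgx⟩ : ∃ x ∈ nb G v, aeval (z x ^ 2) g ≠ 0 := by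
        by_contra hcon
        push Not at hcon
        have hg' : g.map (algebraMap (Kf z {v}ᶜ) K) ≠ 0 :=
          (Polynomial.map_ne_zero_iff (algebraMap (Kf z {v}ᶜ) K).injective).2 hg
        have : CharP K 2 := charTwo_of_alg K
        have hinj : Set.InjOn (fun x => z x ^ 2) (nb G v) := by
          intro a _ b _ hab
          have h0 : z a ^ 2 = z b ^ 2 := hab
          have h1 : (z a + z b) ^ 2 = 0 := by
            rw [CharTwo.add_sq, h0, CharTwo.add_self_eq_zero]
          exact hz.injective (CharTwo.add_eq_zero.1 (pow_eq_zero_iff (by norm_num) |>.1 h1))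
        have hsub : (nb G v).image (fun x => z x ^ 2)
            ⊆ (g.map (algebraMap (Kf z {v}ᶜ) K)).roots.toFinset := by
          intro y hy
          obtain ⟨x, hx, rfl⟩ := Finset.mem_image.1 hy
          rw [Multiset.mem_toFinset, mem_roots hg', IsRoot.def, eval_map_algebraMap]
          exact hcon x hx
        have h1 := Finset.card_le_card hsub
        rw [Finset.card_image_of_injOn hinj] at h1
        have h2 := Multiset.toFinset_card_le (g.map (algebraMap (Kf z {v}ᶜ) K)).roots
        have h3 := card_roots' (g.map (algebraMap (Kf z {v}ᶜ) K))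
        rw [natDegree_map] at h3
        omega
      rw [hg3 x hx] at hgx
      have h1 := (ih (contr v x G) (Y.erase v) (by rw [Finset.card_erase_of_mem hvY]; omega)).2
        (right_ne_zero_of_mul hgx)
      exact hC.feas_of_contr G Y v x hvY ((mem_nb G v x).1 hx) h1

end Pool.Agent.AOP
end

section
/-!
# Module RANK: `tau` is the rank, independence is independence of coordinate functionals
-/
namespace Pool.Agent.AOP.C62

open Finset Matrix

variable {V : Type*} [Fintype V] [DecidableEq V]
variable {K : Type*} [Field K]

/-- coordinates in `B` are independent on the kernel -/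
def IndB (L : Matrix V V K) (B : Finset V) : Prop :=
  ∀ w : V → K, (∀ a, a ∉ B → w a = 0) → (∀ f : V → K, L *ᵥ f = 0 → ∑ a, w a * f a = 0) → w = 0

/-- coordinates in `B` separate the kernel -/
def SepB (L : Matrix V V K) (B : Finset V) : Prop :=
  ∀ f : V → K, L *ᵥ f = 0 → (∀ b ∈ B, f b = 0) → f = 0

/-- the coordinate functionals -/
def cs (B : Finset V) : {b // b ∈ B} → V → K := fun b => Pi.single (b : V) 1

theorem cs_sum (B : Finset V) (b : {b // b ∈ B}) (f : V → K) :
    ∑ a, cs B b a * f a = f b := by
  simp [cs, Pi.single_apply]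

theorem cs_comb (B : Finset V) (c : {b // b ∈ B} → K) (a : V) :
    ∑ j, c j * cs B j a = if h : a ∈ B then c ⟨a, h⟩ else 0 := by
  simp only [cs, Pi.single_apply, mul_ite, mul_one, mul_zero]
  split_ifs with h
  · rw [Finset.sum_eq_single ⟨a, h⟩]
    · simp
    · intro b _ hb
      rw [if_neg]
      intro h'
      exact hb (Subtype.ext h'.symm)
    · simp
  · refine Finset.sum_eq_zero fun b _ => ?_
    rw [if_neg]
    intro h'
    exact h (h' ▸ b.2)

theorem sepB_iff (L : Matrix V V K) (B : Finset V) :
    SepB L B ↔ ∀ f : V → K, L *ᵥ f = 0 → (∀ j, ∑ a, cs B j a * f a = 0) → f = 0 := by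
  constructor
  · intro h f hf hc
    exact h f hf fun b hb => by rw [← hc ⟨b, hb⟩, cs_sum]
  · intro h f hf hc
    exact h f hf fun j => by rw [cs_sum]; exact hc _ j.2

theorem indB_iff (L : Matrix V V K) (B : Finset V) :
    IndB L B ↔ ∀ c : {b // b ∈ B} → K,
      (∀ f : V → K, L *ᵥ f = 0 → ∑ a, (∑ j, c j * cs B j a) * f a = 0) → c = 0 := by
  constructor
  · intro h c hc
    have := h (fun a => ∑ j, c j * cs B j a) (fun a ha => by rw [cs_comb, dif_neg ha]) hc
    funext j
    have h2 := congrFun this (j : V)
    simp only [cs_comb, dif_pos j.2, Pi.zero_apply] at h2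
    exact h2
  · intro h w hw hv
    have := h (fun j => w j) (fun f hf => by
      rw [← hv f hf]
      refine Finset.sum_congr rfl fun a _ => ?_
      rw [cs_comb]
      split_ifs with ha
      · rfl
      · rw [hw a ha])
    funext a
    by_cases ha : a ∈ B
    · exact congrFun this ⟨a, ha⟩
    · exact hw a ha

theorem indB_empty (L : Matrix V V K) : IndB L ∅ := by
  intro w hw _
  funext a
  exact hw a (Finset.notMem_empty a)

theorem indB_mono (L : Matrix V V K) {S B : Finset V} (h : S ⊆ B) (hB : IndB L B) : IndB L S :=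
  fun w hw hv => hB w (fun a ha => hw a fun h' => ha (h h')) hv

theorem sepB_card {L : Matrix V V K} {B : Finset V} (h : SepB L B) :
    Fintype.card V ≤ B.card + L.rank := by
  have h1 := (evMap_injective_iff L (cs B)).2 ((sepB_iff L B).1 h)
  have h2 := LinearMap.finrank_le_finrank_of_injective h1
  rw [Module.finrank_fintype_fun_eq_card, Fintype.card_coe] at h2
  have := finrank_ker L
  omega

theorem indB_card {L : Matrix V V K} {B : Finset V} (h : IndB L B) :
    B.card + L.rank ≤ Fintype.card V := by
  have h1 := card_le_of_indep L (cs B) ((indB_iff L B).1 h)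
  rwa [Fintype.card_coe] at h1

theorem indB_of_sepB {L : Matrix V V K} {B : Finset V} (h : SepB L B)
    (hc : B.card + L.rank = Fintype.card V) : IndB L B := by
  rw [indB_iff]
  exact indep_of_sep L (cs B) (by rw [Fintype.card_coe]; exact hc) ((sepB_iff L B).1 h)

theorem exists_basis {L : Matrix V V K} {S : Finset V} (hS : IndB L S) :
    ∃ B, S ⊆ B ∧ IndB L B ∧ SepB L B := by
  classical
  obtain ⟨B, hB, hmax⟩ := Finset.exists_max_image
    (univ.filter fun B : Finset V => S ⊆ B ∧ IndB L B) Finset.card
    ⟨S, by simp [hS]⟩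
  simp only [mem_filter, mem_univ, true_and] at hB hmax
  refine ⟨B, hB.1, hB.2, ?_⟩
  intro f hf hfB
  by_contra hne
  obtain ⟨c, hc⟩ : ∃ c, f c ≠ 0 := by
    by_contra h
    push Not at h
    exact hne (funext h)
  have hcB : c ∉ B := fun h => hc (hfB c h)
  have h1 := hmax (insert c B) ⟨hB.1.trans (Finset.subset_insert _ _), by
    intro w hw hv
    have h2 := hv f hf
    have h3 : ∑ a, w a * f a = w c * f c := by
      refine Finset.sum_eq_single c (fun a _ hac => ?_) (by simp)
      by_cases haB : a ∈ B
      · rw [hfB a haB, mul_zero]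
      · rw [hw a (by simp [hac, haB]), zero_mul]
    rw [h3] at h2
    have h4 : w c = 0 := (mul_eq_zero.1 h2).resolve_right hc
    refine hB.2 w (fun a ha => ?_) hv
    by_cases hac : a = c
    · rw [hac, h4]
    · exact hw a (by simp [hac, ha])⟩
  rw [Finset.card_insert_of_notMem hcB] at h1
  omega

/-- principal minor -/
def pm (L : Matrix V V K) (Y : Finset V) : K :=
  (L.submatrix (fun a : Y => (a : V)) (fun a : Y => (a : V))).det

/-- a function supported in `Y` -/
def extY (Y : Finset V) (g : Y → K) : V → K := fun a => if h : a ∈ Y then g ⟨a, h⟩ else 0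

theorem sub_mulVec (L : Matrix V V K) (Y : Finset V) (g : Y → K) (y : Y) :
    (L.submatrix (fun a : Y => (a : V)) (fun a : Y => (a : V)) *ᵥ g) y
      = (L *ᵥ extY Y g) y := by
  simp only [Matrix.mulVec, dotProduct, Matrix.submatrix_apply]
  rw [← Finset.sum_subset (Finset.subset_univ Y) (fun a _ ha => by
    simp only [extY, dif_neg ha, mul_zero])]
  rw [← Finset.sum_coe_sort Y]
  refine Finset.sum_congr rfl fun a _ => ?_
  simp only [extY, dif_pos a.2]

theorem sep_of_pm {L : Matrix V V K} {Y : Finset V} (h : pm L Y ≠ 0) : SepB L Yᶜ := by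
  intro f hf hfY
  have h1 : (fun a : Y => f a) = 0 := by
    apply Matrix.eq_zero_of_mulVec_eq_zero h
    funext y
    rw [sub_mulVec]
    have : extY Y (fun a : Y => f a) = f := by
      funext a
      by_cases ha : a ∈ Y
      · simp [extY, ha]
      · simp only [extY, dif_neg ha]
        exact (hfY a (Finset.mem_compl.2 ha)).symm
    rw [this, hf]
    rfl
  funext a
  by_cases ha : a ∈ Y
  · exact congrFun h1 ⟨a, ha⟩
  · exact hfY a (Finset.mem_compl.2 ha)

theorem pm_card_le {L : Matrix V V K} {Y : Finset V} (h : pm L Y ≠ 0) : Y.card ≤ L.rank := by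
  have h1 := sepB_card (sep_of_pm h)
  rw [Finset.card_compl] at h1
  have : Y.card ≤ Fintype.card V := Finset.card_le_univ _
  omega

theorem pm_of_basis {L : Matrix V V K} (hL : ∀ a b, L a b = L b a) {B : Finset V}
    (hI : IndB L B) (hS : SepB L B) : pm L Bᶜ ≠ 0 := by
  intro h0
  obtain ⟨g, hg0, hg⟩ := Matrix.exists_mulVec_eq_zero_iff.2 h0
  set f := extY Bᶜ g with hf
  have h1 : ∀ a, a ∉ B → (L *ᵥ f) a = 0 := by
    intro a ha
    have := congrFun hg ⟨a, Finset.mem_compl.2 ha⟩
    rw [sub_mulVec] at this
    exact this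
  have h2 : L *ᵥ f = 0 := by
    apply hI _ h1
    intro f' hf'
    have h5 : ∑ a, (L *ᵥ f) a * f' a = ∑ b, (L *ᵥ f') b * f b := by
      simp only [Matrix.mulVec, dotProduct, Finset.sum_mul]
      rw [Finset.sum_comm]
      refine Finset.sum_congr rfl fun a _ => Finset.sum_congr rfl fun b _ => ?_
      rw [hL b a]; ring
    rw [h5, hf']; simp
  have h3 : f = 0 := hS f h2 fun b hb => by
    rw [hf]
    simp [extY, hb]
  apply hg0
  funext y
  have := congrFun h3 y
  rw [hf] at this
  simp only [extY, dif_pos y.2, Pi.zero_apply] at this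
  exact this

theorem exists_principal {L : Matrix V V K} (hL : ∀ a b, L a b = L b a) {S : Finset V}
    (hS : IndB L S) : ∃ Y, Disjoint Y S ∧ Y.card = L.rank ∧ pm L Y ≠ 0 := by
  obtain ⟨B, hSB, hI, hSep⟩ := exists_basis hS
  refine ⟨Bᶜ, ?_, ?_, pm_of_basis hL hI hSep⟩
  · rw [Finset.disjoint_left]
    intro a ha ha'
    exact (Finset.mem_compl.1 ha) (hSB ha')
  · have h1 := indB_card hI
    have h2 := sepB_card hSep
    have : B.card ≤ Fintype.card V := Finset.card_le_univ _
    rw [Finset.card_compl]
    omega

theorem indB_of_principal {L : Matrix V V K} {Y S : Finset V} (hY : pm L Y ≠ 0)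
    (hc : Y.card = L.rank) (hd : Disjoint Y S) : IndB L S := by
  refine indB_mono L (B := Yᶜ) ?_ (indB_of_sepB (sep_of_pm hY) ?_)
  · intro a ha
    rw [Finset.mem_compl]
    exact fun h => (Finset.disjoint_left.1 hd h) ha
  · have : Y.card ≤ Fintype.card V := Finset.card_le_univ _
    rw [Finset.card_compl]
    omega

theorem _root_.Pool.Agent.AOP.rankSpec {K : Type*} [Field K] [Algebra (ZMod 2) K] {z : V → K}
    (hz : AlgebraicIndependent (ZMod 2) z) (hC : CombSpec V) : RankSpec z := by
  have hF : ∀ (G : EG V) (Y : Finset V), Feas G Y ↔ lminor G z Y ≠ 0 :=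
    fun G Y => feas_iff_lminor hC hz G Y
  have hF' : ∀ (G : EG V) (Y : Finset V), Feas G Y ↔ pm (Lm G z) Y ≠ 0 := hF
  have hrank : ∀ G : EG V, (Lm G z).rank = tau G := by
    intro G
    apply le_antisymm
    · obtain ⟨Y, -, hc, hY⟩ := exists_principal (Lm_symm G z) (indB_empty (Lm G z))
      rw [← hc]
      exact hC.card_le_tau G Y ((hF' G Y).2 hY)
    · obtain ⟨Y, hY, hc⟩ := hC.exists_feas G
      rw [← hc]
      exact pm_card_le ((hF' G Y).1 hY)
  refine ⟨hrank, hF, fun G S => ?_⟩
  constructor
  · rintro ⟨Y, hd, hc, hf⟩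
    exact indB_of_principal ((hF' G Y).1 hf) (hc.trans (hrank G).symm) hd
  · intro h
    obtain ⟨Y, hd, hc, hY⟩ := exists_principal (Lm_symm G z) (S := S) h
    exact ⟨Y, hd, hc.trans (hrank G), (hF' G Y).2 hY⟩

end Pool.Agent.AOP.C62
end
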