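import Mathlib
import Pool.Agent.Lib.MP_7f2998_co.Rank

section
/-!
# MP_7f2998_co : Kron reduction (Schur complement) of a matrix (helper45)
-/
namespace Pool.Agent.Lib.MP7f2998.H45

open Finset Matrix

section kron

set_option linter.unusedSectionVars false

variable {V : Type*} [Fintype V] [DecidableEq V] {K : Type*} [Field K]

/-- principal submatrix on `Y` -/
def pA (L : Matrix V V K) (Y : Finset V) : Matrix Y Y K :=
  L.submatrix (fun a : Y => (a : V)) (fun a : Y => (a : V))

/-- columns in `Y` -/
def pR (L : Matrix V V K) (Y : Finset V) : Matrix V Y K :=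
  L.submatrix id (fun a : Y => (a : V))

/-- rows in `Y` -/
def pC (L : Matrix V V K) (Y : Finset V) : Matrix Y V K :=
  L.submatrix (fun a : Y => (a : V)) id

/-- Kron reduction with respect to `Y` -/
noncomputable def kron (L : Matrix V V K) (Y : Finset V) : Matrix V V K :=
  L - pR L Y * (pA L Y)⁻¹ * pC L Y

theorem kron_left (L : Matrix V V K) (Y : Finset V) (hA : (pA L Y).det ≠ 0) {a : V} (ha : a ∈ Y)
    (b : V) : kron L Y a b = 0 := by
  have h1 : (pR L Y * (pA L Y)⁻¹ * pC L Y) a b
      = ((pA L Y * (pA L Y)⁻¹) * pC L Y) ⟨a, ha⟩ b := rfl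
  unfold kron
  rw [Matrix.sub_apply, h1, Matrix.mul_nonsing_inv _ (isUnit_iff_ne_zero.2 hA), Matrix.one_mul]
  exact sub_self _

theorem kron_right (L : Matrix V V K) (Y : Finset V) (hA : (pA L Y).det ≠ 0) {b : V} (hb : b ∈ Y)
    (a : V) : kron L Y a b = 0 := by
  have h1 : (pR L Y * ((pA L Y)⁻¹ * pC L Y)) a b
      = (pR L Y * ((pA L Y)⁻¹ * pA L Y)) a ⟨b, hb⟩ := rfl
  unfold kron
  rw [Matrix.sub_apply, Matrix.mul_assoc, h1, Matrix.nonsing_inv_mul _ (isUnit_iff_ne_zero.2 hA),
    Matrix.mul_one]
  exact sub_self _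

theorem kron_symm (L : Matrix V V K) (hL : ∀ a b, L a b = L b a) (Y : Finset V) (a b : V) :
    kron L Y a b = kron L Y b a := by
  have hLt : Lᵀ = L := by ext a b; exact hL b a
  have hAt : (pA L Y)ᵀ = pA L Y := by
    ext a b; exact hL b a
  have hRt : (pR L Y)ᵀ = pC L Y := by
    ext a b; exact hL b a
  have hCt : (pC L Y)ᵀ = pR L Y := by
    ext a b; exact hL b a
  have : (kron L Y)ᵀ = kron L Y := by
    unfold kron
    rw [Matrix.transpose_sub, Matrix.transpose_mul, Matrix.transpose_mul,
      Matrix.transpose_nonsing_inv, hLt, hAt, hRt, hCt, Matrix.mul_assoc]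
  have h := congrFun (congrFun this b) a
  exact h

theorem det_union (L : Matrix V V K) (Y S : Finset V) (h : Disjoint Y S)
    (hA : (pA L Y).det ≠ 0) :
    (pA L (Y ∪ S)).det = (pA L Y).det * (pA (kron L Y) S).det := by
  have hinv : Invertible (pA L Y) := Matrix.invertibleOfIsUnitDet _ (isUnit_iff_ne_zero.2 hA)
  rw [← Matrix.det_submatrix_equiv_self (Equiv.Finset.union Y S h)]
  have e : (pA L (Y ∪ S)).submatrix (Equiv.Finset.union Y S h) (Equiv.Finset.union Y S h)
      = fromBlocks (pA L Y) (L.submatrix (fun a : Y => (a : V)) (fun a : S => (a : V)))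
        (L.submatrix (fun a : S => (a : V)) (fun a : Y => (a : V))) (pA L S) := by
    ext a b
    rcases a with a | a <;> rcases b with b | b <;> rfl
  rw [e, Matrix.det_fromBlocks₁₁, Matrix.invOf_eq_nonsing_inv]
  rfl

theorem mulVec_ext (L : Matrix V V K) (Y : Finset V) (w : Y → K) :
    L *ᵥ (fun a => if h : a ∈ Y then w ⟨a, h⟩ else 0) = pR L Y *ᵥ w := by
  funext a
  simp only [Matrix.mulVec, dotProduct]
  have h1 : ∑ x : Y, pR L Y a x * w x
      = ∑ x ∈ Y.attach, L a x * (if h : (x : V) ∈ Y then w ⟨x, h⟩ else 0) := by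
    refine Finset.sum_congr rfl fun x _ => ?_
    rw [dif_pos x.2]
    rfl
  rw [h1, Finset.sum_attach Y (fun x => L a x * (if h : x ∈ Y then w ⟨x, h⟩ else 0))]
  symm
  refine Finset.sum_subset (Finset.subset_univ Y) fun x _ hx => ?_
  rw [dif_neg hx, mul_zero]

theorem kron_lift (L : Matrix V V K) (Y : Finset V) (f : V → K) :
    ∃ f' : V → K, (∀ a, a ∉ Y → f' a = f a) ∧ L *ᵥ f' = kron L Y *ᵥ f := by
  refine ⟨f - (fun a => if h : a ∈ Y then ((pA L Y)⁻¹ *ᵥ (pC L Y *ᵥ f)) ⟨a, h⟩ else 0), ?_, ?_⟩
  · intro a ha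
    rw [Pi.sub_apply, dif_neg ha, sub_zero]
  · rw [Matrix.mulVec_sub, mulVec_ext]
    unfold kron
    rw [Matrix.sub_mulVec, Matrix.mulVec_mulVec, Matrix.mulVec_mulVec]

theorem eq_zero_of_supp (L : Matrix V V K) (Y : Finset V) (hA : (pA L Y).det ≠ 0) (f : V → K)
    (hf : ∀ a, a ∉ Y → f a = 0) (hL : ∀ a ∈ Y, (L *ᵥ f) a = 0) : f = 0 := by
  have e : f = fun a => if h : a ∈ Y then (fun x : Y => f x) ⟨a, h⟩ else 0 := by
    funext a
    by_cases h : a ∈ Y
    · rw [dif_pos h]
    · rw [dif_neg h, hf a h]
  have h0 : L *ᵥ f = pR L Y *ᵥ (fun x : Y => f x) :=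
    (congrArg (fun g => L *ᵥ g) e).trans (mulVec_ext L Y (fun x : Y => f x))
  have h1 : pA L Y *ᵥ (fun x : Y => f x) = 0 := by
    funext a
    have h2 := hL a a.2
    rw [h0] at h2
    exact h2
  have h2 := Matrix.eq_zero_of_mulVec_eq_zero hA h1
  funext a
  by_cases h : a ∈ Y
  · exact congrFun h2 ⟨a, h⟩
  · exact hf a h

theorem rank_sub_kron (L : Matrix V V K) (Y : Finset V) : (L - kron L Y).rank ≤ Y.card := by
  unfold kron
  rw [sub_sub_cancel]
  refine (Matrix.rank_mul_le_right _ _).trans ?_
  have := Matrix.rank_le_card_height (pC L Y)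
  rwa [Fintype.card_coe] at this

theorem det_pA_singleton (L : Matrix V V K) (a : V) : (pA L {a}).det = L a a := by
  have : Unique ({a} : Finset V) := ⟨⟨⟨a, Finset.mem_singleton_self a⟩⟩, fun x =>
    Subtype.ext (Finset.mem_singleton.1 x.2)⟩
  rw [Matrix.det_unique]
  have h : ((default : ({a} : Finset V)) : V) = a := Finset.mem_singleton.1 (default : ({a} : Finset V)).2
  simp only [pA, Matrix.submatrix_apply, h]

theorem det_pA_pair (L : Matrix V V K) {a b : V} (hab : a ≠ b) :
    (pA L {a, b}).det = L a a * L b b - L a b * L b a := by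
  let e : Fin 2 → ({a, b} : Finset V) := ![⟨a, by simp⟩, ⟨b, by simp⟩]
  have he : Function.Bijective e := by
    constructor
    · intro i j hij
      have h := congrArg Subtype.val hij
      fin_cases i <;> fin_cases j <;> simp [e] at h ⊢
      · exact hab h
      · exact hab h.symm
    · rintro ⟨x, hx⟩
      rcases Finset.mem_insert.1 hx with rfl | hx'
      · exact ⟨0, rfl⟩
      · rw [Finset.mem_singleton] at hx'
        subst hx'
        exact ⟨1, rfl⟩
  rw [← Matrix.det_submatrix_equiv_self (Equiv.ofBijective e he), Matrix.det_fin_two]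
  rfl

end kron

section interp

open Polynomial

/-- rational interpolation over a subfield -/
theorem interp {k0 : Type*} [Field k0] {K : Type*} [Field K] [Algebra k0 K]
    (P Q : K[X]) (hQ : Q ≠ 0) (k : ℕ) (hP : P.natDegree ≤ k) (hQk : Q.natDegree ≤ k)
    (W : Finset k0) (hW : 2 * k + 1 ≤ W.card)
    (h : ∀ w ∈ W, ∃ r : k0, P.eval (algebraMap k0 K w)
      = algebraMap k0 K r * Q.eval (algebraMap k0 K w)) :
    ∃ a b : k0[X], b ≠ 0 ∧ P * b.map (algebraMap k0 K) = a.map (algebraMap k0 K) * Q := by
  classical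
  obtain ⟨φ, hφ⟩ : ∃ φ : Module.Dual k0 K, φ Q.leadingCoeff ≠ 0 := by
    by_contra hcon
    push Not at hcon
    exact (leadingCoeff_ne_zero.2 hQ) ((Module.forall_dual_apply_eq_zero_iff k0 _).1 hcon)
  set T : K[X] → k0[X] := fun p => ∑ i ∈ Finset.range (k + 1), monomial i (φ (p.coeff i)) with hT
  have hTdeg : ∀ p, (T p).natDegree ≤ k := by
    intro p
    refine natDegree_sum_le_of_forall_le _ _ fun i hi => ?_
    refine (natDegree_monomial_le _).trans ?_
    have := Finset.mem_range.1 hi
    omega
  have hTeval : ∀ p : K[X], p.natDegree ≤ k → ∀ w : k0,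
      (T p).eval w = φ (p.eval (algebraMap k0 K w)) := by
    intro p hp w
    rw [eval_eq_sum_range' (Nat.lt_succ_of_le hp), map_sum, hT]
    simp only [eval_finsetSum, eval_monomial]
    refine Finset.sum_congr rfl fun i _ => ?_
    rw [← map_pow, mul_comm (p.coeff i), ← Algebra.smul_def, map_smul, smul_eq_mul, mul_comm]
  have hTQ : T Q ≠ 0 := by
    intro h0
    have h1 : (T Q).coeff Q.natDegree = φ Q.leadingCoeff := by
      rw [hT]
      simp only [finsetSum_coeff, coeff_monomial]
      rw [Finset.sum_eq_single Q.natDegree]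
      · rw [if_pos rfl]
        rfl
      · intro b _ hb
        rw [if_neg hb]
      · intro hn
        exact absurd (Finset.mem_range.2 (Nat.lt_succ_of_le hQk)) hn
    rw [h0, coeff_zero] at h1
    exact hφ h1.symm
  refine ⟨T P, T Q, hTQ, ?_⟩
  rw [← sub_eq_zero]
  by_contra hne
  set D := P * (T Q).map (algebraMap k0 K) - (T P).map (algebraMap k0 K) * Q with hD
  have hDdeg : D.natDegree ≤ 2 * k := by
    refine (natDegree_sub_le _ _).trans (max_le ?_ ?_)
    · refine natDegree_mul_le.trans ?_
      have h1 := hTdeg Q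
      rw [natDegree_map]
      omega
    · refine natDegree_mul_le.trans ?_
      have h1 := hTdeg P
      rw [natDegree_map]
      omega
  have hsub : W.image (algebraMap k0 K) ⊆ D.roots.toFinset := by
    intro y hy
    obtain ⟨w, hw, rfl⟩ := Finset.mem_image.1 hy
    rw [Multiset.mem_toFinset, mem_roots hne, IsRoot.def, hD, eval_sub, eval_mul, eval_mul,
      eval_map_algebraMap, eval_map_algebraMap]
    obtain ⟨r, hr⟩ := h w hw
    have e1 : (aeval (algebraMap k0 K w)) (T Q) = algebraMap k0 K ((T Q).eval w) :=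
      aeval_algebraMap_apply_eq_algebraMap_eval _ _
    have e2 : (aeval (algebraMap k0 K w)) (T P) = algebraMap k0 K ((T P).eval w) :=
      aeval_algebraMap_apply_eq_algebraMap_eval _ _
    rw [e1, e2, hTeval Q hQk w, hTeval P hP w, hr, ← Algebra.smul_def, map_smul, smul_eq_mul,
      map_mul, Algebra.smul_def]
    ring
  have h1 := Finset.card_le_card hsub
  rw [Finset.card_image_of_injective _ (algebraMap k0 K).injective] at h1
  have h2 := Multiset.toFinset_card_le D.roots
  have h3 := card_roots' D
  omega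

end interp

end Pool.Agent.Lib.MP7f2998.H45
end

section
/-!
# MP_7f2998_co : module THMF (Theorem F)
-/
namespace Pool.Agent.AOP

open Finset Matrix Polynomial Pool.Agent.Lib.MP7f2998.H45

namespace M45

set_option linter.unusedSectionVars false

variable {V : Type*} [Fintype V] [DecidableEq V]
variable {K : Type*} [Field K] [Algebra (ZMod 2) K]

theorem supp_iff (G : EG V) (v : V) : v ∈ supp G ↔ ∃ u, adj G v u = 1 := by
  simp [supp]

theorem lminor_mem_Kf (G : EG V) (z : V → K) (T : Set V) (h : ∀ c ∈ supp G, c ∈ T)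
    (S : Finset V) : lminor G z S ∈ Kf z T := by
  classical
  have h1 : lminor G z S = algebraMap (Kf z T) K (lminor G (zT z T) S) := by
    rw [map_lminor]
    refine lminor_congr G S fun c hc => ?_
    rw [algebraMap_zT z T (h c hc)]
  rw [h1]
  exact (lminor G (zT z T) S).2

theorem aeval_mem_Kf {z : V → K} {T T' : Set V} (hTT : T ⊆ T') (p : (Kf z T)[X]) {x : K}
    (hx : x ∈ Kf z T') : aeval x p ∈ Kf z T' := by
  rw [aeval_eq_sum_range]
  refine sum_mem fun i _ => ?_
  rw [Algebra.smul_def]
  exact mul_mem (Kf_mono hTT (p.coeff i).2) (pow_mem hx i)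

theorem sq_injective {z : V → K} (hz : AlgebraicIndependent (ZMod 2) z) {a b : V}
    (h : z a ^ 2 = z b ^ 2) : a = b := by
  have : CharP K 2 := charTwo_of_alg K
  have h1 : (z a + z b) ^ 2 = 0 := by
    rw [CharTwo.add_sq, h, CharTwo.add_self_eq_zero]
  exact hz.injective (CharTwo.add_eq_zero.1 (pow_eq_zero_iff (by norm_num) |>.1 h1))

/-- part (a) of Theorem F -/
theorem ratio_mem (hC : CombSpec V) {z : V → K} (hz : AlgebraicIndependent (ZMod 2) z)
    (n : ℕ) : ∀ (G : EG V) (Z Y S : Finset V) (s : V), Y.card = n → s ∈ Z → Disjoint Y Z →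
    Disjoint S Z → Disjoint Y S → (∀ a ∈ Z, a ≠ s → a ∉ supp G) → Feas G Y →
    ¬ Feas G (insert s Y) →
    lminor G z (Y ∪ S) / lminor G z Y ∈ Kf z ((Z : Set V)ᶜ) := by
  classical
  induction n with
  | zero =>
    intro G Z Y S s hn hsZ hYZ hSZ hYS hiso hf hnf
    have hY : Y = ∅ := Finset.card_eq_zero.1 hn
    subst hY
    rw [lminor_empty, div_one, Finset.empty_union]
    refine lminor_mem_Kf G z _ (fun c hc => ?_) S
    intro hcZ
    have hcZ' : c ∈ Z := hcZ
    by_cases hcs : c = s
    · subst hcs
      obtain ⟨u, hu⟩ := (supp_iff G c).1 hc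
      apply hnf
      refine hC.feas_of_contr G _ c u (Finset.mem_insert_self _ _) hu ?_
      have : (insert c (∅ : Finset V)).erase c = ∅ := by simp
      rw [this]
      exact hC.feas_empty _
    · exact hiso c hcZ' hcs hc
  | succ n ih =>
    intro G Z Y S s hn hsZ hYZ hSZ hYS hiso hf hnf
    obtain ⟨v, hvY⟩ : Y.Nonempty := Finset.card_pos.1 (by omega)
    have hvS : v ∉ S := fun h => (Finset.disjoint_left.1 hYS hvY) h
    have hvZ : v ∉ Z := fun h => (Finset.disjoint_left.1 hYZ hvY) h
    have hsv : s ≠ v := fun h => hvZ (h ▸ hsZ)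
    have hvs : v ∈ supp G := hC.feas_supp G Y hf hvY
    obtain ⟨gB, hB1, hB2, hB3⟩ := minor_poly hz G v Y hvs hvY
    obtain ⟨gA, hA1, hA2, hA3⟩ := minor_poly hz G v (Y ∪ S) hvs (Finset.mem_union_left _ hvY)
    have herase : (Y ∪ S).erase v = Y.erase v ∪ S := by
      rw [Finset.erase_union_distrib, Finset.erase_eq_of_notMem hvS]
    have hm : lminor G z Y ≠ 0 := (feas_iff_lminor hC hz G Y).1 hf
    have hgB : gB ≠ 0 := by
      rintro rfl
      have : (∏ i ∈ nb G v, (z v + z i)) * lminor G z Y = 0 := by rw [← hB2]; simp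
      exact (mul_ne_zero (prod_ne_zero_s hz G v) hm) this
    -- properties of the neighbours `i ≠ s`
    have hZ' : ∀ i ∈ nb G v, i ≠ s → i ∉ insert v Z := by
      intro i hi his h
      rcases Finset.mem_insert.1 h with rfl | h
      · exact not_mem_nb_self G _ hi
      · refine hiso i h his ((supp_iff G i).2 ⟨v, ?_⟩)
        rw [adj_comm]
        exact (mem_nb G v i).1 hi
    have key : ∀ i ∈ nb G v, i ≠ s → ∃ r : Kf z (((insert v Z : Finset V) : Set V)ᶜ),
        aeval (z i ^ 2) gA = (r : K) * aeval (z i ^ 2) gB := by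
      intro i hi his
      have hvi : v ≠ i := by
        rintro rfl
        exact not_mem_nb_self G _ hi
      have hadj : adj G v i = 1 := (mem_nb G v i).1 hi
      have hisupp : i ∈ supp G := (supp_iff G i).2 ⟨v, by rw [adj_comm]; exact hadj⟩
      by_cases h0 : aeval (z i ^ 2) gB = 0
      · refine ⟨0, ?_⟩
        rw [h0, mul_zero, hA3 i hi, herase]
        rw [hB3 i hi] at h0
        have h1 : lminor (contr v i G) z (Y.erase v) = 0 :=
          (mul_eq_zero.1 h0).resolve_left (prod_ne_zero_x hz G v i)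
        have h2 : ¬ Feas (contr v i G) (Y.erase v) := fun hf' =>
          (feas_iff_lminor hC hz _ _).1 hf' h1
        have h3 : ¬ Feas (contr v i G) (Y.erase v ∪ S) := fun hf' =>
          h2 (hC.feas_mono _ _ _ Finset.subset_union_left hf')
        have h4 : lminor (contr v i G) z (Y.erase v ∪ S) = 0 := by
          by_contra hne
          exact h3 ((feas_iff_lminor hC hz _ _).2 hne)
        rw [h4, mul_zero]
      · have h0' := h0
        rw [hB3 i hi] at h0
        have h1 : lminor (contr v i G) z (Y.erase v) ≠ 0 := right_ne_zero_of_mul h0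
        have hf' : Feas (contr v i G) (Y.erase v) := (feas_iff_lminor hC hz _ _).2 h1
        have hnf' : ¬ Feas (contr v i G) (insert s (Y.erase v)) := by
          intro hf''
          apply hnf
          refine hC.feas_of_contr G _ v i (Finset.mem_insert_of_mem hvY) hadj ?_
          rwa [Finset.erase_insert_of_ne hsv]
        have hr := ih (contr v i G) (insert v Z) (Y.erase v) S s
          (by rw [Finset.card_erase_of_mem hvY]; omega) (Finset.mem_insert_of_mem hsZ)
          (by
            rw [Finset.disjoint_left]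
            intro a ha ha'
            rcases Finset.mem_insert.1 ha' with rfl | ha'
            · exact Finset.notMem_erase _ _ ha
            · exact Finset.disjoint_left.1 hYZ (Finset.mem_of_mem_erase ha) ha')
          (by
            rw [Finset.disjoint_left]
            intro a ha ha'
            rcases Finset.mem_insert.1 ha' with rfl | ha'
            · exact hvS ha
            · exact Finset.disjoint_left.1 hSZ ha ha')
          (hYS.mono_left (Finset.erase_subset _ _))
          (by
            intro a ha has hasupp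
            rcases Finset.mem_insert.1 (hC.supp_contr G v i hvi hasupp) with rfl | h5
            · exact hZ' a hi has ha
            · rcases Finset.mem_insert.1 ha with rfl | ha
              · exact Finset.notMem_erase _ _ h5
              · exact hiso a ha has (Finset.mem_of_mem_erase h5))
          hf' hnf'
        refine ⟨⟨_, hr⟩, ?_⟩
        rw [hA3 i hi, hB3 i hi, herase]
        simp only
        field_simp
    -- interpolation
    set E0 := Kf z (((insert v Z : Finset V) : Set V)ᶜ) with hE0
    have hEF : (((insert v Z : Finset V) : Set V)ᶜ) ⊆ ((Z : Set V)ᶜ) := by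
      intro a ha haZ
      exact ha (Finset.mem_coe.2 (Finset.mem_insert_of_mem haZ))
    have hmemE : ∀ i ∈ (nb G v).erase s, z i ^ 2 ∈ E0 := by
      intro i hi
      refine pow_mem (z_mem_Kf ?_) 2
      intro h
      exact hZ' i (Finset.mem_of_mem_erase hi) (Finset.ne_of_mem_erase hi) h
    let wt : V → E0 := fun i => if h : z i ^ 2 ∈ E0 then ⟨z i ^ 2, h⟩ else 0
    have hwt : ∀ i ∈ (nb G v).erase s, algebraMap E0 K (wt i) = z i ^ 2 := by
      intro i hi
      simp only [wt]
      rw [dif_pos (hmemE i hi)]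
      rfl
    have hwinj : Set.InjOn wt ((nb G v).erase s) := by
      intro i hi j hj hij
      have := congrArg (algebraMap E0 K) hij
      rw [hwt i hi, hwt j hj] at this
      exact sq_injective hz this
    have hcard : 2 * (((nb G v).card - 2) / 2) + 1 ≤ (((nb G v).erase s).image wt).card := by
      rw [Finset.card_image_of_injOn hwinj]
      have := Finset.pred_card_le_card_erase (s := nb G v) (a := s)
      omega
    have hev : ∀ (p : (Kf z {v}ᶜ)[X]) (x : K),
        (p.map (algebraMap (Kf z {v}ᶜ) K)).eval x = aeval x p := by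
      intro p x
      rw [eval_map_algebraMap]
    obtain ⟨a, b, hb, hab⟩ := interp (k0 := E0) (gA.map (algebraMap (Kf z {v}ᶜ) K))
      (gB.map (algebraMap (Kf z {v}ᶜ) K))
      ((Polynomial.map_ne_zero_iff (algebraMap (Kf z {v}ᶜ) K).injective).2 hgB)
      (((nb G v).card - 2) / 2) (by rw [natDegree_map]; omega) (by rw [natDegree_map]; omega)
      (((nb G v).erase s).image wt) hcard (by
        intro w hw
        obtain ⟨i, hi, rfl⟩ := Finset.mem_image.1 hw
        obtain ⟨r, hr⟩ := key i (Finset.mem_of_mem_erase hi) (Finset.ne_of_mem_erase hi)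
        refine ⟨r, ?_⟩
        rw [hwt i hi, hev, hev, hr]
        rfl)
    have h5 := congrArg (eval (z v ^ 2)) hab
    rw [eval_mul, eval_mul, hev, hev, eval_map_algebraMap, eval_map_algebraMap, hA2, hB2] at h5
    have hb' : aeval (z v ^ 2) b ≠ 0 := aeval_sq_ne_zero hz (by simp) hb
    have h6 : lminor G z (Y ∪ S) / lminor G z Y = aeval (z v ^ 2) a / aeval (z v ^ 2) b := by
      rw [div_eq_div_iff hm hb']
      have hp := prod_ne_zero_s hz G v
      apply mul_left_cancel₀ hp
      rw [← mul_assoc, h5]
      ring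
    rw [h6]
    have hzv : z v ^ 2 ∈ Kf z ((Z : Set V)ᶜ) := pow_mem (z_mem_Kf (by simpa using hvZ)) 2
    exact div_mem (aeval_mem_Kf hEF a hzv) (aeval_mem_Kf hEF b hzv)

/-- contraction step: a ratio of minors that does not depend on `z v` is kept -/
theorem ratio_contr {z : V → K} (hz : AlgebraicIndependent (ZMod 2) z) (G : EG V) (v u : V)
    (Y S : Finset V) (P : K) (hP : P ∈ Kf z {v}ᶜ) (hvY : v ∈ Y) (hvS : v ∉ S)
    (huv : adj G v u = 1) (h : lminor G z (Y ∪ S) = P * lminor G z Y) :
    lminor (contr v u G) z (Y.erase v ∪ S) = P * lminor (contr v u G) z (Y.erase v) := by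
  classical
  have hvs : v ∈ supp G := (supp_iff G v).2 ⟨u, huv⟩
  have hu : u ∈ nb G v := (mem_nb G v u).2 huv
  obtain ⟨gB, hB1, hB2, hB3⟩ := minor_poly hz G v Y hvs hvY
  obtain ⟨gA, hA1, hA2, hA3⟩ := minor_poly hz G v (Y ∪ S) hvs (Finset.mem_union_left _ hvY)
  have herase : (Y ∪ S).erase v = Y.erase v ∪ S := by
    rw [Finset.erase_union_distrib, Finset.erase_eq_of_notMem hvS]
  have h1 : gA = C (⟨P, hP⟩ : Kf z {v}ᶜ) * gB := by
    rw [← sub_eq_zero]
    by_contra hne
    apply aeval_sq_ne_zero (T := {v}ᶜ) (v := v) hz (by simp) hne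
    rw [map_sub, map_mul, aeval_C, hA2, hB2, h]
    change _ - P * _ = 0
    ring
  have h2 := hA3 u hu
  rw [h1, map_mul, aeval_C, hB3 u hu, herase] at h2
  change P * _ = _ at h2
  apply mul_left_cancel₀ (prod_ne_zero_x hz G v u)
  rw [← h2]
  ring

/-- successive contraction -/
theorem exists_contraction (hC : CombSpec V) {z : V → K}
    (hz : AlgebraicIndependent (ZMod 2) z) (P : Finset V → K) (n : ℕ) :
    ∀ (G : EG V) (Y : Finset V), Y.card = n → Feas G Y → ∀ 𝒮 : Set (Finset V),
    (∀ S ∈ 𝒮, Disjoint Y S ∧ (∀ v ∈ Y, P S ∈ Kf z {v}ᶜ) ∧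
      lminor G z (Y ∪ S) = P S * lminor G z Y) →
    ∃ J : EG V, supp J ⊆ supp G \ Y ∧ ∀ S ∈ 𝒮, lminor J z S = P S := by
  induction n with
  | zero =>
    intro G Y hn hf 𝒮 h
    have hY : Y = ∅ := Finset.card_eq_zero.1 hn
    subst hY
    refine ⟨G, by simp, fun S hS => ?_⟩
    have := (h S hS).2.2
    rwa [Finset.empty_union, lminor_empty, mul_one] at this
  | succ n ih =>
    intro G Y hn hf 𝒮 h
    obtain ⟨v, hvY, u, huv, hf'⟩ := hC.feas_step G Y hf (Finset.card_pos.1 (by omega))
    have hvu : v ≠ u := by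
      rintro rfl
      rw [adj_self] at huv
      exact zero_ne_one huv
    obtain ⟨J, hJ1, hJ2⟩ := ih (contr v u G) (Y.erase v)
      (by rw [Finset.card_erase_of_mem hvY]; omega) hf' 𝒮 (by
        intro S hS
        obtain ⟨h1, h2, h3⟩ := h S hS
        have hvS : v ∉ S := Finset.disjoint_left.1 h1 hvY
        refine ⟨h1.mono_left (Finset.erase_subset _ _), fun w hw =>
          h2 w (Finset.mem_of_mem_erase hw), ?_⟩
        exact ratio_contr hz G v u Y S (P S) (h2 v hvY) hvY hvS huv h3)
    refine ⟨J, ?_, hJ2⟩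
    intro x hx
    have h1 := Finset.mem_sdiff.1 (hJ1 hx)
    rw [Finset.mem_sdiff]
    have h2 := hC.supp_contr G v u hvu h1.1
    have husupp : u ∈ supp G := (supp_iff G u).2 ⟨v, by rw [adj_comm]; exact huv⟩
    have hxv : x ≠ v := by
      rintro rfl
      exact v_not_mem_contr hvu G h1.1
    refine ⟨?_, fun hxY => h1.2 (Finset.mem_erase.2 ⟨hxv, hxY⟩)⟩
    rcases Finset.mem_insert.1 h2 with rfl | h2
    · exact husupp
    · exact Finset.mem_of_mem_erase h2

theorem lminor_eq (G : EG V) (z : V → K) (Y : Finset V) :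
    lminor G z Y = (pA (Lm G z) Y).det := rfl

theorem Lm_symm' (G : EG V) (z : V → K) (a b : V) : Lm G z a b = Lm G z b a := by
  unfold Lm
  by_cases hab : a = b
  · subst hab; rfl
  · rw [if_neg hab, if_neg (Ne.symm hab), adj_comm, add_comm (z a)]

theorem Lm_add' (G H : EG V) (z : V → K) : Lm (G + H) z = Lm G z + Lm H z := by
  ext a b
  rw [Matrix.add_apply]
  unfold Lm
  by_cases hab : a = b
  · simp only [if_pos hab, ← Finset.sum_add_distrib, add_adj, bit_add, add_div]
  · simp only [if_neg hab, add_adj, bit_add, add_div]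

theorem Lm_col_zero (G : EG V) (z : V → K) {b : V} (hb : b ∉ supp G) (a : V) :
    Lm G z a b = 0 := by
  rw [Lm_symm']
  exact Lm_row_zero G z hb a

end M45

open M45 in
/-- Theorem F -/
theorem thmFSpec {V : Type*} [Fintype V] [DecidableEq V] {K : Type*} [Field K]
    [Algebra (ZMod 2) K] (hC : CombSpec V) {z : V → K}
    (hz : AlgebraicIndependent (ZMod 2) z) (hR : RankSpec z) : ThmFSpec z := by
  classical
  intro G X hXG hXne hXnf hXf
  have hchar : CharP K 2 := charTwo_of_alg K
  set L := Lm G z with hL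
  have hLs : ∀ a b, L a b = L b a := Lm_symm' G z
  have hdet : ∀ v ∈ X, (pA L (X.erase v)).det ≠ 0 := fun v hv =>
    (feas_iff_lminor hC hz G _).1 (hXf v hv)
  have hnf : ∀ T : Finset V, X ⊆ T → (pA L T).det = 0 := by
    intro T hT
    by_contra hne
    exact hXnf (hC.feas_mono G X T hT ((feas_iff_lminor hC hz G T).2 hne))
  -- row `v` of the Kron reduction with respect to `X - v` is zero
  have hrow : ∀ v ∈ X, ∀ a, kron L (X.erase v) v a = 0 := by
    intro v hv a
    have hA := hdet v hv
    by_cases ha : a ∈ X.erase v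
    · exact kron_right L _ hA ha v
    · have h1 : (pA (kron L (X.erase v)) {v}).det = 0 := by
        have := det_union L (X.erase v) {v} (by simp) hA
        rw [hnf _ (by
          intro x hx
          by_cases hxv : x = v
          · simp [hxv]
          · simp [hxv, hx])] at this
        exact (mul_eq_zero.1 this.symm).resolve_left hA
      rw [det_pA_singleton] at h1
      by_cases hav : a = v
      · rw [hav]; exact h1
      · have h2 : (pA (kron L (X.erase v)) {v, a}).det = 0 := by
          have hd : Disjoint (X.erase v) {v, a} := by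
            rw [Finset.disjoint_left]
            intro x hx hx'
            rcases Finset.mem_insert.1 hx' with rfl | hx'
            · exact Finset.notMem_erase _ _ hx
            · rw [Finset.mem_singleton] at hx'
              exact ha (hx' ▸ hx)
          have := det_union L (X.erase v) {v, a} hd hA
          rw [hnf _ (by
            intro x hx
            by_cases hxv : x = v
            · simp [hxv]
            · simp [hxv, hx])] at this
          exact (mul_eq_zero.1 this.symm).resolve_left hA
        rw [det_pA_pair _ (Ne.symm hav), h1, zero_mul, zero_sub, neg_eq_zero,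
          kron_symm L hLs _ a v] at h2
        exact mul_self_eq_zero.1 h2
  obtain ⟨s, hs⟩ := hXne
  set M := kron L (X.erase s) with hM
  have hMrowX : ∀ v ∈ X, ∀ a ∈ X, ∀ b, kron L (X.erase v) a b = 0 := by
    intro v hv a ha b
    by_cases hav : a = v
    · rw [hav]; exact hrow v hv b
    · exact kron_left L _ (hdet v hv) (Finset.mem_erase.2 ⟨hav, ha⟩) b
  -- the kernel vector
  obtain ⟨h, hh1, hh2⟩ := kron_lift L (X.erase s) (Pi.single s 1)
  have hh3 : L *ᵥ h = 0 := by
    rw [hh2]
    funext a
    rw [Matrix.mulVec_single_one, Matrix.col_apply, kron_symm L hLs, hrow s hs a]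
    rfl
  have hhs : h s = 1 := by
    rw [hh1 s (Finset.notMem_erase _ _), Pi.single_eq_same]
  have hhX : ∀ a, a ∉ X → h a = 0 := by
    intro a ha
    rw [hh1 a (fun h' => ha (Finset.mem_of_mem_erase h')), Pi.single_eq_of_ne]
    rintro rfl
    exact ha hs
  have hhne : ∀ v ∈ X, h v ≠ 0 := by
    intro v hv hv0
    have : h = 0 := by
      refine eq_zero_of_supp L (X.erase v) (hdet v hv) h (fun a ha => ?_) (fun a _ => ?_)
      · by_cases hav : a = v
        · rw [hav]; exact hv0
        · exact hhX a (fun h' => ha (Finset.mem_erase.2 ⟨hav, h'⟩))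
      · rw [hh3]; rfl
    rw [this] at hhs
    exact zero_ne_one hhs
  -- the Kron reduction does not depend on `v ∈ X`
  have hMv : ∀ v ∈ X, kron L (X.erase v) = M := by
    intro v hv
    have hmul : ∀ f, kron L (X.erase v) *ᵥ f = M *ᵥ f := by
      intro f
      obtain ⟨f1, hf1, hf1'⟩ := kron_lift L (X.erase s) f
      obtain ⟨f2, hf2, hf2'⟩ := kron_lift L (X.erase v) f
      set f3 := f1 + ((f v - f1 v) / h v) • h with hf3
      have e1 : L *ᵥ f3 = M *ᵥ f := by
        rw [hf3, Matrix.mulVec_add, Matrix.mulVec_smul, hh3, smul_zero, add_zero, hf1']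
      have e2 : f3 - f2 = 0 := by
        refine eq_zero_of_supp L (X.erase v) (hdet v hv) _ (fun a ha => ?_) (fun a ha => ?_)
        · rw [Pi.sub_apply, hf2 a ha, hf3, Pi.add_apply, Pi.smul_apply, smul_eq_mul]
          by_cases hav : a = v
          · rw [hav, div_mul_cancel₀ _ (hhne v hv)]
            ring
          · have haX : a ∉ X := fun h' => ha (Finset.mem_erase.2 ⟨hav, h'⟩)
            rw [hhX a haX, mul_zero, add_zero,
              hf1 a (fun h' => haX (Finset.mem_of_mem_erase h')), sub_self]
        · have haX : a ∈ X := Finset.mem_of_mem_erase ha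
          rw [Matrix.mulVec_sub, e1, hf2', Pi.sub_apply]
          have z1 : (M *ᵥ f) a = 0 := by
            simp only [Matrix.mulVec, dotProduct]
            exact Finset.sum_eq_zero fun b _ => by rw [hM, hMrowX s hs a haX b, zero_mul]
          have z2 : (kron L (X.erase v) *ᵥ f) a = 0 := by
            simp only [Matrix.mulVec, dotProduct]
            exact Finset.sum_eq_zero fun b _ => by rw [hMrowX v hv a haX b, zero_mul]
          rw [z1, z2, sub_self]
      rw [← hf2', ← e1, sub_eq_zero.1 e2]
    ext a b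
    have := congrFun (hmul (Pi.single b 1)) a
    rw [Matrix.mulVec_single_one, Matrix.mulVec_single_one] at this
    exact this
  -- the ratios
  set P : Finset V → K := fun S => (pA M S).det with hP
  have hPS : ∀ S : Finset V, Disjoint X S → ∀ v ∈ X,
      lminor G z (X.erase v ∪ S) = P S * lminor G z (X.erase v) := by
    intro S hS v hv
    rw [lminor_eq, lminor_eq, ← hL, det_union L (X.erase v) S
      (hS.mono_left (Finset.erase_subset _ _)) (hdet v hv), hMv v hv, mul_comm]
  have hPmem : ∀ S : Finset V, Disjoint X S → ∀ v ∈ X, P S ∈ Kf z {v}ᶜ := by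
    intro S hS v hv
    have h1 := ratio_mem hC hz _ G {v} (X.erase v) S v rfl (Finset.mem_singleton_self v)
      (by simp) (by
        rw [Finset.disjoint_singleton_right]
        exact fun h' => Finset.disjoint_left.1 hS hv h')
      (hS.mono_left (Finset.erase_subset _ _))
      (by
        intro a ha hav
        exact absurd (Finset.mem_singleton.1 ha) hav)
      (hXf v hv) (by rwa [Finset.insert_erase hv])
    have h2 : lminor G z (X.erase v ∪ S) / lminor G z (X.erase v) = P S := by
      have hne : lminor G z (X.erase v) ≠ 0 := hdet v hv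
      rw [hPS S hS v hv, mul_div_assoc, div_self hne, mul_one]
    rw [h2] at h1
    simpa using h1
  obtain ⟨J, hJ1, hJ2⟩ := exists_contraction hC hz P _ G (X.erase s) rfl (hXf s hs)
    {S | Disjoint X S} (fun S hS => ⟨hS.mono_left (Finset.erase_subset _ _), fun v hv =>
      hPmem S hS v (Finset.mem_of_mem_erase hv), hPS S hS s hs⟩)
  have hJ2' : ∀ S : Finset V, Disjoint X S → (pA (Lm J z) S).det = (pA M S).det :=
    fun S hS => hJ2 S hS
  -- `s` is isolated in `J`
  have hsJ : s ∉ supp J := by
    intro hsJ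
    obtain ⟨a, ha⟩ := (supp_iff J s).1 hsJ
    have has : a ≠ s := by
      rintro rfl
      rw [adj_self] at ha
      exact zero_ne_one ha
    have haJ : a ∈ supp J := (supp_iff J a).2 ⟨s, by rw [adj_comm]; exact ha⟩
    have haX : a ∉ X := fun h' =>
      (Finset.mem_sdiff.1 (hJ1 haJ)).2 (Finset.mem_erase.2 ⟨has, h'⟩)
    have hd : Disjoint X {a} := by simpa using haX
    have h1 : Lm J z a a ∈ Kf z {s}ᶜ := by
      rw [← det_pA_singleton (Lm J z) a, hJ2' _ hd]
      exact hPmem _ hd s hs
    have h2 : Lm J z a a = 1 / (z a + z s)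
        + ∑ c ∈ univ.erase s, (bit (adj J a c) : K) / (z a + z c) := by
      unfold Lm
      rw [if_pos rfl, ← Finset.add_sum_erase _ _ (Finset.mem_univ s), adj_comm, ha, bit_one]
    have h3 : ∑ c ∈ univ.erase s, (bit (adj J a c) : K) / (z a + z c) ∈ Kf z {s}ᶜ := by
      refine sum_mem fun c hc => ?_
      refine div_mem (bit_mem_Kf _) (add_mem (z_mem_Kf ?_) (z_mem_Kf ?_))
      · simpa using has
      · simpa using Finset.ne_of_mem_erase hc
    have h4 : 1 / (z a + z s) ∈ Kf z {s}ᶜ := by
      have : 1 / (z a + z s) = Lm J z a a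
          - ∑ c ∈ univ.erase s, (bit (adj J a c) : K) / (z a + z c) := by
        rw [h2]; ring
      rw [this]
      exact sub_mem h1 h3
    have h5 : z s ∈ Kf z {s}ᶜ := by
      have h6 : z s = (1 / (z a + z s))⁻¹ - z a := by
        rw [one_div, inv_inv]; ring
      rw [h6]
      exact sub_mem (inv_mem h4) (z_mem_Kf (by simpa using has))
    have h6 : Transcendental (Kf z {s}ᶜ) (z s) := trans_Kf hz (by simp)
    exact h6 (isAlgebraic_algebraMap (⟨z s, h5⟩ : Kf z {s}ᶜ))
  have hJX : supp J ⊆ supp G \ X := by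
    intro x hx
    have h1 := Finset.mem_sdiff.1 (hJ1 hx)
    refine Finset.mem_sdiff.2 ⟨h1.1, fun hxX => h1.2 (Finset.mem_erase.2 ⟨?_, hxX⟩)⟩
    rintro rfl
    exact hsJ hx
  have hXJ : ∀ a ∈ X, a ∉ supp J := fun a ha h' => (Finset.mem_sdiff.1 (hJX h')).2 ha
  -- the Kron reduction is the Laplacian of `J`
  have hdiag : ∀ a, a ∉ X → M a a = Lm J z a a := by
    intro a ha
    have := hJ2' {a} (by simpa using ha)
    rw [det_pA_singleton, det_pA_singleton] at this
    exact this.symm
  have hMJ : M = Lm J z := by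
    ext a b
    by_cases haX : a ∈ X
    · rw [Lm_row_zero J z (hXJ a haX)]
      exact hMrowX s hs a haX b
    · by_cases hbX : b ∈ X
      · rw [Lm_col_zero J z (hXJ b hbX), hM, kron_symm L hLs]
        exact hMrowX s hs b hbX a
      · by_cases hab : a = b
        · rw [hab]; exact hdiag b hbX
        · have hd : Disjoint X {a, b} := by
            rw [Finset.disjoint_left]
            intro x hx hx'
            rcases Finset.mem_insert.1 hx' with rfl | hx'
            · exact haX hx
            · rw [Finset.mem_singleton] at hx'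
              exact hbX (hx' ▸ hx)
          have h1 := hJ2' {a, b} hd
          rw [det_pA_pair _ hab, det_pA_pair _ hab, hdiag a haX, hdiag b hbX,
            sub_right_inj, Lm_symm' J z b a, hM, kron_symm L hLs _ b a, ← hM] at h1
          have h2 : (M a b + Lm J z a b) * (M a b + Lm J z a b) = 0 := by
            rw [CharTwo.add_mul_self, h1, CharTwo.add_self_eq_zero]
          exact CharTwo.add_eq_zero.1 (mul_self_eq_zero.1 h2)
  have hXcard : (X.erase s).card + 1 = X.card := Finset.card_erase_add_one hs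
  have hrk : (L - M).rank ≤ (X.erase s).card := rank_sub_kron L _
  have hGJ : Lm (G + J) z = L - M := by
    rw [Lm_add', ← hL, ← hMJ]
    ext a b
    rw [Matrix.add_apply, Matrix.sub_apply, CharTwo.sub_eq_add]
  have hle1 : tau (G + J) ≤ (X.erase s).card := by
    rw [← hR.rank_eq, hGJ]
    exact hrk
  have hge : tau G ≤ tau (G + J) + tau J := by
    have := hC.tau_add_le (G + J) J
    rwa [add_assoc, EG_add_self, add_zero] at this
  have hle2 : tau J + (X.erase s).card ≤ tau G := by
    obtain ⟨Y, hY, hYc⟩ := hC.exists_feas J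
    have hYJ : Y ⊆ supp J := hC.feas_supp J Y hY
    have hd : Disjoint X Y := by
      rw [Finset.disjoint_left]
      intro x hx hx'
      exact hXJ x hx (hYJ hx')
    have hd' : Disjoint (X.erase s) Y := hd.mono_left (Finset.erase_subset _ _)
    have h1 : lminor J z Y ≠ 0 := (feas_iff_lminor hC hz J Y).1 hY
    have h2 : lminor G z (X.erase s ∪ Y) ≠ 0 := by
      rw [hPS Y hd s hs, ← hJ2 Y hd]
      exact mul_ne_zero h1 (hdet s hs)
    have h3 := hC.card_le_tau G _ ((feas_iff_lminor hC hz G _).2 h2)
    rw [Finset.card_union_of_disjoint hd', hYc] at h3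
    omega
  refine ⟨J, ?_, hJX, ?_, ?_⟩
  · unfold Tight
    omega
  · omega
  · intro H hH hK f hf
    rw [← hMJ] at hf
    obtain ⟨f', hf1, hf2⟩ := kron_lift L (X.erase s) f
    rw [← hM, hf] at hf2
    have h1 := hK f' hf2
    rw [← h1]
    funext a
    simp only [Matrix.mulVec, dotProduct]
    refine Finset.sum_congr rfl fun b _ => ?_
    by_cases hb : b ∈ supp H
    · rw [hf1 b (fun h' => (Finset.mem_sdiff.1 (hH hb)).2 (Finset.mem_of_mem_erase h'))]
    · rw [Lm_col_zero H z hb, zero_mul, zero_mul]

end Pool.Agent.AOP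
end
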