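import Mathlib
import Pool.Agent.Lib.MP_7f2998_co.Rank
import Pool.Agent.Lib.MP_7f2998_co.Unq
import Pool.Agent.Lib.MP_7f2998_co.Main
import Pool.Agent.Lib.MP_7f2998_co.ThmF
import Pool.Agent.Lib.MP_7f2998_co.Main5
import Pool.Agent.Lib.MP_7f2998_co.Final3

section
/-!
# Module LIN: pure linear algebra of the below relation for symmetric matrices
-/
namespace Pool.Agent.AOP.Lin

open Finset Matrix Module

set_option linter.unusedSectionVars false
set_option linter.unusedVariables false

variable {V : Type*} [Fintype V] {K : Type*} [Field K]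

/-- rank-additive summand -/
def Below (A B : Matrix V V K) : Prop := (A - B).rank + B.rank = A.rank

theorem range_add_le (P B : Matrix V V K) : LinearMap.range (P + B).mulVecLin ≤
    LinearMap.range P.mulVecLin ⊔ LinearMap.range B.mulVecLin := by
  rintro _ ⟨x, rfl⟩
  rw [Matrix.mulVecLin_add]
  exact Submodule.add_mem_sup ⟨x, rfl⟩ ⟨x, rfl⟩

theorem rank_add_le (P B : Matrix V V K) : (P + B).rank ≤ P.rank + B.rank :=
  (Submodule.finrank_mono (range_add_le P B)).trans
    (Submodule.finrank_add_le_finrank_add_finrank _ _)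

theorem rank_le_sub_add (A B : Matrix V V K) : A.rank ≤ (A - B).rank + B.rank := by
  have := rank_add_le (A - B) B
  rwa [sub_add_cancel] at this

theorem mem_range_iff (A : Matrix V V K) (y : V → K) :
    y ∈ LinearMap.range A.mulVecLin ↔ ∃ x, A *ᵥ x = y := by
  constructor
  · rintro ⟨x, hx⟩; exact ⟨x, hx⟩
  · rintro ⟨x, hx⟩; exact ⟨x, hx⟩

/-- the two ranges meet trivially -/
theorem Below.disj {A B : Matrix V V K} (h : Below A B) {x y : V → K}
    (hxy : (A - B) *ᵥ x = B *ᵥ y) : B *ᵥ y = 0 := by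
  have h1 := Submodule.finrank_sup_add_finrank_inf_eq (LinearMap.range (A - B).mulVecLin)
    (LinearMap.range B.mulVecLin)
  have h2 := Submodule.finrank_mono (range_add_le (A - B) B)
  rw [sub_add_cancel] at h2
  have h3 : finrank K ↥(LinearMap.range (A - B).mulVecLin ⊓ LinearMap.range B.mulVecLin) = 0 := by
    unfold Below Matrix.rank at h
    omega
  have h4 := Submodule.finrank_eq_zero.1 h3
  have h5 : B *ᵥ y ∈ LinearMap.range (A - B).mulVecLin ⊓ LinearMap.range B.mulVecLin :=
    ⟨⟨x, hxy⟩, ⟨y, rfl⟩⟩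
  rw [h4] at h5
  exact (Submodule.mem_bot K).1 h5

/-- (1a) -/
theorem Below.ker {A B : Matrix V V K} (h : Below A B) (f : V → K) (hf : A *ᵥ f = 0) :
    B *ᵥ f = 0 := by
  have : (A - B) *ᵥ f = B *ᵥ (-f) := by
    rw [sub_mulVec, hf, zero_sub, mulVec_neg]
  have h2 := h.disj this
  rw [mulVec_neg, neg_eq_zero] at h2
  exact h2

/-- (1b) -/
theorem Below.eq_of {A B : Matrix V V K} (h : Below A B) {g x : V → K}
    (hg : A *ᵥ g = B *ᵥ x) : B *ᵥ g = B *ᵥ x := by
  have : (A - B) *ᵥ g = B *ᵥ (x - g) := by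
    rw [sub_mulVec, hg, mulVec_sub]
  have h2 := h.disj this
  rw [mulVec_sub, sub_eq_zero] at h2
  exact h2.symm

theorem Below.compl {A B : Matrix V V K} (h : Below A B) : Below A (A - B) := by
  unfold Below at h ⊢
  rw [sub_sub_cancel, add_comm]
  exact h

theorem Below.rank_le {A B : Matrix V V K} (h : Below A B) : B.rank ≤ A.rank := by
  unfold Below at h; omega

/-- (3) -/
theorem Below.trans {A B C : Matrix V V K} (h : Below A B) (h' : Below B C) : Below A C := by
  unfold Below at h h' ⊢
  have h1 := rank_add_le (A - B) (B - C)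
  rw [sub_add_sub_cancel] at h1
  have h2 := rank_le_sub_add A C
  omega

theorem finrank_ker_add (L : Matrix V V K) :
    finrank K (LinearMap.ker L.mulVecLin) + L.rank = Fintype.card V := by
  have h := LinearMap.finrank_range_add_finrank_ker L.mulVecLin
  rw [Module.finrank_fintype_fun_eq_card] at h
  rw [← h, add_comm]
  rfl

theorem rank_le_of_ker {A B : Matrix V V K} (h : ∀ f, A *ᵥ f = 0 → B *ᵥ f = 0) :
    B.rank ≤ A.rank := by
  have h1 : LinearMap.ker A.mulVecLin ≤ LinearMap.ker B.mulVecLin := by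
    intro f hf
    rw [LinearMap.mem_ker] at hf ⊢
    exact h f hf
  have h2 := Submodule.finrank_mono h1
  have h3 := finrank_ker_add A
  have h4 := finrank_ker_add B
  omega

section symm

/-- dot product on functions -/
theorem dot_symm {A : Matrix V V K} (hA : ∀ a b, A a b = A b a) (f g : V → K) :
    ∑ a, f a * (A *ᵥ g) a = ∑ a, (A *ᵥ f) a * g a := by
  simp only [Matrix.mulVec, dotProduct, Finset.mul_sum, Finset.sum_mul]
  rw [Finset.sum_comm]
  refine Finset.sum_congr rfl fun a _ => Finset.sum_congr rfl fun b _ => ?_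
  rw [hA b a]; ring

/-- A functional that kills the kernel of a symmetric matrix is in the range. -/
theorem mem_range_of_vanish {A : Matrix V V K} (hA : ∀ a b, A a b = A b a) (w : V → K)
    (hw : ∀ f : V → K, A *ᵥ f = 0 → ∑ a, w a * f a = 0) : ∃ x, A *ᵥ x = w := by
  classical
  by_contra hne
  have hne' : w ∉ LinearMap.range A.mulVecLin := fun h => hne ((mem_range_iff A w).1 h)
  obtain ⟨φ, hφ1, hφ2⟩ := Submodule.exists_le_ker_of_notMem hne'
  apply hφ1
  have hφc : ∀ e : V → K, φ e = ∑ j, φ (Pi.single j 1) * e j := by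
    intro e
    conv_lhs => rw [LinearMap.pi_apply_eq_sum_univ φ e]
    refine Finset.sum_congr rfl fun j _ => ?_
    rw [smul_eq_mul, mul_comm]
    congr 2
    funext i
    simp [Pi.single_apply, eq_comm]
  have h1 : A *ᵥ (fun j => φ (Pi.single j 1)) = 0 := by
    have h2 : ∀ x : V → K, ∑ j, φ (Pi.single j 1) * (A *ᵥ x) j = 0 := by
      intro x
      rw [← hφc]
      have := hφ2 ⟨x, rfl⟩
      rwa [LinearMap.mem_ker] at this
    funext a
    have h3 := h2 (Pi.single a 1)
    rw [dot_symm hA] at h3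
    simpa [Pi.single_apply] using h3
  have h4 := hw _ h1
  rw [hφc, ← h4]
  exact Finset.sum_congr rfl fun j _ => mul_comm _ _

/-- if `ker A ⊆ ker B` and both are symmetric then `range B ⊆ range A` -/
theorem exists_of_ker {A B : Matrix V V K} (hA : ∀ a b, A a b = A b a)
    (hB : ∀ a b, B a b = B b a) (h : ∀ f, A *ᵥ f = 0 → B *ᵥ f = 0) (x : V → K) :
    ∃ g, A *ᵥ g = B *ᵥ x := by
  refine mem_range_of_vanish hA _ fun f hf => ?_
  have h1 : ∑ a, (B *ᵥ x) a * f a = ∑ a, x a * (B *ᵥ f) a := (dot_symm hB x f).symm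
  rw [h1, h f hf]
  simp

/-- (2) -/
theorem below_of {A B : Matrix V V K} (hA : ∀ a b, A a b = A b a)
    (hB : ∀ a b, B a b = B b a) (h : ∀ f, A *ᵥ f = 0 → B *ᵥ f = 0)
    (h' : ∀ g x, A *ᵥ g = B *ᵥ x → B *ᵥ g = B *ᵥ x) : Below A B := by
  have hdis : LinearMap.range (A - B).mulVecLin ⊓ LinearMap.range B.mulVecLin = ⊥ := by
    rw [Submodule.eq_bot_iff]
    rintro _ ⟨⟨y, hy⟩, ⟨x, hx⟩⟩
    have hy' : (A - B) *ᵥ y = B *ᵥ x := hy.trans hx.symm
    have h1 : A *ᵥ y = B *ᵥ (x + y) := by
      rw [mulVec_add, ← hy', sub_mulVec, sub_add_cancel]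
    have h2 := h' _ _ h1
    rw [mulVec_add] at h2
    have h3 : B *ᵥ x = 0 := by
      have := congrArg (fun v => v - B *ᵥ y) h2
      simpa using this.symm
    rw [← hx]
    exact h3
  have hsup : LinearMap.range (A - B).mulVecLin ⊔ LinearMap.range B.mulVecLin ≤
      LinearMap.range A.mulVecLin := by
    have hBA : LinearMap.range B.mulVecLin ≤ LinearMap.range A.mulVecLin := by
      rintro _ ⟨x, rfl⟩
      obtain ⟨g, hg⟩ := exists_of_ker hA hB h x
      exact ⟨g, hg⟩
    refine sup_le ?_ hBA
    rintro _ ⟨x, rfl⟩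
    have : (A - B).mulVecLin x = A.mulVecLin x - B.mulVecLin x := by
      simp
    rw [this]
    exact Submodule.sub_mem _ ⟨x, rfl⟩ (hBA ⟨x, rfl⟩)
  have h1 := Submodule.finrank_sup_add_finrank_inf_eq (LinearMap.range (A - B).mulVecLin)
    (LinearMap.range B.mulVecLin)
  rw [hdis, finrank_bot, add_zero] at h1
  have h2 := Submodule.finrank_mono hsup
  have h3 := rank_le_sub_add A B
  unfold Below
  unfold Matrix.rank at h3 ⊢
  omega

/-- (5) -/
theorem Below.sub {A B C : Matrix V V K} (hA : ∀ a b, A a b = A b a)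
    (hBs : ∀ a b, B a b = B b a) (hCs : ∀ a b, C a b = C b a)
    (hB : Below A B) (hC : Below A C) (h : ∀ f, B *ᵥ f = 0 → C *ᵥ f = 0) : Below B C := by
  refine below_of hBs hCs h fun g x hg => ?_
  obtain ⟨g', hg'⟩ := exists_of_ker hA hCs hC.ker x
  have h1 : C *ᵥ g' = C *ᵥ x := hC.eq_of hg'
  have h2 : B *ᵥ g' = B *ᵥ g := hB.eq_of (hg'.trans hg.symm)
  have h3 : B *ᵥ (g' - g) = 0 := by rw [mulVec_sub, h2, sub_self]
  have h4 := h _ h3
  rw [mulVec_sub, sub_eq_zero] at h4
  rw [← h4, h1]

/-- (4) -/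
theorem Below.orth {A B C : Matrix V V K} (hA : ∀ a b, A a b = A b a)
    (hBs : ∀ a b, B a b = B b a) (hCs : ∀ a b, C a b = C b a)
    (hB : Below A B) (hC : Below A C) (h : ∀ f, (A - B) *ᵥ f = 0 → C *ᵥ f = 0) :
    Below (A - B) C :=
  Below.sub hA (fun a b => by simp only [Matrix.sub_apply, hA a b, hBs a b]) hCs hB.compl hC h

/-- (6) -/
theorem Below.direct {A B : Matrix V V K} (hA : ∀ a b, A a b = A b a)
    (hBs : ∀ a b, B a b = B b a) (hB : Below A B) (h : ∀ f, (A - B) *ᵥ f = 0 → B *ᵥ f = 0) :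
    B = 0 := by
  classical
  have hP : ∀ a b, (A - B) a b = (A - B) b a := fun a b => by
    simp only [Matrix.sub_apply, hA a b, hBs a b]
  have h1 : ∀ x, B *ᵥ x = 0 := fun x => by
    obtain ⟨g, hg⟩ := exists_of_ker hP hBs h x
    exact hB.disj hg
  ext a b
  have := congrFun (h1 (Pi.single b 1)) a
  simpa using this

end symm

section minors

variable [DecidableEq V]

/-- principal minor -/
def pm (A : Matrix V V K) (Y : Finset V) : K :=
  (A.submatrix (fun a : Y => (a : V)) (fun a : Y => (a : V))).det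

/-- the coordinates in `S` are linearly independent on the kernel of `A` -/
def IndepOn (A : Matrix V V K) (S : Finset V) : Prop :=
  ∀ w : V → K, (∀ a, a ∉ S → w a = 0) →
    (∀ f : V → K, A *ᵥ f = 0 → ∑ a, w a * f a = 0) → w = 0

/-- the coordinates outside `Y` separate the kernel of `A` -/
def Sep (A : Matrix V V K) (Y : Finset V) : Prop :=
  ∀ f : V → K, A *ᵥ f = 0 → (∀ a, a ∉ Y → f a = 0) → f = 0

/-- extension by zero -/
def ext0 (Y : Finset V) (g : Y → K) : V → K := fun a => if h : a ∈ Y then g ⟨a, h⟩ else 0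

theorem ext0_not_mem {Y : Finset V} (g : Y → K) {a : V} (h : a ∉ Y) : ext0 Y g a = 0 := by
  simp [ext0, h]

theorem ext0_mem {Y : Finset V} (g : Y → K) (a : Y) : ext0 Y g a = g a := by
  simp [ext0]

theorem sum_ext0 (Y : Finset V) (c : V → K) (f : V → K) (hf : ∀ a, a ∉ Y → f a = 0) :
    ∑ a, c a * f a = ∑ a : Y, c a * f a := by
  rw [← Finset.sum_subset (Finset.subset_univ Y)
    (fun a _ ha => by rw [hf a ha, mul_zero])]
  exact (Finset.sum_coe_sort Y (fun a => c a * f a)).symm

theorem sub_mulVec_apply (A : Matrix V V K) (Y : Finset V) (f : V → K)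
    (hf : ∀ a, a ∉ Y → f a = 0) (b : Y) :
    ((A.submatrix (fun a : Y => (a : V)) (fun a : Y => (a : V))) *ᵥ (fun a : Y => f a)) b
      = (A *ᵥ f) b := by
  simp only [Matrix.mulVec, dotProduct, Matrix.submatrix_apply]
  exact (sum_ext0 Y (fun a => A b a) f hf).symm

theorem sep_of_pm {A : Matrix V V K} {Y : Finset V} (h : pm A Y ≠ 0) : Sep A Y := by
  intro f hf hY
  have h1 := Matrix.eq_zero_of_mulVec_eq_zero (M := A.submatrix (fun a : Y => (a : V))
    (fun a : Y => (a : V))) h (v := fun a : Y => f a) (by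
      funext b
      rw [sub_mulVec_apply A Y f hY b, hf]; rfl)
  funext a
  by_cases ha : a ∈ Y
  · exact congrFun h1 ⟨a, ha⟩
  · exact hY a ha

/-- the map `g ↦ A (ext0 g)` into the range -/
noncomputable def colMap (A : Matrix V V K) (Y : Finset V) :
    (Y → K) →ₗ[K] LinearMap.range A.mulVecLin where
  toFun g := ⟨A *ᵥ ext0 Y g, ⟨ext0 Y g, rfl⟩⟩
  map_add' g h := by
    apply Subtype.ext
    have : ext0 Y (g + h) = ext0 Y g + ext0 Y h := by
      funext a
      by_cases ha : a ∈ Y <;> simp [ext0, ha]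
    simp [this, mulVec_add]
  map_smul' c g := by
    apply Subtype.ext
    have : ext0 Y (c • g) = c • ext0 Y g := by
      funext a
      by_cases ha : a ∈ Y <;> simp [ext0, ha]
    simp [this, mulVec_smul]

theorem colMap_apply (A : Matrix V V K) (Y : Finset V) (g : Y → K) :
    (colMap A Y g : V → K) = A *ᵥ ext0 Y g := rfl

theorem colMap_inj {A : Matrix V V K} {Y : Finset V} (h : Sep A Y) :
    Function.Injective (colMap A Y) := by
  rw [← LinearMap.ker_eq_bot, LinearMap.ker_eq_bot']
  intro g hg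
  have h1 : A *ᵥ ext0 Y g = 0 := by
    rw [← colMap_apply, hg]; rfl
  have h2 := h _ h1 (fun a ha => ext0_not_mem g ha)
  funext a
  rw [← ext0_mem g a, h2]; rfl

theorem card_le_of_sep {A : Matrix V V K} {Y : Finset V} (h : Sep A Y) : Y.card ≤ A.rank := by
  have := LinearMap.finrank_le_finrank_of_injective (colMap_inj h)
  rw [Module.finrank_fintype_fun_eq_card, Fintype.card_coe] at this
  exact this

theorem pm_of_sep {A : Matrix V V K} (hA : ∀ a b, A a b = A b a) {Y : Finset V}
    (h : Sep A Y) (hc : Y.card = A.rank) : pm A Y ≠ 0 := by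
  have hsurj : Function.Surjective (colMap A Y) := by
    rw [← LinearMap.injective_iff_surjective_of_finrank_eq_finrank]
    · exact colMap_inj h
    · rw [Module.finrank_fintype_fun_eq_card, Fintype.card_coe, hc]
      rfl
  intro h0
  obtain ⟨g, hg0, hg⟩ := Matrix.exists_mulVec_eq_zero_iff.2 h0
  apply hg0
  have hY : ∀ b : Y, (A *ᵥ ext0 Y g) b = 0 := fun b => by
    rw [← sub_mulVec_apply A Y _ (fun a ha => ext0_not_mem g ha) b]
    have : (fun a : Y => ext0 Y g a) = g := funext fun a => ext0_mem g a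
    rw [this, hg]; rfl
  have hz : A *ᵥ ext0 Y g = 0 := by
    funext a
    obtain ⟨g', hg'⟩ := hsurj ⟨A *ᵥ Pi.single a 1, ⟨Pi.single a 1, rfl⟩⟩
    have hg'' : A *ᵥ ext0 Y g' = A *ᵥ Pi.single a 1 := congrArg Subtype.val hg'
    have h1 : (A *ᵥ ext0 Y g) a = ∑ b, (Pi.single a 1 : V → K) b * (A *ᵥ ext0 Y g) b := by
      simp [Pi.single_apply]
    rw [h1, dot_symm hA, ← hg'', ← dot_symm hA]
    refine Finset.sum_eq_zero fun b _ => ?_
    by_cases hb : b ∈ Y
    · rw [hY ⟨b, hb⟩, mul_zero]
    · rw [ext0_not_mem g' hb, zero_mul]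
  have h2 := h _ hz (fun a ha => ext0_not_mem g ha)
  funext a
  rw [← ext0_mem g a, h2]; rfl

/-- restriction of the kernel to the coordinates in `S` -/
noncomputable def resMap (A : Matrix V V K) (S : Finset V) :
    LinearMap.ker A.mulVecLin →ₗ[K] (S → K) where
  toFun f := fun s => (f : V → K) s
  map_add' f g := rfl
  map_smul' c f := rfl

theorem resMap_inj {A : Matrix V V K} {S : Finset V} (h : Sep A Sᶜ) :
    Function.Injective (resMap A S) := by
  rw [← LinearMap.ker_eq_bot, LinearMap.ker_eq_bot']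
  intro f hf
  apply Subtype.ext
  refine h f (by have := f.2; rw [LinearMap.mem_ker] at this; exact this) fun a ha => ?_
  have ha' : a ∈ S := by simpa using ha
  exact congrFun hf ⟨a, ha'⟩

theorem resMap_surj {A : Matrix V V K} {S : Finset V} (h : IndepOn A S) :
    Function.Surjective (resMap A S) := by
  rw [← LinearMap.range_eq_top]
  by_contra hne
  obtain ⟨φ, hφ, hle⟩ := Submodule.exists_le_ker_of_lt_top _ (lt_top_iff_ne_top.2 hne)
  apply hφ
  have hφc : ∀ e : S → K, φ e = ∑ j, φ (Pi.single j 1) * e j := by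
    intro e
    conv_lhs => rw [LinearMap.pi_apply_eq_sum_univ φ e]
    refine Finset.sum_congr rfl fun j _ => ?_
    rw [smul_eq_mul, mul_comm]
    congr 2
    funext i
    simp [Pi.single_apply, eq_comm]
  have h1 := h (ext0 S fun j => φ (Pi.single j 1)) (fun a ha => ext0_not_mem _ ha) (by
    intro f hf
    have hmem : f ∈ LinearMap.ker A.mulVecLin := by
      rw [LinearMap.mem_ker]; exact hf
    have h3 : φ (resMap A S ⟨f, hmem⟩) = 0 := by
      have := hle (LinearMap.mem_range_self (resMap A S) ⟨f, hmem⟩)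
      rwa [LinearMap.mem_ker] at this
    rw [hφc] at h3
    rw [← h3]
    have h4 := sum_ext0 S f (ext0 S fun j => φ (Pi.single j 1)) (fun a ha => ext0_not_mem _ ha)
    calc ∑ a, ext0 S (fun j => φ (Pi.single j 1)) a * f a
        = ∑ a, f a * ext0 S (fun j => φ (Pi.single j 1)) a :=
          Finset.sum_congr rfl fun a _ => mul_comm _ _
      _ = _ := h4
      _ = _ := Finset.sum_congr rfl fun a _ => by
          rw [ext0_mem, mul_comm]; rfl)
  ext1 j
  have h2 : φ (Pi.single j 1) = 0 := by
    have := congrFun h1 (j : V)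
    rw [ext0_mem] at this
    exact this
  ext
  simpa using h2

theorem indepOn_of_sep {A : Matrix V V K} {S : Finset V} (h : Sep A Sᶜ)
    (hc : Sᶜ.card = A.rank) : IndepOn A S := by
  have hfr := finrank_ker_add A
  have hSc : S.card + Sᶜ.card = Fintype.card V := Finset.card_add_card_compl S
  have hsurj : Function.Surjective (resMap A S) := by
    rw [← LinearMap.injective_iff_surjective_of_finrank_eq_finrank]
    · exact resMap_inj h
    · rw [Module.finrank_fintype_fun_eq_card, Fintype.card_coe]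
      omega
  intro w hw hf
  funext a
  by_cases ha : a ∈ S
  · obtain ⟨f, hfe⟩ := hsurj (Pi.single ⟨a, ha⟩ 1)
    have h1 := hf f (by have := f.2; rw [LinearMap.mem_ker] at this; exact this)
    have h2 : ∑ b, w b * (f : V → K) b = ∑ b, (f : V → K) b * w b :=
      Finset.sum_congr rfl fun b _ => mul_comm _ _
    rw [h2, sum_ext0 S (f : V → K) w hw] at h1
    have h3 : ∀ b : S, (f : V → K) b = (Pi.single ⟨a, ha⟩ 1 : S → K) b := fun b =>
      congrFun hfe b
    simp only [h3, Pi.single_apply, ite_mul, one_mul, zero_mul] at h1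
    simpa using h1
  · exact hw a ha

/-- every set of independent coordinates extends to a basis, whose complement is a nonzero
principal minor of full rank -/
theorem exists_pm {A : Matrix V V K} (hA : ∀ a b, A a b = A b a) {S : Finset V}
    (h : IndepOn A S) : ∃ Y : Finset V, Disjoint Y S ∧ Y.card = A.rank ∧ pm A Y ≠ 0 := by
  classical
  -- a maximal independent set containing `S`
  obtain ⟨T, hT, hmax⟩ := Finset.exists_max_image
    (univ.powerset.filter (fun T : Finset V => S ⊆ T ∧ IndepOn A T)) Finset.card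
    ⟨S, by simp [h]⟩
  rw [Finset.mem_filter] at hT
  obtain ⟨_, hST, hTi⟩ := hT
  have hsep : Sep A Tᶜ := by
    intro f hf hfT
    funext a
    by_cases ha : a ∈ T
    · exact hfT a (by simpa using ha)
    · by_contra hfa
      have hni : ¬ IndepOn A (insert a T) := by
        intro hi
        have := hmax (insert a T) (by
          rw [Finset.mem_filter]
          exact ⟨by simp, hST.trans (Finset.subset_insert a T), hi⟩)
        rw [Finset.card_insert_of_notMem ha] at this
        omega
      unfold IndepOn at hni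
      push Not at hni
      obtain ⟨w, hw1, hw2, hw3⟩ := hni
      have hwa : w a ≠ 0 := by
        intro hwa
        apply hw3
        refine hTi w (fun b hb => ?_) hw2
        by_cases hba : b = a
        · rw [hba, hwa]
        · exact hw1 b (by simp [hba, hb])
      have h1 := hw2 f hf
      rw [← Finset.add_sum_erase _ _ (Finset.mem_univ a)] at h1
      have h2 : ∑ b ∈ univ.erase a, w b * f b = 0 := by
        refine Finset.sum_eq_zero fun b hb => ?_
        by_cases hbT : b ∈ T
        · rw [hfT b (by simpa using hbT), mul_zero]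
        · rw [hw1 b (by simp [hbT, Finset.ne_of_mem_erase hb]), zero_mul]
      rw [h2, add_zero] at h1
      rcases mul_eq_zero.1 h1 with h3 | h3
      · exact hwa h3
      · exact hfa h3
  have h1 := LinearMap.finrank_le_finrank_of_injective (resMap_inj hsep)
  have h2 := LinearMap.finrank_le_finrank_of_surjective (resMap_surj hTi)
  rw [Module.finrank_fintype_fun_eq_card, Fintype.card_coe] at h1 h2
  have hfr := finrank_ker_add A
  have hTc : T.card + Tᶜ.card = Fintype.card V := Finset.card_add_card_compl T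
  have hcard : Tᶜ.card = A.rank := by omega
  refine ⟨Tᶜ, ?_, hcard, pm_of_sep hA hsep hcard⟩
  rw [Finset.disjoint_left]
  intro a ha haS
  rw [Finset.mem_compl] at ha
  exact ha (hST haS)

theorem indepOn_of_pm {A : Matrix V V K} {Y S : Finset V} (h : pm A Y ≠ 0)
    (hc : Y.card = A.rank) (hd : Disjoint Y S) : IndepOn A S := by
  have h1 : IndepOn A Yᶜ := indepOn_of_sep (by rw [compl_compl]; exact sep_of_pm h)
    (by rw [compl_compl]; exact hc)
  intro w hw hf
  refine h1 w (fun a ha => hw a fun haS => ?_) hf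
  rw [Finset.mem_compl, not_not] at ha
  exact Finset.disjoint_left.1 hd ha haS

theorem indepOn_empty (A : Matrix V V K) : IndepOn A ∅ := fun w hw _ =>
  funext fun a => hw a (by simp)

end minors

end Pool.Agent.AOP.Lin
end

section
/-!
# Module TIGHT
-/
namespace Pool.Agent.AOP.C62

open Finset Matrix

variable {V : Type*} [Fintype V] [DecidableEq V] {K : Type*} [Field K] [Algebra (ZMod 2) K]

theorem Lm_sub (G J : EG V) (z : V → K) : Lm (G + J) z = Lm G z - Lm J z := by
  have := charTwo K
  rw [Lm_add]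
  ext a b
  rw [Matrix.add_apply, Matrix.sub_apply, CharTwo.sub_eq_add]

theorem tight_iff {z : V → K} (hR : RankSpec z) (G J : EG V) :
    Tight G J ↔ Lin.Below (Lm G z) (Lm J z) := by
  unfold Tight Lin.Below
  rw [← Lm_sub, hR.rank_eq, hR.rank_eq, hR.rank_eq]

theorem eq_zero_of_tau (hC : CombSpec V) {J : EG V} (h : tau J = 0) : J = 0 := by
  by_contra hne
  have := hC.tau_pos J hne
  omega

theorem t_list_tight (hC : CombSpec V) (G : EG V) (l : List (EG V)) (hs : l.sum = G)
    (ht : (l.map tau).sum = tau G) : ∀ J ∈ l, Tight G J := by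
  intro J hJ
  obtain ⟨l', hl'⟩ : ∃ l', l.Perm (J :: l') := by
    classical
    exact ⟨l.erase J, List.perm_cons_erase hJ⟩
  have h1 : l.sum = J + l'.sum := by rw [hl'.sum_eq, List.sum_cons]
  have h2 : (l.map tau).sum = tau J + (l'.map tau).sum := by
    rw [(hl'.map tau).sum_eq, List.map_cons, List.sum_cons]
  have h3 := t_tau_sum_le hC l'
  have h4 : G + J = l'.sum := by
    rw [← hs, h1, add_comm J, add_assoc, EG_add_self, add_zero]
  have h5 := hC.tau_add_le (G + J) J
  rw [add_assoc, EG_add_self, add_zero] at h5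
  unfold Tight
  rw [h4] at h5 ⊢
  omega

theorem t_decomp (hC : CombSpec V) (G : EG V) : ∃ l : List (EG V), (∀ J ∈ l, Irr J ∧ Tight G J) ∧
    l.sum = G ∧ (l.map tau).sum = tau G := by
  suffices h : ∀ (n : ℕ) (G : EG V), tau G = n → ∃ l : List (EG V), (∀ J ∈ l, Irr J) ∧
      l.sum = G ∧ (l.map tau).sum = tau G by
    obtain ⟨l, h1, h2, h3⟩ := h _ G rfl
    exact ⟨l, fun J hJ => ⟨h1 J hJ, t_list_tight hC G l h2 h3 J hJ⟩, h2, h3⟩
  intro n
  induction n using Nat.strong_induction_on with
  | _ n ih =>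
    intro G hG
    by_cases h0 : G = 0
    · subst h0
      exact ⟨[], by simp, by simp, by simp [hC.tau_zero]⟩
    by_cases hI : Irr G
    · exact ⟨[G], by simpa using hI, by simp, by simp⟩
    unfold Irr at hI
    push Not at hI
    obtain ⟨H, hH, hH0, hHG⟩ := hI h0
    have h1 : tau (G + H) + tau H = tau G := hH
    have h2 := hC.tau_pos H hH0
    have h3 : G + H ≠ 0 := by
      intro h
      apply hHG
      have := congrArg (fun X => X + H) h
      simp only [zero_add] at this
      rw [add_assoc, EG_add_self, add_zero] at this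
      exact this.symm
    have h4 := hC.tau_pos (G + H) h3
    obtain ⟨l1, a1, b1, c1⟩ := ih (tau (G + H)) (by omega) (G + H) rfl
    obtain ⟨l2, a2, b2, c2⟩ := ih (tau H) (by omega) H rfl
    refine ⟨l1 ++ l2, fun J hJ => ?_, ?_, ?_⟩
    · rcases List.mem_append.1 hJ with h | h
      · exact a1 J h
      · exact a2 J h
    · rw [List.sum_append, b1, b2, add_assoc, EG_add_self, add_zero]
    · rw [List.map_append, List.sum_append, c1, c2, h1]

theorem tightSpec' {z : V → K} (hz : Function.Injective z) (hC : CombSpec V) (hR : RankSpec z) :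
    TightSpec z where
  kills := fun G J h => ((tight_iff hR G J).1 h).ker
  kills_tau := fun G J h => t_kills_tau hR G J h
  compl := fun G J h => by
    rw [tight_iff hR, Lm_sub]
    exact ((tight_iff hR G J).1 h).compl
  trans := fun A B C h h' => by
    rw [tight_iff hR] at h h' ⊢
    exact h.trans h'
  orth := fun T J J' h h' hK => by
    rw [tight_iff hR] at h h' ⊢
    rw [Lm_sub]
    refine Lin.Below.orth (Lm_symm T z) (Lm_symm J' z) (Lm_symm J z) h' h fun f hf => ?_
    rw [← Lm_sub] at hf
    exact hK f hf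
  sub := fun G B C h h' hK => by
    rw [tight_iff hR] at h h' ⊢
    exact Lin.Below.sub (Lm_symm G z) (Lm_symm B z) (Lm_symm C z) h h' hK
  direct := fun T J h hJ hK => by
    rw [tight_iff hR] at h
    have h1 := Lin.Below.direct (Lm_symm T z) (Lm_symm J z) h fun f hf => by
      rw [← Lm_sub] at hf
      exact hK f hf
    apply hJ
    apply eq_zero_of_tau hC
    rw [← hR.rank_eq J, h1]
    exact Matrix.rank_zero
  decomp := t_decomp hC
  list_tight := t_list_tight hC
  tight_contr := t_tight_contr hC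
  list_contr := t_list_contr hC
  tri := t_tri hC hR
  tri_iff := t_tri_iff hz hR
  kills_indep := t_kills_indep hC hR
  kills_indep' := fun T J S hK _ hI => t_kills_indep' hR T J S hK hI

end Pool.Agent.AOP.C62
end

section
/-!
# MP_7f2998_co : assembly
-/
namespace Pool.Agent.AOP.C62

open Finset Matrix

theorem four {V : Type*} [Fintype V] [DecidableEq V] {K : Type*} [Field K] [Algebra (ZMod 2) K]
    {z : V → K} (c : U55.Ctx z) (G : EG V) (h : U55.Bad G)
    (h4 : (supp G).card = tau G + 4) : False := by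
  obtain ⟨v, hv⟩ : (supp G).Nonempty := Finset.card_pos.1 (by omega)
  obtain ⟨u, hg, hnt⟩ := U55.exists_good_nontwin c.C c.M h.irr h.ncl hv
  obtain ⟨J, p, hJ, hTJ, hp, hpJ, hpu⟩ := U55.Bad.exists_out c h hg hnt
  have hs := h.supp_contr c hg hnt
  rw [hs] at hp
  exact U72.main4 c h h4 hg hnt hJ hTJ (Finset.mem_of_mem_erase hp) hpJ hpu
    (Finset.ne_of_mem_erase hp)

section
variable {V : Type*} [Fintype V] [DecidableEq V] {K : Type*} [Field K] [Algebra (ZMod 2) K]

theorem finalHyp_of {z : V → K} (hz : AlgebraicIndependent (ZMod 2) z) (hT : TightSpec z)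
    (hF : ThmFSpec z) : FinalHyp V := by
  have hC := combSpec V
  have hR := rankSpec hz hC
  have hN := countSpec hz hC hR
  have hM : MajSpec V := majSpec hC hR hN
  have hP : GPSpec V := gpSpec hC hM
  have hFu := funcSpec hz hN
  have hQ := cliqSpec hC hR hT
  have hU := Unq.unqSpec hz.injective hC hR hM hT hFu hQ
  have hS : ResSpec V := resSpec hC hR hN hT hFu hM
  have hctx : U55.Ctx z := ⟨hC, hM, hP, hR, hT, hF, hU, hS⟩
  exact ⟨hC, hM.pair, hT.decomp, hQ.tau_kd, U55.classSpec_of_four hctx (four hctx)⟩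

end

theorem finalHyp (V : Type*) [Fintype V] [DecidableEq V] : FinalHyp V :=
  have hz := algInd_zF V
  have hC := combSpec V
  have hR := rankSpec hz hC
  finalHyp_of hz (tightSpec' hz.injective hC hR) (thmFSpec hC hz hR)

/-- the min-max theorem -/
theorem minMax : MinMax := by
  intro V E _ _ _ G T
  exact G.minMax_of T (finalHyp (V ⊕ Bool))

end Pool.Agent.AOP.C62
end
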