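import Pool.Agent.Lib.MP_7f2998_co.Lang
import Pool.Agent.Lib.MP_b9add9_lc.helper78.Fmt

section
/-!
# MP_7f2998_co : decoding instances in polynomial time
-/
namespace Pool.Agent.AOP.Cert

open Pool.Agent.PolyTime Function Polynomial
open Pool.Agent.Lib.MP_b9add9_lc.FP (tlist tnum parse parse_enc pt_iter)

variable {α β : Type*} [Rep α] [Rep β]

attribute [fun_prop] PT.contains

/-- one step of writing down the code of a tree -/
def estep (p : List T × List Bool) : List T × List Bool :=
  match p.1 with
  | [] => p
  | .nil :: s => (s, p.2 ++ [false])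
  | .cons a b :: s => (a :: b :: s, p.2 ++ [true])

theorem estep_iter (t : T) : ∀ (s : List T) (o : List Bool),
    estep^[t.size] (t :: s, o) = (s, o ++ t.enc) := by
  induction t with
  | nil => intro s o; rfl
  | cons a b iha ihb =>
    intro s o
    rw [T.size, iterate_succ_apply]
    have e : estep (T.cons a b :: s, o) = (a :: b :: s, o ++ [true]) := rfl
    rw [e, Nat.add_comm, iterate_add_apply, iha, ihb]
    simp [T.enc]

theorem estep_sz (p : List T × List Bool) : sz (estep p) ≤ sz p + 4 := by
  obtain ⟨s, o⟩ := p
  match s with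
  | [] => exact Nat.le_add_right _ _
  | .nil :: s =>
    have h := sz_append o [false]
    have e : estep (T.nil :: s, o) = (s, o ++ [false]) := rfl
    have e1 : sz T.nil = 1 := rfl
    rw [e]
    simp only [sz_pair, sz_cons, sz_nil, sz_false, e1] at h ⊢
    omega
  | .cons a b :: s =>
    have h := sz_append o [true]
    have e : estep (T.cons a b :: s, o) = (a :: b :: s, o ++ [true]) := rfl
    have e1 : sz (T.cons a b) = sz a + sz b + 1 := rfl
    rw [e]
    simp only [sz_pair, sz_cons, sz_nil, sz_true, e1] at h ⊢
    omega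

theorem estep_sz_iter (m : ℕ) : ∀ p : List T × List Bool, sz (estep^[m] p) ≤ sz p + 4 * m := by
  induction m with
  | zero => intro p; simp
  | succ m ih =>
    intro p
    rw [iterate_succ_apply]
    have := ih (estep p)
    have := estep_sz p
    omega

theorem pt_estep : PT estep := by
  have h : PT (fun p : List T × List Bool =>
      List.casesOn (motive := fun _ => List T × List Bool) p.1 p
        (fun t s => T.casesOn (motive := fun _ => List T × List Bool) t (s, p.2 ++ [false])
          (fun a b => (a :: b :: s, p.2 ++ [true])))) := by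
    refine PT.listCases (l := fun p : List T × List Bool => p.1) (f := fun p => p)
      (g := fun p t s => T.casesOn (motive := fun _ => List T × List Bool) t (s, p.2 ++ [false])
          (fun a b => (a :: b :: s, p.2 ++ [true]))) PT.id.fst PT.id ?_
    refine PT.treeCases (t := fun q : (List T × List Bool) × (T × List T) => q.2.1)
      (f := fun q => (q.2.2, q.1.2 ++ [false]))
      (g := fun q a b => (a :: b :: q.2.2, q.1.2 ++ [true])) (by fun_prop) (by fun_prop)
      (by fun_prop)
  refine h.congr ?_
  rintro ⟨s, o⟩
  match s with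
  | [] => rfl
  | .nil :: s => rfl
  | .cons a b :: s => rfl

@[fun_prop]
theorem pt_enc {f : α → T} (hf : PT f) : PT (fun a => (f a).enc) := by
  have h : PT (fun a => estep^[sz (f a)] ([f a], [])) := by
    refine PT.iterSize (g := fun _ p => estep p) hf (f := fun a => ([f a], []))
      (by fun_prop) (pt_estep.comp PT.id.snd) (B := fun a => 5 * sz (f a) + 10)
      (((Bdd.const 5).mul hf.bdd).add (Bdd.const 10)) ?_
    intro a m hm
    have h1 := estep_sz_iter m (([f a], []) : List T × List Bool)
    simp only [sz_pair, sz_cons, sz_nil] at h1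
    change sz (estep^[m] ([f a], [])) ≤ _
    omega
  refine h.snd.congr fun a => ?_
  change (estep^[(f a).size] ([f a], [])).2 = _
  rw [estep_iter]
  rfl

/-- left part of a tree -/
def lft : T → T
  | .nil => .nil
  | .cons a _ => a

/-- right part of a tree -/
def rgt : T → T
  | .nil => .nil
  | .cons _ b => b

@[fun_prop]
theorem pt_lft {f : α → T} (hf : PT f) : PT (fun a => lft (f a)) := by
  refine (PT.treeCases (t := f) (f := fun _ => T.nil) (g := fun _ a _ => a) hf (by fun_prop)
    (by fun_prop)).congr fun a => ?_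
  cases f a <;> rfl

@[fun_prop]
theorem pt_rgt {f : α → T} (hf : PT f) : PT (fun a => rgt (f a)) := by
  refine (PT.treeCases (t := f) (f := fun _ => T.nil) (g := fun _ _ b => b) hf (by fun_prop)
    (by fun_prop)).congr fun a => ?_
  cases f a <;> rfl

/-- raw instances -/
abbrev Raw : Type := ℕ × (List (ℕ × ℕ) × List ℕ)

/-- decoding of a raw instance from a tree -/
def decT (t : T) : Raw :=
  (tnum (lft t), ((tlist (lft (rgt t))).map (fun e => (tnum (lft e), tnum (rgt e))),
    (tlist (rgt (rgt t))).map tnum))

theorem tlist_toT (l : List β) : tlist (toT l) = l.map toT := by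
  induction l with
  | nil => rfl
  | cons a l ih =>
    rw [toT_cons, tlist, ih]
    rfl

theorem tnum_toT (n : ℕ) : tnum (toT n) = n := by
  unfold tnum
  induction n with
  | zero => rfl
  | succ n ih =>
    rw [toT_succ, tlist, List.length_cons, ih]

theorem decT_toT (r : Raw) : decT (toT r) = r := by
  obtain ⟨n, E, S⟩ := r
  unfold decT
  simp only [toT_pair, lft, rgt, tnum_toT, tlist_toT, List.map_map]
  congr 2
  · conv_rhs => rw [← List.map_id E]
    refine List.map_congr_left fun e _ => ?_
    obtain ⟨a, b⟩ := e
    simp only [comp_apply, toT_pair, lft, rgt, tnum_toT, id]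
  · conv_rhs => rw [← List.map_id S]
    refine List.map_congr_left fun e _ => ?_
    simp only [comp_apply, tnum_toT, id]

@[fun_prop]
theorem pt_decT {f : α → T} (hf : PT f) : PT (fun a => decT (f a)) := by
  unfold decT
  fun_prop

/-- decoding of a raw instance -/
def dec (x : List Bool) : Raw := decT (parse x)

@[fun_prop]
theorem pt_dec {f : α → List Bool} (hf : PT f) : PT (fun a => dec (f a)) := by
  unfold dec
  fun_prop

/-- the tree of a raw instance -/
@[fun_prop]
theorem pt_toT {f : α → β} (hf : PT f) : PT (fun a => (toT (f a) : T)) := hf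

@[fun_prop]
theorem pt_encode {f : α → β} (hf : PT f) : PT (fun a => encode (f a)) := by
  unfold encode
  fun_prop

theorem dec_encode (r : Raw) : dec (encode r) = r := by
  unfold dec encode
  have := parse_enc (toT r) []
  rw [List.append_nil] at this
  rw [this, decT_toT]

/-- validity of raw instances -/
def okRaw (r : Raw) : Bool :=
  r.2.1.all (fun e => decide (e.1 < r.1) && decide (e.2 < r.1) && !decide (e.1 = e.2)) &&
    r.2.2.all (fun v => decide (v < r.1))

/-- valid codes -/
def valid (x : List Bool) : Bool := decide (encode (dec x) = x) && okRaw (dec x)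

@[fun_prop]
theorem pt_okRaw {f : α → Raw} (hf : PT f) : PT (fun a => okRaw (f a)) := by
  unfold okRaw
  fun_prop

attribute [fun_prop] PT.eq

@[fun_prop]
theorem pt_valid {f : α → List Bool} (hf : PT f) : PT (fun a => valid (f a)) := by
  unfold valid
  refine PT.and ?_ (by fun_prop)
  exact PT.eq (by fun_prop) hf

/-- the raw data of an instance -/
def raw (I : Inst) : Raw := (I.n, (I.edges, I.T))

theorem encode_inst (I : Inst) : encode I = encode (raw I) := rfl

theorem okRaw_raw (I : Inst) : okRaw (raw I) = true := by
  unfold okRaw raw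
  simp only [Bool.and_eq_true, List.all_eq_true, Bool.not_eq_true', decide_eq_true_eq,
    decide_eq_false_iff_not]
  exact ⟨fun e he => ⟨⟨(I.edges_ok e he).1, (I.edges_ok e he).2.1⟩, (I.edges_ok e he).2.2⟩,
    I.T_ok⟩

theorem valid_encode (I : Inst) : valid (encode I) = true := by
  unfold valid
  rw [encode_inst, dec_encode, okRaw_raw]
  simp

theorem exists_of_valid {x : List Bool} (h : valid x = true) : ∃ I : Inst, encode I = x := by
  unfold valid at h
  rw [Bool.and_eq_true, decide_eq_true_eq] at h
  obtain ⟨h1, h2⟩ := h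
  unfold okRaw at h2
  simp only [Bool.and_eq_true, List.all_eq_true, Bool.not_eq_true', decide_eq_true_eq,
    decide_eq_false_iff_not] at h2
  refine ⟨⟨(dec x).1, (dec x).2.1, (dec x).2.2, fun e he => ?_, h2.2⟩, h1⟩
  have := h2.1 e he
  exact ⟨this.1.1, this.1.2, this.2⟩

theorem encode_inj {I J : Inst} (h : encode I = encode J) : raw I = raw J := by
  rw [encode_inst, encode_inst] at h
  have := congrArg dec h
  rwa [dec_encode, dec_encode] at this

end Pool.Agent.AOP.Cert
end

section
/-!
# MP_7f2998_co : the decision problem is in NP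
-/
namespace Pool.Agent.AOP.Cert

open Pool.Agent.PolyTime Function Polynomial Finset
open Pool.Agent.Lib.MP_b9add9_lc.FP (tlist tnum parse parse_enc pt_iter)

variable {α β : Type*} [Rep α] [Rep β]

/-- the rank of a vertex, given by a certificate -/
def rk (n : ℕ) (w : List Bool) (v : ℕ) : ℕ :=
  ((List.range n).filter fun j => w.getD (v * n + j) false).length

@[fun_prop]
theorem pt_rk {n v : α → ℕ} {w : α → List Bool} (hn : PT n) (hw : PT w) (hv : PT v) :
    PT (fun a => rk (n a) (w a) (v a)) := by
  unfold rk
  fun_prop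

/-- the number of edges entering `v` when the edges are directed to larger ranks -/
def inN (r : Raw) (w : List Bool) (v : ℕ) : ℕ :=
  (r.2.1.filter fun e => (decide (e.2 = v) && decide (rk r.1 w e.1 < rk r.1 w e.2)) ||
    (decide (e.1 = v) && decide (rk r.1 w e.2 < rk r.1 w e.1))).length

@[fun_prop]
theorem pt_inN {r : α → Raw} {v : α → ℕ} {w : α → List Bool} (hr : PT r) (hw : PT w)
    (hv : PT v) : PT (fun a => inN (r a) (w a) (v a)) := by
  unfold inN
  fun_prop

/-- the verifier for the existence of an acyclic `T`-odd orientation -/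
def chkYes (r : Raw) (w : List Bool) : Bool :=
  r.2.1.all (fun e => !decide (rk r.1 w e.1 = rk r.1 w e.2)) &&
    (List.range r.1).all fun v =>
      decide (decide (inN r w v % 2 = 1) = decide (v ∈ r.2.2))

@[fun_prop]
theorem pt_chkYes {r : α → Raw} {w : α → List Bool} (hr : PT r) (hw : PT w) :
    PT (fun a => chkYes (r a) (w a)) := by
  unfold chkYes
  fun_prop

theorem sum_map_ite {γ : Type*} (l : List γ) (P : γ → Bool) :
    (l.map fun a => if P a = true then 1 else 0).sum = (l.filter P).length := by
  induction l with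
  | nil => rfl
  | cons a l ih =>
    rw [List.map_cons, List.sum_cons, ih, List.filter_cons]
    by_cases h : P a = true
    · simp [h, add_comm]
    · simp [h]

/-- number of indices of a list with a property -/
theorem card_filter_get {γ : Type*} (l : List γ) (P : γ → Bool) :
    (univ.filter fun i : Fin l.length => P (l.get i) = true).card = (l.filter P).length := by
  rw [Finset.card_filter, ← List.sum_ofFn, ← sum_map_ite]
  congr 1
  conv_rhs => rw [← List.ofFn_get l, List.map_ofFn]
  rfl

/-- number of numbers below `n` with a property -/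
theorem range_filter_length (n : ℕ) (P : ℕ → Bool) :
    ((List.range n).filter P).length = ∑ i ∈ Finset.range n, if P i = true then 1 else 0 := by
  rw [← sum_map_ite]
  induction n with
  | zero => rfl
  | succ n ih => rw [List.range_succ, List.map_append, List.sum_append, ih, Finset.sum_range_succ]
                 simp

theorem range_filter_lt (n k : ℕ) (h : k ≤ n) :
    ((List.range n).filter fun i => decide (i < k)).length = k := by
  rw [range_filter_length]
  simp only [decide_eq_true_eq]
  rw [← Finset.sum_filter, Finset.sum_const, smul_eq_mul, mul_one]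
  have : (Finset.range n).filter (fun i => i < k) = Finset.range k := by
    ext i
    simp only [Finset.mem_filter, Finset.mem_range]
    omega
  rw [this, Finset.card_range]

/-- the in-degrees computed by the verifier -/
theorem inN_eq (I : Inst) (w : List Bool)
    (h : ∀ e ∈ I.edges, rk I.n w e.1 ≠ rk I.n w e.2) (D : Fin I.edges.length → Bool)
    (hD : ∀ i, D i = decide (rk I.n w (I.edges.get i).1 < rk I.n w (I.edges.get i).2))
    (v : Fin I.n) :
    (univ.filter fun i => I.graph.head D i = v).card = inN (raw I) w v := by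
  unfold inN raw
  rw [← card_filter_get]
  congr 1
  apply Finset.filter_congr
  intro i _
  have h1 := h (I.edges.get i) (List.get_mem _ _)
  unfold MGraph.head
  rw [hD i]
  by_cases hlt : rk I.n w (I.edges.get i).1 < rk I.n w (I.edges.get i).2
  · have h2 : ¬ rk I.n w (I.edges.get i).2 < rk I.n w (I.edges.get i).1 := by omega
    simp only [hlt, h2, decide_true, decide_false, if_true, Bool.and_true, Bool.and_false,
      Bool.or_false, decide_eq_true_eq]
    exact Fin.ext_iff
  · have h2 : rk I.n w (I.edges.get i).2 < rk I.n w (I.edges.get i).1 := by omega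
    simp only [hlt, h2, decide_true, decide_false, Bool.false_eq_true, if_false,
      Bool.and_true, Bool.and_false, Bool.false_or, decide_eq_true_eq]
    exact Fin.ext_iff

theorem mem_tset (I : Inst) (v : Fin I.n) : v ∈ I.tset ↔ (v : ℕ) ∈ I.T := by
  simp [Inst.tset]

theorem yes_of_chk {I : Inst} {w : List Bool} (h : chkYes (raw I) w = true) : I.Yes := by
  unfold chkYes at h
  simp only [Bool.and_eq_true, List.all_eq_true, Bool.not_eq_true', decide_eq_false_iff_not,
    List.mem_range, decide_eq_true_eq, decide_eq_decide] at h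
  obtain ⟨h1, h2⟩ := h
  refine ⟨fun i => decide (rk I.n w (I.edges.get i).1 < rk I.n w (I.edges.get i).2), ?_, ?_⟩
  · intro v hv
    have key : ∀ a b : Fin I.n, Relation.TransGen (fun a b => ∃ e,
        I.graph.tail (fun i => decide (rk I.n w (I.edges.get i).1 <
          rk I.n w (I.edges.get i).2)) e = a ∧
        I.graph.head (fun i => decide (rk I.n w (I.edges.get i).1 <
          rk I.n w (I.edges.get i).2)) e = b) a b → rk I.n w a < rk I.n w b := by
      have step : ∀ a b : Fin I.n, (∃ e,
          I.graph.tail (fun i => decide (rk I.n w (I.edges.get i).1 <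
            rk I.n w (I.edges.get i).2)) e = a ∧
          I.graph.head (fun i => decide (rk I.n w (I.edges.get i).1 <
            rk I.n w (I.edges.get i).2)) e = b) → rk I.n w a < rk I.n w b := by
        rintro a b ⟨i, rfl, rfl⟩
        have h3 := h1 (I.edges.get i) (List.get_mem _ _)
        unfold MGraph.tail MGraph.head
        by_cases hlt : rk I.n w (I.edges.get i).1 < rk I.n w (I.edges.get i).2
        · simp only [hlt, decide_true, if_true]
          exact hlt
        · simp only [hlt, decide_false, Bool.false_eq_true, if_false]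
          change rk I.n w (I.edges.get i).2 < rk I.n w (I.edges.get i).1
          change ¬ rk I.n w (I.edges.get i).1 = rk I.n w (I.edges.get i).2 at h3
          omega
      intro a b hab
      induction hab with
      | single h => exact step _ _ h
      | tail _ h ih => exact ih.trans (step _ _ h)
    exact absurd (key v v hv) (lt_irrefl _)
  · intro v
    rw [inN_eq I w h1 _ (fun _ => rfl) v, Nat.odd_iff, mem_tset]
    exact h2 v v.2

theorem chk_of_yes {I : Inst} (h : I.Yes) :
    ∃ w : List Bool, w.length ≤ I.n * I.n ∧ chkYes (raw I) w = true := by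
  classical
  obtain ⟨D, hA, hT⟩ := h
  set R : Fin I.n → Fin I.n → Prop := fun a b => ∃ e, I.graph.tail D e = a ∧
    I.graph.head D e = b with hR
  let ρ : Fin I.n → ℕ := fun v => (univ.filter fun u => Relation.TransGen R u v).card
  have hρ : ∀ v, ρ v ≤ I.n := by
    intro v
    refine (Finset.card_filter_le _ _).trans ?_
    rw [Finset.card_univ, Fintype.card_fin]
  have hlt : ∀ a b, R a b → ρ a < ρ b := by
    intro a b hab
    apply Finset.card_lt_card
    rw [Finset.ssubset_iff_of_subset]
    · refine ⟨a, ?_, ?_⟩
      · simp only [Finset.mem_filter, Finset.mem_univ, true_and]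
        exact Relation.TransGen.single hab
      · simp only [Finset.mem_filter, Finset.mem_univ, true_and]
        exact hA a
    · intro u hu
      simp only [Finset.mem_filter, Finset.mem_univ, true_and] at hu ⊢
      exact hu.tail hab
  let w : List Bool := (List.range (I.n * I.n)).map fun j =>
    decide (∃ v : Fin I.n, (v : ℕ) = j / I.n ∧ j % I.n < ρ v)
  have hrk : ∀ v : Fin I.n, rk I.n w v = ρ v := by
    intro v
    unfold rk
    rw [← range_filter_lt I.n (ρ v) (hρ v)]
    congr 1
    apply List.filter_congr
    intro i hi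
    rw [List.mem_range] at hi
    have hv := v.2
    have h1 : (v : ℕ) * I.n + i < I.n * I.n := by
      calc (v : ℕ) * I.n + i < (v : ℕ) * I.n + I.n := by omega
        _ = (v + 1) * I.n := by ring
        _ ≤ I.n * I.n := Nat.mul_le_mul_right _ hv
    have h2 : ((v : ℕ) * I.n + i) / I.n = v := by
      rw [mul_comm, Nat.mul_add_div (by omega), Nat.div_eq_of_lt hi, add_zero]
    have h3 : ((v : ℕ) * I.n + i) % I.n = i := by
      rw [mul_comm, Nat.mul_add_mod, Nat.mod_eq_of_lt hi]
    rw [List.getD_eq_getElem _ _ (by simp [w]; exact h1)]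
    simp only [w, List.getElem_map, List.getElem_range, h2, h3]
    rw [decide_eq_decide]
    constructor
    · rintro ⟨u, hu, hu'⟩
      have : u = v := Fin.ext hu
      rwa [← this]
    · intro h
      exact ⟨v, rfl, h⟩
  have hne : ∀ i, D i = decide (rk I.n w (I.edges.get i).1 < rk I.n w (I.edges.get i).2) ∧
      rk I.n w (I.edges.get i).1 ≠ rk I.n w (I.edges.get i).2 := by
    intro i
    have e1 : rk I.n w (I.edges.get i).1 = ρ (I.graph.src i) := hrk (I.graph.src i)
    have e2 : rk I.n w (I.edges.get i).2 = ρ (I.graph.tgt i) := hrk (I.graph.tgt i)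
    rw [e1, e2]
    have h1 := hlt _ _ ⟨i, rfl, rfl⟩
    unfold MGraph.tail MGraph.head at h1
    cases hDi : D i
    · rw [hDi] at h1
      simp only [Bool.false_eq_true, if_false] at h1
      constructor
      · rw [eq_comm, decide_eq_false_iff_not]
        omega
      · omega
    · rw [hDi] at h1
      simp only [if_true] at h1
      constructor
      · rw [eq_comm, decide_eq_true_eq]
        exact h1
      · omega
  have hE : ∀ e ∈ I.edges, rk I.n w e.1 ≠ rk I.n w e.2 := by
    intro e he
    obtain ⟨i, rfl⟩ := List.get_of_mem he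
    exact (hne i).2
  refine ⟨w, by simp [w], ?_⟩
  unfold chkYes
  simp only [Bool.and_eq_true, List.all_eq_true, Bool.not_eq_true', decide_eq_false_iff_not,
    List.mem_range, decide_eq_true_eq, decide_eq_decide]
  refine ⟨hE, fun v hv => ?_⟩
  have h1 := inN_eq I w hE D (fun i => (hne i).1) ⟨v, hv⟩
  have h2 := hT ⟨v, hv⟩
  rw [h1, Nat.odd_iff, mem_tset] at h2
  exact h2

theorem n_le_length (I : Inst) : I.n ≤ (encode I).length := by
  rw [length_encode]
  change I.n ≤ sz (raw I)
  unfold raw
  rw [sz_pair, sz_nat]
  omega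

theorem atOdd_iff (x : List Bool) : ATOdd x = true ↔ ∃ I : Inst, encode I = x ∧ I.Yes := by
  unfold ATOdd
  exact @decide_eq_true_iff _ (Classical.propDecidable _)

theorem atOdd_encode (I : Inst) : ATOdd (encode I) = true ↔ I.Yes := by
  rw [atOdd_iff]
  constructor
  · rintro ⟨J, hJ, hY⟩
    have h := encode_inj hJ
    obtain ⟨n, E, S, h1, h2⟩ := I
    obtain ⟨n', E', S', h1', h2'⟩ := J
    simp only [raw, Prod.mk.injEq] at h
    obtain ⟨rfl, rfl, rfl⟩ := h
    exact hY
  · intro h
    exact ⟨I, rfl, h⟩

/-- The decision problem is in NP. -/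
theorem atOdd_mem_NP : ATOdd ∈ N68a2faeb.NP := by
  refine ⟨X * X, fun p => valid p.1 && chkYes (dec p.1) p.2,
    Pool.Agent.Lib.MP_b9add9_lc.FP.isPolyTime_of_pt (by fun_prop), fun x => ?_⟩
  constructor
  · intro h
    have h' := h
    rw [atOdd_iff] at h'
    obtain ⟨I, rfl, hY⟩ := h'
    obtain ⟨w, hw, hc⟩ := chk_of_yes hY
    refine ⟨w, ?_, ?_⟩
    · have := n_le_length I
      rw [eval_mul, eval_X]
      exact hw.trans (Nat.mul_le_mul this this)
    · change (valid (encode I) && chkYes (dec (encode I)) w) = true
      rw [valid_encode, encode_inst, dec_encode, hc]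
      rfl
  · rintro ⟨w, _, h⟩
    change (valid x && chkYes (dec x) w) = true at h
    rw [Bool.and_eq_true] at h
    obtain ⟨I, rfl⟩ := exists_of_valid h.1
    rw [encode_inst, dec_encode] at h
    exact (atOdd_encode I).2 (yes_of_chk h.2)

end Pool.Agent.AOP.Cert
end

section
/-!
# MP_7f2998_co : the decision problem is in coNP (from the min-max theorem)
-/
namespace Pool.Agent.AOP.Cert

open Pool.Agent.PolyTime Function Polynomial Finset
open Pool.Agent.Lib.MP_b9add9_lc.FP (tlist tnum parse parse_enc pt_iter)

variable {α β : Type*} [Rep α] [Rep β]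

/-! ### The verifier -/

/-- adjacency in the `i`-th graph of a certificate, on the vertices `0, …, N - 1` -/
def adjW (w : List Bool) (N i a b : ℕ) : Bool :=
  !decide (a = b) && w.getD ((i * N + min a b) * N + max a b) false

@[fun_prop]
theorem pt_adjW {w : α → List Bool} {N i a b : α → ℕ} (hw : PT w) (hN : PT N) (hi : PT i)
    (ha : PT a) (hb : PT b) : PT (fun x => adjW (w x) (N x) (i x) (a x) (b x)) := by
  unfold adjW
  fun_prop

/-- degree -/
def dgA (A : ℕ → ℕ → Bool) (N a : ℕ) : ℕ := ((List.range N).filter fun b => A a b).length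

/-- number of non-isolated vertices -/
def nvA (A : ℕ → ℕ → Bool) (N : ℕ) : ℕ :=
  ((List.range N).filter fun a => (List.range N).any fun b => A a b).length

/-- number of edges -/
def neA (A : ℕ → ℕ → Bool) (N : ℕ) : ℕ :=
  ((List.range N).map fun a =>
    ((List.range N).filter fun b => decide (a < b) && A a b).length).sum

/-- cost -/
def costA (A : ℕ → ℕ → Bool) (N : ℕ) : ℕ :=
  if neA A N = nvA A N * (nvA A N - 1) / 2 then (nvA A N - 1) / 2
  else if (nvA A N + neA A N) % 2 = 0 then nvA A N - 2
  else nvA A N - 3

@[fun_prop]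
theorem pt_dgW {w : α → List Bool} {N i a : α → ℕ} (hw : PT w) (hN : PT N) (hi : PT i)
    (ha : PT a) : PT (fun x => dgA (adjW (w x) (N x) (i x)) (N x) (a x)) := by
  unfold dgA
  fun_prop

@[fun_prop]
theorem pt_nvW {w : α → List Bool} {N i : α → ℕ} (hw : PT w) (hN : PT N) (hi : PT i) :
    PT (fun x => nvA (adjW (w x) (N x) (i x)) (N x)) := by
  unfold nvA
  fun_prop

@[fun_prop]
theorem pt_neW {w : α → List Bool} {N i : α → ℕ} (hw : PT w) (hN : PT N) (hi : PT i) :
    PT (fun x => neA (adjW (w x) (N x) (i x)) (N x)) := by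
  unfold neA
  fun_prop

@[fun_prop]
theorem pt_costW {w : α → List Bool} {N i : α → ℕ} (hw : PT w) (hN : PT N) (hi : PT i) :
    PT (fun x => costA (adjW (w x) (N x) (i x)) (N x)) := by
  unfold costA
  fun_prop

/-- multiplicities of the edges of the instance -/
def multN (r : Raw) (a b : ℕ) : ℕ :=
  (r.2.1.filter fun e => (decide (e.1 = a) && decide (e.2 = b)) ||
    (decide (e.1 = b) && decide (e.2 = a))).length

/-- degrees in the instance -/
def degN (r : Raw) (a : ℕ) : ℕ :=
  (r.2.1.filter fun e => decide (e.1 = a) || decide (e.2 = a)).length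

/-- membership in `T` -/
def tN (r : Raw) (a : ℕ) : ℕ := if a ∈ r.2.2 then 0 else 1

/-- number of vertices outside `T` -/
def cN (r : Raw) : ℕ := ((List.range r.1).filter fun a => !decide (a ∈ r.2.2)).length

/-- multiplicities of the augmented graph, for `a < b` -/
def hatN (r : Raw) (a b : ℕ) : ℕ :=
  if b < r.1 then multN r a b
  else if a < r.1 then (if b = r.1 then tN r a else degN r a + tN r a)
  else cN r

@[fun_prop]
theorem pt_hatN {r : α → Raw} {a b : α → ℕ} (hr : PT r) (ha : PT a) (hb : PT b) :
    PT (fun x => hatN (r x) (a x) (b x)) := by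
  unfold hatN multN tN degN cN
  fun_prop

/-- the verifier for obstructions -/
def chkNo (r : Raw) (w : List Bool) : Bool :=
  ((List.range r.1).all fun i => (List.range (r.1 + 2)).all fun a =>
    decide (dgA (adjW w (r.1 + 2) i) (r.1 + 2) a % 2 = 0)) &&
  ((List.range (r.1 + 2)).all fun b => (List.range b).all fun a =>
    decide (((List.range r.1).filter fun i => adjW w (r.1 + 2) i a b).length % 2
      = hatN r a b % 2)) &&
  decide (((List.range r.1).map fun i => costA (adjW w (r.1 + 2) i) (r.1 + 2)).sum < r.1)

@[fun_prop]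
theorem pt_chkNo {r : α → Raw} {w : α → List Bool} (hr : PT r) (hw : PT w) :
    PT (fun x => chkNo (r x) (w x)) := by
  unfold chkNo
  fun_prop

/-! ### Semantics -/

/-- codes of the vertices of the augmented graph -/
def cd (n : ℕ) : Fin n ⊕ Bool → ℕ
  | .inl v => v
  | .inr false => n
  | .inr true => n + 1

theorem cd_lt {n : ℕ} (x : Fin n ⊕ Bool) : cd n x < n + 2 := by
  match x with
  | .inl v => exact v.2.trans (by omega)
  | .inr false => show n < n + 2; omega
  | .inr true => show n + 1 < n + 2; omega

theorem cd_inj {n : ℕ} {x y : Fin n ⊕ Bool} (h : cd n x = cd n y) : x = y := by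
  match x, y with
  | .inl v, .inl u => exact congrArg _ (Fin.ext h)
  | .inl v, .inr false => exact absurd h (Nat.ne_of_lt v.2)
  | .inl v, .inr true => exact absurd h (Nat.ne_of_lt (Nat.lt_succ_of_lt v.2))
  | .inr false, .inl v => exact absurd h.symm (Nat.ne_of_lt v.2)
  | .inr true, .inl v => exact absurd h.symm (Nat.ne_of_lt (Nat.lt_succ_of_lt v.2))
  | .inr false, .inr false => rfl
  | .inr true, .inr true => rfl
  | .inr false, .inr true => exact absurd (show n = n + 1 from h) (by omega)
  | .inr true, .inr false => exact absurd (show n + 1 = n from h) (by omega)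

theorem cd_surj {n a : ℕ} (h : a < n + 2) : ∃ x : Fin n ⊕ Bool, cd n x = a := by
  by_cases h1 : a < n
  · exact ⟨.inl ⟨a, h1⟩, rfl⟩
  · by_cases h2 : a = n
    · exact ⟨.inr false, h2.symm⟩
    · exact ⟨.inr true, by show n + 1 = a; omega⟩

theorem sum_cd {M : Type*} [AddCommMonoid M] (n : ℕ) (F : ℕ → M) :
    ∑ x : Fin n ⊕ Bool, F (cd n x) = ∑ a ∈ Finset.range (n + 2), F a := by
  rw [Fintype.sum_sum_type, Finset.sum_range_succ, Finset.sum_range_succ, Fintype.sum_bool,
    ← Fin.sum_univ_eq_sum_range]
  change ∑ x : Fin n, F x + (F (n + 1) + F n) = _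
  rw [add_comm (F (n + 1)), add_assoc]

theorem card_cd (n : ℕ) (P : ℕ → Bool) :
    (univ.filter fun x : Fin n ⊕ Bool => P (cd n x) = true).card
      = ((List.range (n + 2)).filter P).length := by
  rw [Finset.card_filter, range_filter_length, ← sum_cd n fun a => if P a = true then 1 else 0]

section graph

variable {n : ℕ} (H : SimpleGraph (Fin n ⊕ Bool)) (A : ℕ → ℕ → Bool)
  (hA : ∀ x y, H.Adj x y ↔ A (cd n x) (cd n y) = true)
include hA

open Classical in
theorem degree_eq (x : Fin n ⊕ Bool) : H.degree x = dgA A (n + 2) (cd n x) := by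
  unfold dgA
  rw [← card_cd n fun b => A (cd n x) b, ← SimpleGraph.card_neighborFinset_eq_degree]
  congr 1
  ext y
  simp [hA]

open Classical in
theorem nvert_eq : nvert H = nvA A (n + 2) := by
  unfold nvert nvA
  rw [← card_cd n fun a => (List.range (n + 2)).any fun b => A a b]
  congr 1
  apply Finset.filter_congr
  intro x _
  rw [List.any_eq_true]
  constructor
  · rintro ⟨y, hy⟩
    exact ⟨cd n y, List.mem_range.2 (cd_lt y), (hA x y).1 hy⟩
  · rintro ⟨b, hb, h⟩
    obtain ⟨y, rfl⟩ := cd_surj (List.mem_range.1 hb)
    exact ⟨y, (hA x y).2 h⟩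

omit hA in
theorem neA_eq : neA A (n + 2) = ∑ a ∈ Finset.range (n + 2), ∑ b ∈ Finset.range (n + 2),
    (if a < b ∧ A a b = true then 1 else 0) := by
  unfold neA
  have : ∀ N : ℕ, ∀ F : ℕ → ℕ, ((List.range N).map F).sum = ∑ a ∈ Finset.range N, F a := by
    intro N F
    induction N with
    | zero => rfl
    | succ N ih =>
      rw [List.range_succ, List.map_append, List.sum_append, ih, Finset.sum_range_succ]
      simp
  rw [this]
  refine Finset.sum_congr rfl fun a _ => ?_
  rw [range_filter_length]
  refine Finset.sum_congr rfl fun b _ => ?_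
  simp only [Bool.and_eq_true, decide_eq_true_eq]

open Classical in
theorem nedge_eq : nedge H = neA A (n + 2) := by
  have h1 := H.sum_degrees_eq_twice_card_edges
  have h2 : ∑ x, H.degree x = ∑ a ∈ Finset.range (n + 2), ∑ b ∈ Finset.range (n + 2),
      (if A a b = true then 1 else 0) := by
    rw [← sum_cd n fun a => ∑ b ∈ Finset.range (n + 2), (if A a b = true then 1 else 0)]
    refine Finset.sum_congr rfl fun x _ => ?_
    rw [degree_eq H A hA x, dgA, range_filter_length]
  have hsym : ∀ a ∈ Finset.range (n + 2), ∀ b ∈ Finset.range (n + 2), A a b = A b a := by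
    intro a ha b hb
    obtain ⟨x, rfl⟩ := cd_surj (Finset.mem_range.1 ha)
    obtain ⟨y, rfl⟩ := cd_surj (Finset.mem_range.1 hb)
    rw [Bool.eq_iff_iff, ← hA, ← hA]
    exact H.adj_comm x y
  have hirr : ∀ a ∈ Finset.range (n + 2), A a a = false := by
    intro a ha
    obtain ⟨x, rfl⟩ := cd_surj (Finset.mem_range.1 ha)
    rw [← Bool.not_eq_true, ← hA]
    exact H.loopless.irrefl x
  have h3 : ∑ a ∈ Finset.range (n + 2), ∑ b ∈ Finset.range (n + 2),
      (if A a b = true then 1 else 0) = 2 * neA A (n + 2) := by
    have e1 : ∀ a ∈ Finset.range (n + 2), ∀ b ∈ Finset.range (n + 2),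
        (if A a b = true then 1 else 0) = (if a < b ∧ A a b = true then 1 else 0) +
          (if b < a ∧ A b a = true then 1 else 0) := by
      intro a ha b hb
      rcases lt_trichotomy a b with h | h | h
      · have h' : ¬ b < a := by omega
        simp [h, h']
      · subst h
        simp [hirr a ha]
      · have h' : ¬ a < b := by omega
        simp [h, h', hsym a ha b hb]
    rw [neA_eq A]
    rw [Finset.sum_congr rfl fun a ha => Finset.sum_congr rfl fun b hb => e1 a ha b hb]
    simp only [Finset.sum_add_distrib]
    rw [Finset.sum_comm (f := fun a b => if b < a ∧ A b a = true then 1 else 0)]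
    ring
  unfold nedge
  rw [h2, h3] at h1
  have h4 : H.edgeFinset.card = neA A (n + 2) := by
    have h5 := h1.symm
    exact Nat.eq_of_mul_eq_mul_left (by norm_num) h5
  convert h4

theorem cost_eq : cost H = costA A (n + 2) := by
  unfold cost costA
  rw [nvert_eq H A hA, nedge_eq H A hA, Nat.choose_two_right]
  simp only [Nat.even_iff]

end graph

/-! ### The augmented graph of an instance -/

theorem mult_eq (I : Inst) (a b : Fin I.n) : I.graph.mult a b = multN (raw I) a b := by
  unfold MGraph.mult multN raw
  rw [← card_filter_get]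
  congr 1
  apply Finset.filter_congr
  intro i _
  simp only [Bool.or_eq_true, Bool.and_eq_true, decide_eq_true_eq]
  simp only [Fin.ext_iff]
  rfl

theorem deg_eq (I : Inst) (a : Fin I.n) : I.graph.deg a = degN (raw I) a := by
  unfold MGraph.deg degN raw
  rw [← card_filter_get]
  congr 1
  apply Finset.filter_congr
  intro i _
  simp only [Bool.or_eq_true, decide_eq_true_eq]
  simp only [Fin.ext_iff]
  rfl

theorem tN_eq (I : Inst) (a : Fin I.n) : (if a ∈ I.tset then 0 else 1) = tN (raw I) a := by
  unfold tN raw
  by_cases h : (a : ℕ) ∈ I.T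
  · rw [if_pos ((mem_tset I a).2 h), if_pos h]
  · rw [if_neg (fun h' => h ((mem_tset I a).1 h')), if_neg h]

theorem cN_eq (I : Inst) : (univ.filter fun a => a ∉ I.tset).card = cN (raw I) := by
  unfold cN raw
  rw [range_filter_length, ← Fin.sum_univ_eq_sum_range, Finset.card_filter]
  refine Finset.sum_congr rfl fun a _ => ?_
  by_cases h : (a : ℕ) ∈ I.T
  · have h' := (mem_tset I a).2 h
    simp [h, h']
  · have h' : a ∉ I.tset := fun h' => h ((mem_tset I a).1 h')
    simp [h, h']

theorem hat_eq (I : Inst) (x y : Fin I.n ⊕ Bool) (h : cd I.n x < cd I.n y) :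
    I.graph.hat I.tset x y = hatN (raw I) (cd I.n x) (cd I.n y) := by
  match x, y with
  | .inl a, .inl b =>
    change I.graph.mult a b = if (b : ℕ) < I.n then multN (raw I) a b else _
    rw [if_pos b.2, mult_eq]
  | .inl a, .inr false =>
    change (if a ∈ I.tset then 0 else 1) = if I.n < I.n then _ else
      if (a : ℕ) < I.n then (if I.n = I.n then tN (raw I) a else _) else _
    rw [if_neg (lt_irrefl _), if_pos a.2, if_pos rfl, tN_eq]
  | .inl a, .inr true =>
    change I.graph.deg a + (if a ∈ I.tset then 0 else 1) = if I.n + 1 < I.n then _ else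
      if (a : ℕ) < I.n then (if I.n + 1 = I.n then _ else degN (raw I) a + tN (raw I) a) else _
    rw [if_neg (show ¬ I.n + 1 < I.n by omega), if_pos a.2,
      if_neg (show ¬ I.n + 1 = I.n by omega), tN_eq, deg_eq]
  | .inr false, .inr true =>
    change (univ.filter fun a => a ∉ I.tset).card = if I.n + 1 < I.n then _ else
      if I.n < I.n then _ else cN (raw I)
    rw [if_neg (by omega), if_neg (by omega), cN_eq]
  | .inr false, .inl b => exact absurd (show I.n < (b : ℕ) from h) (by have := b.2; omega)
  | .inr true, .inl b => exact absurd (show I.n + 1 < (b : ℕ) from h) (by have := b.2; omega)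
  | .inr false, .inr false => exact absurd h (lt_irrefl _)
  | .inr true, .inr true => exact absurd h (lt_irrefl _)
  | .inr true, .inr false => exact absurd (show I.n + 1 < I.n from h) (by omega)

theorem mult_comm (I : Inst) (a b : Fin I.n) : I.graph.mult a b = I.graph.mult b a := by
  unfold MGraph.mult
  congr 1
  apply Finset.filter_congr
  intro i _
  tauto

theorem hat_comm (I : Inst) (x y : Fin I.n ⊕ Bool) :
    I.graph.hat I.tset x y = I.graph.hat I.tset y x := by
  match x, y with
  | .inl a, .inl b => exact mult_comm I a b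
  | .inl _, .inr false => rfl
  | .inl _, .inr true => rfl
  | .inr false, .inr true => rfl
  | .inr false, .inl _ => rfl
  | .inr true, .inl _ => rfl
  | .inr false, .inr false => rfl
  | .inr true, .inr true => rfl
  | .inr true, .inr false => rfl

/-! ### From certificates to obstructions -/

theorem adjW_comm (w : List Bool) (N i a b : ℕ) : adjW w N i a b = adjW w N i b a := by
  unfold adjW
  rw [min_comm, max_comm]
  congr 2
  rw [decide_eq_decide]
  exact eq_comm

/-- the graphs of a certificate -/
def gW (n : ℕ) (w : List Bool) (i : ℕ) : SimpleGraph (Fin n ⊕ Bool) where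
  Adj x y := adjW w (n + 2) i (cd n x) (cd n y) = true
  symm := ⟨fun x y h => by rw [adjW_comm]; exact h⟩
  loopless := ⟨fun x h => by simp [adjW] at h⟩

/-- The verifier accepts `w` iff its graphs are an obstruction. -/
theorem chkNo_iff (I : Inst) (w : List Bool) :
    chkNo (raw I) w = true ↔
      Obstruction I.graph I.tset (fun i : Fin I.n => gW I.n w i) := by
  classical
  have hdeg : ∀ (i : ℕ) (x : Fin I.n ⊕ Bool), (gW I.n w i).degree x
      = dgA (adjW w (I.n + 2) i) (I.n + 2) (cd I.n x) := fun i x =>
    degree_eq _ _ (fun _ _ => Iff.rfl) x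
  have hcost : ∀ i : ℕ, cost (gW I.n w i) = costA (adjW w (I.n + 2) i) (I.n + 2) := fun i =>
    cost_eq _ _ fun _ _ => Iff.rfl
  have hsum : ((List.range I.n).map fun i => costA (adjW w (I.n + 2) i) (I.n + 2)).sum
      = ∑ i : Fin I.n, cost (gW I.n w i) := by
    rw [Finset.sum_congr rfl fun (i : Fin I.n) _ => hcost i,
      Fin.sum_univ_eq_sum_range (fun i => costA (adjW w (I.n + 2) i) (I.n + 2)) I.n]
    generalize I.n + 2 = N
    induction I.n with
    | zero => rfl
    | succ k ih =>
      rw [List.range_succ, List.map_append, List.sum_append, ih, Finset.sum_range_succ]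
      simp
  have hcount : ∀ x y : Fin I.n ⊕ Bool,
      (univ.filter fun i : Fin I.n => (gW I.n w i).Adj x y).card
        = ((List.range I.n).filter fun i => adjW w (I.n + 2) i (cd I.n x) (cd I.n y)).length := by
    intro x y
    rw [range_filter_length, ← Fin.sum_univ_eq_sum_range, Finset.card_filter]
    refine Finset.sum_congr rfl fun i _ => ?_
    by_cases h : adjW w (I.n + 2) i (cd I.n x) (cd I.n y) = true
    · rw [if_pos h, if_pos (show (gW I.n w i).Adj x y from h)]
    · rw [if_neg h, if_neg (show ¬ (gW I.n w i).Adj x y from h)]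
  unfold chkNo Obstruction
  simp only [raw, Bool.and_eq_true, List.all_eq_true, List.mem_range, decide_eq_true_eq]
  rw [hsum]
  rw [and_assoc]
  refine and_congr ?_ (and_congr ?_ ?_)
  · constructor
    · intro h i x
      have := h i i.2 (cd I.n x) (cd_lt x)
      rw [← hdeg, ← Nat.even_iff] at this
      convert this
    · intro h i hi a ha
      obtain ⟨x, rfl⟩ := cd_surj ha
      rw [← hdeg, ← Nat.even_iff]
      convert h ⟨i, hi⟩ x
  · constructor
    · intro h
      have key : ∀ x y, cd I.n x < cd I.n y →
          (univ.filter fun i : Fin I.n => (gW I.n w i).Adj x y).card % 2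
            = I.graph.hat I.tset x y % 2 := by
        intro x y hxy
        rw [hcount, hat_eq I x y hxy]
        exact h (cd I.n y) (cd_lt y) (cd I.n x) hxy
      intro x y hne
      rcases lt_trichotomy (cd I.n x) (cd I.n y) with h1 | h1 | h1
      · convert key x y h1
      · exact absurd (cd_inj h1) hne
      · have := key y x h1
        rw [hat_comm] at this
        rw [← this]
        congr 2
        apply Finset.filter_congr
        intro i _
        exact SimpleGraph.adj_comm _ _ _
    · intro h b hb a ha
      obtain ⟨y, rfl⟩ := cd_surj hb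
      obtain ⟨x, rfl⟩ := cd_surj (ha.trans hb)
      have hne : x ≠ y := by
        rintro rfl
        exact lt_irrefl _ ha
      have h1 := h x y hne
      rw [hat_eq I x y ha] at h1
      change _ = hatN (raw I) (cd I.n x) (cd I.n y) % 2
      rw [← h1, ← hcount]
  · rw [Fintype.card_fin]

/-! ### From obstructions to certificates -/

open Classical in
theorem cost_bot {W : Type*} [Fintype W] : cost (⊥ : SimpleGraph W) = 0 := by
  have h1 : nvert (⊥ : SimpleGraph W) = 0 := by
    unfold nvert
    simp
  unfold cost
  rw [h1]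
  split_ifs <;> rfl

open Classical in
/-- padding with empty graphs -/
theorem obstruction_pad {V E : Type*} [Fintype V] [Fintype E] [DecidableEq V] (G : MGraph V E)
    (T : Finset V) {m k : ℕ} (hmk : m ≤ k) (H : Fin m → SimpleGraph (V ⊕ Bool))
    (hO : Obstruction G T H) :
    Obstruction G T (fun i : Fin k => if h : (i : ℕ) < m then H ⟨i, h⟩ else ⊥) := by
  obtain ⟨h1, h2, h3⟩ := hO
  refine ⟨?_, ?_, ?_⟩
  · intro i a
    by_cases h : (i : ℕ) < m
    · have h0 := h1 ⟨i, h⟩ a
      have e : (if h : (i : ℕ) < m then H ⟨i, h⟩ else (⊥ : SimpleGraph (V ⊕ Bool)))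
          = H ⟨i, h⟩ := dif_pos h
      rw [← SimpleGraph.card_neighborFinset_eq_degree] at h0 ⊢
      have : ((if h : (i : ℕ) < m then H ⟨i, h⟩ else (⊥ : SimpleGraph (V ⊕ Bool)))).neighborFinset a
          = (H ⟨i, h⟩).neighborFinset a := by
        ext b
        rw [SimpleGraph.mem_neighborFinset, SimpleGraph.mem_neighborFinset, e]
      rw [this]
      exact h0
    · have e : (if h : (i : ℕ) < m then H ⟨i, h⟩ else (⊥ : SimpleGraph (V ⊕ Bool))) = ⊥ :=
        dif_neg h
      rw [← SimpleGraph.card_neighborFinset_eq_degree]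
      have : ((if h : (i : ℕ) < m then H ⟨i, h⟩ else (⊥ : SimpleGraph (V ⊕ Bool)))).neighborFinset a
          = ∅ := by
        ext b
        rw [SimpleGraph.mem_neighborFinset, e]
        simp
      rw [this]
      exact ⟨0, rfl⟩
  · intro a b hab
    rw [← h2 a b hab]
    congr 1
    have e : (univ.filter fun i : Fin k =>
        (if h : (i : ℕ) < m then H ⟨i, h⟩ else (⊥ : SimpleGraph (V ⊕ Bool))).Adj a b)
        = (univ.filter fun i : Fin m => (H i).Adj a b).map (Fin.castLEEmb hmk) := by
      ext i
      simp only [Finset.mem_filter, Finset.mem_univ, true_and, Finset.mem_map, Fin.castLEEmb_apply]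
      constructor
      · intro h
        by_cases hi : (i : ℕ) < m
        · rw [dif_pos hi] at h
          exact ⟨⟨i, hi⟩, h, Fin.ext rfl⟩
        · rw [dif_neg hi] at h
          exact absurd h (by simp)
      · rintro ⟨j, hj, rfl⟩
        have : ((Fin.castLE hmk j : Fin k) : ℕ) < m := j.2
        rw [dif_pos this]
        exact hj
    rw [e, Finset.card_map]
  · refine lt_of_le_of_lt (le_of_eq ?_) h3
    have e : ∀ i : Fin k, cost (if h : (i : ℕ) < m then H ⟨i, h⟩ else
        (⊥ : SimpleGraph (V ⊕ Bool))) = if h : (i : ℕ) < m then cost (H ⟨i, h⟩) else 0 := by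
      intro i
      by_cases h : (i : ℕ) < m
      · rw [dif_pos h, dif_pos h]
      · rw [dif_neg h, dif_neg h]
        exact cost_bot
    rw [Finset.sum_congr rfl fun i _ => e i]
    have e2 : ∑ i : Fin m, cost (H i) = ∑ i ∈ univ.map (Fin.castLEEmb hmk),
        (if h : (i : ℕ) < m then cost (H ⟨i, h⟩) else 0) := by
      rw [Finset.sum_map]
      refine Finset.sum_congr rfl fun i _ => ?_
      have : ((Fin.castLEEmb hmk i : Fin k) : ℕ) < m := i.2
      rw [dif_pos this]
      rfl
    rw [e2]
    symm
    apply Finset.sum_subset (Finset.subset_univ _)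
    intro i _ hi
    rw [dif_neg]
    intro h
    apply hi
    rw [Finset.mem_map]
    exact ⟨⟨i, h⟩, Finset.mem_univ _, Fin.ext rfl⟩

/-- certificates for families of graphs -/
theorem exists_cert (n : ℕ) (H : Fin n → SimpleGraph (Fin n ⊕ Bool)) :
    ∃ w : List Bool, w.length ≤ n * (n + 2) * (n + 2) ∧ ∀ i : Fin n, gW n w i = H i := by
  classical
  let N := n + 2
  let w : List Bool := (List.range (n * N * N)).map fun j =>
    decide (∃ (i : Fin n) (x y : Fin n ⊕ Bool), (i : ℕ) = j / N / N ∧ cd n x = j / N % N ∧
      cd n y = j % N ∧ (H i).Adj x y)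
  refine ⟨w, by simp [w, N], fun i => ?_⟩
  have key : ∀ x y, cd n x < cd n y → (adjW w N i (cd n x) (cd n y) = true ↔ (H i).Adj x y) := by
    intro x y hxy
    have hx : cd n x < N := cd_lt x
    have hy : cd n y < N := cd_lt y
    have hi := i.2
    have e1 : ((i : ℕ) * N + cd n x) * N + cd n y < n * N * N := by
      have h1 : (i : ℕ) * N + cd n x < n * N := by
        calc (i : ℕ) * N + cd n x < (i : ℕ) * N + N := by omega
          _ = (i + 1) * N := by ring
          _ ≤ n * N := Nat.mul_le_mul_right _ hi
      calc ((i : ℕ) * N + cd n x) * N + cd n y < ((i : ℕ) * N + cd n x) * N + N := by omega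
        _ = ((i : ℕ) * N + cd n x + 1) * N := by ring
        _ ≤ n * N * N := Nat.mul_le_mul_right _ h1
    have e2 : (((i : ℕ) * N + cd n x) * N + cd n y) % N = cd n y := by
      rw [mul_comm, Nat.mul_add_mod, Nat.mod_eq_of_lt hy]
    have e3 : (((i : ℕ) * N + cd n x) * N + cd n y) / N = (i : ℕ) * N + cd n x := by
      rw [mul_comm, Nat.mul_add_div (by omega), Nat.div_eq_of_lt hy, add_zero]
    have e4 : ((i : ℕ) * N + cd n x) % N = cd n x := by
      rw [mul_comm, Nat.mul_add_mod, Nat.mod_eq_of_lt hx]
    have e5 : ((i : ℕ) * N + cd n x) / N = i := by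
      rw [mul_comm, Nat.mul_add_div (by omega), Nat.div_eq_of_lt hx, add_zero]
    unfold adjW
    rw [min_eq_left hxy.le, max_eq_right hxy.le,
      List.getD_eq_getElem _ _ (by simp only [w, List.length_map, List.length_range]; exact e1)]
    simp only [w, List.getElem_map, List.getElem_range, e2, e3, e4, e5]
    rw [Bool.and_eq_true, decide_eq_true_eq, Bool.not_eq_true', decide_eq_false_iff_not]
    constructor
    · rintro ⟨_, i', x', y', hi', hx', hy', hadj⟩
      have a1 : i' = i := Fin.ext hi'
      have a2 := cd_inj hx'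
      have a3 := cd_inj hy'
      subst a1 a2 a3
      exact hadj
    · intro h
      exact ⟨hxy.ne, i, x, y, rfl, rfl, rfl, h⟩
  ext x y
  change adjW w N i (cd n x) (cd n y) = true ↔ (H i).Adj x y
  rcases lt_trichotomy (cd n x) (cd n y) with h | h | h
  · exact key x y h
  · have := cd_inj h
    subst this
    simp [adjW]
  · rw [adjW_comm, key y x h]
    exact SimpleGraph.adj_comm _ _ _

/-- The decision problem is in coNP. -/
theorem atOdd_mem_coNP (hM : MinMax) : ATOdd ∈ N68a2faeb.coNP := by
  refine ⟨X * (X + 2) * (X + 2), fun p => !valid p.1 || chkNo (dec p.1) p.2,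
    Pool.Agent.Lib.MP_b9add9_lc.FP.isPolyTime_of_pt (by fun_prop), fun x => ?_⟩
  have hx : (ATOddᶜ : List Bool → Bool) x = true ↔ ¬ ATOdd x = true := by
    rw [Pi.compl_apply]
    cases ATOdd x <;> simp
  rw [hx]
  by_cases hv : valid x = true
  · obtain ⟨I, rfl⟩ := exists_of_valid hv
    rw [atOdd_encode]
    obtain ⟨hM1, hM2⟩ := hM (Fin I.n) (Fin I.edges.length) I.graph I.tset
    constructor
    · intro h
      obtain ⟨m, H, hm, hO⟩ := hM2 h
      rw [Fintype.card_fin] at hm
      have hO' := obstruction_pad I.graph I.tset hm.le H hO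
      obtain ⟨w, hw, hwH⟩ := exists_cert I.n
        (fun i : Fin I.n => if h : (i : ℕ) < m then H ⟨i, h⟩ else ⊥)
      refine ⟨w, ?_, ?_⟩
      · have h1 := n_le_length I
        simp only [eval_mul, eval_add, eval_X, eval_ofNat]
        refine hw.trans (Nat.mul_le_mul (Nat.mul_le_mul h1 ?_) ?_) <;> omega
      · change (!valid (encode I) || chkNo (dec (encode I)) w) = true
        rw [encode_inst, dec_encode, (chkNo_iff I w).2, Bool.or_true]
        have : (fun i : Fin I.n => gW I.n w i) =
            (fun i : Fin I.n => if h : (i : ℕ) < m then H ⟨i, h⟩ else ⊥) := funext hwH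
        rw [this]
        exact hO'
    · rintro ⟨w, _, hw⟩ hY
      change (!valid (encode I) || chkNo (dec (encode I)) w) = true at hw
      rw [valid_encode, encode_inst, dec_encode] at hw
      have h2 : chkNo (raw I) w = true := by simpa using hw
      rw [chkNo_iff] at h2
      exact hM1 hY ⟨_, _, h2⟩
  · constructor
    · intro _
      refine ⟨[], Nat.zero_le _, ?_⟩
      change (!valid x || chkNo (dec x) []) = true
      rw [Bool.not_eq_true] at hv
      rw [hv]
      rfl
    · rintro _ h
      rw [atOdd_iff] at h
      obtain ⟨I, rfl, _⟩ := h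
      exact hv (valid_encode I)

end Pool.Agent.AOP.Cert
end
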