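import Mathlib

/-!
# MP_7f2998_co : definitions (acyclic T-odd orientations, min-max)

Graphs are Eulerian graphs modulo 2 on a fixed finite vertex set `V`.
-/

namespace Pool.Agent.AOP

open Finset Matrix

/-- Eulerian graphs (modulo 2) on the vertex set `V`: symmetric `0/1` matrices over `ZMod 2`,
zero diagonal, all degrees even.  Addition is symmetric difference of the edge sets. -/
def EG (V : Type*) [Fintype V] : Submodule (ZMod 2) (Matrix V V (ZMod 2)) where
  carrier := {A | (∀ u v, A u v = A v u) ∧ (∀ v, A v v = 0) ∧ ∀ v, ∑ u, A v u = 0}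
  add_mem' := by
    rintro A B ⟨hA1, hA2, hA3⟩ ⟨hB1, hB2, hB3⟩
    refine ⟨fun u v => ?_, fun v => ?_, fun v => ?_⟩
    · simp only [Matrix.add_apply, hA1 u v, hB1 u v]
    · simp only [Matrix.add_apply, hA2 v, hB2 v, add_zero]
    · simp only [Matrix.add_apply, Finset.sum_add_distrib, hA3 v, hB3 v, add_zero]
  zero_mem' := by
    refine ⟨fun u v => rfl, fun v => rfl, fun v => ?_⟩
    simp
  smul_mem' := by
    rintro c A ⟨hA1, hA2, hA3⟩
    refine ⟨fun u v => ?_, fun v => ?_, fun v => ?_⟩
    · simp only [Matrix.smul_apply, hA1 u v]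
    · simp only [Matrix.smul_apply, hA2 v, smul_zero]
    · simp only [Matrix.smul_apply, ← Finset.smul_sum, hA3 v, smul_zero]

variable {V : Type*} [Fintype V]

/-- adjacency entry -/
def adj (G : EG V) (u v : V) : ZMod 2 := (G : Matrix V V (ZMod 2)) u v

theorem adj_comm (G : EG V) (u v : V) : adj G u v = adj G v u := G.2.1 u v
@[simp] theorem adj_self (G : EG V) (v : V) : adj G v v = 0 := G.2.2.1 v
theorem sum_adj (G : EG V) (v : V) : ∑ u, adj G v u = 0 := G.2.2.2 v
@[simp] theorem add_adj (G H : EG V) (u v : V) : adj (G + H) u v = adj G u v + adj H u v := rfl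
@[simp] theorem zero_adj (u v : V) : adj (0 : EG V) u v = 0 := rfl
theorem EG_ext {G H : EG V} (h : ∀ u v, adj G u v = adj H u v) : G = H :=
  Subtype.ext (Matrix.ext h)

theorem zmod2_add_self (a : ZMod 2) : a + a = 0 := CharTwo.add_self_eq_zero a

theorem EG_add_self (G : EG V) : G + G = 0 := EG_ext fun u v => by
  simp [zmod2_add_self]

variable [DecidableEq V]

/-- neighbours of `s` -/
def nb (G : EG V) (s : V) : Finset V := univ.filter (fun u => adj G s u = 1)

/-- non-isolated vertices -/
def supp (G : EG V) : Finset V := univ.filter (fun v => ∃ u, adj G v u = 1)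

/-- push-forward of a graph along a map of the vertex set, modulo 2, loops deleted. -/
def pmat (f : V → V) (A : Matrix V V (ZMod 2)) : Matrix V V (ZMod 2) := fun x y =>
  if x = y then 0 else ∑ a, ∑ b, if f a = x ∧ f b = y then A a b else 0

theorem symm_sum_zero (A : Matrix V V (ZMod 2)) (hA : A ∈ EG V) (P : V → Prop)
    [DecidablePred P] : ∑ a, ∑ b, (if P a ∧ P b then A a b else 0) = 0 := by
  obtain ⟨h1, h2, h3⟩ := hA
  have h : ∀ s : Finset V, ∑ a ∈ s, ∑ b ∈ s, A a b = 0 := by
    intro s
    induction s using Finset.induction_on with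
    | empty => simp
    | insert x s hx ih =>
      rw [Finset.sum_insert hx]
      simp only [Finset.sum_insert hx, Finset.sum_add_distrib, ih, h2, zero_add, add_zero]
      have : ∑ a ∈ s, A a x = ∑ a ∈ s, A x a := Finset.sum_congr rfl fun a _ => h1 a x
      rw [this, zmod2_add_self]
  have h' := h (univ.filter P)
  have e : ∑ a, ∑ b, (if P a ∧ P b then A a b else 0)
      = ∑ a ∈ univ.filter P, ∑ b ∈ univ.filter P, A a b := by
    rw [Finset.sum_filter]
    refine Finset.sum_congr rfl fun a _ => ?_
    by_cases ha : P a
    · simp [ha, Finset.sum_filter]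
    · simp [ha]
  rw [e, h']

theorem pmat_mem (f : V → V) (A : Matrix V V (ZMod 2)) (hA : A ∈ EG V) : pmat f A ∈ EG V := by
  have hA' := hA
  obtain ⟨h1, h2, h3⟩ := hA
  refine ⟨fun x y => ?_, fun x => ?_, fun x => ?_⟩
  · by_cases hxy : x = y
    · subst hxy; rfl
    · have hyx : ¬ y = x := fun h => hxy h.symm
      simp only [pmat, if_neg hxy, if_neg hyx]
      rw [Finset.sum_comm]
      refine Finset.sum_congr rfl fun a _ => Finset.sum_congr rfl fun b _ => ?_
      rw [h1 b a]
      by_cases hc : f a = y ∧ f b = x
      · rw [if_pos hc, if_pos hc.symm]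
      · rw [if_neg hc, if_neg (fun h => hc h.symm)]
  · simp [pmat]
  · -- add the diagonal term, which is zero
    have hdiag := symm_sum_zero A hA' (fun a => f a = x)
    have key : ∑ y, pmat f A x y
        = ∑ y, ∑ a, ∑ b, (if f a = x ∧ f b = y then A a b else 0)
          + ∑ a, ∑ b, (if f a = x ∧ f b = x then A a b else 0) := by
      rw [← Finset.add_sum_erase _ _ (Finset.mem_univ x),
        ← Finset.add_sum_erase (a := x) (s := univ)
          (f := fun y => ∑ a, ∑ b, (if f a = x ∧ f b = y then A a b else 0)) (Finset.mem_univ x)]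
      have e1 : pmat f A x x = 0 := by simp [pmat]
      have e2 : ∑ y ∈ univ.erase x, pmat f A x y
          = ∑ y ∈ univ.erase x, ∑ a, ∑ b, (if f a = x ∧ f b = y then A a b else 0) := by
        refine Finset.sum_congr rfl fun y hy => ?_
        have : ¬ x = y := fun h => (Finset.ne_of_mem_erase hy) h.symm
        simp only [pmat, if_neg this]
      rw [e1, e2, zero_add, hdiag]
      simp
    rw [key, hdiag, add_zero, Finset.sum_comm]
    have : ∀ a, ∑ y, ∑ b, (if f a = x ∧ f b = y then A a b else 0) = 0 := by
      intro a
      rw [Finset.sum_comm]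
      by_cases ha : f a = x
      · simp [ha, h3]
      · simp [ha]
    exact Finset.sum_eq_zero fun a _ => this a

/-- push-forward of Eulerian graphs along a map of vertices -/
def push (f : V → V) : EG V →ₗ[ZMod 2] EG V where
  toFun G := ⟨pmat f G, pmat_mem f G G.2⟩
  map_add' G H := by
    apply Subtype.ext; ext x y
    simp only [pmat, Submodule.coe_add, Matrix.add_apply]
    by_cases hxy : x = y
    · simp [hxy]
    · simp only [if_neg hxy, ← Finset.sum_add_distrib]
      refine Finset.sum_congr rfl fun a _ => Finset.sum_congr rfl fun b _ => ?_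
      split_ifs <;> simp
  map_smul' c G := by
    apply Subtype.ext; ext x y
    simp only [pmat, Submodule.coe_smul, Matrix.smul_apply, RingHom.id_apply]
    by_cases hxy : x = y
    · simp [hxy]
    · simp only [if_neg hxy, Finset.smul_sum]
      refine Finset.sum_congr rfl fun a _ => Finset.sum_congr rfl fun b _ => ?_
      split_ifs <;> simp

theorem push_adj (f : V → V) (G : EG V) (x y : V) :
    adj (push f G) x y
      = if x = y then 0 else ∑ a, ∑ b, if f a = x ∧ f b = y then adj G a b else 0 := rfl

/-- contraction `v → u`: all edges at `v` are moved to `u` modulo 2, loops are deleted;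
`v` becomes isolated (if `v ≠ u`). -/
def contr (v u : V) : EG V →ₗ[ZMod 2] EG V := push (Function.update id v u)

theorem sum_update_fiber {M : Type*} [AddCommMonoid M] {v u : V} (h : v ≠ u) (x : V) (F : V → M) :
    ∑ a, (if Function.update id v u a = x then F a else 0)
      = if x = v then 0 else F x + (if x = u then F v else 0) := by
  rw [← Finset.add_sum_erase _ _ (Finset.mem_univ v)]
  have e1 : ∑ a ∈ univ.erase v, (if Function.update id v u a = x then F a else 0)
      = ∑ a ∈ univ.erase v, (if a = x then F a else 0) := by
    refine Finset.sum_congr rfl fun a ha => ?_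
    rw [Function.update_of_ne (Finset.ne_of_mem_erase ha)]
    rfl
  rw [e1, Function.update_self, Finset.sum_ite_eq']
  by_cases hx : x = v
  · subst hx
    simp [h.symm]
  · by_cases hxu : x = u
    · subst hxu
      simp [h.symm, add_comm]
    · simp [hx, hxu, Ne.symm hxu]

/-- explicit formula for the contraction -/
theorem contr_adj {v u : V} (h : v ≠ u) (G : EG V) (x y : V) :
    adj (contr v u G) x y = if x = y ∨ x = v ∨ y = v then 0
      else adj G x y + (if x = u then adj G v y else 0) + (if y = u then adj G x v else 0) := by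
  unfold contr
  rw [push_adj]
  by_cases hxy : x = y
  · simp [hxy]
  · have e : ∀ a, ∑ b, (if Function.update id v u a = x ∧ Function.update id v u b = y
          then adj G a b else 0)
        = if Function.update id v u a = x then
            (if y = v then 0 else adj G a y + (if y = u then adj G a v else 0)) else 0 := by
      intro a
      by_cases ha : Function.update id v u a = x
      · simp only [ha, true_and, if_true]
        exact sum_update_fiber h y (fun b => adj G a b)
      · simp [ha]
    simp only [if_neg hxy, e]
    rw [sum_update_fiber h x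
      (fun a => if y = v then 0 else adj G a y + (if y = u then adj G a v else 0))]
    by_cases hxv : x = v
    · simp [hxv]
    · by_cases hyv : y = v
      · simp [hyv]
      · by_cases hxu : x = u
        · have hyu : ¬ y = u := fun h' => hxy (hxu.trans h'.symm)
          simp [hyv, hxu, hyu, h.symm]
          intro h'
          exact absurd h'.symm hyu
        · simp [hxy, hxv, hyv, hxu]

/-- functoriality of the push-forward -/
theorem push_push (f g : V → V) (G : EG V) : push g (push f G) = push (g ∘ f) G := by
  apply EG_ext
  intro x y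
  simp only [push_adj, Function.comp]
  by_cases hxy : x = y
  · simp [hxy]
  · simp only [if_neg hxy]
    have e1 : ∀ a b : V, (if g a = x ∧ g b = y then
          (if a = b then (0 : ZMod 2) else ∑ c, ∑ d, if f c = a ∧ f d = b then adj G c d else 0)
          else 0)
        = ∑ c, ∑ d, if (f c = a ∧ f d = b) ∧ (g a = x ∧ g b = y) then adj G c d else 0 := by
      intro a b
      by_cases hab : g a = x ∧ g b = y
      · have : ¬ a = b := fun h => hxy (by rw [← hab.1, ← hab.2, h])
        simp only [hab, this, and_self, and_true, if_true, if_false]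
      · simp [hab]
    simp only [e1]
    calc ∑ a, ∑ b, ∑ c, ∑ d,
          (if (f c = a ∧ f d = b) ∧ (g a = x ∧ g b = y) then adj G c d else 0)
        = ∑ a, ∑ c, ∑ b, ∑ d,
          (if (f c = a ∧ f d = b) ∧ (g a = x ∧ g b = y) then adj G c d else 0) :=
          Finset.sum_congr rfl fun a _ => Finset.sum_comm
      _ = ∑ c, ∑ a, ∑ b, ∑ d,
          (if (f c = a ∧ f d = b) ∧ (g a = x ∧ g b = y) then adj G c d else 0) :=
          Finset.sum_comm
      _ = ∑ c, ∑ a, ∑ d, ∑ b,
          (if (f c = a ∧ f d = b) ∧ (g a = x ∧ g b = y) then adj G c d else 0) :=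
          Finset.sum_congr rfl fun c _ => Finset.sum_congr rfl fun a _ => Finset.sum_comm
      _ = ∑ c, ∑ d, ∑ a, ∑ b,
          (if (f c = a ∧ f d = b) ∧ (g a = x ∧ g b = y) then adj G c d else 0) :=
          Finset.sum_congr rfl fun c _ => Finset.sum_comm
      _ = ∑ c, ∑ d, if g (f c) = x ∧ g (f d) = y then adj G c d else 0 := by
          refine Finset.sum_congr rfl fun c _ => Finset.sum_congr rfl fun d _ => ?_
          rw [Finset.sum_eq_single (f c), Finset.sum_eq_single (f d)]
          · simp
          · intro b _ hb; rw [if_neg]; rintro ⟨⟨_, h⟩, _⟩; exact hb h.symm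
          · simp
          · intro a _ ha
            refine Finset.sum_eq_zero fun b _ => ?_
            rw [if_neg]; rintro ⟨⟨h, _⟩, _⟩; exact ha h.symm
          · simp

/-- contractions commute -/
theorem contr_comm {v u p q : V} (hpv : p ≠ v) (hpu : p ≠ u) (hqv : q ≠ v) (G : EG V) :
    contr p q (contr v u G) = contr v u (contr p q G) := by
  unfold contr
  rw [push_push, push_push]
  refine congrArg (fun h => push h G) ?_
  funext x
  simp only [Function.comp]
  by_cases hxv : x = v
  · subst hxv
    rw [Function.update_self, Function.update_of_ne hpu.symm, Function.update_of_ne hpv.symm]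
    simp
  · by_cases hxp : x = p
    · subst hxp
      rw [Function.update_of_ne hpv, Function.update_self]
      simp [Function.update_of_ne hqv]
    · rw [Function.update_of_ne hxv, Function.update_of_ne hxp]
      simp [Function.update_of_ne hxv, Function.update_of_ne hxp]

/-- `Feas G Y`: there is a linear order of `V` (given by an injective rank function) such that
every vertex of `Y` has an odd number of neighbours before it. -/
def Feas (G : EG V) (Y : Finset V) : Prop :=
  ∃ r : V → ℕ, Function.Injective r ∧
    ∀ y ∈ Y, ∑ u ∈ univ.filter (fun u => r u < r y), adj G y u = 1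

open Classical in
/-- `tau G`: the largest number of vertices with odd back-degree in a linear order. -/
noncomputable def tau (G : EG V) : ℕ :=
  (univ.powerset.filter (fun Y : Finset V => Feas G Y)).sup Finset.card

/-- `S` is independent in the matroid `M*(G)` -/
def Indep (G : EG V) (S : Finset V) : Prop :=
  ∃ Y : Finset V, Disjoint Y S ∧ Y.card = tau G ∧ Feas G Y

/-- the edge `vu` is good, i.e. contracting it loses exactly one -/
def Good (G : EG V) (v u : V) : Prop := adj G v u = 1 ∧ tau (contr v u G) + 1 = tau G

/-- `J` is a tight part of `G` -/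
def Tight (G J : EG V) : Prop := tau (G + J) + tau J = tau G

/-- irreducible graphs -/
def Irr (J : EG V) : Prop := J ≠ 0 ∧ ∀ H, Tight J H → H = 0 ∨ H = J

/-- adjacency matrix of the clique on `D` -/
def kmat (D : Finset V) : Matrix V V (ZMod 2) := fun a b =>
  if a ∈ D ∧ b ∈ D ∧ a ≠ b then 1 else 0

theorem kmat_mem (D : Finset V) (hD : Odd D.card) : kmat D ∈ EG V := by
  refine ⟨fun a b => ?_, fun a => ?_, fun a => ?_⟩
  · simp only [kmat]
    congr 1
    apply propext
    constructor
    · rintro ⟨h1, h2, h3⟩; exact ⟨h2, h1, h3.symm⟩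
    · rintro ⟨h1, h2, h3⟩; exact ⟨h2, h1, h3.symm⟩
  · simp [kmat]
  · by_cases ha : a ∈ D
    · have : ∀ b, kmat D a b = if b ∈ D.erase a then 1 else 0 := by
        intro b
        simp only [kmat, Finset.mem_erase]
        congr 1
        apply propext
        constructor
        · rintro ⟨_, h2, h3⟩; exact ⟨h3.symm, h2⟩
        · rintro ⟨h3, h2⟩; exact ⟨ha, h2, h3.symm⟩
      simp only [this, Finset.sum_ite_mem, Finset.univ_inter, Finset.sum_const, nsmul_eq_mul,
        mul_one, Finset.card_erase_of_mem ha]
      obtain ⟨k, hk⟩ := hD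
      rw [hk]
      simp only [Nat.add_sub_cancel, Nat.cast_mul, Nat.cast_ofNat]
      have : (2 : ZMod 2) = 0 := by decide
      rw [this, zero_mul]
    · simp [kmat, ha]

/-- the clique on `D` (`0` if `D` has an even number of elements) -/
def kd (D : Finset V) : EG V :=
  if h : Odd D.card then ⟨kmat D, kmat_mem D h⟩ else 0

/-! ### The Cauchy Laplacian -/

variable {K : Type*} [Field K] [Algebra (ZMod 2) K]

/-- coercion of bits into `K` -/
def bit (a : ZMod 2) : K := algebraMap (ZMod 2) K a

/-- the Laplacian with weights `1/(z_a+z_b)` -/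
def Lm (G : EG V) (z : V → K) : Matrix V V K := fun a b =>
  if a = b then ∑ c, (bit (adj G a c) : K) / (z a + z c)
  else (bit (adj G a b) : K) / (z a + z b)

/-- `H ∈ S(G)`: the kernel of the Laplacian of `G` is contained in that of `H` -/
def Kills (z : V → K) (G H : EG V) : Prop := ∀ f : V → K, Lm G z *ᵥ f = 0 → Lm H z *ᵥ f = 0

end Pool.Agent.AOP
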