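import Pool.Agent.Lib.MP_7f2998_co.FinalDefs
import Pool.Agent.Lib.PolyTime.More
import Pool.Prelude.Def_H_3587d628

/-!
# MP_7f2998_co : the decision problem as a set of bit strings
-/

namespace Pool.Agent.AOP

open Pool.Agent.PolyTime

/-- An instance `(G, T)`: the vertices are `0, …, n - 1`, `edges` is the list of the edges
(pairs of different vertices, parallel edges are allowed), `T` is the list of the elements
of `T`. -/
structure Inst where
  /-- number of vertices -/
  n : ℕ
  /-- list of edges -/
  edges : List (ℕ × ℕ)
  /-- list of the elements of `T` -/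
  T : List ℕ
  /-- edges join different vertices -/
  edges_ok : ∀ e ∈ edges, e.1 < n ∧ e.2 < n ∧ e.1 ≠ e.2
  /-- `T` is a set of vertices -/
  T_ok : ∀ v ∈ T, v < n

namespace Inst

/-- the multigraph of an instance -/
def graph (I : Inst) : MGraph (Fin I.n) (Fin I.edges.length) where
  src e := ⟨(I.edges.get e).1, (I.edges_ok _ (List.get_mem _ _)).1⟩
  tgt e := ⟨(I.edges.get e).2, (I.edges_ok _ (List.get_mem _ _)).2.1⟩
  loopless e h := (I.edges_ok _ (List.get_mem _ e)).2.2 (congrArg Fin.val h)

/-- the set `T` of an instance -/
def tset (I : Inst) : Finset (Fin I.n) := Finset.univ.filter fun v => (v : ℕ) ∈ I.T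

/-- `G` has an acyclic `T`-odd orientation. -/
def Yes (I : Inst) : Prop :=
  ∃ D : Fin I.edges.length → Bool, I.graph.Acyclic D ∧ I.graph.TOdd D I.tset

end Inst

/-- An instance is represented by the triple of its components (numbers in unary). -/
instance : Rep Inst := ⟨fun I => toT (I.n, I.edges, I.T)⟩

open Classical in
/-- The decision problem as a problem on bit strings: `x` is the code of an instance `(G, T)`
such that `G` has an acyclic `T`-odd orientation. -/
noncomputable def ATOdd : N68a2faeb.DecisionProblem :=
  fun x => decide (∃ I : Inst, encode I = x ∧ I.Yes)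

end Pool.Agent.AOP
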